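import Pool.Agent.RSL.Targets

/-!
# ACT: the optional leaves of the exact pieces
-/

set_option autoImplicit false

open Finset

namespace Pool.Agent.RSL

open Pool.Agent.RST

namespace ACT_

/-- the parent map is onto between classes -/
theorem surj {par : ℕ → ℕ} {E Q : Finset ℕ} {κ : ℕ → ℕ}
    (hup : ∀ x ∈ E, x ∉ Q → par x < x ∧ par x ∈ E) (hc : Col par E Q κ) {x : ℕ} (hx : x ∈ E)
    (hxQ : x ∉ Q) {y : ℕ} (hy : y ∈ E) (hxy : κ y = κ (par x)) :
    ∃ x' ∈ E, κ x' = κ x ∧ par x' = y := by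
  have h1 : (E.filter (fun z => κ z = κ x)).image par ⊆ E.filter (fun z => κ z = κ (par x)) := by
    intro z hz
    obtain ⟨u, hu, rfl⟩ := Finset.mem_image.1 hz
    obtain ⟨huE, hux⟩ := Finset.mem_filter.1 hu
    have huQ : u ∉ Q := fun h => hxQ ((hc.root u huE x hx hux).1 h)
    exact Finset.mem_filter.2 ⟨(hup u huE huQ).2, hc.pcol u huE x hx huQ hux⟩
  have h2 : Set.InjOn par (E.filter (fun z => κ z = κ x) : Finset ℕ) := by
    intro u hu v hv huv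
    obtain ⟨huE, hux⟩ := Finset.mem_filter.1 (Finset.mem_coe.1 hu)
    obtain ⟨hvE, hvx⟩ := Finset.mem_filter.1 (Finset.mem_coe.1 hv)
    have huQ : u ∉ Q := fun h => hxQ ((hc.root u huE x hx hux).1 h)
    exact hc.pinj u huE v hvE huQ (hux.trans hvx.symm) huv
  have h3 : (E.filter (fun z => κ z = κ x)).image par = E.filter (fun z => κ z = κ (par x)) := by
    apply Finset.eq_of_subset_of_card_le h1
    rw [Finset.card_image_of_injOn h2, hc.pcard x hx hxQ]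
  have h4 : y ∈ (E.filter (fun z => κ z = κ x)).image par := by
    rw [h3]
    exact Finset.mem_filter.2 ⟨hy, hxy⟩
  obtain ⟨u, hu, huy⟩ := Finset.mem_image.1 h4
  obtain ⟨huE, hux⟩ := Finset.mem_filter.1 hu
  exact ⟨u, huE, hux, huy⟩

end ACT_

theorem pACT : T_ACT := by
  intro n Δ par E Q κ hBD hEn hup hc hlf
  classical
  -- the leaves
  set LF : Finset ℕ := (E \ Q).filter (fun x => chd n par x = ∅) with hLF
  have hLFm : ∀ x, x ∈ LF ↔ (x ∈ E ∧ x ∉ Q) ∧ chd n par x = ∅ := by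
    intro x
    rw [hLF, Finset.mem_filter, Finset.mem_sdiff]
  -- the chosen colour
  obtain ⟨s, hs⟩ : ∃ s : ℕ → ℕ, ∀ c, (∃ z ∈ LF, κ (par z) = c) →
      ∃ z ∈ LF, κ (par z) = c ∧ s c = κ z := by
    refine ⟨fun c => if h : ∃ z ∈ LF, κ (par z) = c then κ h.choose else 0, fun c h => ?_⟩
    refine ⟨h.choose, h.choose_spec.1, h.choose_spec.2, ?_⟩
    simp only [h, dif_pos]
  set M : Finset ℕ := E.filter (fun x => x ∉ Q ∧ (∃ z ∈ LF, κ (par z) = κ (par x)) ∧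
    κ x = s (κ (par x))) with hM
  have hMm : ∀ x, x ∈ M ↔ x ∈ E ∧ x ∉ Q ∧ (∃ z ∈ LF, κ (par z) = κ (par x)) ∧
      κ x = s (κ (par x)) := by
    intro x
    rw [hM, Finset.mem_filter]
  have h3 : ∀ x ∈ M, ∀ y ∈ E, κ y = κ x → y ∈ M := by
    intro x hx y hy hyx
    obtain ⟨hxE, hxQ, hz, hsx⟩ := (hMm x).1 hx
    have hyQ : y ∉ Q := fun h => hxQ ((hc.root y hy x hxE hyx).1 h)
    have hp : κ (par y) = κ (par x) := hc.pcol y hy x hxE hyQ hyx
    refine (hMm y).2 ⟨hy, hyQ, ?_, ?_⟩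
    · rw [hp]; exact hz
    · rw [hp, hyx]; exact hsx
  refine ⟨M, fun x hx => ⟨((hMm x).1 hx).1, ((hMm x).1 hx).2.1⟩, ?_, h3, ?_, ?_, ?_⟩
  · intro x hx
    obtain ⟨hxE, hxQ, hz, hsx⟩ := (hMm x).1 hx
    obtain ⟨z, hzL, hzp, hzs⟩ := hs _ hz
    have hzm := (hLFm z).1 hzL
    exact (hlf x hxE z hzm.1.1 (hsx.trans hzs)).2 hzm.2
  · intro x hx y hy hxy
    obtain ⟨hxE, hxQ, hz, hsx⟩ := (hMm x).1 (Finset.mem_coe.1 hx)
    obtain ⟨hyE, hyQ, hz', hsy⟩ := (hMm y).1 (Finset.mem_coe.1 hy)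
    exact hc.pinj x hxE y hyE hxQ (by rw [hsx, hsy, hxy]) hxy
  · intro x hx y hy hyx
    obtain ⟨hxE, hxQ, hz, hsx⟩ := (hMm x).1 hx
    obtain ⟨x', hx'E, hx'κ, hx'p⟩ := ACT_.surj hup hc hxE hxQ hy hyx
    exact ⟨x', h3 x hx x' hx'E hx'κ, hx'p⟩
  · have h5 : LF.card ≤ Δ * (M.image par).card := by
      apply Finset.card_le_mul_card_image_of_maps_to (f := par)
      · intro x hx
        have hxm := (hLFm x).1 hx
        obtain ⟨z, hzL, hzp, hzs⟩ := hs (κ (par x)) ⟨x, hx, rfl⟩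
        have hzm := (hLFm z).1 hzL
        obtain ⟨x', hx'E, hx'κ, hx'p⟩ := ACT_.surj hup hc hzm.1.1 hzm.1.2
          (hup x hxm.1.1 hxm.1.2).2 hzp.symm
        refine Finset.mem_image.2 ⟨x', (hMm x').2 ⟨hx'E, ?_, ?_, ?_⟩, hx'p⟩
        · exact fun h => hzm.1.2 ((hc.root x' hx'E z hzm.1.1 hx'κ).1 h)
        · rw [hx'p]; exact ⟨x, hx, rfl⟩
        · rw [hx'p, hx'κ, hzs]
      · intro y _
        refine le_trans (Finset.card_le_card ?_) (hBD y)
        intro x hx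
        obtain ⟨hxL, hxy⟩ := Finset.mem_filter.1 hx
        have hxm := (hLFm x).1 hxL
        unfold chd
        rw [Finset.mem_filter]
        exact ⟨hEn hxm.1.1, lt_of_le_of_lt (Nat.zero_le _) (hup x hxm.1.1 hxm.1.2).1, hxy⟩
    exact le_trans h5 (Nat.mul_le_mul_left _ Finset.card_image_le)

end Pool.Agent.RSL
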