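import Pool.Agent.RSL.Targets

/-!
# BUDL: the budget
-/

set_option autoImplicit false

open Finset

namespace Pool.Agent.RSL

open Pool.Agent.RST

namespace BUDL_

/-- the times are monotone -/
lemma t_mono {n : ℕ} {par : ℕ → ℕ} {k₀ m b I : ℕ} {E Q M : Finset ℕ} {κ : ℕ → ℕ}
    {S : ℕ → Finset ℕ} {lf t : ℕ → ℕ} (h : TS n par k₀ m b I E Q M κ S lf t) :
    ∀ i, 1 ≤ i → i ≤ I → t 1 ≤ t i := by
  intro i h1
  induction i, h1 using Nat.le_induction with
  | base => exact fun _ => le_rfl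
  | succ i hi ih =>
    intro h2
    exact (ih (by omega)).trans (h.tm i hi (by omega)).1

open Classical in
lemma pc_sub {par : ℕ → ℕ} {E Q : Finset ℕ} {q x : ℕ} (h : x ∈ pc par E Q q) : x ∈ E := by
  unfold pc at h
  exact (mem_filter.1 h).1

end BUDL_

open BUDL_ in
theorem pBUDL (h : T_PIEC) : T_BUDL := by
  intro V _ H W g d m b n par Δ v₀ k₀ I E Q M κ S lf t Vc Sl φ B hVT hTS hGS hm hB c hc K hK Su ρ
    hSu hρ hdis hDJ
  obtain ⟨P1, -, P3, -, -, -, P7, P8, -⟩ :=
    h par E Q κ k₀ hTS.dcp.QE hTS.dcp.up hTS.col hTS.kap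
  have hQE := hTS.dcp.QE
  have hA : c.A = Q ∪ (Icc 1 I).biUnion S := by rw [hc]; rfl
  have hPQ : ∀ a ∈ Q, c.P a = pc par E Q a := by
    intro a ha
    rw [hc]
    simp [mk, ha]
  have hPS : ∀ a, a ∉ Q → c.P a = {a, lf a} := by
    intro a ha
    rw [hc]
    simp [mk, ha]
  have hgQ : ∀ a ∈ Q, c.gr a = κ a := by
    intro a ha
    rw [hc]
    simp [mk, ha]
  have hgS : ∀ a, a ∉ Q → a ∈ c.A → ∃ i, 1 ≤ i ∧ i ≤ I ∧ a ∈ S i ∧ c.gr a = k₀ + i := by
    intro a ha haA
    have h1 : ∃ i, 1 ≤ i ∧ i ≤ I ∧ a ∈ S i := by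
      rw [hA, mem_union, mem_biUnion] at haA
      rcases haA with h2 | ⟨i, h2, h3⟩
      · exact absurd h2 ha
      · rw [mem_Icc] at h2
        exact ⟨i, h2.1, h2.2, h3⟩
    refine ⟨h1.choose, h1.choose_spec.1, h1.choose_spec.2.1, h1.choose_spec.2.2, ?_⟩
    rw [hc]
    simp only [mk]
    rw [if_neg ha, dif_pos h1]
  have hjj : ∀ s, c.jj s = s - k₀ := by
    intro s
    rw [hc]
    rfl
  have hR1 : ∀ s, s < k₀ → c.R s = Vc s := by
    intro s hs
    rw [hc]
    simp [mk, hs]
  have hR2 : ∀ s, ¬ s < k₀ → c.R s = ZZ par M κ Vc := by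
    intro s hs
    rw [hc]
    simp only [mk]
    rw [if_neg hs]
  have hSl1 : ∀ s, s < k₀ → ∀ r, c.Sl s r = Sl s r := by
    intro s hs r
    rw [hc]
    simp [mk, hs]
  have hSl2 : ∀ s, ¬ s < k₀ → ∀ r, c.Sl s r = {r} := by
    intro s hs r
    rw [hc]
    simp only [mk]
    rw [if_neg hs]
  have hpar : c.par = par := by rw [hc]; rfl
  have hcb : c.b = b := by rw [hc]; rfl
  have hcm : c.m = m := by rw [hc]; rfl
  have hκ : ∀ a ∈ Q, κ a < k₀ := fun a ha => hTS.kap a (hQE ha)
  have hfsQ : ∀ a ∈ Q, c.fs a = par a := by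
    intro a ha
    have h1 : c.D a = 2 := by
      unfold Cx.D
      rw [hjj, hgQ a ha, Nat.sub_eq_zero_of_le (hκ a ha).le]
    unfold Cx.fs
    rw [h1, hpar]
    rfl
  have hfsS : ∀ a, a ∉ Q → a ∈ c.A → t 1 ≤ c.fs a := by
    intro a ha haA
    obtain ⟨i, h1, h2, h3, h4⟩ := hgS a ha haA
    have h5 : c.D a = 2 * i + 2 := by
      unfold Cx.D
      rw [hjj, h4]
      omega
    unfold Cx.fs
    rw [h5, hpar]
    exact (t_mono hTS i h1 h2).trans ((hTS.Sr i h1 h2 a h3).2 _ (by omega))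
  -- attempts of a group of pieces
  have hgr : ∀ k < k₀, ∀ a ∈ c.A, c.gr a = k → a ∈ Q ∧ κ a = k := by
    intro k hk a haA hak
    by_cases haQ : a ∈ Q
    · exact ⟨haQ, by rw [← hgQ a haQ, hak]⟩
    · obtain ⟨i, -, -, -, h4⟩ := hgS a haQ haA
      omega
  -- the main claim
  have key : ∀ k < k₀, (c.Fa k Su K).card ≤ m := by
    intro k hk
    by_cases hex : ∃ q ∈ Q, κ q = k
    swap
    · have h0 : c.Fa k Su K = ∅ := by
        rw [Finset.eq_empty_iff_forall_notMem]
        intro a ha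
        rw [Cx.Fa, mem_filter] at ha
        obtain ⟨haA, hak, -, -⟩ := ha
        obtain ⟨h1, h2⟩ := hgr k hk a haA hak
        exact hex ⟨a, h1, h2⟩
      rw [h0]
      simp
    obtain ⟨q, hq, hqk⟩ := hex
    have hqM : q ∉ M := fun hqM => (hTS.MS q hqM).2 hq
    -- the number of slots
    have hVc : (Vc k).card = (Q.filter (fun y => κ y = k)).card := by
      have h1 := hGS.card q (mem_sdiff.2 ⟨hQE hq, hqM⟩)
      rw [hqk] at h1
      rw [h1]
      congr 1
      ext y
      simp only [mem_filter, mem_sdiff]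
      constructor
      · rintro ⟨⟨h2, h3⟩, h4⟩
        exact ⟨(hTS.col.root y h2 q (hQE hq) (by rw [h4, hqk])).2 hq, h4⟩
      · rintro ⟨h2, h3⟩
        exact ⟨⟨hQE h2, fun h4 => (hTS.MS y h4).2 h2⟩, h3⟩
    -- the time
    obtain ⟨K', hK'K, hFa, hact⟩ : ∃ K' ≤ K, c.Fa k Su K = c.Fa k Su K' ∧
        ∀ a ∈ c.A, a ∉ Q → c.fs a < K' → ∀ x ∈ pc par E Q q, x ∉ M := by
      by_cases hac : ∃ x ∈ pc par E Q q, x ∈ M
      · obtain ⟨x, hx, hxM⟩ := hac
        refine ⟨min K (t 1), min_le_left _ _, ?_, ?_⟩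
        · ext a
          simp only [Cx.Fa, mem_filter]
          constructor
          · rintro ⟨h1, h2, h3, h4⟩
            refine ⟨h1, h2, lt_min h3 ?_, h4⟩
            obtain ⟨h5, h6⟩ := hgr k hk a h1 h2
            rw [hfsQ a h5]
            have h7 : κ x ∈ (pc par E Q a).image κ := by
              rw [P8 a h5 q hq (by rw [h6, hqk])]
              exact mem_image_of_mem _ hx
            obtain ⟨x', hx', hxx⟩ := mem_image.1 h7
            have h8 : x' ∈ E := pc_sub hx'
            exact hTS.Mt a h5 x' hx' (hTS.Mc x hxM x' h8 hxx)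
          · rintro ⟨h1, h2, h3, h4⟩
            exact ⟨h1, h2, lt_of_lt_of_le h3 (min_le_left _ _), h4⟩
        · intro a ha haQ hlt
          exfalso
          have h1 := hfsS a haQ ha
          have h2 := lt_of_lt_of_le hlt (min_le_right K (t 1))
          omega
      · exact ⟨K, le_rfl, rfl, fun a _ _ _ x hx hxM => hac ⟨x, hx, hxM⟩⟩
    -- the hit slots
    have hcov : Vc k ⊆ c.Po k Su ρ K' ∪
        (Su.filter (fun a => a ∈ Q ∧ κ a = k)).image ρ := by
      intro r hr
      by_contra hcon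
      rw [mem_union, not_or] at hcon
      obtain ⟨h1, h2⟩ := hcon
      apply h1
      rw [Cx.Po, mem_filter, hR1 k hk]
      refine ⟨hr, ?_⟩
      rw [hSl1 k hk, Cx.Oc, Finset.disjoint_biUnion_right]
      intro a ha
      rw [mem_filter] at ha
      obtain ⟨haSu, hafs⟩ := ha
      have haA := (hSu a haSu).1
      by_cases haQ : a ∈ Q
      · have h3 : ρ a ∈ Vc (κ a) := by
          have := hρ a haSu
          rwa [hgQ a haQ, hR1 _ (hκ a haQ)] at this
        rw [hgQ a haQ, hSl1 _ (hκ a haQ), ← hqk]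
        refine hGS.sdis q hq a haQ r (by rw [hqk]; exact hr) (ρ a) h3 ?_
        intro he
        rw [Prod.mk.injEq] at he
        exact h2 (mem_image.2 ⟨a, mem_filter.2 ⟨haSu, haQ, by rw [← he.1, hqk]⟩, he.2.symm⟩)
      · obtain ⟨i, -, -, -, hgi⟩ := hgS a haQ haA
        have hnl : ¬ c.gr a < k₀ := by omega
        have h3 : ρ a ∈ ZZ par M κ Vc := by
          have := hρ a haSu
          rwa [hR2 _ hnl] at this
        rw [hSl2 _ hnl, Finset.disjoint_singleton_right]
        intro h4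
        have hno := hact a haA haQ hafs
        rw [← hqk, ← hGS.im q hq r (by rw [hqk]; exact hr), mem_image] at h4
        obtain ⟨x, hx, hxr⟩ := h4
        have h5 := hGS.mem q hq r (by rw [hqk]; exact hr) x hx
        rw [hxr] at h5
        rw [ZZ, mem_biUnion] at h3
        obtain ⟨k', hk', h6⟩ := h3
        rw [ac, mem_image] at hk'
        obtain ⟨x₀, hx₀, hk'⟩ := hk'
        have h7 : κ x = k' := by
          by_contra hne
          exact (Finset.disjoint_left.1 (hGS.dis _ _ hne)) h5 h6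
        have hxp := (mem_sdiff.1 hx).1
        have hxE : x ∈ E := pc_sub hxp
        obtain ⟨x', hx', hpx⟩ := hTS.Ms x₀ hx₀ x hxE (by rw [h7, hk'])
        obtain ⟨h8, h9⟩ := hTS.MS x' hx'
        exact hno x' (P3 q hq x' h8 h9 (by rw [hpx]; exact hxp)) hx'
    have hc1 : (Vc k).card ≤ (c.Po k Su ρ K').card +
        (Su.filter (fun a => a ∈ Q ∧ κ a = k)).card :=
      (card_le_card hcov).trans ((card_union_le _ _).trans (by
        gcongr
        exact card_image_le))
    have hc2 : (c.Fa k Su K').card + (Su.filter (fun a => a ∈ Q ∧ κ a = k)).card ≤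
        (Q.filter (fun y => κ y = k)).card := by
      rw [← card_union_of_disjoint]
      · apply card_le_card
        intro a ha
        rw [mem_union] at ha
        rcases ha with ha | ha
        · rw [Cx.Fa, mem_filter] at ha
          exact mem_filter.2 (hgr k hk a ha.1 ha.2.1)
        · exact mem_filter.2 (mem_filter.1 ha).2
      · rw [Finset.disjoint_left]
        intro a ha ha'
        rw [Cx.Fa, mem_filter] at ha
        exact ha.2.2.2 (mem_filter.1 ha').1
    rw [hFa]
    have h1 := hDJ K' hK'K k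
    rw [hcm, hcb, hjj, Nat.sub_eq_zero_of_le hk.le, pow_zero, mul_one, mul_one] at h1
    omega
  -- the sum
  have hsplit : c.A.filter (fun a => c.fs a < K ∧ a ∉ Su) ⊆
      ((range k₀).biUnion (fun k => c.Fa k Su K)) ∪ ((Icc 1 I).biUnion S).filter (fun a => a ∉ Q) := by
    intro a ha
    rw [mem_filter] at ha
    rw [mem_union]
    by_cases haQ : a ∈ Q
    · left
      rw [mem_biUnion]
      refine ⟨κ a, mem_range.2 (hκ a haQ), ?_⟩
      rw [Cx.Fa, mem_filter]
      exact ⟨ha.1, hgQ a haQ, ha.2.1, ha.2.2⟩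
    · right
      rw [mem_filter]
      refine ⟨?_, haQ⟩
      have h1 := ha.1
      rw [hA, mem_union] at h1
      exact h1.resolve_left haQ
  have hs1 : ∑ a ∈ (range k₀).biUnion (fun k => c.Fa k Su K), (c.P a).card ≤ k₀ * k₀ * m := by
    have h1 : ∀ a ∈ (range k₀).biUnion (fun k => c.Fa k Su K), (c.P a).card ≤ k₀ := by
      intro a ha
      rw [mem_biUnion] at ha
      obtain ⟨k, hk, ha⟩ := ha
      rw [Cx.Fa, mem_filter] at ha
      obtain ⟨h2, h3⟩ := hgr k (mem_range.1 hk) a ha.1 ha.2.1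
      rw [hPQ a h2]
      exact P7 a h2
    have h2 : ((range k₀).biUnion (fun k => c.Fa k Su K)).card ≤ k₀ * m := by
      refine card_biUnion_le.trans ?_
      calc ∑ k ∈ range k₀, (c.Fa k Su K).card ≤ ∑ k ∈ range k₀, m :=
            sum_le_sum fun k hk => key k (mem_range.1 hk)
        _ = k₀ * m := by simp
    calc _ ≤ ((range k₀).biUnion (fun k => c.Fa k Su K)).card * k₀ := by
            rw [← smul_eq_mul]
            exact sum_le_card_nsmul _ _ _ h1
      _ ≤ (k₀ * m) * k₀ := by gcongr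
      _ = k₀ * k₀ * m := by ring
  have hs2 : ∑ a ∈ ((Icc 1 I).biUnion S).filter (fun a => a ∉ Q), (c.P a).card ≤
      2 * ∑ i ∈ Icc 1 I, (S i).card := by
    have h1 : ∀ a ∈ ((Icc 1 I).biUnion S).filter (fun a => a ∉ Q), (c.P a).card ≤ 2 := by
      intro a ha
      rw [mem_filter] at ha
      rw [hPS a ha.2]
      exact card_le_two
    calc _ ≤ (((Icc 1 I).biUnion S).filter (fun a => a ∉ Q)).card * 2 := by
            rw [← smul_eq_mul]
            exact sum_le_card_nsmul _ _ _ h1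
      _ ≤ (∑ i ∈ Icc 1 I, (S i).card) * 2 := by
            gcongr
            exact (card_filter_le _ _).trans card_biUnion_le
      _ = _ := mul_comm _ _
  calc ∑ a ∈ c.A.filter (fun a => c.fs a < K ∧ a ∉ Su), (c.P a).card
      ≤ ∑ a ∈ ((range k₀).biUnion (fun k => c.Fa k Su K)) ∪
          ((Icc 1 I).biUnion S).filter (fun a => a ∉ Q), (c.P a).card :=
        sum_le_sum_of_subset hsplit
    _ ≤ ∑ a ∈ (range k₀).biUnion (fun k => c.Fa k Su K), (c.P a).card +
        ∑ a ∈ ((Icc 1 I).biUnion S).filter (fun a => a ∉ Q), (c.P a).card := by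
        have := sum_union_inter (s₁ := (range k₀).biUnion (fun k => c.Fa k Su K))
          (s₂ := ((Icc 1 I).biUnion S).filter (fun a => a ∉ Q)) (f := fun a => (c.P a).card)
        omega
    _ ≤ k₀ * k₀ * m + 2 * ∑ i ∈ Icc 1 I, (S i).card := add_le_add hs1 hs2
    _ ≤ B := hB

end Pool.Agent.RSL
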