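import Pool.Agent.RSL.Targets

/-!
# CASEL: trees with linearly many leaves, at the optimal density
-/

set_option autoImplicit false

open Finset Filter Topology

namespace Pool.Agent.RSL

open Pool.Agent.RST

namespace CASEL_

/-! ### degrees -/

theorem dg_biUnion {V : Type} [DecidableEq V] (H : SimpleGraph V) (v : V) {ι : Type}
    [DecidableEq ι] (s : Finset ι) (A : ι → Finset V)
    (hd : ∀ i ∈ s, ∀ j ∈ s, i ≠ j → Disjoint (A i) (A j)) :
    dg H v (s.biUnion A) = ∑ i ∈ s, dg H v (A i) := by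
  classical
  unfold dg
  rw [filter_biUnion, card_biUnion]
  intro i hi j hj hij
  exact disjoint_filter_filter (hd i hi j hj hij)

/-! ### the tree part -/

section tree

variable {n k₀ m b I : ℕ} {par : ℕ → ℕ} {E Q M : Finset ℕ} {κ : ℕ → ℕ} {S : ℕ → Finset ℕ}
  {lf t : ℕ → ℕ}

theorem par_notMem (h : TS n par k₀ m b I E Q M κ S lf t) {x : ℕ} (hx : x ∈ E) (hxQ : x ∉ Q) :
    par x ∉ M := by
  intro hm
  have h1 := h.Ml _ hm
  have hup := h.dcp.up x hx hxQ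
  have hxn : x < n := by simpa using h.dcp.EC hx
  have h2 : x ∈ chd n par (par x) := by
    unfold chd
    rw [mem_filter, mem_range]
    exact ⟨hxn, by omega, rfl⟩
  rw [h1] at h2
  simp at h2

theorem class_eq (h : TS n par k₀ m b I E Q M κ S lf t) {x : ℕ} (hx : x ∈ E \ M) :
    (E \ M).filter (fun y => κ y = κ x) = E.filter (fun y => κ y = κ x) := by
  ext y
  simp only [Finset.mem_filter, Finset.mem_sdiff]
  rw [Finset.mem_sdiff] at hx
  constructor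
  · rintro ⟨⟨h1, _⟩, h2⟩
    exact ⟨h1, h2⟩
  · rintro ⟨h1, h2⟩
    exact ⟨⟨h1, fun h3 => hx.2 (h.Mc y h3 x hx.1 h2.symm)⟩, h2⟩

theorem up' (h : TS n par k₀ m b I E Q M κ S lf t) :
    ∀ x ∈ E \ M, x ∉ Q → par x < x ∧ par x ∈ E \ M := by
  intro x hx hxQ
  rw [Finset.mem_sdiff] at hx
  have hup := h.dcp.up x hx.1 hxQ
  exact ⟨hup.1, Finset.mem_sdiff.2 ⟨hup.2, par_notMem h hx.1 hxQ⟩⟩

theorem col' (h : TS n par k₀ m b I E Q M κ S lf t) : Col par (E \ M) Q κ := by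
  have hsub : ∀ x ∈ E \ M, x ∈ E := fun x hx => (Finset.mem_sdiff.1 hx).1
  have hcol := h.col
  refine ⟨fun x hx y hy h => hcol.root x (hsub x hx) y (hsub y hy) h,
    fun x hx y hy hq h => hcol.pcol x (hsub x hx) y (hsub y hy) hq h,
    fun x hx y hy hq h h' => hcol.pinj x (hsub x hx) y (hsub y hy) hq h h', ?_⟩
  intro x hx hxQ
  rw [class_eq h hx, class_eq h (up' h x hx hxQ).2]
  exact hcol.pcard x (hsub x hx) hxQ

theorem card_M (h : TS n par k₀ m b I E Q M κ S lf t) :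
    M.card = ∑ k ∈ ac par M κ, ((E \ M).filter (fun y => κ y = k)).card := by
  have h1 : M.image par = (E \ M).filter (fun y => κ y ∈ ac par M κ) := by
    ext y
    rw [mem_image, mem_filter]
    constructor
    · rintro ⟨x, hx, rfl⟩
      obtain ⟨hxE, hxQ⟩ := h.MS x hx
      refine ⟨Finset.mem_sdiff.2 ⟨(h.dcp.up x hxE hxQ).2, par_notMem h hxE hxQ⟩, ?_⟩
      unfold ac
      exact mem_image_of_mem _ hx
    · rintro ⟨hy, hk⟩
      unfold ac at hk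
      rw [mem_image] at hk
      obtain ⟨x, hx, hxk⟩ := hk
      obtain ⟨x', hx', h'⟩ := h.Ms x hx y (Finset.mem_sdiff.1 hy).1 hxk.symm
      exact ⟨x', hx', h'⟩
  rw [← card_image_of_injOn h.Mi, h1]
  have h2 : ((E \ M).filter (fun y => κ y ∈ ac par M κ)).card =
      ∑ k ∈ ac par M κ, (((E \ M).filter (fun y => κ y ∈ ac par M κ)).filter
        (fun y => κ y = k)).card := by
    apply card_eq_sum_card_fiberwise
    intro y hy
    rw [mem_coe] at hy ⊢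
    exact (mem_filter.1 hy).2
  rw [h2]
  refine sum_congr rfl fun k hk => ?_
  congr 1
  ext y
  rw [mem_filter, mem_filter, mem_filter]
  constructor
  · rintro ⟨⟨h3, -⟩, h4⟩
    exact ⟨h3, h4⟩
  · rintro ⟨h3, h4⟩
    exact ⟨⟨h3, by rw [h4]; exact hk⟩, h4⟩

end tree

/-! ### the slots of the successful attempts are disjoint -/

theorem slots_disj {V : Type} [DecidableEq V] (c : Cx V) (hc : Vd c) {K : ℕ} {f : ℕ → V}
    {Su : Finset ℕ} {ρ : ℕ → V} {J : Finset (V × V)} {F : Finset V}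
    (hs : PSt c K f Su ρ J F) : ∀ a ∈ Su, ∀ a' ∈ Su, a ≠ a' →
      Disjoint (c.Sl (c.gr a) (ρ a)) (c.Sl (c.gr a') (ρ a')) := by
  have hdom : ∀ a ∈ Su, ∀ x ∈ c.P a \ c.O, x ∈ c.Dom Su K := by
    intro a ha x hx
    rw [Finset.mem_sdiff] at hx
    unfold Cx.Dom
    rw [Finset.mem_sdiff]
    constructor
    · rw [Finset.mem_union]
      right
      rw [Finset.mem_biUnion]
      exact ⟨a, ha, Finset.mem_union_right _ hx.1⟩
    · rw [Finset.mem_biUnion]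
      rintro ⟨a', -, h⟩
      exact hx.2 (Finset.mem_inter.1 h).2
  intro a ha a' ha' hne
  have haA := (hs.su a ha).1
  have haA' := (hs.su a' ha').1
  rw [← hc.sim a haA _ (hs.rho a ha), ← hc.sim a' haA' _ (hs.rho a' ha')]
  rw [Finset.disjoint_left]
  intro v hv hv'
  rw [mem_image] at hv hv'
  obtain ⟨x, hx, hxv⟩ := hv
  obtain ⟨y, hy, hyv⟩ := hv'
  rw [← hs.emb a ha x hx] at hxv
  rw [← hs.emb a' ha' y hy] at hyv
  have hxy : x = y := hs.inj (mem_coe.2 (hdom a ha x hx)) (mem_coe.2 (hdom a' ha' y hy))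
    (by rw [hxv, hyv])
  rw [← hxy] at hy
  exact Finset.disjoint_left.1 (hc.disj a haA a' haA' hne) (Finset.mem_sdiff.1 hx).1
    (Finset.mem_sdiff.1 hy).1

/-! ### numbers -/

theorem nums {Δ n : ℕ} {α g : ℝ} (hΔ : 1 ≤ Δ) (hα : 0 < α) (hg : 0 < g) (hg1 : g ≤ 1 / 4)
    (hn : 32 * (Δ : ℝ) / (g * α) ≤ n) (M : ℕ) (hM : α * n ≤ 4 * (Δ : ℝ) * M) :
    ∃ w : ℕ, g * α / (16 * Δ) * n ≤ w ∧ (w : ℝ) + 1 ≤ g / 2 * M ∧
      α / (8 * Δ) * n ≤ (1 - g / 2) * M ∧ α / (8 * Δ) * n ≤ M := by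
  have hΔ' : (1 : ℝ) ≤ Δ := by exact_mod_cast hΔ
  have hM0 : (0 : ℝ) ≤ M := Nat.cast_nonneg _
  have hn0 : (0 : ℝ) ≤ n := Nat.cast_nonneg _
  have h1 : α / (4 * Δ) * n ≤ M := by
    rw [div_mul_eq_mul_div, div_le_iff₀ (by positivity)]
    linarith
  have h2 : 8 ≤ g * M := by
    have h3 : g * (α / (4 * Δ) * n) ≤ g * M := by gcongr
    have h4 : 8 ≤ g * (α / (4 * Δ) * n) := by
      rw [div_le_iff₀ (by positivity)] at hn
      have : g * (α / (4 * Δ) * n) = (n * (g * α)) / (4 * Δ) := by ring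
      rw [this, le_div_iff₀ (by positivity)]
      linarith
    linarith
  refine ⟨⌈g / 4 * (M : ℝ)⌉₊, ?_, ?_, ?_, ?_⟩
  · refine le_trans ?_ (Nat.le_ceil _)
    have : g * α / (16 * Δ) * n = g / 4 * (α / (4 * Δ) * n) := by ring
    rw [this]
    gcongr
  · have := Nat.ceil_lt_add_one (a := g / 4 * (M : ℝ)) (by positivity)
    linarith
  · have h3 : α / (8 * Δ) * n = 1 / 2 * (α / (4 * Δ) * n) := by ring
    rw [h3]
    nlinarith
  · have h3 : α / (8 * Δ) * n = 1 / 2 * (α / (4 * Δ) * n) := by ring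
    rw [h3]
    linarith

theorem num1 {p n γ : ℝ} (hp : 0 < p) (hn : 0 < n) (hγ : 0 < γ) :
    1 / 2 * p * n ≤ (1 / 2 + γ) * p * n := by
  have := mul_pos hγ (mul_pos hp hn)
  nlinarith

theorem num2 {w g M : ℝ} (hg1 : g ≤ 1 / 4) (hM : 0 ≤ M) (h : w + 1 ≤ g / 2 * M) :
    w + 1 ≤ M := by
  nlinarith

theorem num3 {γ : ℝ} (hγ : 0 < γ) (hγ2 : γ ≤ 1 / 2) :
    1 / 2 + γ / 2 ≤ (1 - γ / 100) * (1 / 2 + γ) := by
  nlinarith

theorem num4 {b m d : ℝ} (hm : 1 ≤ m) :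
    8 * (4 * (b + 1) * m + 3 * m * d + 4) ≤ 8 * (4 * (b + 1) + 3 * d + 4) * m := by
  nlinarith

theorem num5 {g : ℝ} (hg : 0 < g) (hg1 : g ≤ 1 / 4) :
    1 / 2 + g / 2 ≤ (1 / 2 + g) * (1 - g / 2) := by
  nlinarith

end CASEL_

open CASEL_ in
theorem pCASEL (h1 : T_RPART) (h2 : T_WSL) (h3 : T_TREEL) (h4 : T_MATL) (h5 : T_SLOT)
    (h6 : T_CTX) (h7 : T_PF) (h8 : T_COVL) (h9 : T_FINL) (h10 : T_NUML) : T_CASEL := by
  classical
  intro Δ γ α C₁ hΔ hγ hγ2 hα hC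
  obtain ⟨g, hg⟩ : ∃ g, g = γ / 2 := ⟨_, rfl⟩
  obtain ⟨η, hη⟩ : ∃ η, η = γ / 100 := ⟨_, rfl⟩
  have hΔ' : (1 : ℝ) ≤ Δ := by exact_mod_cast hΔ
  have hg0 : 0 < g := by rw [hg]; positivity
  have hg1 : g ≤ 1 / 4 := by rw [hg]; linarith
  have hη0 : 0 < η := by rw [hη]; positivity
  obtain ⟨ε, hε⟩ : ∃ ε, ε = g ^ 2 * α / (1600 * Δ) := ⟨_, rfl⟩
  have hε0 : 0 < ε := by rw [hε]; positivity
  obtain ⟨k₀, b, ξ, εm, n₀, hk1, hb2, hξ, hεm, hTREE⟩ := h3 Δ α ε hΔ hα hε0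
  obtain ⟨d, hd⟩ : ∃ d, d = b + Δ + 2 := ⟨_, rfl⟩
  obtain ⟨σ, hσ⟩ : ∃ σ, σ = g * α / (16 * Δ) := ⟨_, rfl⟩
  have hσ0 : 0 < σ := by rw [hσ]; positivity
  obtain ⟨s₁, hs₁⟩ : ∃ s₁, s₁ = min ξ (min σ (α / (8 * Δ))) := ⟨_, rfl⟩
  have hs₁0 : 0 < s₁ := by
    rw [hs₁]; refine lt_min hξ (lt_min hσ0 ?_); positivity
  have hk1' : (1 : ℝ) ≤ k₀ := by exact_mod_cast hk1
  have hd1 : (1 : ℝ) ≤ d := by exact_mod_cast (by omega : 1 ≤ d)
  obtain ⟨Z, hZ⟩ : ∃ Z : ℝ, Z = 8 * (4 * ((b : ℝ) + 1) + 3 * d + 4) := ⟨_, rfl⟩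
  have hZ0 : 0 < Z := by rw [hZ]; positivity
  obtain ⟨εm', hεm'⟩ : ∃ εm', εm' = min εm (min (ε / (k₀ : ℝ) ^ 2)
    (min (σ / (16 * d)) (g / 4 * σ / Z))) := ⟨_, rfl⟩
  have hεm'0 : 0 < εm' := by
    rw [hεm']
    refine lt_min hεm (lt_min ?_ (lt_min ?_ ?_)) <;> positivity
  obtain ⟨C, hC0, n₁, hNUM⟩ := h10 g C₁ εm' s₁ η (k₀ + 3) d hg0 hC hεm'0 hs₁0 hη0
  refine ⟨C, hC0, max (max n₀ n₁) ⌈32 * (Δ : ℝ) / (g * α)⌉₊, ?_⟩
  intro n hn p hp hp1 H hUU hdeg par₀ hVT₀ hBD₀ hlv₀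
  have hn1 : n₀ ≤ n := le_trans (le_trans (le_max_left _ _) (le_max_left _ _)) hn
  have hn2 : n₁ ≤ n := le_trans (le_trans (le_max_right _ _) (le_max_left _ _)) hn
  have hn3 : 32 * (Δ : ℝ) / (g * α) ≤ n := Nat.ceil_le.1 (le_trans (le_max_right _ _) hn)
  obtain ⟨hn5, hp0, hmn, hmK, hdK, hsK, hexp⟩ := hNUM n hn2 p hp hp1
  obtain ⟨m, hm⟩ : ∃ m, m = ⌈8 * (C₁ * Real.log n) / (g * p)⌉₊ + 1 := ⟨_, rfl⟩
  rw [← hm] at hmn hmK
  have hm1 : 1 ≤ m := by omega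
  have hm1' : (1 : ℝ) ≤ m := by exact_mod_cast hm1
  have hnR : (0 : ℝ) < n := by exact_mod_cast hn5
  have hKu : 0 ≤ C₁ * Real.log n := mul_nonneg hC (Real.log_natCast_nonneg n)
  have hmn1 : (m : ℝ) ≤ εm * n := by
    refine hmn.trans ?_
    gcongr
    rw [hεm']; exact min_le_left _ _
  have hmn2 : (k₀ : ℝ) ^ 2 * m ≤ ε * n := by
    have h : εm' ≤ ε / (k₀ : ℝ) ^ 2 := by
      rw [hεm']; exact le_trans (min_le_right _ _) (min_le_left _ _)
    rw [le_div_iff₀ (by positivity)] at h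
    calc (k₀ : ℝ) ^ 2 * m ≤ (k₀ : ℝ) ^ 2 * (εm' * n) := by gcongr
      _ = (εm' * (k₀ : ℝ) ^ 2) * n := by ring
      _ ≤ ε * n := by gcongr
  have hmn3 : 16 * (m : ℝ) * d ≤ σ * n := by
    have h : εm' ≤ σ / (16 * d) := by
      rw [hεm']
      exact le_trans (min_le_right _ _) (le_trans (min_le_right _ _) (min_le_left _ _))
    rw [le_div_iff₀ (by positivity)] at h
    calc 16 * (m : ℝ) * d ≤ 16 * (εm' * n) * d := by gcongr
      _ = (εm' * (16 * d)) * n := by ring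
      _ ≤ σ * n := by gcongr
  have hmn4 : Z * m ≤ g / 4 * (σ * n) := by
    have h : εm' ≤ g / 4 * σ / Z := by
      rw [hεm']
      exact le_trans (min_le_right _ _) (le_trans (min_le_right _ _) (min_le_right _ _))
    rw [le_div_iff₀ (by positivity)] at h
    calc Z * m ≤ Z * (εm' * n) := by gcongr
      _ = (εm' * Z) * n := by ring
      _ ≤ (g / 4 * σ) * n := by gcongr
      _ = _ := by ring
  -- the structure of the tree
  obtain ⟨par, I, E, Q, M, κ, S, lf, t, hVT, hBD, htr, hTS, hWs, hSs, hcls, hMbig⟩ :=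
    hTREE n hn1 m hm1 hmn1 par₀ hVT₀ hBD₀ hlv₀
  obtain ⟨w, hw1, hw2, hw3, hw4⟩ := nums hΔ hα hg0 hg1 hn3 M.card hMbig
  rw [← hσ] at hw1
  have hM0 : (0 : ℝ) ≤ (M.card : ℝ) := Nat.cast_nonneg _
  have hwM : w + 1 ≤ M.card := by
    have : (w : ℝ) + 1 ≤ (M.card : ℝ) := num2 hg1 hM0 hw2
    exact_mod_cast this
  obtain ⟨Ws, hWsd⟩ : ∃ Ws, Ws = range n \ E := ⟨_, rfl⟩
  have hME : M ⊆ E := fun x hx => (hTS.MS x hx).1
  have hcardE : (E \ M).card + M.card = E.card := card_sdiff_add_card_eq_card hME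
  have hcardW : Ws.card + E.card = n := by
    rw [hWsd, card_sdiff_add_card_eq_card hTS.dcp.EC, card_range]
  -- random partition
  let s : Fin k₀ ⊕ Fin 3 → ℕ := Sum.elim
    (fun c => ((E \ M).filter (fun x => κ x = c)).card)
    (fun j => if j = 0 then w else if j = 1 then 1 else M.card + Ws.card - 1 - w)
  have hsum : ∑ i, s i = n := by
    rw [Fintype.sum_sum_type]
    have e1 : ∑ c : Fin k₀, s (Sum.inl c) = (E \ M).card := by
      have : (E \ M).card = ∑ c ∈ range k₀, ((E \ M).filter (fun x => κ x = c)).card := by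
        apply card_eq_sum_card_fiberwise
        intro x hx
        rw [mem_coe, mem_range]
        exact hTS.kap x (Finset.mem_sdiff.1 hx).1
      rw [this, Finset.sum_range]
      simp only [s, Sum.elim_inl]
    rw [e1, Fin.sum_univ_three]
    simp only [s, Sum.elim_inr, if_true]
    rw [if_neg (by decide), if_neg (by decide), if_neg (by decide)]
    omega
  have hcard : Fintype.card (Fin k₀ ⊕ Fin 3) = k₀ + 3 := by simp
  obtain ⟨P, hPc, hPd, hPu, hPdeg⟩ := h1 n H (Fin k₀ ⊕ Fin 3) s (1 / 2 * p * n) η (s₁ * n)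
    hn5 hsum hη0 (by rw [hη]; linarith) (by positivity)
    (fun v => le_trans (num1 hp0 hnR hγ) (hdeg v))
    (by rw [hcard]; exact hexp)
  have hDG : ∀ i, s₁ * n ≤ s i → DG H g p (P i) := by
    intro i hi v
    have h7 := hPdeg i hi v
    rw [hPc i]
    refine le_trans ?_ h7
    have h8 : (1 / 2 + γ) * p * n ≤ dg H v univ := hdeg v
    have h9 : (0 : ℝ) ≤ s i := Nat.cast_nonneg _
    have h10 : (0 : ℝ) ≤ (1 - η) * (s i / n) := by
      have : 0 ≤ 1 - η := by rw [hη]; linarith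
      positivity
    calc (1 / 2 + g) * p * (s i : ℝ)
        ≤ ((1 - η) * (1 / 2 + γ)) * p * (s i : ℝ) := by
          gcongr
          rw [hg, hη]; exact num3 hγ hγ2
      _ = (1 - η) * (s i / n) * ((1 / 2 + γ) * p * n) := by field_simp
      _ ≤ _ := by gcongr
  obtain ⟨W, hWd⟩ : ∃ W, W = P (Sum.inr 0) := ⟨_, rfl⟩
  obtain ⟨L₀, hLd⟩ : ∃ L₀, L₀ = P (Sum.inr 2) := ⟨_, rfl⟩
  have hWc : W.card = w := by rw [hWd, hPc]; simp [s]
  have hLc : L₀.card = M.card + Ws.card - 1 - w := by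
    rw [hLd, hPc]
    simp only [s, Sum.elim_inr]
    rw [if_neg (by decide), if_neg (by decide)]
  have h1c : (P (Sum.inr 1)).card = 1 := by rw [hPc]; simp [s]
  obtain ⟨v₀, hv₀⟩ := card_eq_one.1 h1c
  have hs₁σ : s₁ ≤ σ := by
    rw [hs₁]; exact le_trans (min_le_right _ _) (min_le_left _ _)
  have hs₁α : s₁ ≤ α / (8 * Δ) := by
    rw [hs₁]; exact le_trans (min_le_right _ _) (min_le_right _ _)
  have hs₁ξ : s₁ ≤ ξ := by
    rw [hs₁]; exact min_le_left _ _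
  have hsW : s₁ * n ≤ (W.card : ℝ) := by
    rw [hWc]
    exact le_trans (by gcongr) hw1
  have hDW : DG H g p W := by
    rw [hWd]
    refine hDG _ ?_
    rw [← hPc, ← hWd]
    exact hsW
  have hL0 : (1 - g / 2) * (M.card : ℝ) ≤ (L₀.card : ℝ) := by
    have h7 : M.card ≤ L₀.card + 1 + w := by rw [hLc]; omega
    have h8 : (M.card : ℝ) ≤ L₀.card + 1 + w := by exact_mod_cast h7
    linarith
  have hDL : DG H g p L₀ := by
    rw [hLd]
    refine hDG _ ?_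
    rw [← hPc, ← hLd]
    refine le_trans ?_ hL0
    refine le_trans ?_ hw3
    gcongr
  -- the waste set
  have hgp : 0 < g * p := mul_pos hg0 hp0
  obtain ⟨hWS, hOK⟩ := h2 (Fin n) H η p (C₁ * Real.log n) g W d m b hp0 hg0 (by linarith) hη0.le
    (by rw [hη, hg]; linarith) hKu (by rw [hη]; exact hUU) hDW hm1 hmK
    (by
      have : g * p * (s₁ * n) ≤ g * p * W.card := by gcongr
      linarith)
    (by rw [hWc]; exact hmn3.trans hw1)
    (by
      refine lt_of_lt_of_le hdK ?_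
      gcongr)
    hb2 (by omega)
    (by
      rw [hWc]
      have h11 : g / 4 * (σ * n) ≤ g / 4 * w := by gcongr
      have h12 : 8 * (4 * ((b : ℝ) + 1) * m + 3 * (m : ℝ) * d + 4) ≤ Z * m := by
        rw [hZ]; exact num4 hm1'
      linarith)
  -- the classes
  let Vc : ℕ → Finset (Fin n) := fun c => if h : c < k₀ then P (Sum.inl ⟨c, h⟩) else ∅
  have hVc : ∀ x ∈ E, ∃ c : Fin k₀, (c : ℕ) = κ x ∧ Vc (κ x) = P (Sum.inl c) := by
    intro x hx
    refine ⟨⟨κ x, hTS.kap x hx⟩, rfl, ?_⟩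
    simp only [Vc]
    rw [dif_pos (hTS.kap x hx)]
  have hVcd : ∀ k k', k ≠ k' → Disjoint (Vc k) (Vc k') := by
    intro k k' hkk
    simp only [Vc]
    by_cases hk : k < k₀
    · by_cases hk' : k' < k₀
      · rw [dif_pos hk, dif_pos hk']
        apply hPd
        intro h
        rw [Sum.inl.injEq, Fin.mk.injEq] at h
        exact hkk h
      · rw [dif_neg hk']; exact disjoint_empty_right _
    · rw [dif_neg hk]; exact disjoint_empty_left _
  have hVcr : ∀ k, ∀ j : Fin 3, Disjoint (Vc k) (P (Sum.inr j)) := by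
    intro k j
    simp only [Vc]
    by_cases hk : k < k₀
    · rw [dif_pos hk]; apply hPd; simp
    · rw [dif_neg hk]; exact disjoint_empty_left _
  have hVcc : ∀ x ∈ E \ M, (Vc (κ x)).card = ((E \ M).filter (fun y => κ y = κ x)).card := by
    intro x hx
    obtain ⟨c, hc, hVx⟩ := hVc x (Finset.mem_sdiff.1 hx).1
    rw [hVx, hPc]
    simp only [s, Sum.elim_inl, hc]
  have hVcs : ∀ x ∈ E \ M, s₁ * n ≤ ((Vc (κ x)).card : ℝ) := by
    intro x hx
    rw [hVcc x hx, class_eq hTS hx]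
    refine le_trans ?_ (hcls x (Finset.mem_sdiff.1 hx).1)
    gcongr
  have hVcD : ∀ x ∈ E \ M, DG H g p (Vc (κ x)) := by
    intro x hx
    have h11 := hVcs x hx
    obtain ⟨c, hc, hVx⟩ := hVc x (Finset.mem_sdiff.1 hx).1
    rw [hVx] at h11 ⊢
    refine hDG _ ?_
    rw [← hPc]
    exact h11
  -- matchings
  obtain ⟨Mt, hMt⟩ := h4 (Fin n) H g η p (C₁ * Real.log n) par (E \ M) Q κ Vc hp0 hg0 hη0.le
    (by rw [hη, hg]; linarith) hKu (by rw [hη]; exact hUU) (up' hTS) (col' hTS)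
    (by
      intro x hx
      refine ⟨hVcc x hx, hVcD x hx, ?_⟩
      have h11 := hVcs x hx
      have : g * p * (s₁ * n) ≤ g * p * (Vc (κ x)).card := by gcongr
      linarith)
  -- slots
  obtain ⟨Sl, φ, hGS⟩ := h5 (Fin n) H par E Q M κ k₀ Vc Mt hTS.dcp.QE hTS.dcp.up hTS.col hTS.kap
    hTS.MS hTS.Mc (fun x hx hxQ => par_notMem hTS hx hxQ) hVcd hVcc hMt
  -- the data
  obtain ⟨B, hB⟩ : ∃ B, B = k₀ * k₀ * m + 2 * ∑ i ∈ Icc 1 I, (S i).card := ⟨_, rfl⟩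
  have hBR : (B : ℝ) ≤ 3 * (ε * n) := by
    rw [hB]
    push_cast
    have h11 : ((∑ i ∈ Icc 1 I, (S i).card : ℕ) : ℝ) ≤ ε * n := hSs
    push_cast at h11
    have h12 : (k₀ : ℝ) * k₀ * m = (k₀ : ℝ) ^ 2 * m := by ring
    rw [h12]
    linarith
  have hv₀1 : v₀ ∈ P (Sum.inr 1) := by rw [hv₀]; exact mem_singleton_self _
  have hv₀W : v₀ ∉ W := by
    rw [hWd]
    intro h
    exact Finset.disjoint_left.1 (hPd (Sum.inr 1) (Sum.inr 0) (by simp)) hv₀1 h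
  have hv₀L : v₀ ∉ L₀ := by
    rw [hLd]
    intro h
    exact Finset.disjoint_left.1 (hPd (Sum.inr 1) (Sum.inr 2) (by simp)) hv₀1 h
  have hVd := h6 (Fin n) H W (g / 4) d m b n par Δ v₀ k₀ I E Q M κ S lf t Vc Sl φ B hWS hOK
    (by omega) hVT hBD hn5 hTS hGS
    (fun k => ⟨by rw [hWd]; exact hVcr k 0, fun h =>
      Finset.disjoint_left.1 (hVcr k 1) h hv₀1⟩) hv₀W (le_of_eq hB.symm)
    (by
      rw [hWc]
      have h11 : g / 4 * (σ * n) ≤ g / 4 * w := by gcongr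
      have h12 : 16 * (ε * n) ≤ g / 4 * (σ * n) := by
        have : g / 4 * (σ * n) = 25 * (ε * n) := by
          rw [hσ, hε]; field_simp; ring
        rw [this]
        have : 0 < ε * n := mul_pos hε0 hnR
        linarith
      linarith)
  obtain ⟨c, hc⟩ : ∃ c, c = mk H W (g / 4) d m b n par Δ v₀ k₀ I E Q M κ S lf Vc Sl φ B :=
    ⟨_, rfl⟩
  rw [← hc] at hVd
  have hcN : c.N = n := by rw [hc]; rfl
  obtain ⟨f, Su, ρ, J, F, hPS, hDJ⟩ := h7 (Fin n) c hVd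
  rw [hcN] at hPS hDJ
  have hcov := h8 (Fin n) H W (g / 4) d m b n par Δ v₀ k₀ I E Q M κ S lf t Vc Sl φ B hVT hTS hGS
    hm1 c hc Su ρ hPS.su hPS.rho (slots_disj c hVd hPS) hDJ
  -- the size of the union of the active classes
  have hacE : ∀ k ∈ ac par M κ, ∃ x ∈ E \ M, κ x = k := by
    intro k hk
    unfold ac at hk
    rw [mem_image] at hk
    obtain ⟨x, hx, rfl⟩ := hk
    obtain ⟨hxE, hxQ⟩ := hTS.MS x hx
    exact ⟨par x, Finset.mem_sdiff.2 ⟨(hTS.dcp.up x hxE hxQ).2, par_notMem hTS hxE hxQ⟩, rfl⟩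
  have hZZ0 : (ZZ par M κ Vc).card = ∑ k ∈ ac par M κ, (Vc k).card := by
    unfold ZZ
    rw [card_biUnion (fun k _ k' _ h => hVcd k k' h)]
  have hZZ : (ZZ par M κ Vc).card = M.card := by
    rw [hZZ0, card_M hTS]
    refine sum_congr rfl fun k hk => ?_
    obtain ⟨x, hx, rfl⟩ := hacE k hk
    exact hVcc x hx
  have hMbig' : s₁ * n ≤ (M.card : ℝ) := by
    refine le_trans ?_ hw4
    gcongr
  have hdZ : ∀ v, (1 / 2 + g / 2) * p * (ZZ par M κ Vc).card ≤ dg H v (ZZ par M κ Vc) := by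
    intro v
    have h11 : (dg H v (ZZ par M κ Vc) : ℝ) = ∑ k ∈ ac par M κ, (dg H v (Vc k) : ℝ) := by
      unfold ZZ
      rw [dg_biUnion H v _ _ (fun k _ k' _ h => hVcd k k' h), Nat.cast_sum]
    rw [h11, hZZ0, Nat.cast_sum, mul_sum]
    refine sum_le_sum fun k hk => ?_
    obtain ⟨x, hx, rfl⟩ := hacE k hk
    refine le_trans ?_ (hVcD x hx v)
    have h13 : (1 / 2 + g / 2) * p ≤ (1 / 2 + g) * p :=
      mul_le_mul_of_nonneg_right (by linarith) hp0.le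
    exact mul_le_mul_of_nonneg_right h13 (Nat.cast_nonneg _)
  have hdL : ∀ v, (1 / 2 + g / 2) * p * (M.card : ℝ) ≤ dg H v L₀ := by
    intro v
    refine le_trans ?_ (hDL v)
    have h13 : (0 : ℝ) ≤ (1 / 2 + g) * p := by positivity
    have h11 : (1 / 2 + g) * p * ((1 - g / 2) * (M.card : ℝ)) ≤
        (1 / 2 + g) * p * (L₀.card : ℝ) := mul_le_mul_of_nonneg_left hL0 h13
    refine le_trans ?_ h11
    have h12 : (1 / 2 + g / 2) ≤ (1 / 2 + g) * (1 - g / 2) := num5 hg0 hg1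
    have h14 : (0 : ℝ) ≤ p * (M.card : ℝ) := mul_nonneg hp0.le hM0
    have h15 := mul_le_mul_of_nonneg_right h12 h14
    calc (1 / 2 + g / 2) * p * (M.card : ℝ) = (1 / 2 + g / 2) * (p * (M.card : ℝ)) := by ring
      _ ≤ (1 / 2 + g) * (1 - g / 2) * (p * (M.card : ℝ)) := h15
      _ = _ := by ring
  obtain ⟨f', hf'⟩ := h9 (Fin n) H W (g / 4) d m b n par Δ v₀ k₀ I E Q M κ S lf t Vc Sl φ B hVT
    hTS hGS (by rw [Fintype.card_fin]) hn5 c hc hVd f Su ρ J F hPS hcov L₀ η p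
    (C₁ * Real.log n) (g / 2) hp0 (by positivity) hη0.le (by rw [hη, hg]; linarith) hKu
    (by rw [hη]; exact hUU)
    (by rw [hLd, hWd]; apply hPd; simp)
    (fun k => by rw [hLd]; exact (hVcr k 2).symm) hv₀L
    (by
      rw [hZZ]
      have : g * p * (s₁ * n) ≤ g * p * M.card := mul_le_mul_of_nonneg_left hMbig' hgp.le
      linarith)
    hdZ (by rw [hZZ]; exact hdL)
  exact htr (Fin n) H f' hf'

end Pool.Agent.RSL
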