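import Pool.Agent.RSL.Targets

/-!
# COVL: the active classes are covered completely
-/

set_option autoImplicit false

open Finset

namespace Pool.Agent.RSL

open Pool.Agent.RST

namespace COVL_

lemma tmono {t : ℕ → ℕ} {I n : ℕ} (h : ∀ i, 1 ≤ i → i ≤ I → t i ≤ t (i + 1) ∧ t (i + 1) ≤ n) :
    ∀ i j, 1 ≤ i → i ≤ j → j ≤ I + 1 → t i ≤ t j := by
  intro i j hi hij
  induction j, hij using Nat.le_induction with
  | base => intro _; exact le_rfl
  | succ j hj ih =>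
    intro hj2
    exact (ih (by omega)).trans (h j (by omega) (by omega)).1

lemma iter_le {n : ℕ} {par : ℕ → ℕ} (hVT : VT n par) {a D : ℕ} (ha : a < n)
    (h : ∀ j ≤ D, 0 < par^[j] a) : ∀ j ≤ D, par^[j] a ≤ a := by
  intro j
  induction j with
  | zero => intro _; exact le_rfl
  | succ j ih =>
    intro hj
    have h1 := ih (by omega)
    rw [Function.iterate_succ_apply']
    exact ((hVT _ (h j (by omega)) (by omega)).le).trans h1

/-- the facts about the data that are used -/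
structure Fc {V : Type} [DecidableEq V] (c : Cx V) (par : ℕ → ℕ) (k₀ m b I : ℕ) (Q M : Finset ℕ)
    (κ : ℕ → ℕ) (S : ℕ → Finset ℕ) (t : ℕ → ℕ) (Vc : ℕ → Finset V) (Sl : ℕ → V → Finset V) :
    Prop where
  A : ∀ a, a ∈ c.A ↔ a ∈ Q ∨ ∃ i, 1 ≤ i ∧ i ≤ I ∧ a ∈ S i
  b : c.b = b
  m : c.m = m
  jl : ∀ s < k₀, c.jj s = 0
  jh : ∀ i, c.jj (k₀ + i) = i
  Rl : ∀ s < k₀, c.R s = Vc s
  Rh : ∀ i, c.R (k₀ + i) = ZZ par M κ Vc
  Sll : ∀ s < k₀, ∀ r, c.Sl s r = Sl s r
  Slh : ∀ i r, c.Sl (k₀ + i) r = {r}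
  kQ : ∀ a ∈ Q, κ a < k₀
  grQ : ∀ a ∈ Q, c.gr a = κ a
  grS : ∀ i, 1 ≤ i → i ≤ I → ∀ a ∈ S i, c.gr a = k₀ + i
  fsQ : ∀ a ∈ Q, c.fs a = par a
  fsS : ∀ i, 1 ≤ i → i ≤ I → ∀ a ∈ S i, t i ≤ c.fs a ∧ c.fs a < t (i + 1)

lemma fc_mk {V : Type} [DecidableEq V] (H : SimpleGraph V) (W : Finset V) (g : ℝ)
    (d m b n : ℕ) (par : ℕ → ℕ) (Δ : ℕ) (v₀ : V) (k₀ I : ℕ) (E Q M : Finset ℕ) (κ : ℕ → ℕ)
    (S : ℕ → Finset ℕ) (lf t : ℕ → ℕ) (Vc : ℕ → Finset V) (Sl : ℕ → V → Finset V)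
    (φ : ℕ → V → ℕ → V) (B : ℕ) (hVT : VT n par) (hTS : TS n par k₀ m b I E Q M κ S lf t)
    (c : Cx V) (hc : c = mk H W g d m b n par Δ v₀ k₀ I E Q M κ S lf Vc Sl φ B) :
    Fc c par k₀ m b I Q M κ S t Vc Sl := by
  have ht := tmono hTS.tm
  have hkQ : ∀ a ∈ Q, κ a < k₀ := fun a ha => hTS.kap a (hTS.dcp.QE ha)
  have hjh : ∀ i, c.jj (k₀ + i) = i := by
    intro i
    rw [hc]
    show k₀ + i - k₀ = i
    omega
  have hjl : ∀ s < k₀, c.jj s = 0 := by
    intro s hs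
    rw [hc]
    show s - k₀ = 0
    omega
  have hgrQ : ∀ a ∈ Q, c.gr a = κ a := by
    intro a ha
    rw [hc]
    unfold mk
    simp only [if_pos ha]
  have hnQ : ∀ i, 1 ≤ i → i ≤ I → ∀ a ∈ S i, a ∉ Q := by
    intro i hi1 hi2 a ha hQ
    exact (hTS.SE i hi1 hi2 a ha 0 (by omega)).1 (hTS.dcp.QE hQ)
  have hrange : ∀ i, 1 ≤ i → i ≤ I → ∀ a ∈ S i, t i ≤ a ∧ a < t (i + 1) := by
    intro i hi1 hi2 a ha
    obtain ⟨h1, h2⟩ := hTS.Sr i hi1 hi2 a ha
    exact ⟨h2 0 (by omega), h1⟩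
  have hgrS : ∀ i, 1 ≤ i → i ≤ I → ∀ a ∈ S i, c.gr a = k₀ + i := by
    intro i hi1 hi2 a ha
    have h : ∃ i, 1 ≤ i ∧ i ≤ I ∧ a ∈ S i := ⟨i, hi1, hi2, ha⟩
    rw [hc]
    unfold mk
    simp only [if_neg (hnQ i hi1 hi2 a ha), dif_pos h]
    obtain ⟨g1, g2, g3⟩ := h.choose_spec
    obtain ⟨r1, r2⟩ := hrange i hi1 hi2 a ha
    obtain ⟨s1, s2⟩ := hrange _ g1 g2 a g3
    congr 1
    rcases lt_trichotomy h.choose i with hlt | heq | hgt
    · have := ht (h.choose + 1) i (by omega) (by omega) (by omega)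
      omega
    · exact heq
    · have := ht (i + 1) h.choose (by omega) (by omega) (by omega)
      omega
  refine ⟨?_, by rw [hc]; rfl, by rw [hc]; rfl, hjl, hjh, ?_, ?_, ?_, ?_, hkQ, hgrQ, hgrS, ?_, ?_⟩
  · intro a
    rw [hc]
    show a ∈ Q ∪ (Icc 1 I).biUnion S ↔ _
    rw [mem_union, mem_biUnion]
    constructor
    · rintro (h | ⟨i, hi, h⟩)
      · exact Or.inl h
      · rw [mem_Icc] at hi
        exact Or.inr ⟨i, hi.1, hi.2, h⟩
    · rintro (h | ⟨i, hi1, hi2, h⟩)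
      · exact Or.inl h
      · exact Or.inr ⟨i, mem_Icc.2 ⟨hi1, hi2⟩, h⟩
  · intro s hs
    rw [hc]
    unfold mk
    simp only [if_pos hs]
  · intro i
    rw [hc]
    unfold mk
    have : ¬ k₀ + i < k₀ := by omega
    simp only [if_neg this]
  · intro s hs r
    rw [hc]
    unfold mk
    simp only [if_pos hs]
  · intro i r
    rw [hc]
    unfold mk
    have : ¬ k₀ + i < k₀ := by omega
    simp only [if_neg this]
  · intro a ha
    unfold Cx.fs Cx.D
    rw [hgrQ a ha, hjl _ (hkQ a ha)]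
    rw [hc]
    rfl
  · intro i hi1 hi2 a ha
    have hpar : c.par = par := by rw [hc]; rfl
    have hfs : c.fs a = par^[2 * i + 1] a := by
      unfold Cx.fs Cx.D
      rw [hgrS i hi1 hi2 a ha, hjh, hpar]
      congr 1
    obtain ⟨h1, h2⟩ := hTS.Sr i hi1 hi2 a ha
    have hti : 0 < t i := lt_of_lt_of_le hTS.t0 (ht 1 i le_rfl hi1 (by omega))
    have hn : t (i + 1) ≤ n := (hTS.tm i hi1 hi2).2
    have h3 := iter_le hVT (a := a) (D := 2 * i + 2) (by omega)
      (fun j hj => lt_of_lt_of_le hti (h2 j hj)) (2 * i + 1) (by omega)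
    rw [hfs]
    exact ⟨h2 _ (by omega), by omega⟩

lemma mem_Oc {V : Type} [DecidableEq V] (c : Cx V) (Su : Finset ℕ) (ρ : ℕ → V) (K : ℕ) (v : V) :
    v ∈ c.Oc Su ρ K ↔ ∃ a ∈ Su, c.fs a < K ∧ v ∈ c.Sl (c.gr a) (ρ a) := by
  unfold Cx.Oc
  rw [mem_biUnion]
  constructor
  · rintro ⟨a, ha, h⟩
    rw [mem_filter] at ha
    exact ⟨a, ha.1, ha.2, h⟩
  · rintro ⟨a, ha, h1, h2⟩
    exact ⟨a, mem_filter.2 ⟨ha, h1⟩, h2⟩

lemma Oc_mono {V : Type} [DecidableEq V] (c : Cx V) (Su : Finset ℕ) (ρ : ℕ → V) {K K' : ℕ}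
    (h : K ≤ K') : c.Oc Su ρ K ⊆ c.Oc Su ρ K' := by
  intro v hv
  rw [mem_Oc] at hv ⊢
  obtain ⟨a, ha, h1, h2⟩ := hv
  exact ⟨a, ha, by omega, h2⟩

/-- few uncovered vertices in an active class at the time `t 1` -/
lemma zero_class (hP : T_PIEC) {V : Type} [DecidableEq V] {H : SimpleGraph V} {m b n : ℕ}
    {par : ℕ → ℕ} {k₀ I : ℕ} {E Q M : Finset ℕ} {κ : ℕ → ℕ}
    {S : ℕ → Finset ℕ} {lf t : ℕ → ℕ} {Vc : ℕ → Finset V} {Sl : ℕ → V → Finset V}
    {φ : ℕ → V → ℕ → V} (hTS : TS n par k₀ m b I E Q M κ S lf t)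
    (hGS : GS H par E Q M κ Vc Sl φ) {c : Cx V} (hF : Fc c par k₀ m b I Q M κ S t Vc Sl)
    {Su : Finset ℕ} {ρ : ℕ → V} (hSu : ∀ a ∈ Su, a ∈ c.A)
    (hρ : ∀ a ∈ Su, ρ a ∈ c.R (c.gr a))
    (hdis : ∀ a ∈ Su, ∀ a' ∈ Su, a ≠ a' →
      Disjoint (c.Sl (c.gr a) (ρ a)) (c.Sl (c.gr a') (ρ a')))
    (hDJ : c.DJ Su ρ n) (k' : ℕ) (hk' : k' ∈ ac par M κ) :
    (Vc k' \ c.Oc Su ρ (t 1)).card ≤ m := by
  have ht := tmono hTS.tm
  obtain ⟨P1, P2, P3, P4, P5, P6, P7, P8, P9⟩ := hP par E Q κ k₀ hTS.dcp.QE hTS.dcp.up hTS.col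
    hTS.kap
  unfold ac at hk'
  rw [mem_image] at hk'
  obtain ⟨x₀, hx₀, hκ⟩ := hk'
  obtain ⟨hx₀E, hx₀Q⟩ := hTS.MS x₀ hx₀
  obtain ⟨hlt, hpE⟩ := hTS.dcp.up x₀ hx₀E hx₀Q
  have hxn : x₀ < n := mem_range.1 (hTS.dcp.EC hx₀E)
  have hpM : par x₀ ∉ M := by
    intro h
    have h1 := hTS.Ml _ h
    have h2 : x₀ ∈ chd n par (par x₀) := by
      unfold chd
      rw [mem_filter, mem_range]
      exact ⟨hxn, by omega, rfl⟩
    rw [h1] at h2
    exact notMem_empty _ h2
  have hpU : par x₀ ∈ Q.biUnion (pc par E Q) := by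
    rw [← P5]
    exact hpE
  rw [mem_biUnion] at hpU
  obtain ⟨q, hq, hyq⟩ := hpU
  have hxq : x₀ ∈ pc par E Q q := P3 q hq x₀ hx₀E hx₀Q hyq
  have hkq := hF.kQ q hq
  -- all pieces of this colour begin early
  have hearly : ∀ q' ∈ Q, κ q' = κ q → par q' < t 1 := by
    intro q' hq' hκq
    have h1 : κ x₀ ∈ (pc par E Q q').image κ := by
      rw [P8 q' hq' q hq hκq]
      exact mem_image_of_mem κ hxq
    rw [mem_image] at h1
    obtain ⟨x', hx', hκx⟩ := h1
    have hx'E : x' ∈ E := by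
      rw [P5, mem_biUnion]
      exact ⟨q', hq', hx'⟩
    exact hTS.Mt q' hq' x' hx' (hTS.Mc x₀ hx₀ x' hx'E hκx)
  -- slots are not empty
  have hslot : ∀ q' ∈ Q, ∀ r ∈ Vc (κ q'), r ∈ Sl (κ q') r := by
    intro q' hq' r hr
    rw [← hGS.im q' hq' r hr, mem_image]
    refine ⟨q', ?_, hGS.root q' hq' r hr⟩
    rw [mem_sdiff]
    exact ⟨P1 q' hq', fun h => (hTS.MS q' h).2 hq'⟩
  -- early attempts are exact pieces
  have hexact : ∀ a ∈ Su, c.fs a < t 1 → a ∈ Q := by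
    intro a ha hfs
    rcases (hF.A a).1 (hSu a ha) with h | ⟨i, hi1, hi2, h⟩
    · exact h
    · have h1 := (hF.fsS i hi1 hi2 a h).1
      have h2 := ht 1 i le_rfl hi1 (by omega)
      omega
  -- the roots of the uncovered vertices are free
  have hle1 : (Vc k' \ c.Oc Su ρ (t 1)).card ≤ (c.Po (κ q) Su ρ (t 1)).card := by
    have hex : ∀ z, ∃ r, z ∈ Vc k' \ c.Oc Su ρ (t 1) →
        r ∈ c.Po (κ q) Su ρ (t 1) ∧ φ q r (par x₀) = z := by
      intro z
      by_cases hz : z ∈ Vc k' \ c.Oc Su ρ (t 1)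
      · obtain ⟨hz1, hz2⟩ := mem_sdiff.1 hz
        rw [← hκ] at hz1
        obtain ⟨r, hr, hrz⟩ := hGS.sur q hq (par x₀) (mem_sdiff.2 ⟨hyq, hpM⟩) z hz1
        refine ⟨r, fun _ => ⟨?_, hrz⟩⟩
        have hzS : z ∈ Sl (κ q) r := by
          rw [← hGS.im q hq r hr, mem_image]
          exact ⟨par x₀, mem_sdiff.2 ⟨hyq, hpM⟩, hrz⟩
        unfold Cx.Po
        rw [mem_filter, hF.Rl _ hkq]
        refine ⟨hr, ?_⟩
        rw [hF.Sll _ hkq, disjoint_left]
        intro v hv hvO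
        rw [mem_Oc] at hvO
        obtain ⟨a, ha, hfs, hva⟩ := hvO
        have haQ := hexact a ha hfs
        rw [hF.grQ a haQ, hF.Sll _ (hF.kQ a haQ)] at hva
        have hρa := hρ a ha
        rw [hF.grQ a haQ, hF.Rl _ (hF.kQ a haQ)] at hρa
        by_cases heq : (κ q, r) = (κ a, ρ a)
        · apply hz2
          rw [mem_Oc]
          refine ⟨a, ha, hfs, ?_⟩
          rw [hF.grQ a haQ, hF.Sll _ (hF.kQ a haQ)]
          rw [Prod.mk.injEq] at heq
          rw [← heq.1, ← heq.2]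
          exact hzS
        · exact (disjoint_left.1 (hGS.sdis q hq a haQ r hr (ρ a) hρa heq)) hv hva
      · exact ⟨z, fun h => absurd h hz⟩
    choose r hr using hex
    refine card_le_card_of_injOn r (fun z hz => (hr z hz).1) ?_
    intro z hz z' hz' heq
    rw [← (hr z hz).2, ← (hr z' hz').2, heq]
  have htn : t 1 ≤ n := by
    obtain ⟨hI1, _, _⟩ := hTS.Ib
    have h1 := hTS.tm 1 le_rfl hI1
    omega
  -- few failures or few free slots
  have hdj := hDJ (t 1) htn (κ q)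
  rw [hF.jl _ hkq, hF.m, pow_zero, mul_one, mul_one] at hdj
  rcases hdj with hfa | hpo
  · -- counting
    set Sq := Su.filter (fun a => a ∈ Q ∧ κ a = κ q) with hSq
    set Nq := Q.filter (fun q' => κ q' = κ q) with hNq
    have hVN : (Vc (κ q)).card = Nq.card := by
      have hqE : q ∈ E \ M := mem_sdiff.2 ⟨hTS.dcp.QE hq, fun h => (hTS.MS q h).2 hq⟩
      rw [hGS.card q hqE]
      congr 1
      ext y
      rw [hNq, mem_filter, mem_filter, mem_sdiff]
      constructor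
      · rintro ⟨⟨h1, h2⟩, h3⟩
        exact ⟨(hTS.col.root y h1 q (hTS.dcp.QE hq) h3).2 hq, h3⟩
      · rintro ⟨h1, h3⟩
        exact ⟨⟨hTS.dcp.QE h1, fun h => (hTS.MS y h).2 h1⟩, h3⟩
    have h1 : Nq.card ≤ Sq.card + (c.Fa (κ q) Su (t 1)).card := by
      refine (card_le_card ?_).trans (card_union_le _ _)
      intro q' hq'
      rw [hNq, mem_filter] at hq'
      rw [mem_union]
      by_cases hs : q' ∈ Su
      · left
        rw [hSq, mem_filter]
        exact ⟨hs, hq'⟩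
      · right
        unfold Cx.Fa
        rw [mem_filter]
        refine ⟨(hF.A q').2 (Or.inl hq'.1), ?_, ?_, hs⟩
        · rw [hF.grQ q' hq'.1, hq'.2]
        · rw [hF.fsQ q' hq'.1]
          exact hearly q' hq'.1 hq'.2
    have h2 : (c.Po (κ q) Su ρ (t 1)).card + Sq.card ≤ (Vc (κ q)).card := by
      have hinj : Set.InjOn ρ (Sq : Set ℕ) := by
        intro a ha a' ha' heq
        rw [mem_coe, hSq, mem_filter] at ha ha'
        by_contra hne
        have hρa := hρ a ha.1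
        rw [hF.grQ a ha.2.1, hF.Rl _ (hF.kQ a ha.2.1)] at hρa
        have hd := hdis a ha.1 a' ha'.1 hne
        rw [hF.grQ a ha.2.1, hF.grQ a' ha'.2.1, hF.Sll _ (hF.kQ a ha.2.1),
          hF.Sll _ (hF.kQ a' ha'.2.1), ha'.2.2, ← ha.2.2, ← heq] at hd
        have hs := hslot a ha.2.1 (ρ a) hρa
        exact (disjoint_left.1 hd) hs hs
      rw [← card_image_of_injOn hinj, ← card_union_of_disjoint]
      · refine card_le_card ?_
        intro v hv
        rw [mem_union] at hv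
        rcases hv with h | h
        · unfold Cx.Po at h
          rw [mem_filter, hF.Rl _ hkq] at h
          exact h.1
        · rw [mem_image] at h
          obtain ⟨a, ha, rfl⟩ := h
          rw [hSq, mem_filter] at ha
          have hρa := hρ a ha.1
          rw [hF.grQ a ha.2.1, hF.Rl _ (hF.kQ a ha.2.1), ha.2.2] at hρa
          exact hρa
      · rw [disjoint_left]
        intro v hv hv'
        rw [mem_image] at hv'
        obtain ⟨a, ha, rfl⟩ := hv'
        rw [hSq, mem_filter] at ha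
        have hρa := hρ a ha.1
        rw [hF.grQ a ha.2.1, hF.Rl _ (hF.kQ a ha.2.1)] at hρa
        unfold Cx.Po at hv
        rw [mem_filter, hF.Sll _ hkq] at hv
        have hs := hslot a ha.2.1 (ρ a) hρa
        refine (disjoint_left.1 hv.2) (ha.2.2 ▸ hs) ?_
        rw [mem_Oc]
        refine ⟨a, ha.1, ?_, ?_⟩
        · rw [hF.fsQ a ha.2.1]
          exact hearly a ha.2.1 ha.2.2
        · rw [hF.grQ a ha.2.1, hF.Sll _ (hF.kQ a ha.2.1)]
          exact hs
    omega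
  · omega

end COVL_

open COVL_ in
/-- COVL -/
theorem pCOVL (hP : T_PIEC) : T_COVL := by
  intro V _ H W g d m b n par Δ v₀ k₀ I E Q M κ S lf t Vc Sl φ B hVT hTS hGS hm c hc Su ρ hSu hρ
    hdis hDJ
  have hF := fc_mk H W g d m b n par Δ v₀ k₀ I E Q M κ S lf t Vc Sl φ B hVT hTS c hc
  have ht := tmono hTS.tm
  obtain ⟨hI1, hIm, _⟩ := hTS.Ib
  have hb2 := hTS.b2
  have hk1 := hTS.k1
  -- the beginning
  have hac : (ac par M κ).card ≤ k₀ := by
    have h1 : ac par M κ ⊆ range k₀ := by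
      intro k' hk'
      unfold ac at hk'
      rw [mem_image] at hk'
      obtain ⟨x, hx, rfl⟩ := hk'
      obtain ⟨hxE, hxQ⟩ := hTS.MS x hx
      rw [mem_range]
      exact hTS.kap _ (hTS.dcp.up x hxE hxQ).2
    have h2 := card_le_card h1
    rw [card_range] at h2
    exact h2
  have hU0 : (ZZ par M κ Vc \ c.Oc Su ρ (t 1)).card ≤ k₀ * m := by
    have h1 : ZZ par M κ Vc \ c.Oc Su ρ (t 1) ⊆
        (ac par M κ).biUnion (fun k' => Vc k' \ c.Oc Su ρ (t 1)) := by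
      intro v hv
      rw [mem_sdiff] at hv
      unfold ZZ at hv
      rw [mem_biUnion] at hv ⊢
      obtain ⟨⟨k', hk', hv1⟩, hv2⟩ := hv
      exact ⟨k', hk', mem_sdiff.2 ⟨hv1, hv2⟩⟩
    calc (ZZ par M κ Vc \ c.Oc Su ρ (t 1)).card
        ≤ ((ac par M κ).biUnion (fun k' => Vc k' \ c.Oc Su ρ (t 1))).card := card_le_card h1
      _ ≤ ∑ k' ∈ ac par M κ, (Vc k' \ c.Oc Su ρ (t 1)).card := card_biUnion_le
      _ ≤ ∑ k' ∈ ac par M κ, m := sum_le_sum fun k' hk' =>
          zero_class hP hTS hGS hF (fun a ha => (hSu a ha).1) hρ hdis hDJ k' hk'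
      _ = (ac par M κ).card * m := by rw [sum_const, smul_eq_mul]
      _ ≤ k₀ * m := Nat.mul_le_mul_right m hac
  -- the levels
  have hstep : ∀ i, 1 ≤ i → i ≤ I →
      (ZZ par M κ Vc \ c.Oc Su ρ (t i)).card * b ^ i ≤ k₀ * b * m →
      (ZZ par M κ Vc \ c.Oc Su ρ (t (i + 1))).card * b ^ i < m := by
    intro i hi1 hi2 hprev
    have hPo : c.Po (k₀ + i) Su ρ (t (i + 1)) = ZZ par M κ Vc \ c.Oc Su ρ (t (i + 1)) := by
      ext v
      unfold Cx.Po
      rw [mem_filter, hF.Rh, hF.Slh, disjoint_singleton_left, mem_sdiff]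
    have hdj := hDJ (t (i + 1)) (hTS.tm i hi1 hi2).2 (k₀ + i)
    rw [hF.jh, hF.b, hF.m, hPo] at hdj
    rcases hdj with hfa | hpo
    · exfalso
      have hFa : (S i \ Su).card ≤ (c.Fa (k₀ + i) Su (t (i + 1))).card := by
        refine card_le_card fun a ha => ?_
        rw [mem_sdiff] at ha
        unfold Cx.Fa
        rw [mem_filter]
        exact ⟨(hF.A a).2 (Or.inr ⟨i, hi1, hi2, ha.1⟩), hF.grS i hi1 hi2 a ha.1,
          (hF.fsS i hi1 hi2 a ha.1).2, ha.2⟩
      have hsplit : (S i).card = (S i ∩ Su).card + (S i \ Su).card :=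
        (card_inter_add_card_sdiff (S i) Su).symm
      have hX : (ZZ par M κ Vc \ c.Oc Su ρ (t (i + 1))).card + (S i ∩ Su).card ≤
          (ZZ par M κ Vc \ c.Oc Su ρ (t i)).card := by
        have hSl : ∀ a ∈ S i, ∀ r, c.Sl (c.gr a) r = {r} := by
          intro a ha r
          rw [hF.grS i hi1 hi2 a ha, hF.Slh]
        have hinj : Set.InjOn ρ (S i ∩ Su : Finset ℕ) := by
          intro a ha a' ha' heq
          rw [mem_coe, mem_inter] at ha ha'
          by_contra hne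
          have hd := hdis a ha.2 a' ha'.2 hne
          rw [hSl a ha.1, hSl a' ha'.1, heq] at hd
          simp at hd
        rw [← card_image_of_injOn hinj, ← card_union_of_disjoint]
        · refine card_le_card ?_
          intro v hv
          rw [mem_union] at hv
          rw [mem_sdiff]
          rcases hv with h | h
          · rw [mem_sdiff] at h
            exact ⟨h.1, fun h2 => h.2 (Oc_mono c Su ρ (hTS.tm i hi1 hi2).1 h2)⟩
          · rw [mem_image] at h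
            obtain ⟨a, ha, rfl⟩ := h
            rw [mem_inter] at ha
            have hρa := hρ a ha.2
            rw [hF.grS i hi1 hi2 a ha.1, hF.Rh] at hρa
            refine ⟨hρa, fun h2 => ?_⟩
            rw [mem_Oc] at h2
            obtain ⟨a', ha', hfs', hv'⟩ := h2
            have hne : a ≠ a' := by
              rintro rfl
              have := (hF.fsS i hi1 hi2 a ha.1).1
              omega
            have hd := hdis a ha.2 a' ha' hne
            rw [hSl a ha.1, disjoint_singleton_left] at hd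
            exact hd hv'
        · rw [disjoint_left]
          intro v hv hv'
          rw [mem_image] at hv'
          obtain ⟨a, ha, rfl⟩ := hv'
          rw [mem_inter] at ha
          rw [mem_sdiff] at hv
          apply hv.2
          rw [mem_Oc]
          refine ⟨a, ha.2, (hF.fsS i hi1 hi2 a ha.1).2, ?_⟩
          rw [hSl a ha.1, mem_singleton]
      have hSb := hTS.Sb i hi1 hi2
      have hbm : m ≤ b * m := Nat.le_mul_of_pos_left m (by omega)
      have e1 : (S i \ Su).card * b ^ i < m :=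
        lt_of_le_of_lt (Nat.mul_le_mul_right _ hFa) hfa
      have e2 : ((ZZ par M κ Vc \ c.Oc Su ρ (t (i + 1))).card + (S i ∩ Su).card) * b ^ i ≤
          k₀ * b * m := (Nat.mul_le_mul_right _ hX).trans hprev
      rw [hsplit] at hSb
      have e3 : (k₀ + 1) * b * m = k₀ * b * m + b * m := by ring
      have e4 : b ^ i * ((S i ∩ Su).card + (S i \ Su).card) =
          (S i ∩ Su).card * b ^ i + (S i \ Su).card * b ^ i := by ring
      have e5 : ((ZZ par M κ Vc \ c.Oc Su ρ (t (i + 1))).card + (S i ∩ Su).card) * b ^ i =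
          (ZZ par M κ Vc \ c.Oc Su ρ (t (i + 1))).card * b ^ i + (S i ∩ Su).card * b ^ i := by
        ring
      rw [e3, e4] at hSb
      rw [e5] at e2
      omega
    · exact hpo
  have hall : ∀ i, 1 ≤ i → i ≤ I →
      (ZZ par M κ Vc \ c.Oc Su ρ (t (i + 1))).card * b ^ i < m := by
    intro i hi
    induction i, hi using Nat.le_induction with
    | base =>
      intro hi2
      refine hstep 1 le_rfl hi2 ?_
      rw [pow_one]
      calc (ZZ par M κ Vc \ c.Oc Su ρ (t 1)).card * b ≤ k₀ * m * b := Nat.mul_le_mul_right b hU0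
        _ = k₀ * b * m := by ring
    | succ i hi ih =>
      intro hi2
      refine hstep (i + 1) (by omega) hi2 ?_
      have h1 := ih (by omega)
      calc (ZZ par M κ Vc \ c.Oc Su ρ (t (i + 1))).card * b ^ (i + 1)
          = ((ZZ par M κ Vc \ c.Oc Su ρ (t (i + 1))).card * b ^ i) * b := by ring
        _ ≤ m * b := Nat.mul_le_mul_right b h1.le
        _ = 1 * (b * m) := by ring
        _ ≤ k₀ * (b * m) := Nat.mul_le_mul_right _ hk1
        _ = k₀ * b * m := by ring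
  have hlast := hall I hI1 le_rfl
  have hzero : (ZZ par M κ Vc \ c.Oc Su ρ (t (I + 1))).card = 0 := by
    by_contra hne
    have h1 : 1 ≤ (ZZ par M κ Vc \ c.Oc Su ρ (t (I + 1))).card := by omega
    have h2 : 1 * b ^ I ≤ (ZZ par M κ Vc \ c.Oc Su ρ (t (I + 1))).card * b ^ I :=
      Nat.mul_le_mul_right _ h1
    omega
  rw [card_eq_zero, sdiff_eq_empty_iff_subset] at hzero
  exact hzero.trans (Oc_mono c Su ρ (hTS.tm I hI1 le_rfl).2)

end Pool.Agent.RSL
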