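import Pool.Agent.RSL.H21Mk

/-!
# RSL, CTX: the data are valid
-/

set_option autoImplicit false

open Finset

namespace Pool.Agent.RSL

open Pool.Agent.RST

open H21Mk_ in
theorem pCTX (h1 : T_PIEC) (h2 : T_BUDL) : T_CTX := by
  intro V _ H W g d m b n par Δ v₀ k₀ I E Q M κ S lf t Vc Sl φ B hWS hOK hbd hVT hBD hn hTS hGS
    hVc hv₀ hB hB2
  have hF := facts H W g d m b n par Δ v₀ k₀ I E Q M κ S lf t Vc Sl φ B hTS
  obtain ⟨p1, p2, p3, p4, p5, p6, p7, p8, p9⟩ := h1 par E Q κ k₀ hTS.dcp.QE hTS.dcp.up hTS.col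
    hTS.kap
  have hbud := h2 V H W g d m b n par Δ v₀ k₀ I E Q M κ S lf t Vc Sl φ B hVT hTS hGS hWS.m1 hB
    (mk H W g d m b n par Δ v₀ k₀ I E Q M κ S lf Vc Sl φ B) rfl
  set c := mk H W g d m b n par Δ v₀ k₀ I E Q M κ S lf Vc Sl φ B with hc
  have hpar : c.par = par := rfl
  have hN : c.N = n := rfl
  have ht : c.t = 1 := rfl
  -- roots of pieces
  have hQn : ∀ q ∈ Q, q < n := fun q hq => mem_range.1 (hTS.dcp.EC (hTS.dcp.QE hq))
  have hQpos : ∀ q ∈ Q, ∀ j < 2, 0 < par^[j] q := fun q hq j hj =>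
    (Nat.zero_le _).trans_lt (hTS.dcp.pos q hq j hj)
  have hSE : ∀ i a j, 1 ≤ i → i ≤ I → a ∈ S i → j ≤ 2 * i + 2 → par^[j] a ∉ E :=
    fun i a j h1 h2 ha hj => (hTS.SE i h1 h2 a ha j hj).1
  -- positivity along the chains
  have hst : ∀ a ∈ c.A, ∀ j < c.D a, 1 ≤ par^[j] a := by
    intro a ha j hj
    rcases (hF.A a).1 ha with hq | ⟨i, i1, i2, hi⟩
    · rw [hF.DQ a hq] at hj
      exact hQpos a hq j hj
    · rw [hF.DS i a i1 i2 hi] at hj
      exact S_pos hTS i1 i2 hi j (by omega)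
  have hAn : ∀ a ∈ c.A, a < n := by
    intro a ha
    rcases (hF.A a).1 ha with hq | ⟨i, i1, i2, hi⟩
    · exact hQn a hq
    · exact S_lt hTS i1 i2 hi
  -- a vertex on a chain has a child
  have hchild : ∀ a ∈ c.A, ∀ j, 1 ≤ j → j ≤ c.D a → chd n par (par^[j] a) ≠ ∅ := by
    intro a ha j j1 j2
    obtain ⟨j', rfl⟩ : ∃ j', j = j' + 1 := ⟨j - 1, by omega⟩
    rw [Function.iterate_succ_apply']
    refine not_leaf (x := par^[j'] a) (hst a ha j' (by omega)) ?_ rfl
    exact ((iter_le hVT a (hAn a ha) j' (fun j'' hj'' => hst a ha j'' (by omega))).1).trans_lt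
      (hAn a ha)
  -- special leaves
  have hlf : ∀ i a, 1 ≤ i → i ≤ I → a ∈ S i → chd n par (lf a) = ∅ :=
    fun i a i1 i2 hi => (hTS.Sl i i1 i2 a hi).2.1
  have hSlot : ∀ q ∈ Q, ∀ r ∈ Vc (κ q), ∀ v ∈ Sl (κ q) r, ∃ k, v ∈ Vc k := by
    intro q hq r hr v hv
    rw [← hGS.im q hq r hr] at hv
    obtain ⟨x, hx, rfl⟩ := mem_image.1 hv
    exact ⟨_, hGS.mem q hq r hr x hx⟩
  have hZ : ∀ v ∈ ZZ par M κ Vc, ∃ k, v ∈ Vc k := by
    intro v hv
    obtain ⟨k, _, hk⟩ := mem_biUnion.1 hv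
    exact ⟨k, hk⟩
  have hSlotA : ∀ a ∈ c.A, ∀ r ∈ c.R (c.gr a), ∀ v ∈ c.Sl (c.gr a) r, ∃ k, v ∈ Vc k := by
    intro a ha r hr v hv
    rcases (hF.A a).1 ha with hq | ⟨i, i1, i2, hi⟩
    · rw [hF.RQ a hq] at hr
      rw [hF.SQ a hq] at hv
      exact hSlot a hq r hr v hv
    · rw [hF.RS i a i1 i2 hi] at hr
      rw [hF.SS i a i1 i2 hi, mem_singleton] at hv
      rw [hv]
      exact hZ r hr
  refine
    { ws := hWS, ok0 := hOK, bd := hbd, vt := hVT, bdd := hBD, t0 := Nat.one_pos, tN := hn,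
      DmS := ?_, DmP := ?_, f0i := ?_, f0W := ?_, mem := ?_, conn := ?_, disj := ?_, leaf := ?_,
      own := ?_, st := hst, chn := ?_, exc := ?_, jb := ?_, sr := ?_, si := ?_, sim := ?_,
      sadj := ?_, sW := ?_, s0 := ?_, bud := ?_, bud2 := ?_ }
  · intro x hx
    have : x = 0 := mem_singleton.1 hx
    rw [this]
    exact mem_range.2 Nat.one_pos
  · intro x _ _ hx
    exact mem_singleton.2 (Nat.lt_one_iff.1 hx)
  · intro x hx y hy _
    have e1 : x = 0 := mem_singleton.1 hx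
    have e2 : y = 0 := mem_singleton.1 hy
    rw [e1, e2]
  · intro x _
    exact hv₀
  · intro a ha
    rw [ht, hN]
    rcases (hF.A a).1 ha with hq | ⟨i, i1, i2, hi⟩
    · rw [hF.PQ a hq]
      refine ⟨p1 a hq, fun x hx => ?_⟩
      refine mem_Ico.2 ⟨?_, mem_range.1 (hTS.dcp.EC (pc_sub hx))⟩
      by_cases hxa : x = a
      · rw [hxa]
        exact hQpos a hq 0 (by norm_num)
      · obtain ⟨h3, h4⟩ := p2 a hq x hx hxa
        exact Nat.one_le_iff_ne_zero.2
          (Nat.pos_iff_ne_zero.1 ((Nat.zero_le _).trans_lt (hTS.dcp.up x (pc_sub hx) h3).1))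
    · rw [hF.PS i a i1 i2 hi]
      refine ⟨mem_insert_self _ _, fun x hx => ?_⟩
      rcases mem_insert.1 hx with hx | hx
      · rw [hx]
        exact mem_Ico.2 ⟨S_pos hTS i1 i2 hi 0 (Nat.zero_le _), S_lt hTS i1 i2 hi⟩
      · rw [mem_singleton.1 hx]
        have := lf_mem hTS i1 i2 hi
        exact mem_Ico.2 ⟨this.2.1, this.1⟩
  · intro a ha x hx hxa
    rw [hpar]
    rcases (hF.A a).1 ha with hq | ⟨i, i1, i2, hi⟩
    · rw [hF.PQ a hq] at hx ⊢
      exact (p2 a hq x hx hxa).2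
    · rw [hF.PS i a i1 i2 hi] at hx ⊢
      rcases mem_insert.1 hx with hx | hx
      · exact absurd hx hxa
      · rw [mem_singleton.1 hx, (lf_mem hTS i1 i2 hi).2.2]
        exact mem_insert_self _ _
  · intro a ha a' ha' hne
    have key : ∀ a ∈ Q, ∀ i a', 1 ≤ i → i ≤ I → a' ∈ S i →
        Disjoint (pc par E Q a) {a', lf a'} := by
      intro a ha i a' i1 i2 hi
      rw [disjoint_left]
      intro x hx hx'
      rcases mem_insert.1 hx' with hx' | hx'
      · rw [hx'] at hx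
        exact S_notE hTS i1 i2 hi (pc_sub hx)
      · rw [mem_singleton.1 hx'] at hx
        exact (hTS.Sl i i1 i2 a' hi).2.2 (pc_sub hx)
    rcases (hF.A a).1 ha with hq | ⟨i, i1, i2, hi⟩
    · rw [hF.PQ a hq]
      rcases (hF.A a').1 ha' with hq' | ⟨i', i1', i2', hi'⟩
      · rw [hF.PQ a' hq']
        exact p4 a hq a' hq' hne
      · rw [hF.PS i' a' i1' i2' hi']
        exact key a hq i' a' i1' i2' hi'
    · rw [hF.PS i a i1 i2 hi]
      rcases (hF.A a').1 ha' with hq' | ⟨i', i1', i2', hi'⟩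
      · rw [hF.PQ a' hq']
        exact (key a' hq' i a i1 i2 hi).symm
      · rw [hF.PS i' a' i1' i2' hi', disjoint_left]
        intro x hx hx'
        rw [mem_insert, mem_singleton] at hx hx'
        rcases hx with hx | hx
        · rcases hx' with hx' | hx'
          · exact hne (hx.symm.trans hx')
          · exact lf_ne hTS i1 i2 hi i1' i2' hi' (hx.symm.trans hx')
        · rcases hx' with hx' | hx'
          · exact lf_ne hTS i1' i2' hi' i1 i2 hi (hx'.symm.trans hx)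
          · apply hne
            rw [← (lf_mem hTS i1 i2 hi).2.2, ← (lf_mem hTS i1' i2' hi').2.2, ← hx, ← hx']
  · intro x hx
    rw [hN, hpar]
    rcases (hF.O x).1 hx with hx | ⟨i, a, i1, i2, hi, rfl⟩
    · exact hTS.Ml x hx
    · exact hlf i a i1 i2 hi
  · intro x hx
    rcases (hF.O x).1 hx with hx | ⟨i, a, i1, i2, hi, rfl⟩
    · obtain ⟨h3, h4⟩ := hTS.MS x hx
      rw [p5] at h3
      obtain ⟨q, hq, hxq⟩ := mem_biUnion.1 h3
      refine ⟨q, (hF.A q).2 (Or.inl hq), ?_, ?_⟩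
      · rw [hF.PQ q hq]
        exact hxq
      · rintro rfl
        exact h4 hq
    · refine ⟨a, (hF.A a).2 (Or.inr ⟨i, i1, i2, hi⟩), ?_, ?_⟩
      · rw [hF.PS i a i1 i2 hi]
        exact mem_insert_of_mem (mem_singleton_self _)
      · exact (lf_ne hTS i1 i2 hi i1 i2 hi).symm
  · intro a ha a' ha' j j1 j2
    rw [hpar]
    have hch := hchild a ha j j1 j2
    rcases (hF.A a').1 ha' with hq' | ⟨i', i1', i2', hi'⟩
    · rw [hF.PQ a' hq']
      intro hmem
      have hE := pc_sub hmem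
      rcases (hF.A a).1 ha with hq | ⟨i, i1, i2, hi⟩
      · rw [hF.DQ a hq] at j2
        exact (mem_sdiff.1 (hTS.dcp.chain a hq j j1 j2)).2 hE
      · rw [hF.DS i a i1 i2 hi] at j2
        exact hSE i a j i1 i2 hi j2 hE
    · rw [hF.PS i' a' i1' i2' hi']
      intro hmem
      rcases mem_insert.1 hmem with hm | hm
      · rcases (hF.A a).1 ha with hq | ⟨i, i1, i2, hi⟩
        · rw [hF.DQ a hq] at j2
          have h3 := (hTS.SE i' i1' i2' a' hi' 0 (Nat.zero_le _)).2 a hq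
          have : j = 1 ∨ j = 2 := by omega
          rcases this with rfl | rfl
          · exact h3.1 hm.symm
          · exact h3.2 hm.symm
        · rw [hF.DS i a i1 i2 hi] at j2
          have e1 := S_int hVT hTS i1 i2 hi j j2
          have e2 := S_int hVT hTS i1' i2' hi' 0 (Nat.zero_le _)
          rw [hm] at e1
          have hii : i = i' := level hTS i1 i2 i1' i2' e1.1 e1.2 e2.1 e2.2
          subst hii
          by_cases haa : a = a'
          · subst haa
            have := (iter_le hVT a (hAn a ha) j (fun j' hj' => S_pos hTS i1 i2 hi j'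
              (by omega))).2 j1
            omega
          · exact hTS.Se i i1 i2 a hi a' hi' haa j j2 0 (Nat.zero_le _) hm
      · rw [mem_singleton.1 hm] at hch
        exact hch (hlf i' a' i1' i2' hi')
  · intro a ha a' ha' j j' j1 j2 j1' j2' he
    rw [hpar] at he
    have key : ∀ a ∈ Q, ∀ i a', 1 ≤ i → i ≤ I → a' ∈ S i → ∀ j, 1 ≤ j → j ≤ 2 →
        ∀ j' ≤ 2 * i + 2, par^[j] a ≠ par^[j'] a' := by
      intro a ha i a' i1 i2 hi j j1 j2 j' hj' he
      have h3 := (hTS.SE i i1 i2 a' hi j' hj').2 a ha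
      have : j = 1 ∨ j = 2 := by omega
      rcases this with rfl | rfl
      · exact h3.1 he.symm
      · exact h3.2 he.symm
    rcases (hF.A a).1 ha with hq | ⟨i, i1, i2, hi⟩
    · rw [hF.DQ a hq] at j2
      rcases (hF.A a').1 ha' with hq' | ⟨i', i1', i2', hi'⟩
      · rw [hF.DQ a' hq'] at j2'
        exact hTS.dcp.excl a hq a' hq' j j' j1 j2 j1' j2' he
      · rw [hF.DS i' a' i1' i2' hi'] at j2'
        exact absurd he (key a hq i' a' i1' i2' hi' j j1 j2 j' j2')
    · rw [hF.DS i a i1 i2 hi] at j2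
      rcases (hF.A a').1 ha' with hq' | ⟨i', i1', i2', hi'⟩
      · rw [hF.DQ a' hq'] at j2'
        exact absurd he.symm (key a' hq' i a i1 i2 hi j' j1' j2' j j2)
      · rw [hF.DS i' a' i1' i2' hi'] at j2'
        have e1 := S_int hVT hTS i1 i2 hi j j2
        have e2 := S_int hVT hTS i1' i2' hi' j' j2'
        rw [he] at e1
        have hii : i = i' := level hTS i1 i2 i1' i2' e1.1 e1.2 e2.1 e2.2
        subst hii
        by_contra haa
        exact hTS.Se i i1 i2 a hi a' hi' haa j j2 j' j2' he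
  · intro a ha
    have hb1 : 1 ≤ b := hWS.b2.trans' (by norm_num)
    rcases (hF.A a).1 ha with hq | ⟨i, i1, i2, hi⟩
    · rw [hF.JQ a hq, pow_zero]
      exact Nat.mul_pos hb1 hWS.m1
    · rw [hF.JS i a i1 i2 hi]
      exact (Nat.pow_le_pow_right hb1 i2).trans hTS.Ib.2.2
  · intro a ha r hr
    rcases (hF.A a).1 ha with hq | ⟨i, i1, i2, hi⟩
    · rw [hF.RQ a hq] at hr
      rw [hF.fQ a hq]
      exact hGS.root a hq r hr
    · exact hF.fS i a i1 i2 hi r a
  · intro a ha r hr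
    rcases (hF.A a).1 ha with hq | ⟨i, i1, i2, hi⟩
    · rw [hF.RQ a hq] at hr
      rw [hF.fQ a hq, hF.POQ a hq]
      exact hGS.inj a hq r hr
    · rw [hF.POS i a i1 i2 hi]
      intro x hx y hy _
      rw [coe_singleton, Set.mem_singleton_iff] at hx hy
      rw [hx, hy]
  · intro a ha r hr
    rcases (hF.A a).1 ha with hq | ⟨i, i1, i2, hi⟩
    · rw [hF.RQ a hq] at hr
      rw [hF.fQ a hq, hF.POQ a hq, hF.SQ a hq]
      exact hGS.im a hq r hr
    · rw [hF.POS i a i1 i2 hi, hF.SS i a i1 i2 hi, image_singleton, hF.fS i a i1 i2 hi]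
  · intro a ha r hr x hx hxa
    rw [hpar]
    rcases (hF.A a).1 ha with hq | ⟨i, i1, i2, hi⟩
    · rw [hF.RQ a hq] at hr
      rw [hF.POQ a hq] at hx
      rw [hF.fQ a hq]
      exact hGS.adj a hq r hr x hx hxa
    · rw [hF.POS i a i1 i2 hi, mem_singleton] at hx
      exact absurd hx hxa
  · intro a ha r hr
    rw [disjoint_left]
    intro v hv hvW
    obtain ⟨k, hk⟩ := hSlotA a ha r hr v hv
    exact disjoint_left.1 (hVc k).1 hk hvW
  · intro a ha r hr x _ hv
    obtain ⟨k, hk⟩ := hSlotA a ha r hr _ hv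
    exact (hVc k).2 hk
  · exact hbud
  · have hsub : Ico c.t c.N \ c.A.biUnion c.P ⊆ range n \ E := by
      intro x hx
      obtain ⟨h3, h4⟩ := mem_sdiff.1 hx
      refine mem_sdiff.2 ⟨mem_range.2 (mem_Ico.1 h3).2, fun hE => h4 ?_⟩
      rw [p5] at hE
      obtain ⟨q, hq, hxq⟩ := mem_biUnion.1 hE
      refine mem_biUnion.2 ⟨q, (hF.A q).2 (Or.inl hq), ?_⟩
      rw [hF.PQ q hq]
      exact hxq
    have h5 : ((Ico c.t c.N \ c.A.biUnion c.P).card : ℝ) ≤ (range n \ E).card := by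
      exact_mod_cast card_le_card hsub
    have h6 : (c.B : ℝ) = B := rfl
    have h7 : c.g = g := rfl
    have h8 : c.W = W := rfl
    rw [h6, h7, h8]
    linarith

end Pool.Agent.RSL
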