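import Pool.Agent.RSL.Targets

set_option autoImplicit false

/-!
# DISS: removal of some pieces
-/

open Finset

namespace Pool.Agent.RSL

open Pool.Agent.RST

namespace DISS_

theorem mem_pc (par : ℕ → ℕ) (E Q : Finset ℕ) (q x : ℕ) :
    x ∈ pc par E Q q ↔ x ∈ E ∧ ∃ j, par^[j] x = q ∧ ∀ i < j, par^[i] x ∈ E ∧ par^[i] x ∉ Q := by
  classical
  rw [pc, mem_filter]

/-- the colour of a vertex determines the colour of the root of its piece -/
theorem rootcol (par : ℕ → ℕ) (E Q : Finset ℕ) (κ : ℕ → ℕ)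
    (hup : ∀ x ∈ E, x ∉ Q → par x < x ∧ par x ∈ E) (hC : Col par E Q κ)
    (hE : ∀ q ∈ Q, ∀ x ∈ pc par E Q q, x ∈ E)
    (h2 : ∀ q ∈ Q, ∀ x ∈ pc par E Q q, x ≠ q → x ∉ Q ∧ par x ∈ pc par E Q q) :
    ∀ x q, q ∈ Q → x ∈ pc par E Q q → ∀ y q', q' ∈ Q → y ∈ pc par E Q q' → κ x = κ y →
      κ q = κ q' := by
  intro x
  induction x using Nat.strong_induction_on with
  | _ x ih =>
    intro q hq hx y q' hq' hy hxy
    have hxE := hE q hq x hx
    have hyE := hE q' hq' y hy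
    have hr := hC.root x hxE y hyE hxy
    by_cases hxQ : x ∈ Q
    · have hx1 : x = q := by
        by_contra hne
        exact (h2 q hq x hx hne).1 hxQ
      have hy1 : y = q' := by
        by_contra hne
        exact (h2 q' hq' y hy hne).1 (hr.1 hxQ)
      rw [← hx1, ← hy1]
      exact hxy
    · have hyQ : y ∉ Q := fun h => hxQ (hr.2 h)
      have hx1 : x ≠ q := fun h => hxQ (h ▸ hq)
      have hy1 : y ≠ q' := fun h => hyQ (h ▸ hq')
      exact ih (par x) (hup x hxE hxQ).1 q hq (h2 q hq x hx hx1).2 (par y) q' hq'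
        (h2 q' hq' y hy hy1).2 (hC.pcol x hxE y hyE hxQ hxy)

end DISS_

open DISS_ in
theorem pDISS (h : T_PIEC) : T_DISS := by
  intro n par E₀ Q₀ Bad E Q κ k₀ hD hC hk hBad hQ hE
  obtain ⟨p1, p2, -, p4, p5, p6, p7, p8, p9⟩ := h par E₀ Q₀ κ k₀ hD.QE hD.up hC hk
  have hQQ : Q ⊆ Q₀ := by rw [hQ]; exact sdiff_subset
  have hpcE : ∀ q, ∀ x ∈ pc par E₀ Q₀ q, x ∈ E₀ := by
    intro q x hx
    exact ((mem_pc _ _ _ _ _).1 hx).1
  have hmem : ∀ x, x ∈ E ↔ ∃ q ∈ Q, x ∈ pc par E₀ Q₀ q := by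
    intro x
    rw [hE, mem_biUnion]
  have hEE : E ⊆ E₀ := by
    intro x hx
    obtain ⟨q, -, hx'⟩ := (hmem x).1 hx
    exact hpcE q x hx'
  have hQE : Q ⊆ E := fun q hq => (hmem q).2 ⟨q, hq, p1 q (hQQ hq)⟩
  have hEQ : ∀ x ∈ E, x ∈ Q₀ → x ∈ Q := by
    intro x hx hx0
    obtain ⟨q, hq, hx'⟩ := (hmem x).1 hx
    by_cases hne : x = q
    · rw [hne]; exact hq
    · exact absurd hx0 (p2 q (hQQ hq) x hx' hne).1
  have hup : ∀ x ∈ E, x ∉ Q → par x < x ∧ par x ∈ E := by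
    intro x hx hxQ
    obtain ⟨q, hq, hx'⟩ := (hmem x).1 hx
    have hne : x ≠ q := fun h => hxQ (h ▸ hq)
    have h1 := p2 q (hQQ hq) x hx' hne
    exact ⟨(hD.up x (hEE hx) h1.1).1, (hmem _).2 ⟨q, hq, h1.2⟩⟩
  have hrc := rootcol par E₀ Q₀ κ hD.up hC (fun q _ x hx => hpcE q x hx) p2
  have hcnt : ∀ q ∈ Q, ∀ x ∈ pc par E₀ Q₀ q,
      (E.filter (fun y => κ y = κ x)).card = (Q.filter (fun q' => κ q' = κ q)).card := by
    intro q hq x hx
    have hex : ∀ q' ∈ Q.filter (fun q' => κ q' = κ q), ∃ y ∈ pc par E₀ Q₀ q', κ y = κ x := by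
      intro q' hq'
      obtain ⟨hq'1, hq'2⟩ := mem_filter.1 hq'
      have h1 : κ x ∈ (pc par E₀ Q₀ q').image κ := by
        rw [p8 q' (hQQ hq'1) q (hQQ hq) hq'2]
        exact mem_image_of_mem κ hx
      obtain ⟨y, hy, hyx⟩ := mem_image.1 h1
      exact ⟨y, hy, hyx⟩
    choose! f hf1 hf2 using hex
    symm
    refine card_bij (fun q' _ => f q') ?_ ?_ ?_
    · intro q' hq'
      exact mem_filter.2 ⟨(hmem _).2 ⟨q', (mem_filter.1 hq').1, hf1 q' hq'⟩, hf2 q' hq'⟩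
    · intro a ha b hb hab
      by_contra hne
      have hd := p4 a (hQQ (mem_filter.1 ha).1) b (hQQ (mem_filter.1 hb).1) hne
      exact disjoint_left.1 hd (hf1 a ha) (by rw [hab]; exact hf1 b hb)
    · intro y hy
      obtain ⟨hy1, hy2⟩ := mem_filter.1 hy
      obtain ⟨q', hq', hy'⟩ := (hmem y).1 hy1
      have hκ : κ q' = κ q := hrc y q' (hQQ hq') hy' x q (hQQ hq) hx hy2
      have hq'' : q' ∈ Q.filter (fun q' => κ q' = κ q) := mem_filter.2 ⟨hq', hκ⟩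
      refine ⟨q', hq'', ?_⟩
      exact p6 q' (hQQ hq') (mem_coe.2 (hf1 q' hq'')) (mem_coe.2 hy')
        ((hf2 q' hq'').trans hy2.symm)
  refine ⟨?_, ?_, hEE, ?_, ?_, ?_⟩
  · exact
      { EC := hEE.trans hD.EC
        QE := hQE
        up := hup
        pos := fun q hq => hD.pos q (hQQ hq)
        chain := fun q hq j h1 h2 => by
          have := mem_sdiff.1 (hD.chain q (hQQ hq) j h1 h2)
          exact mem_sdiff.2 ⟨this.1, fun h => this.2 (hEE h)⟩
        excl := fun q hq q' hq' => hD.excl q (hQQ hq) q' (hQQ hq') }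
  · exact
      { root := fun x hx y hy hxy => by
          have := hC.root x (hEE hx) y (hEE hy) hxy
          exact ⟨fun h => hEQ y hy (this.1 (hQQ h)), fun h => hEQ x hx (this.2 (hQQ h))⟩
        pcol := fun x hx y hy hxQ hxy =>
          hC.pcol x (hEE hx) y (hEE hy) (fun h => hxQ (hEQ x hx h)) hxy
        pinj := fun x hx y hy hxQ hxy =>
          hC.pinj x (hEE hx) y (hEE hy) (fun h => hxQ (hEQ x hx h)) hxy
        pcard := fun x hx hxQ => by
          obtain ⟨q, hq, hx'⟩ := (hmem x).1 hx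
          have hne : x ≠ q := fun h => hxQ (h ▸ hq)
          rw [hcnt q hq x hx', hcnt q hq (par x) (p2 q (hQQ hq) x hx' hne).2] }
  · intro q hq
    ext x
    constructor
    · intro hx
      obtain ⟨hx1, j, hj, hi⟩ := (mem_pc _ _ _ _ _).1 hx
      exact (mem_pc _ _ _ _ _).2 ⟨hEE hx1, j, hj, fun i hij =>
        ⟨hEE (hi i hij).1, fun h => (hi i hij).2 (hEQ _ (hi i hij).1 h)⟩⟩
    · intro hx
      have hxE : x ∈ E := (hmem x).2 ⟨q, hq, hx⟩
      obtain ⟨hx1, j, hj, hi⟩ := (mem_pc _ _ _ _ _).1 hx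
      refine (mem_pc _ _ _ _ _).2 ⟨hxE, j, hj, fun i hij => ⟨(hmem _).2 ⟨q, hq, ?_⟩,
        fun h => (hi i hij).2 (hQQ h)⟩⟩
      refine (mem_pc _ _ _ _ _).2 ⟨(hi i hij).1, j - i, ?_, fun i' hi' => ?_⟩
      · rw [← Function.iterate_add_apply, Nat.sub_add_cancel hij.le]
        exact hj
      · rw [← Function.iterate_add_apply]
        exact hi (i' + i) (by omega)
  · have hsub : E₀ \ E ⊆ Bad.biUnion (pc par E₀ Q₀) := by
      intro x hx
      obtain ⟨hx1, hx2⟩ := mem_sdiff.1 hx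
      rw [p5, mem_biUnion] at hx1
      obtain ⟨q, hq, hxq⟩ := hx1
      refine mem_biUnion.2 ⟨q, ?_, hxq⟩
      by_contra hb
      exact hx2 ((hmem x).2 ⟨q, by rw [hQ]; exact mem_sdiff.2 ⟨hq, hb⟩, hxq⟩)
    calc (E₀ \ E).card ≤ (Bad.biUnion (pc par E₀ Q₀)).card := card_le_card hsub
      _ ≤ ∑ q ∈ Bad, (pc par E₀ Q₀ q).card := card_biUnion_le
      _ ≤ ∑ _q ∈ Bad, k₀ := sum_le_sum fun q hq => p7 q (hBad hq)
      _ = k₀ * Bad.card := by rw [sum_const, smul_eq_mul, mul_comm]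
  · intro x hx
    obtain ⟨q, hq, hx'⟩ := (hmem x).1 hx
    rw [p9 q (hQQ hq) x hx', hcnt q hq x hx']
    have hsub : Q₀.filter (fun q' => κ q' = κ q) ⊆ Q.filter (fun q' => κ q' = κ q) ∪ Bad := by
      intro q' hq'
      obtain ⟨h1, h2⟩ := mem_filter.1 hq'
      by_cases hb : q' ∈ Bad
      · exact mem_union_right _ hb
      · exact mem_union_left _ (mem_filter.2 ⟨by rw [hQ]; exact mem_sdiff.2 ⟨h1, hb⟩, h2⟩)
    exact (card_le_card hsub).trans (card_union_le _ _)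

end Pool.Agent.RSL
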