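import Pool.Agent.RST.Targets

/-!
# Definitions for the project RSL (MP_052821_co)

Resilience of the spanning trees with linearly many leaves in `G(n,p)`, `p ≥ C log n / n`.
-/

set_option autoImplicit false

open Finset

namespace Pool.Agent.RSL

open Pool.Agent.RST

/-! ## Connections -/

/-- `l` is the interior of a path of length `L` from `x` to `r` through unused vertices of `W`; the
state remains extendable when the edges `E` and the free vertices `G` are added -/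
structure Cn {V : Type} [DecidableEq V] (H : SimpleGraph V) (W : Finset V) (d m : ℕ)
    (J : Finset (V × V)) (F : Finset V) (L : ℕ) (x r : V) (l : List V) (E : Finset (V × V))
    (G : Finset V) : Prop where
  ok : OK H W d m (J ∪ E) (F ∪ G)
  pth : Pth H L x r l
  new : ∀ v ∈ l, v ∈ W ∧ v ∉ used J F
  im : E.image Prod.snd ∪ G = l.toFinset
  tl : ∀ e ∈ E, e.1 = x ∨ e.1 = r ∨ e.1 ∈ l
  od1 : ∀ v, (E.filter (fun e => e.1 = v)).card ≤ 1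

/-- there is a connection -/
def Cnn {V : Type} [DecidableEq V] (H : SimpleGraph V) (W : Finset V) (d m : ℕ)
    (J : Finset (V × V)) (F : Finset V) (L : ℕ) (x r : V) : Prop :=
  ∃ l E G, Cn H W d m J F L x r l E G

/-- the parameters of a waste set `W` -/
structure WS {V : Type} (H : SimpleGraph V) (W : Finset V) (g : ℝ) (d m b : ℕ) : Prop where
  g0 : 0 < g
  g1 : g ≤ 1 / 2
  lg : ∀ X : Finset V, m ≤ X.card → (1 / 2 + g) * (W.card : ℝ) ≤ ((nb H X W).card : ℝ)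
  m1 : 1 ≤ m
  b2 : 2 ≤ b
  bd : b + 2 ≤ d
  bud : 8 * (4 * ((b : ℝ) + 1) * m + 3 * (m : ℝ) * d + 4) ≤ g * (W.card : ℝ)

/-! ## The embedding procedure -/

/-- the data of the procedure -/
structure Cx (V : Type) where
  /-- the graph -/
  H : SimpleGraph V
  /-- the waste set -/
  W : Finset V
  /-- the parameter of the waste set -/
  g : ℝ
  /-- demand -/
  d : ℕ
  /-- size of large sets -/
  m : ℕ
  /-- branching -/
  b : ℕ
  /-- the first vertex to be embedded -/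
  t : ℕ
  /-- the number of vertices of the tree -/
  N : ℕ
  /-- the parent function -/
  par : ℕ → ℕ
  /-- the number of children -/
  Δ : ℕ
  /-- the vertices embedded in advance -/
  Dm : Finset ℕ
  /-- their embedding -/
  f₀ : ℕ → V
  /-- the attempts (roots of pieces) -/
  A : Finset ℕ
  /-- the piece of an attempt -/
  P : ℕ → Finset ℕ
  /-- the optional leaves -/
  O : Finset ℕ
  /-- the group of an attempt -/
  gr : ℕ → ℕ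
  /-- the depth of growth of a group -/
  jj : ℕ → ℕ
  /-- the roots of the slots of a group -/
  R : ℕ → Finset V
  /-- the slots of a group -/
  Sl : ℕ → V → Finset V
  /-- the map of a piece onto a slot -/
  φ : ℕ → V → ℕ → V
  /-- the budget -/
  B : ℕ

namespace Cx

variable {V : Type} [DecidableEq V] (c : Cx V)

/-- the length of the chain of an attempt -/
def D (a : ℕ) : ℕ := 2 * c.jj (c.gr a) + 2

/-- the first vertex of the chain of an attempt -/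
def fs (a : ℕ) : ℕ := c.par^[c.D a - 1] a

/-- the vertex above the chain of an attempt -/
def tip (a : ℕ) : ℕ := c.par^[c.D a] a

/-- the chain of an attempt -/
def ch (a : ℕ) : Finset ℕ := (Icc 1 (c.D a - 1)).image (fun j => c.par^[j] a)

/-- the occupied slot vertices at the time `K`, given the successful attempts `Su` and the roots `ρ`
of their slots -/
def Oc (Su : Finset ℕ) (ρ : ℕ → V) (K : ℕ) : Finset V :=
  (Su.filter (fun a => c.fs a < K)).biUnion (fun a => c.Sl (c.gr a) (ρ a))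

/-- the free slots of the group `s` at the time `K` -/
def Po (s : ℕ) (Su : Finset ℕ) (ρ : ℕ → V) (K : ℕ) : Finset V :=
  (c.R s).filter (fun r => Disjoint (c.Sl s r) (c.Oc Su ρ K))

/-- the failed attempts of the group `s` before the time `K` -/
def Fa (s : ℕ) (Su : Finset ℕ) (K : ℕ) : Finset ℕ :=
  c.A.filter (fun a => c.gr a = s ∧ c.fs a < K ∧ a ∉ Su)

/-- few failures or few free slots, at every time up to `K` and for every group -/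
def DJ (Su : Finset ℕ) (ρ : ℕ → V) (K : ℕ) : Prop :=
  ∀ K' ≤ K, ∀ s, (c.Fa s Su K').card * c.b ^ c.jj s < c.m ∨
    (c.Po s Su ρ K').card * c.b ^ c.jj s < c.m

/-- the embedded vertices at the time `K` -/
def Dom (Su : Finset ℕ) (K : ℕ) : Finset ℕ :=
  (c.Dm ∪ Ico c.t K ∪ Su.biUnion (fun a => c.ch a ∪ c.P a)) \ Su.biUnion (fun a => c.P a ∩ c.O)

/-- the vertices embedded in `W` at the time `K` -/
def Wd (Su : Finset ℕ) (K : ℕ) : Finset ℕ := (Ico c.t K ∪ Su.biUnion c.ch) \ Su.biUnion c.P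

end Cx

/-- the data are valid -/
structure Vd {V : Type} [DecidableEq V] (c : Cx V) : Prop where
  ws : WS c.H c.W c.g c.d c.m c.b
  ok0 : OK c.H c.W c.d c.m ∅ ∅
  bd : c.b + c.Δ + 2 ≤ c.d
  vt : VT c.N c.par
  bdd : BD c.N c.par c.Δ
  t0 : 0 < c.t
  tN : c.t ≤ c.N
  DmS : c.Dm ⊆ range c.t
  DmP : ∀ x, c.t ≤ x → x < c.N → c.par x < c.t → c.par x ∈ c.Dm
  f0i : Set.InjOn c.f₀ c.Dm
  f0W : ∀ x ∈ c.Dm, c.f₀ x ∉ c.W
  mem : ∀ a ∈ c.A, a ∈ c.P a ∧ c.P a ⊆ Ico c.t c.N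
  conn : ∀ a ∈ c.A, ∀ x ∈ c.P a, x ≠ a → c.par x ∈ c.P a
  disj : ∀ a ∈ c.A, ∀ a' ∈ c.A, a ≠ a' → Disjoint (c.P a) (c.P a')
  leaf : ∀ x ∈ c.O, chd c.N c.par x = ∅
  own : ∀ x ∈ c.O, ∃ a ∈ c.A, x ∈ c.P a ∧ x ≠ a
  st : ∀ a ∈ c.A, ∀ j < c.D a, c.t ≤ c.par^[j] a
  chn : ∀ a ∈ c.A, ∀ a' ∈ c.A, ∀ j, 1 ≤ j → j ≤ c.D a → c.par^[j] a ∉ c.P a'
  exc : ∀ a ∈ c.A, ∀ a' ∈ c.A, ∀ j j', 1 ≤ j → j ≤ c.D a → 1 ≤ j' → j' ≤ c.D a' →
    c.par^[j] a = c.par^[j'] a' → a = a'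
  jb : ∀ a ∈ c.A, c.b ^ c.jj (c.gr a) ≤ c.b * c.m
  sr : ∀ a ∈ c.A, ∀ r ∈ c.R (c.gr a), c.φ a r a = r
  si : ∀ a ∈ c.A, ∀ r ∈ c.R (c.gr a), Set.InjOn (c.φ a r) (c.P a \ c.O : Finset ℕ)
  sim : ∀ a ∈ c.A, ∀ r ∈ c.R (c.gr a), (c.P a \ c.O).image (c.φ a r) = c.Sl (c.gr a) r
  sadj : ∀ a ∈ c.A, ∀ r ∈ c.R (c.gr a), ∀ x ∈ c.P a \ c.O, x ≠ a →
    c.H.Adj (c.φ a r x) (c.φ a r (c.par x))
  sW : ∀ a ∈ c.A, ∀ r ∈ c.R (c.gr a), Disjoint (c.Sl (c.gr a) r) c.W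
  s0 : ∀ a ∈ c.A, ∀ r ∈ c.R (c.gr a), ∀ x ∈ c.Dm, c.f₀ x ∉ c.Sl (c.gr a) r
  bud : ∀ K ≤ c.N, ∀ (Su : Finset ℕ) (ρ : ℕ → V), (∀ a ∈ Su, a ∈ c.A ∧ c.fs a < K) →
    (∀ a ∈ Su, ρ a ∈ c.R (c.gr a)) →
    (∀ a ∈ Su, ∀ a' ∈ Su, a ≠ a' → Disjoint (c.Sl (c.gr a) (ρ a)) (c.Sl (c.gr a') (ρ a'))) →
    c.DJ Su ρ K → ∑ a ∈ c.A.filter (fun a => c.fs a < K ∧ a ∉ Su), (c.P a).card ≤ c.B
  bud2 : 4 * (((Ico c.t c.N \ c.A.biUnion c.P).card : ℝ) + c.B) ≤ c.g * (c.W.card : ℝ)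

/-- the state of the procedure at the time `K` -/
structure PSt {V : Type} [DecidableEq V] (c : Cx V) (K : ℕ) (f : ℕ → V) (Su : Finset ℕ)
    (ρ : ℕ → V) (J : Finset (V × V)) (F : Finset V) : Prop where
  ok : OK c.H c.W c.d c.m J F
  su : ∀ a ∈ Su, a ∈ c.A ∧ c.fs a < K
  rho : ∀ a ∈ Su, ρ a ∈ c.R (c.gr a)
  emb : ∀ a ∈ Su, ∀ x ∈ c.P a \ c.O, f x = c.φ a (ρ a) x
  inj : Set.InjOn f (c.Dom Su K : Finset ℕ)
  ini : ∀ x ∈ c.Dm, f x = c.f₀ x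
  adj : ∀ x ∈ c.Dom Su K, c.t ≤ x → c.H.Adj (f x) (f (c.par x))
  us : used J F = (c.Wd Su K).image f
  tl : ∀ e ∈ J, ∃ x ∈ c.Dom Su K, f x = e.1
  odb : ∀ x ∈ c.Dom Su K,
    od J (f x) ≤ 1 + ((c.Dom Su K).filter (fun y => c.t ≤ y ∧ c.par y = x)).card

/-! ## The structure of the tree -/

/-- the parents of leaves -/
def lp (n : ℕ) (par : ℕ → ℕ) : Finset ℕ :=
  (range n).filter (fun y => ∃ x ∈ chd n par y, chd n par x = ∅)

open Classical in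
/-- the piece with the root `q` -/
noncomputable def pc (par : ℕ → ℕ) (E Q : Finset ℕ) (q : ℕ) : Finset ℕ :=
  E.filter (fun x => ∃ j, par^[j] x = q ∧ ∀ i < j, par^[i] x ∈ E ∧ par^[i] x ∉ Q)

/-- the structure of the tree: the exact pieces (vertices `E`, roots `Q`, colours `κ`), the
optional leaves `M` of the exact pieces, and the special leaf parents `S i` of the levels
`1, ..., I`; the level `i` lives in the interval from `t i` to `t (i + 1)` -/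
structure TS (n : ℕ) (par : ℕ → ℕ) (k₀ m b I : ℕ) (E Q M : Finset ℕ) (κ : ℕ → ℕ)
    (S : ℕ → Finset ℕ) (lf t : ℕ → ℕ) : Prop where
  dcp : Dcp 2 par (range n) E Q
  col : Col par E Q κ
  kap : ∀ x ∈ E, κ x < k₀
  MS : ∀ x ∈ M, x ∈ E ∧ x ∉ Q
  Ml : ∀ x ∈ M, chd n par x = ∅
  Mc : ∀ x ∈ M, ∀ y ∈ E, κ y = κ x → y ∈ M
  Mi : Set.InjOn par M
  Ms : ∀ x ∈ M, ∀ y ∈ E, κ y = κ (par x) → ∃ x' ∈ M, par x' = y
  Mt : ∀ q ∈ Q, ∀ x ∈ pc par E Q q, x ∈ M → par q < t 1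
  k1 : 1 ≤ k₀
  b2 : 2 ≤ b
  Ib : 1 ≤ I ∧ m ≤ b ^ I ∧ b ^ I ≤ b * m
  t0 : 0 < t 1
  tm : ∀ i, 1 ≤ i → i ≤ I → t i ≤ t (i + 1) ∧ t (i + 1) ≤ n
  Sr : ∀ i, 1 ≤ i → i ≤ I → ∀ a ∈ S i, a < t (i + 1) ∧ ∀ j ≤ 2 * i + 2, t i ≤ par^[j] a
  Se : ∀ i, 1 ≤ i → i ≤ I → ∀ a ∈ S i, ∀ a' ∈ S i, a ≠ a' → ∀ j ≤ 2 * i + 2, ∀ j' ≤ 2 * i + 2,
    par^[j] a ≠ par^[j'] a'
  Sl : ∀ i, 1 ≤ i → i ≤ I → ∀ a ∈ S i, lf a ∈ chd n par a ∧ chd n par (lf a) = ∅ ∧ lf a ∉ E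
  SE : ∀ i, 1 ≤ i → i ≤ I → ∀ a ∈ S i, ∀ j ≤ 2 * i + 2, par^[j] a ∉ E ∧
    ∀ q ∈ Q, par^[j] a ≠ par q ∧ par^[j] a ≠ par (par q)
  Sb : ∀ i, 1 ≤ i → i ≤ I → (k₀ + 1) * b * m ≤ b ^ i * (S i).card

/-! ## Classes and slots -/

/-- the active colours: the colours of the parents of the optional leaves -/
def ac (par : ℕ → ℕ) (M : Finset ℕ) (κ : ℕ → ℕ) : Finset ℕ := M.image (fun x => κ (par x))

/-- the union of the active classes -/
def ZZ {V : Type} [DecidableEq V] (par : ℕ → ℕ) (M : Finset ℕ) (κ : ℕ → ℕ) (Vc : ℕ → Finset V) :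
    Finset V := (ac par M κ).biUnion Vc

/-- the classes `Vc` and the slots: `Sl (κ q) r` is the slot with root `r` for the piece with root
`q`, and `φ q r` maps this piece onto this slot -/
structure GS {V : Type} [DecidableEq V] (H : SimpleGraph V) (par : ℕ → ℕ) (E Q M : Finset ℕ)
    (κ : ℕ → ℕ) (Vc : ℕ → Finset V) (Sl : ℕ → V → Finset V) (φ : ℕ → V → ℕ → V) : Prop where
  dis : ∀ k k', k ≠ k' → Disjoint (Vc k) (Vc k')
  card : ∀ x ∈ E \ M, (Vc (κ x)).card = ((E \ M).filter (fun y => κ y = κ x)).card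
  root : ∀ q ∈ Q, ∀ r ∈ Vc (κ q), φ q r q = r
  inj : ∀ q ∈ Q, ∀ r ∈ Vc (κ q), Set.InjOn (φ q r) (pc par E Q q \ M : Finset ℕ)
  im : ∀ q ∈ Q, ∀ r ∈ Vc (κ q), (pc par E Q q \ M).image (φ q r) = Sl (κ q) r
  mem : ∀ q ∈ Q, ∀ r ∈ Vc (κ q), ∀ x ∈ pc par E Q q \ M, φ q r x ∈ Vc (κ x)
  adj : ∀ q ∈ Q, ∀ r ∈ Vc (κ q), ∀ x ∈ pc par E Q q \ M, x ≠ q →
    H.Adj (φ q r x) (φ q r (par x))
  sdis : ∀ q ∈ Q, ∀ q' ∈ Q, ∀ r ∈ Vc (κ q), ∀ r' ∈ Vc (κ q'), (κ q, r) ≠ (κ q', r') →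
    Disjoint (Sl (κ q) r) (Sl (κ q') r')
  sur : ∀ q ∈ Q, ∀ x ∈ pc par E Q q \ M, ∀ v ∈ Vc (κ x), ∃ r ∈ Vc (κ q), φ q r x = v

open Classical in
/-- the data of the procedure -/
noncomputable def mk {V : Type} [DecidableEq V] (H : SimpleGraph V) (W : Finset V) (g : ℝ)
    (d m b n : ℕ) (par : ℕ → ℕ) (Δ : ℕ) (v₀ : V) (k₀ I : ℕ) (E Q M : Finset ℕ) (κ : ℕ → ℕ)
    (S : ℕ → Finset ℕ) (lf : ℕ → ℕ) (Vc : ℕ → Finset V) (Sl : ℕ → V → Finset V)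
    (φ : ℕ → V → ℕ → V) (B : ℕ) : Cx V where
  H := H
  W := W
  g := g
  d := d
  m := m
  b := b
  t := 1
  N := n
  par := par
  Δ := Δ
  Dm := {0}
  f₀ := fun _ => v₀
  A := Q ∪ (Icc 1 I).biUnion S
  P := fun a => if a ∈ Q then pc par E Q a else {a, lf a}
  O := M ∪ ((Icc 1 I).biUnion S).image lf
  gr := fun a => if a ∈ Q then κ a else if h : ∃ i, 1 ≤ i ∧ i ≤ I ∧ a ∈ S i then k₀ + h.choose else 0
  jj := fun s => s - k₀
  R := fun s => if s < k₀ then Vc s else ZZ par M κ Vc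
  Sl := fun s r => if s < k₀ then Sl s r else {r}
  φ := fun a r => if a ∈ Q then φ a r else fun _ => r
  B := B

end Pool.Agent.RSL
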