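import Pool.Agent.RSL.H21Mk

/-!
# RSL, FINL: the optional leaves
-/

set_option autoImplicit false

open Finset

namespace Pool.Agent.RSL

open Pool.Agent.RST

namespace FINL_

open Classical in
lemma dg_mono {V : Type} (H : SimpleGraph V) (v : V) {A B : Finset V} (h : A ⊆ B) :
    dg H v A ≤ dg H v B := by
  unfold dg
  exact card_le_card (filter_subset_filter _ h)

end FINL_

open H21Mk_ FINL_ in
theorem pFINL (h1 : T_PM) (h2 : T_PIEC) : T_FINL := by
  intro V _ _ H W g d m b n par Δ v₀ k₀ I E Q M κ S lf t Vc Sl φ B hVT hTS hGS hcard hn c hc hVd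
    f Su ρ J F hP hZO L₀ η p Ku g₂ hp hg₂ hη hη2 hKu hUU hL₀W hL₀V hvL₀ hKZ hdZ hdL
  have hF := facts H W g d m b n par Δ v₀ k₀ I E Q M κ S lf t Vc Sl φ B hTS
  rw [← hc] at hF
  obtain ⟨p1, p2, p3, p4, p5, p6, p7, p8, p9⟩ := h2 par E Q κ k₀ hTS.dcp.QE hTS.dcp.up hTS.col
    hTS.kap
  have hpar : c.par = par := by rw [hc]; rfl
  have hN : c.N = n := by rw [hc]; rfl
  have ht : c.t = 1 := by rw [hc]; rfl
  have hDm : c.Dm = {0} := by rw [hc]; rfl
  have hf₀ : c.f₀ 0 = v₀ := by rw [hc]; rfl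
  have hW : c.W = W := by rw [hc]; rfl
  have hH : c.H = H := by rw [hc]; rfl
  -- the missing leaves
  set P' : Finset ℕ := Su.biUnion fun a => c.P a ∩ c.O with hP'
  have hleafO : ∀ x ∈ c.O, chd n par x = ∅ := by
    intro x hx
    have := hVd.leaf x hx
    rwa [hN, hpar] at this
  have hPn : ∀ a ∈ c.A, ∀ x ∈ c.P a, 0 < x ∧ x < n := by
    intro a ha x hx
    have := mem_Ico.1 ((hVd.mem a ha).2 hx)
    rw [ht, hN] at this
    exact this
  have hP'n : ∀ x ∈ P', 0 < x ∧ x < n ∧ x ∈ c.O := by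
    intro x hx
    obtain ⟨a, ha, hxa⟩ := mem_biUnion.1 hx
    obtain ⟨h3, h4⟩ := mem_inter.1 hxa
    have := hPn a (hP.su a ha).1 x h3
    exact ⟨this.1, this.2, h4⟩
  -- a parent is no missing leaf
  have hparP' : ∀ x, 0 < x → x < n → par x ∉ P' := by
    intro x hx hxn hmem
    exact not_leaf hx hxn rfl (hleafO _ (hP'n _ hmem).2.2)
  -- the domain
  have hDom : c.Dom Su n = range n \ P' := by
    unfold Cx.Dom
    rw [← hP']
    congr 1
    rw [hDm, ht]
    ext x
    simp only [mem_union, mem_singleton, mem_Ico, mem_biUnion, mem_range]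
    constructor
    · rintro ((h3 | h3) | ⟨a, ha, h3⟩)
      · omega
      · exact h3.2
      · have haA := (hP.su a ha).1
        have han : a < n := (hPn a haA a (hVd.mem a haA).1).2
        rcases h3 with h3 | h3
        · unfold Cx.ch at h3
          obtain ⟨j, hj, rfl⟩ := mem_image.1 h3
          have hj2 := (mem_Icc.1 hj).2
          rw [hpar]
          refine ((iter_le hVT a han j (fun j' hj' => ?_)).1).trans_lt han
          have := hVd.st a haA j' (by
            have := (mem_Icc.1 hj).1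
            omega)
          rw [ht, hpar] at this
          exact this
        · exact (hPn a haA x h3).2
    · intro h3
      by_cases hx : x = 0
      · exact Or.inl (Or.inl hx)
      · exact Or.inl (Or.inr ⟨by omega, h3⟩)
  have hinj := hP.inj
  rw [hDom] at hinj
  have hadj := hP.adj
  rw [hDom, ht, hH, hpar] at hadj
  -- values on pieces
  have hfQ : ∀ a ∈ Su, a ∈ Q → ∀ x ∈ pc par E Q a \ M, f x = φ a (ρ a) x := by
    intro a ha hq x hx
    have := hP.emb a ha x (by rw [hF.POQ a hq]; exact hx)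
    rwa [hF.fQ a hq] at this
  have hρQ : ∀ a ∈ Su, a ∈ Q → ρ a ∈ Vc (κ a) := by
    intro a ha hq
    have := hP.rho a ha
    rwa [hF.RQ a hq] at this
  have hfS : ∀ a ∈ Su, ∀ i, 1 ≤ i → i ≤ I → a ∈ S i → f a = ρ a := by
    intro a ha i i1 i2 hi
    have := hP.emb a ha a (by rw [hF.POS i a i1 i2 hi]; exact mem_singleton_self a)
    rwa [hF.fS i a i1 i2 hi] at this
  have hρS : ∀ a ∈ Su, ∀ i, 1 ≤ i → i ≤ I → a ∈ S i → ρ a ∈ ZZ par M κ Vc := by
    intro a ha i i1 i2 hi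
    have := hP.rho a ha
    rwa [hF.RS i a i1 i2 hi] at this
  -- the elements of `P'`
  have hP'c : ∀ x ∈ P', (x ∈ M ∧ ∃ a ∈ Su, a ∈ Q ∧ x ∈ pc par E Q a ∧
      par x ∈ pc par E Q a \ M) ∨
      ∃ a ∈ Su, ∃ i, 1 ≤ i ∧ i ≤ I ∧ a ∈ S i ∧ x = lf a ∧ par x = a := by
    intro x hx
    obtain ⟨a, ha, hxa⟩ := mem_biUnion.1 hx
    obtain ⟨h3, h4⟩ := mem_inter.1 hxa
    have hxn := hP'n x hx
    rcases (hF.A a).1 (hP.su a ha).1 with hq | ⟨i, i1, i2, hi⟩
    · left
      rw [hF.PQ a hq] at h3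
      have hxM : x ∈ M := by
        rcases (hF.O x).1 h4 with h5 | ⟨i, a', i1, i2, hi, rfl⟩
        · exact h5
        · exact absurd (pc_sub h3) (hTS.Sl i i1 i2 a' hi).2.2
      refine ⟨hxM, a, ha, hq, h3, mem_sdiff.2 ⟨?_, fun hm => ?_⟩⟩
      · refine (p2 a hq x h3 ?_).2
        rintro rfl
        exact (hTS.MS x hxM).2 hq
      · exact not_leaf hxn.1 hxn.2.1 rfl (hTS.Ml _ hm)
    · right
      rw [hF.PS i a i1 i2 hi] at h3
      have hxl : x = lf a := by
        rcases mem_insert.1 h3 with h5 | h5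
        · exfalso
          have h6 := hleafO x h4
          rw [h5] at h6
          have h7 := lf_mem hTS i1 i2 hi
          exact not_leaf h7.2.1 h7.1 h7.2.2 h6
        · exact mem_singleton.1 h5
      exact ⟨a, ha, i, i1, i2, hi, hxl, by rw [hxl]; exact (lf_mem hTS i1 i2 hi).2.2⟩
  have hparDom : ∀ x, 0 < x → x < n → par x ∈ range n \ P' := fun x hx hxn =>
    mem_sdiff.2 ⟨mem_range.2 ((hVT x hx hxn).trans hxn), hparP' x hx hxn⟩
  -- the bijection onto the active classes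
  set ps : ℕ → V := fun x => f (par x) with hps
  have hmaps : ∀ x ∈ P', ps x ∈ ZZ par M κ Vc := by
    intro x hx
    rcases hP'c x hx with ⟨hxM, a, ha, hq, h3, h4⟩ | ⟨a, ha, i, i1, i2, hi, _, h4⟩
    · rw [hps]
      simp only
      rw [hfQ a ha hq _ h4]
      refine mem_biUnion.2 ⟨κ (par x), mem_image.2 ⟨x, hxM, rfl⟩, ?_⟩
      exact hGS.mem a hq (ρ a) (hρQ a ha hq) _ h4
    · rw [hps]
      simp only
      rw [h4, hfS a ha i i1 i2 hi]
      exact hρS a ha i i1 i2 hi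
  have hpsinj : Set.InjOn ps (P' : Set ℕ) := by
    intro x hx y hy hxy
    have hx' := hP'n x (mem_coe.1 hx)
    have hy' := hP'n y (mem_coe.1 hy)
    have hpp : par x = par y := hinj (mem_coe.2 (hparDom x hx'.1 hx'.2.1))
      (mem_coe.2 (hparDom y hy'.1 hy'.2.1)) hxy
    rcases hP'c x (mem_coe.1 hx) with ⟨hxM, a, ha, hq, h3, h4⟩ | ⟨a, ha, i, i1, i2, hi, hxl, h4⟩
    · rcases hP'c y (mem_coe.1 hy) with ⟨hyM, _⟩ | ⟨a', ha', i', i1', i2', hi', hyl, h4'⟩
      · exact hTS.Mi (mem_coe.2 hxM) (mem_coe.2 hyM) hpp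
      · exfalso
        have h5 := pc_sub (mem_sdiff.1 h4).1
        rw [hpp, h4'] at h5
        exact S_notE hTS i1' i2' hi' h5
    · rcases hP'c y (mem_coe.1 hy) with ⟨hyM, a', ha', hq', h3', h4'⟩ |
        ⟨a', ha', i', i1', i2', hi', hyl, h4'⟩
      · exfalso
        have h5 := pc_sub (mem_sdiff.1 h4').1
        rw [← hpp, h4] at h5
        exact S_notE hTS i1 i2 hi h5
      · rw [hxl, hyl, ← h4, ← h4', hpp]
  have hsurj : ∀ z ∈ ZZ par M κ Vc, ∃ x ∈ P', ps x = z := by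
    intro z hz
    have hzO := hZO hz
    unfold Cx.Oc at hzO
    obtain ⟨a, haf, hza⟩ := mem_biUnion.1 hzO
    have ha := (mem_filter.1 haf).1
    rcases (hF.A a).1 (hP.su a ha).1 with hq | ⟨i, i1, i2, hi⟩
    · rw [hF.SQ a hq, ← hGS.im a hq (ρ a) (hρQ a ha hq)] at hza
      obtain ⟨y, hy, hyz⟩ := mem_image.1 hza
      have hzV : z ∈ Vc (κ y) := hyz ▸ hGS.mem a hq (ρ a) (hρQ a ha hq) y hy
      obtain ⟨k', hk', hzk'⟩ := mem_biUnion.1 hz
      have hkk : κ y = k' := by
        by_contra hne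
        exact disjoint_left.1 (hGS.dis _ _ hne) hzV hzk'
      obtain ⟨x0, hx0, hx0k⟩ := mem_image.1 hk'
      have hyE : y ∈ E := pc_sub (mem_sdiff.1 hy).1
      obtain ⟨x', hx'M, hx'y⟩ := hTS.Ms x0 hx0 y hyE (hkk.trans hx0k.symm)
      obtain ⟨hx'E, hx'Q⟩ := hTS.MS x' hx'M
      have hx'pc : x' ∈ pc par E Q a := p3 a hq x' hx'E hx'Q (by
        rw [hx'y]
        exact (mem_sdiff.1 hy).1)
      refine ⟨x', mem_biUnion.2 ⟨a, ha, mem_inter.2 ⟨?_, (hF.O x').2 (Or.inl hx'M)⟩⟩, ?_⟩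
      · rw [hF.PQ a hq]
        exact hx'pc
      · rw [hps]
        simp only
        rw [hx'y, hfQ a ha hq y hy]
        exact hyz
    · rw [hF.SS i a i1 i2 hi, mem_singleton] at hza
      refine ⟨lf a, mem_biUnion.2 ⟨a, ha, mem_inter.2 ⟨?_, (hF.O _).2
        (Or.inr ⟨i, a, i1, i2, hi, rfl⟩)⟩⟩, ?_⟩
      · rw [hF.PS i a i1 i2 hi]
        exact mem_insert_of_mem (mem_singleton_self _)
      · rw [hps]
        simp only
        rw [(lf_mem hTS i1 i2 hi).2.2, hfS a ha i i1 i2 hi]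
        exact hza.symm
  have hcardP : P'.card = (ZZ par M κ Vc).card := by
    rw [← card_image_of_injOn hpsinj]
    congr 1
    ext z
    rw [mem_image]
    exact ⟨fun ⟨x, hx, hxz⟩ => hxz ▸ hmaps x hx, hsurj z⟩
  -- the free vertices
  set L : Finset V := univ \ (range n \ P').image f with hL
  have hcardL : (ZZ par M κ Vc).card = L.card := by
    rw [hL, card_sdiff_of_subset (subset_univ _), card_image_of_injOn hinj, card_univ, hcard,
      card_sdiff_of_subset (fun x hx => mem_range.2 (hP'n x hx).2.1), card_range, ← hcardP]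
    have : P'.card ≤ n := by
      have := card_le_card (fun x hx => mem_range.2 (hP'n x hx).2.1 : P' ⊆ range n)
      rwa [card_range] at this
    omega
  have hL₀L : L₀ ⊆ L := by
    intro v hv
    refine mem_sdiff.2 ⟨mem_univ _, fun hvi => ?_⟩
    obtain ⟨x, hx, rfl⟩ := mem_image.1 hvi
    obtain ⟨hxn, hxP'⟩ := mem_sdiff.1 hx
    by_cases hx0 : x = 0
    · rw [hx0, hP.ini 0 (by rw [hDm]; exact mem_singleton_self 0), hf₀] at hv
      exact hvL₀ hv
    · by_cases hxS : x ∈ Su.biUnion c.P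
      · obtain ⟨a, ha, hxa⟩ := mem_biUnion.1 hxS
        have hxO : x ∈ c.P a \ c.O := by
          refine mem_sdiff.2 ⟨hxa, fun hO => hxP' ?_⟩
          exact mem_biUnion.2 ⟨a, ha, mem_inter.2 ⟨hxa, hO⟩⟩
        rcases (hF.A a).1 (hP.su a ha).1 with hq | ⟨i, i1, i2, hi⟩
        · rw [hF.POQ a hq] at hxO
          rw [hfQ a ha hq x hxO] at hv
          exact disjoint_left.1 (hL₀V _) hv (hGS.mem a hq (ρ a) (hρQ a ha hq) x hxO)
        · rw [hF.POS i a i1 i2 hi, mem_singleton] at hxO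
          rw [hxO, hfS a ha i i1 i2 hi] at hv
          obtain ⟨k, _, hk⟩ := mem_biUnion.1 (hρS a ha i i1 i2 hi)
          exact disjoint_left.1 (hL₀V k) hv hk
      · have hxW : x ∈ c.Wd Su n := by
          unfold Cx.Wd
          refine mem_sdiff.2 ⟨mem_union_left _ ?_, hxS⟩
          rw [ht]
          exact mem_Ico.2 ⟨by omega, mem_range.1 hxn⟩
        have hus := hP.us
        have hfx : f x ∈ used J F := by
          rw [hus]
          exact mem_image_of_mem f hxW
        have := hP.ok.sub hfx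
        rw [hW] at this
        exact disjoint_left.1 hL₀W hv this
  obtain ⟨Mt, hbij, hMadj⟩ := h1 V H η p Ku g₂ (ZZ par M κ Vc) L hp hg₂ hη hη2 hKu hUU hcardL hKZ
    (fun x _ => (hdL x).trans (by exact_mod_cast dg_mono H x hL₀L)) (fun y _ => hdZ y)
  refine ⟨fun x => if x ∈ P' then Mt (f (par x)) else f x, ?_, ?_⟩
  · intro x hx y hy hxy
    simp only at hxy
    have hxn := mem_range.1 (mem_coe.1 hx)
    have hyn := mem_range.1 (mem_coe.1 hy)
    have cross : ∀ x y, x ∈ P' → y < n → y ∉ P' → Mt (f (par x)) ≠ f y := by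
      intro x y hx hy hyP he
      have h3 : Mt (f (par x)) ∈ (L : Set V) := hbij.mapsTo (mem_coe.2 (hmaps x hx))
      rw [he] at h3
      have h4 := (mem_sdiff.1 (mem_coe.1 h3)).2
      exact h4 (mem_image_of_mem f (mem_sdiff.2 ⟨mem_range.2 hy, hyP⟩))
    by_cases hxP : x ∈ P'
    · by_cases hyP : y ∈ P'
      · rw [if_pos hxP, if_pos hyP] at hxy
        exact hpsinj (mem_coe.2 hxP) (mem_coe.2 hyP)
          (hbij.injOn (mem_coe.2 (hmaps x hxP)) (mem_coe.2 (hmaps y hyP)) hxy)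
      · rw [if_pos hxP, if_neg hyP] at hxy
        exact absurd hxy (cross x y hxP hyn hyP)
    · by_cases hyP : y ∈ P'
      · rw [if_neg hxP, if_pos hyP] at hxy
        exact absurd hxy.symm (cross y x hyP hxn hxP)
      · rw [if_neg hxP, if_neg hyP] at hxy
        exact hinj (mem_coe.2 (mem_sdiff.2 ⟨mem_range.2 hxn, hxP⟩))
          (mem_coe.2 (mem_sdiff.2 ⟨mem_range.2 hyn, hyP⟩)) hxy
  · intro i hi hin
    simp only
    rw [if_neg (hparP' i hi hin)]
    by_cases hiP : i ∈ P'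
    · rw [if_pos hiP]
      exact (hMadj _ (hmaps i hiP)).symm
    · rw [if_neg hiP]
      exact hadj i (mem_sdiff.2 ⟨mem_range.2 hin, hiP⟩) hi

end Pool.Agent.RSL
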