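import Pool.Agent.RSL.Targets
import Pool.Agent.RST.CONN

/-!
# RSL-FLEX: many vertices and many vertices are connected somewhere
-/

set_option autoImplicit false

open Finset

namespace Pool.Agent.RSL

open Pool.Agent.RST

open Pool.Agent.RST.CONN_ in
theorem pFLEX (hGRO : T_GRO) (hFREE : T_FREE) (hSHR : T_SHR) : T_FLEX := by
  classical
  intro V _ _ H W g d m b j J F X R hP hO hused hbj hX hR hXR hXod hRod
  have hbd : b ≤ d := by have := hP.bd; omega
  have hm1 := hP.m1
  have hb2 := hP.b2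
  set w : ℝ := (W.card : ℝ) with hw
  have hg0 := hP.g0
  have hg1 := hP.g1
  have hw0 : 0 ≤ w := Nat.cast_nonneg _
  have hmR : (1 : ℝ) ≤ m := by exact_mod_cast hm1
  have hdR : (0 : ℝ) ≤ d := Nat.cast_nonneg _
  have hbR : (2 : ℝ) ≤ b := by exact_mod_cast hb2
  have hmd : (0 : ℝ) ≤ m * d := by positivity
  have hbm : (0 : ℝ) ≤ (b + 1) * m := by positivity
  have hbud := hP.bud
  have hbud' : 32 * (((b : ℝ) + 1) * m) + 24 * (m * d) + 32 ≤ g * w := by
    calc 32 * (((b : ℝ) + 1) * m) + 24 * (m * d) + 32 =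
        8 * (4 * ((b : ℝ) + 1) * m + 3 * (m : ℝ) * d + 4) := by ring
      _ ≤ g * w := hbud
  have hgw : g * w ≤ w / 2 := by nlinarith
  have hlg2 : ∀ X : Finset V, m ≤ X.card → W.card ≤ 2 * (nb H X W).card := by
    intro X hX
    have h1 := hP.lg X hX
    have h2 : w ≤ 2 * ((nb H X W).card : ℝ) := by nlinarith
    rw [hw] at h2
    exact_mod_cast h2
  have hnum : ∀ s : ℕ, (s : ℝ) ≤ (used J F).card + 4 * (((b : ℝ) + 1) * m) →
      2 * (s + 2 * m * d) < W.card := by
    intro s hs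
    have h1 : (2 : ℝ) * ((s : ℝ) + 2 * m * d) < w := by
      nlinarith
    rw [hw] at h1
    exact_mod_cast h1
  -- the number of starting points
  have hbpos : 0 < b ^ j := pow_pos (by omega) j
  set k : ℕ := (m + b ^ j - 1) / b ^ j with hk
  have hk1 : m ≤ b ^ j * k := by
    have h1 := Nat.div_add_mod (m + b ^ j - 1) (b ^ j)
    have h2 := Nat.mod_lt (m + b ^ j - 1) hbpos
    rw [← hk] at h1
    omega
  have hk2 : b ^ j * k ≤ (b + 1) * m := by
    have h1 := Nat.mul_div_le (m + b ^ j - 1) (b ^ j)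
    rw [← hk] at h1
    have h2 : (b + 1) * m = b * m + m := by ring
    omega
  have hkle : ∀ c : ℕ, m ≤ b ^ j * c → k ≤ c := by
    intro c hc
    rw [hk, Nat.div_le_iff_le_mul_add_pred hbpos]
    omega
  obtain ⟨X', hX'X, hX'c⟩ := exists_subset_card_eq (hkle _ hX)
  obtain ⟨R', hR'R, hR'c⟩ := exists_subset_card_eq (hkle _ hR)
  have hkR : ((b ^ j * k : ℕ) : ℝ) ≤ ((b : ℝ) + 1) * m := by exact_mod_cast hk2
  -- growing from `X'`
  obtain ⟨E₁, L₁, hO1, hE1c, hE1new, hE1t, hL₁c, hL₁⟩ := hGRO V H W d m b j J F X' hO hm1 hb2 hbd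
    hlg2 (fun x hx => hXod x (hX'X hx)) (by
      rw [hX'c]
      have := hnum ((used J F).card + 2 * (b ^ j * k)) (by push_cast at hkR ⊢; linarith)
      rw [mul_assoc 2 (b ^ j) k]
      exact this)
  rw [hX'c, mul_assoc] at hE1c
  rw [hX'c] at hL₁c
  set J₁ := J ∪ E₁ with hJ₁
  have hu1 : used J₁ F = used J F ∪ E₁.image Prod.snd := used_union J E₁ F
  have hc1 : (used J₁ F).card ≤ (used J F).card + 2 * (b ^ j * k) := by
    rw [hu1]
    exact (card_union_le _ _).trans (Nat.add_le_add_left hE1c _)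
  have hRod1 : ∀ r ∈ R', od J₁ r + b ≤ d ∧ (r ∈ W → r ∈ used J₁ F) := by
    intro r hr
    obtain ⟨h1, h2⟩ := hRod r (hR'R hr)
    refine ⟨?_, fun h => absurd h h2⟩
    rw [hJ₁, od_union_eq J E₁ r ?_]
    · exact h1
    · intro e he heq
      rcases hE1t e he with h | h
      · rw [heq] at h
        exact disjoint_left.1 hXR (hX'X h) (hR'R hr)
      · rw [heq] at h
        obtain ⟨e', he', hee⟩ := mem_image.1 h
        exact h2 (hee ▸ (hE1new e' he').1)
  -- growing from `R'`
  obtain ⟨E₂, L₂, hO2, hE2c, hE2new, hE2t, hL₂c, hL₂⟩ := hGRO V H W d m b j J₁ F R' hO1 hm1 hb2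
    hbd hlg2 hRod1 (by
      rw [hR'c]
      have h0 : ((used J₁ F).card : ℝ) ≤ (used J F).card + 2 * ((b ^ j * k : ℕ) : ℝ) := by
        exact_mod_cast hc1
      have := hnum ((used J₁ F).card + 2 * (b ^ j * k)) (by push_cast at hkR h0 ⊢; linarith)
      rw [mul_assoc 2 (b ^ j) k]
      exact this)
  rw [hR'c, mul_assoc] at hE2c
  rw [hR'c] at hL₂c
  set J₂ := J₁ ∪ E₂ with hJ₂
  have hu2 : used J₂ F = used J₁ F ∪ E₂.image Prod.snd := used_union J₁ E₂ F
  have hc2 : ((used J₂ F).card : ℝ) ≤ (used J F).card + 4 * (((b : ℝ) + 1) * m) := by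
    have h1 : (used J₂ F).card ≤ (used J₁ F).card + 2 * (b ^ j * k) := by
      rw [hu2]
      exact (card_union_le _ _).trans (Nat.add_le_add_left hE2c _)
    have h2 : (used J₂ F).card ≤ (used J F).card + 4 * (b ^ j * k) := by omega
    have h3 : ((used J₂ F).card : ℝ) ≤ (used J F).card + 4 * ((b ^ j * k : ℕ) : ℝ) := by
      exact_mod_cast h2
    linarith
  -- the middle vertex
  set C : Finset V := (nb H L₁ W ∩ nb H L₂ W) \ used J₂ F with hC
  have hnbW : ∀ X : Finset V, nb H X W ⊆ W := fun X => filter_subset _ _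
  have hCcard : m * d < C.card := by
    have h1 := hP.lg L₁ (by rw [hL₁c]; exact hk1)
    have h2 := hP.lg L₂ (by rw [hL₂c]; exact hk1)
    have h3 : (nb H L₁ W ∩ nb H L₂ W).card + W.card ≥ (nb H L₁ W).card + (nb H L₂ W).card := by
      have e1 := card_union_add_card_inter (nb H L₁ W) (nb H L₂ W)
      have e2 := card_le_card (union_subset (hnbW L₁) (hnbW L₂))
      omega
    have h4 : (nb H L₁ W ∩ nb H L₂ W).card ≤ C.card + (used J₂ F).card := by
      rw [hC]
      exact card_le_card_sdiff_add_card (s := nb H L₁ W ∩ nb H L₂ W) (t := used J₂ F)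
    have h3' : ((nb H L₁ W).card : ℝ) + (nb H L₂ W).card ≤
        (nb H L₁ W ∩ nb H L₂ W).card + w := by rw [hw]; exact_mod_cast h3
    have h4' : ((nb H L₁ W ∩ nb H L₂ W).card : ℝ) ≤ C.card + (used J₂ F).card := by
      exact_mod_cast h4
    have h5 : ((m * d : ℕ) : ℝ) < C.card := by
      push_cast
      nlinarith
    exact_mod_cast h5
  have hCsub : C ⊆ W \ used J₂ F := by
    intro x hx
    rw [hC, mem_sdiff, mem_inter] at hx
    exact mem_sdiff.2 ⟨hnbW _ hx.1.1, hx.2⟩
  obtain ⟨w₀, hw₀C, hO3⟩ := hFREE V H W d m J₂ F hO2 hm1 hlg2 (by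
    have := hnum (used J₂ F).card hc2
    omega) C hCsub hCcard
  rw [hC, mem_sdiff, mem_inter] at hw₀C
  obtain ⟨⟨hw1, hw2⟩, hw3⟩ := hw₀C
  have hw₀W : w₀ ∈ W := hnbW _ hw1
  obtain ⟨x₁, hx₁, hx₁w⟩ := (mem_filter.1 hw1).2
  obtain ⟨x₂, hx₂, hx₂w⟩ := (mem_filter.1 hw2).2
  obtain ⟨x, hxX', l₁, hl₁len, hl₁ch, hl₁last, hl₁nd⟩ := hL₁ x₁ hx₁
  obtain ⟨r, hrR', l₂, hl₂len, hl₂ch, hl₂last, hl₂nd⟩ := hL₂ x₂ hx₂
  have hxX := hX'X hxX'
  have hrR := hR'R hrR'
  have hxW := (hXod x hxX).2
  have hrW := (hRod r hrR).2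
  have huu1 : used J F ⊆ used J₁ F := used_mono subset_union_left (Subset.refl _)
  have huu2 : used J₁ F ⊆ used J₂ F := used_mono subset_union_left (Subset.refl _)
  have hl₁new : ∀ y ∈ l₁, y ∈ W ∧ y ∉ used J F ∧ y ∈ used J₁ F := by
    intro y hy
    obtain ⟨e, he, hey⟩ := chain_heads l₁ x hl₁ch y hy
    obtain ⟨a1, a2⟩ := hE1new e he
    rw [hey] at a1 a2
    refine ⟨a1, a2, ?_⟩
    rw [hu1]
    exact mem_union_right _ (mem_image.2 ⟨e, he, hey⟩)
  have hl₂new : ∀ y ∈ l₂, y ∈ W ∧ y ∉ used J₁ F ∧ y ∈ used J₂ F := by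
    intro y hy
    obtain ⟨e, he, hey⟩ := chain_heads l₂ r hl₂ch y hy
    obtain ⟨a1, a2⟩ := hE2new e he
    rw [hey] at a1 a2
    refine ⟨a1, a2, ?_⟩
    rw [hu2]
    exact mem_union_right _ (mem_image.2 ⟨e, he, hey⟩)
  have hxr : x ≠ r := fun h => disjoint_left.1 hXR hxX (h ▸ hrR)
  set c₁ : List V := x :: l₁ with hc₁
  set c₂ : List V := r :: l₂ with hc₂
  have hc12 : ∀ u, u ∈ c₁ → u ∉ c₂ := by
    intro u hu hu'
    rw [hc₁, List.mem_cons] at hu
    rw [hc₂, List.mem_cons] at hu'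
    rcases hu' with h | h
    · rcases hu with h1 | h1
      · exact hxr (h1.symm.trans h)
      · exact hrW (h ▸ (hl₁new u h1).1)
    · rcases hu with h1 | h1
      · have h2 := (hl₂new u h).1
        rw [h1] at h2
        have h3 := (hl₂new u h).2.1
        rw [h1] at h3
        exact h3 (huu1 (hxW h2))
      · exact (hl₂new u h).2.1 (hl₁new u h1).2.2
  have hch1 : c₁.IsChain (fun u v => (u, v) ∈ J₂) :=
    hl₁ch.imp fun u u' h => mem_union_left _ (mem_union_right _ h)
  have hch2 : c₂.IsChain (fun u v => (u, v) ∈ J₂) :=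
    hl₂ch.imp fun u u' h => mem_union_right _ h
  set E : Finset (V × V) := pe c₁ ∪ pe c₂ with hE
  set l : List V := l₁ ++ [w₀] ++ l₂.reverse with hl
  have hJ'sub : J ∪ E ⊆ J₂ :=
    union_subset (subset_union_left.trans subset_union_left)
      (union_subset (pe_sub c₁ hch1) (pe_sub c₂ hch2))
  have him : E.image Prod.snd ∪ {w₀} = l.toFinset := by
    rw [hE, image_union, pe_snd, pe_snd, hl]
    ext y
    simp only [hc₁, hc₂, mem_union, List.tail_cons, List.mem_toFinset, List.mem_append,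
      List.mem_singleton, List.mem_reverse, mem_singleton]
    tauto
  have hused' : used (J ∪ E) (F ∪ {w₀}) = used J F ∪ l.toFinset := by
    rw [← him, used_union]
    unfold used
    ext y
    simp only [mem_union]
    tauto
  have htl : ∀ e ∈ E, e.1 = x ∨ e.1 = r ∨ e.1 ∈ l := by
    intro e he
    rw [hE, mem_union] at he
    rcases he with he | he
    · have h1 := pe_fst c₁ e he
      rw [hc₁, List.mem_cons] at h1
      rcases h1 with h1 | h1
      · exact Or.inl h1
      · exact Or.inr (Or.inr (by rw [hl]; simp [h1]))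
    · have h1 := pe_fst c₂ e he
      rw [hc₂, List.mem_cons] at h1
      rcases h1 with h1 | h1
      · exact Or.inr (Or.inl h1)
      · exact Or.inr (Or.inr (by rw [hl]; simp [h1]))
  have hOK : OK H W d m (J ∪ E) (F ∪ {w₀}) := by
    refine hSHR V H W d m J₂ (J ∪ E) (insert w₀ F) (F ∪ {w₀}) hO3 hJ'sub ?_ ?_
    · intro y hy
      rw [mem_union, mem_singleton] at hy
      rw [mem_insert]
      tauto
    · intro e he heW
      rw [hused']
      rw [mem_union] at he
      rcases he with he | he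
      · exact mem_union_left _ (hO.tail e he heW)
      · rcases htl e he with h | h | h
        · rw [h] at heW ⊢
          exact mem_union_left _ (hxW heW)
        · rw [h] at heW
          exact absurd heW hrW
        · exact mem_union_right _ (List.mem_toFinset.2 h)
  have hadj : ∀ u u', (u, u') ∈ J₂ → H.Adj u u' := fun u u' h => hO2.adj (u, u') h
  have hl₁nd' : l₁.Nodup := (List.nodup_cons.1 hl₁nd).2
  have hl₂nd' : l₂.Nodup := (List.nodup_cons.1 hl₂nd).2
  refine ⟨x, hxX, r, hrR, l, E, {w₀}, hOK, ⟨?_, ?_, ?_⟩, ?_, him, htl, ?_⟩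
  · rw [hl]
    simp only [List.length_append, List.length_singleton, List.length_reverse]
    omega
  · -- Nodup
    rw [hl, List.nodup_append]
    refine ⟨?_, List.nodup_reverse.2 hl₂nd', ?_⟩
    · rw [List.nodup_append]
      refine ⟨hl₁nd', by simp, ?_⟩
      intro y hy y' hy' hyy
      rw [List.mem_singleton] at hy'
      rw [hyy, hy'] at hy
      exact hw3 (huu2 (hl₁new _ hy).2.2)
    · intro y hy y' hy' hyy
      rw [List.mem_reverse] at hy'
      rw [← hyy] at hy'
      rw [List.mem_append, List.mem_singleton] at hy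
      rcases hy with h | h
      · exact hc12 y (by rw [hc₁]; exact List.mem_cons_of_mem _ h)
          (by rw [hc₂]; exact List.mem_cons_of_mem _ hy')
      · rw [h] at hy'
        exact hw3 (hl₂new _ hy').2.2
  · -- the chain
    have e1 : x :: (l ++ [r]) = c₁ ++ ([w₀] ++ c₂.reverse) := by
      rw [hl, hc₁, hc₂]
      simp [List.append_assoc]
    rw [e1, List.isChain_append, List.isChain_append]
    refine ⟨?_, ⟨by simp, ?_, ?_⟩, ?_⟩
    · exact hch1.imp hadj
    · rw [List.isChain_reverse]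
      exact hch2.imp fun u u' h => (hadj u u' h).symm
    · intro u hu u' hu'
      have h1 : w₀ = u := by simpa using hu
      rw [List.head?_reverse] at hu'
      rw [hc₂, hl₂last] at hu'
      have h2 : x₂ = u' := by simpa using hu'
      rw [← h1, ← h2]
      exact hx₂w.symm
    · intro u hu u' hu'
      rw [hc₁, hl₁last] at hu
      have h1 : x₁ = u := by simpa using hu
      have h2 : w₀ = u' := by simpa using hu'
      rw [← h1, ← h2]
      exact hx₁w
  · intro y hy
    rw [hl] at hy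
    simp only [List.mem_append, List.mem_singleton, List.mem_reverse] at hy
    rcases hy with (h | h) | h
    · exact ⟨(hl₁new y h).1, (hl₁new y h).2.1⟩
    · rw [h]; exact ⟨hw₀W, fun h1 => hw3 (huu2 (huu1 h1))⟩
    · exact ⟨(hl₂new y h).1, fun h1 => (hl₂new y h).2.1 (huu1 h1)⟩
  · intro u
    rw [hE, filter_union]
    by_cases hu : u ∈ c₁
    · have h2 := pe_cnt0 c₂ u (hc12 u hu)
      have h3 := pe_cnt c₁ hl₁nd u
      rw [h2, union_empty]
      exact h3
    · have h2 := pe_cnt0 c₁ u hu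
      have h3 := pe_cnt c₂ hl₂nd u
      rw [h2, empty_union]
      exact h3

end Pool.Agent.RSL
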