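import Pool.Agent.RSL.Targets
import Pool.Agent.RST.GNP

/-!
# `G(n,p)` is good with high probability for `p ≥ C log n / n`
-/

set_option autoImplicit false

open Finset Filter Topology

namespace Pool.Agent.RSL

open Pool.Agent.RST

open Pool.Agent.RST.GNP_

attribute [local instance] Pool.Agent.RST.GNP_.instFG

open Classical in
theorem pGNPL (h : T_GSUM) : T_GNPL := by
  intro η hη hη1
  refine ⟨8 / η ^ 2, by positivity, ?_⟩
  intro p hp hpn
  have hrw : (fun n : ℕ => ∑ᶠ G : SimpleGraph (Fin n),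
      if Good G η (p n) then wG (p n) G else 0) =
      fun n : ℕ => wt (p n) (fun G : SimpleGraph (Fin n) => Good G η (p n)) := by
    funext n
    rw [finsum_eq_sum_of_fintype]
    rfl
  rw [hrw]
  have hbad : Tendsto (fun n : ℕ => ((1 + (n : ℝ)⁻¹ ^ 3) ^ n - 1) ^ 2 +
      2 * (Real.exp 1 * (n : ℝ)⁻¹)) atTop (𝓝 0) := by
    have hinv : Tendsto (fun n : ℕ => (n : ℝ)⁻¹) atTop (𝓝 0) := tendsto_inv_atTop_nhds_zero_nat
    have h1 : Tendsto (fun n : ℕ => (1 + (n : ℝ)⁻¹ ^ 3) ^ n - 1) atTop (𝓝 0) := by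
      have hup : Tendsto (fun n : ℕ => Real.exp ((n : ℝ)⁻¹ ^ 2) - 1) atTop (𝓝 0) := by
        have h2 := (Real.continuous_exp.tendsto _).comp (hinv.pow 2)
        have h3 := h2.sub_const 1
        simpa using h3
      refine squeeze_zero' ?_ ?_ hup
      · refine Eventually.of_forall fun n => ?_
        have : (1 : ℝ) ≤ (1 + (n : ℝ)⁻¹ ^ 3) ^ n := by
          apply one_le_pow₀
          have : (0 : ℝ) ≤ (n : ℝ)⁻¹ ^ 3 := by positivity
          linarith
        linarith
      · filter_upwards [eventually_ge_atTop 1] with n hn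
        have hn0 : (0 : ℝ) < n := by exact_mod_cast hn
        have h2 : (1 + (n : ℝ)⁻¹ ^ 3) ^ n ≤ Real.exp ((n : ℝ)⁻¹ ^ 2) := by
          have h3 : (1 + (n : ℝ)⁻¹ ^ 3) ≤ Real.exp ((n : ℝ)⁻¹ ^ 3) := by
            have := Real.add_one_le_exp ((n : ℝ)⁻¹ ^ 3)
            linarith
          have h4 : (1 + (n : ℝ)⁻¹ ^ 3) ^ n ≤ Real.exp ((n : ℝ)⁻¹ ^ 3) ^ n :=
            pow_le_pow_left₀ (by positivity) h3 n
          rw [← Real.exp_nat_mul] at h4
          have h5 : (n : ℝ) * (n : ℝ)⁻¹ ^ 3 = (n : ℝ)⁻¹ ^ 2 := by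
            field_simp
          rwa [h5] at h4
        linarith
    have h3 := (h1.pow 2).add ((hinv.const_mul (Real.exp 1)).const_mul 2)
    simpa using h3
  have hlow : Tendsto (fun n : ℕ => 1 - (((1 + (n : ℝ)⁻¹ ^ 3) ^ n - 1) ^ 2 +
      2 * (Real.exp 1 * (n : ℝ)⁻¹))) atTop (𝓝 1) := by
    have := hbad.const_sub 1
    simpa using this
  refine tendsto_of_tendsto_of_tendsto_of_le_of_le' hlow tendsto_const_nhds ?_ ?_
  · filter_upwards [hpn, eventually_ge_atTop 1] with n h1 hn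
    have hn0 : (0 : ℝ) < n := by exact_mod_cast hn
    have h2 := wt_bad h (n := n) (hp n).1 (hp n).2 hη hη1 hn
    have h3 := wt_compl (p := p n) (fun G : SimpleGraph (Fin n) => Good G η (p n))
    rw [total h n (hp n).1 (hp n).2] at h3
    have h4 : 8 / η ^ 2 * Real.log n ≤ p n * n := by
      rw [div_le_iff₀ hn0] at h1
      exact h1
    have h5 : n * Real.exp (-(η ^ 2 / 4 * (p n * n)) + 1) ≤ Real.exp 1 * (n : ℝ)⁻¹ := by
      have h6 : Real.exp (-(η ^ 2 / 4 * (p n * n)) + 1) ≤ Real.exp (-(2 * Real.log n) + 1) := by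
        refine Real.exp_le_exp.2 ?_
        have h7 : η ^ 2 / 4 * (8 / η ^ 2 * Real.log n) ≤ η ^ 2 / 4 * (p n * n) :=
          mul_le_mul_of_nonneg_left h4 (by positivity)
        have h8 : η ^ 2 / 4 * (8 / η ^ 2 * Real.log n) = 2 * Real.log n := by
          field_simp
          ring
        linarith
      have h9 : Real.exp (-(2 * Real.log n) + 1) = Real.exp 1 * ((n : ℝ)⁻¹ * (n : ℝ)⁻¹) := by
        have h10 : Real.exp (-Real.log n) = (n : ℝ)⁻¹ := by
          rw [Real.exp_neg, Real.exp_log hn0]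
        rw [← h10, ← Real.exp_add, ← Real.exp_add]
        congr 1
        ring
      rw [h9] at h6
      calc n * Real.exp (-(η ^ 2 / 4 * (p n * n)) + 1)
          ≤ n * (Real.exp 1 * ((n : ℝ)⁻¹ * (n : ℝ)⁻¹)) := mul_le_mul_of_nonneg_left h6 hn0.le
        _ = Real.exp 1 * (n : ℝ)⁻¹ := by
          field_simp
    linarith
  · refine Eventually.of_forall fun n => ?_
    have h3 := wt_compl (p := p n) (fun G : SimpleGraph (Fin n) => Good G η (p n))
    rw [total h n (hp n).1 (hp n).2] at h3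
    have h4 := wt_nonneg (n := n) (hp n).1 (hp n).2 (fun G => ¬ Good G η (p n))
    linarith

end Pool.Agent.RSL
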