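import Pool.Agent.RSL.Targets

/-!
# GRDL: many leaf parents with disjoint chains
-/

set_option autoImplicit false

open Finset

namespace Pool.Agent.RSL

open Pool.Agent.RST

namespace GRDL_

/-- descendants of `v` of depth `k` -/
def De (n : ℕ) (par : ℕ → ℕ) (k v : ℕ) : Finset ℕ :=
  (range n).filter (fun y => par^[k] y = v ∧ ∀ j' < k, 0 < par^[j'] y)

theorem lt_n {n : ℕ} {par : ℕ → ℕ} (hV : VT n par) {y k : ℕ} (hy : y < n)
    (h : ∀ j' < k, 0 < par^[j'] y) : ∀ i ≤ k, par^[i] y < n := by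
  intro i
  induction i with
  | zero => intro _; exact hy
  | succ i ih =>
    intro hi
    rw [Function.iterate_succ_apply']
    have h1 := ih (by omega)
    exact lt_trans (hV _ (h i (by omega)) h1) h1

theorem De_card {n Δ : ℕ} {par : ℕ → ℕ} (hV : VT n par) (hB : BD n par Δ) :
    ∀ k v, (De n par k v).card ≤ Δ ^ k := by
  intro k
  induction k with
  | zero =>
    intro v
    have h1 : De n par 0 v ⊆ {v} := by
      intro y hy
      rw [De, mem_filter] at hy
      rw [mem_singleton]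
      exact hy.2.1
    calc (De n par 0 v).card ≤ ({v} : Finset ℕ).card := card_le_card h1
      _ = Δ ^ 0 := by simp
  | succ k ih =>
    intro v
    have h1 : De n par (k + 1) v ⊆ (chd n par v).biUnion (De n par k) := by
      intro y hy
      rw [De, mem_filter, mem_range] at hy
      obtain ⟨hyn, hyv, hpos⟩ := hy
      rw [mem_biUnion]
      refine ⟨par^[k] y, ?_, ?_⟩
      · rw [chd, mem_filter, mem_range]
        refine ⟨lt_n hV hyn hpos k (by omega), hpos k (by omega), ?_⟩
        rw [← hyv, Function.iterate_succ_apply']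
      · rw [De, mem_filter, mem_range]
        exact ⟨hyn, rfl, fun j' hj' => hpos j' (by omega)⟩
    calc (De n par (k + 1) v).card ≤ ((chd n par v).biUnion (De n par k)).card := card_le_card h1
      _ ≤ ∑ u ∈ chd n par v, (De n par k u).card := card_biUnion_le
      _ ≤ ∑ u ∈ chd n par v, Δ ^ k := sum_le_sum fun u _ => ih u
      _ = (chd n par v).card * Δ ^ k := by rw [sum_const, smul_eq_mul]
      _ ≤ Δ * Δ ^ k := Nat.mul_le_mul_right _ (hB v)
      _ = Δ ^ (k + 1) := by ring

/-- descendants of `v` of depth at most `D` -/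
def Du (n : ℕ) (par : ℕ → ℕ) (D v : ℕ) : Finset ℕ := (range (D + 1)).biUnion fun k => De n par k v

theorem geom (Δ : ℕ) : ∀ D, ∑ k ∈ range (D + 1), Δ ^ k ≤ (Δ + 1) ^ D := by
  intro D
  induction D with
  | zero => simp
  | succ D ih =>
    rw [sum_range_succ]
    have h1 : Δ ^ D ≤ (Δ + 1) ^ D := Nat.pow_le_pow_left (by omega) D
    calc ∑ k ∈ range (D + 1), Δ ^ k + Δ ^ (D + 1) ≤ (Δ + 1) ^ D + Δ * Δ ^ D := by
          have : Δ ^ (D + 1) = Δ * Δ ^ D := by ring
          omega
      _ ≤ (Δ + 1) ^ D + Δ * (Δ + 1) ^ D := by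
          have := Nat.mul_le_mul_left Δ h1
          omega
      _ = (Δ + 1) ^ (D + 1) := by ring

theorem Du_card {n Δ : ℕ} {par : ℕ → ℕ} (hV : VT n par) (hB : BD n par Δ) (D v : ℕ) :
    (Du n par D v).card ≤ (Δ + 1) ^ D :=
  calc (Du n par D v).card ≤ ∑ k ∈ range (D + 1), (De n par k v).card := card_biUnion_le
    _ ≤ ∑ k ∈ range (D + 1), Δ ^ k := sum_le_sum fun k _ => De_card hV hB k v
    _ ≤ (Δ + 1) ^ D := geom Δ D

theorem succ_le_pow (Δ : ℕ) (hΔ : 1 ≤ Δ) : ∀ D, D + 1 ≤ (Δ + 1) ^ D := by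
  intro D
  have h1 : D + 1 ≤ 2 ^ D := Nat.lt_two_pow_self
  exact le_trans h1 (Nat.pow_le_pow_left (by omega) D)

end GRDL_

open GRDL_ in
open Classical in
theorem pGRDL : T_GRDL := by
  intro Δ n D t₁ t₂ par hΔ hD hV hB ht0 ht12 ht2 hdesc
  -- candidates
  set C : Finset ℕ := (lp n par).filter
    (fun y => t₁ ≤ y ∧ y < t₂ ∧ ∀ j ≤ D, t₁ ≤ par^[j] y) with hC
  set P : Finset ℕ → Prop := fun S => ∀ a ∈ S, ∀ a' ∈ S, a ≠ a' → ∀ j ≤ D, ∀ j' ≤ D,
    par^[j] a ≠ par^[j'] a' with hP
  obtain ⟨S, hS, hmax⟩ := exists_max_image (C.powerset.filter P) card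
    ⟨∅, by
      rw [mem_filter]
      exact ⟨empty_mem_powerset _, fun a ha => absurd ha (notMem_empty a)⟩⟩
  rw [mem_filter, mem_powerset] at hS
  obtain ⟨hSC, hSP⟩ := hS
  have hCmem : ∀ y, y ∈ C ↔ y ∈ lp n par ∧ t₁ ≤ y ∧ y < t₂ ∧ ∀ j ≤ D, t₁ ≤ par^[j] y := by
    intro y
    rw [hC, mem_filter]
  refine ⟨S, fun a ha => ((hCmem a).1 (hSC ha)).1, fun a ha => ?_, hSP, ?_⟩
  · have h1 := (hCmem a).1 (hSC ha)
    exact ⟨h1.2.2.1, h1.2.2.2⟩
  -- candidates conflict with members of S
  have hcov : C ⊆ S.biUnion fun a => (range (D + 1)).biUnion fun j => Du n par D (par^[j] a) := by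
    intro c hc
    have hc' := (hCmem c).1 hc
    have hcn : c < n := lt_of_lt_of_le hc'.2.2.1 ht2
    have key : ∃ a ∈ S, ∃ j ≤ D, ∃ j' ≤ D, par^[j] a = par^[j'] c := by
      by_cases hcS : c ∈ S
      · exact ⟨c, hcS, 0, by omega, 0, by omega, rfl⟩
      · by_contra hno
        push Not at hno
        have h1 : insert c S ∈ C.powerset.filter P := by
          rw [mem_filter, mem_powerset]
          refine ⟨insert_subset hc hSC, ?_⟩
          intro a ha a' ha' hne j hj j' hj'
          rw [mem_insert] at ha ha'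
          rcases ha with rfl | ha
          · rcases ha' with rfl | ha'
            · exact absurd rfl hne
            · exact (hno a' ha' j' hj' j hj).symm
          · rcases ha' with rfl | ha'
            · exact hno a ha j hj j' hj'
            · exact hSP a ha a' ha' hne j hj j' hj'
        have h2 := hmax _ h1
        rw [card_insert_of_notMem hcS] at h2
        omega
    obtain ⟨a, ha, j, hj, j', hj', he⟩ := key
    rw [mem_biUnion]
    refine ⟨a, ha, ?_⟩
    rw [mem_biUnion]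
    refine ⟨j, mem_range.2 (by omega), ?_⟩
    rw [Du, mem_biUnion]
    refine ⟨j', mem_range.2 (by omega), ?_⟩
    rw [De, mem_filter, mem_range]
    exact ⟨hcn, he.symm, fun i hi => lt_of_lt_of_le ht0 (hc'.2.2.2 i (by omega))⟩
  have hCcard : C.card ≤ (Δ + 1) ^ (2 * D) * S.card := by
    have h1 : ∀ a ∈ S, ((range (D + 1)).biUnion fun j => Du n par D (par^[j] a)).card ≤
        (Δ + 1) ^ (2 * D) := by
      intro a _
      calc ((range (D + 1)).biUnion fun j => Du n par D (par^[j] a)).card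
          ≤ ∑ j ∈ range (D + 1), (Du n par D (par^[j] a)).card := card_biUnion_le
        _ ≤ ∑ j ∈ range (D + 1), (Δ + 1) ^ D := sum_le_sum fun j _ => Du_card hV hB D _
        _ = (D + 1) * (Δ + 1) ^ D := by rw [sum_const, smul_eq_mul, card_range]
        _ ≤ (Δ + 1) ^ D * (Δ + 1) ^ D := Nat.mul_le_mul_right _ (succ_le_pow Δ hΔ D)
        _ = (Δ + 1) ^ (2 * D) := by ring
    calc C.card ≤ (S.biUnion fun a =>
            (range (D + 1)).biUnion fun j => Du n par D (par^[j] a)).card := card_le_card hcov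
      _ ≤ ∑ a ∈ S, ((range (D + 1)).biUnion fun j => Du n par D (par^[j] a)).card :=
          card_biUnion_le
      _ ≤ ∑ a ∈ S, (Δ + 1) ^ (2 * D) := sum_le_sum h1
      _ = (Δ + 1) ^ (2 * D) * S.card := by rw [sum_const, smul_eq_mul, mul_comm]
  -- the others
  have hsub : (lp n par).filter (fun y => t₁ ≤ y ∧ y < t₂) ⊆ C ∪ Du n par D t₁ := by
    intro y hy
    rw [mem_filter] at hy
    obtain ⟨hyl, hy1, hy2⟩ := hy
    have hyn : y < n := lt_of_lt_of_le hy2 ht2
    obtain ⟨k, hk, hk'⟩ := hdesc y hy1 hyn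
    rw [mem_union]
    by_cases hkD : k ≤ D
    · right
      rw [Du, mem_biUnion]
      refine ⟨k, mem_range.2 (by omega), ?_⟩
      rw [De, mem_filter, mem_range]
      exact ⟨hyn, hk, fun i hi => lt_trans ht0 (hk' i hi)⟩
    · left
      rw [hCmem]
      exact ⟨hyl, hy1, hy2, fun j hj => (hk' j (by omega)).le⟩
  have hp : 1 ≤ Δ + 1 := by omega
  calc ((lp n par).filter (fun y => t₁ ≤ y ∧ y < t₂)).card
      ≤ (C ∪ Du n par D t₁).card := card_le_card hsub
    _ ≤ C.card + (Du n par D t₁).card := card_union_le _ _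
    _ ≤ (Δ + 1) ^ (2 * D) * S.card + (Δ + 1) ^ D := Nat.add_le_add hCcard (Du_card hV hB D t₁)
    _ ≤ (Δ + 1) ^ (2 * D + 2) * S.card + (Δ + 1) ^ (2 * D + 2) := by
        apply Nat.add_le_add
        · exact Nat.mul_le_mul_right _ (Nat.pow_le_pow_right hp (by omega))
        · exact Nat.pow_le_pow_right hp (by omega)
    _ = (Δ + 1) ^ (2 * D + 2) * (S.card + 1) := by ring

end Pool.Agent.RSL
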