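import Pool.Agent.RSL.Targets
import Pool.Agent.RST.GROW

/-!
# GRO: growing from many vertices
-/

set_option autoImplicit false

open Finset

namespace Pool.Agent.RSL

open Pool.Agent.RST Pool.Agent.RST.GROW_

theorem pGRO (hS : T_STEP) : T_GRO := by
  intro V _ _ H W d m b j J F X hOK hm hb hbd hN hX hW
  have key : ∀ i : ℕ, i ≤ j → ∃ (E : Finset (V × V)) (L : Finset V), OK H W d m (J ∪ E) F ∧
      (E.image Prod.snd).card ≤ 2 * b ^ i * X.card ∧
      (∀ e ∈ E, e.2 ∈ W ∧ e.2 ∉ used J F) ∧ (∀ e ∈ E, e.1 ∈ X ∨ e.1 ∈ E.image Prod.snd) ∧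
      L.card = b ^ i * X.card ∧
      (∀ y ∈ L, ∃ x ∈ X, ∃ l : List V, l.length = i ∧
        (x :: l).IsChain (fun u v => (u, v) ∈ E) ∧ (x :: l).getLast? = some y ∧ (x :: l).Nodup ∧
        ∀ v ∈ l, v ∈ E.image Prod.snd) ∧
      (∀ y ∈ L, y ∈ X ∨ y ∈ E.image Prod.snd) ∧
      ∀ y ∈ L, od (J ∪ E) y + b ≤ d ∧ (y ∈ W → y ∈ used (J ∪ E) F) := by
    intro i
    induction i with
    | zero =>
      intro _
      refine ⟨∅, X, by simpa using hOK, by simp, by simp, by simp, by simp, ?_, ?_, ?_⟩
      · intro y hy
        exact ⟨y, hy, [], rfl, by simp, by simp, by simp, by simp⟩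
      · intro y hy; exact Or.inl hy
      · intro y hy
        rw [union_empty]
        exact hX y hy
    | succ i ih =>
      intro hi
      obtain ⟨E, L, h1, h2, h3, h4, h5, h6, h7, h8⟩ := ih (by omega)
      have hcard : (used (J ∪ E) F).card ≤ (used J F).card + 2 * b ^ i * X.card := by
        rw [used_union]
        exact (card_union_le _ _).trans (Nat.add_le_add_left h2 _)
      have hpow : 2 * b ^ i * X.card ≤ b ^ (i + 1) * X.card := by
        refine Nat.mul_le_mul_right _ ?_
        rw [pow_succ, mul_comm]
        exact Nat.mul_le_mul_left _ hb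
      have hbL : b * L.card = b ^ (i + 1) * X.card := by
        rw [h5, ← mul_assoc, pow_succ]
        ring
      have hpow2 : b ^ (i + 1) * X.card ≤ b ^ j * X.card :=
        Nat.mul_le_mul_right _ (Nat.pow_le_pow_right (by omega) hi)
      have e1 : 2 * b ^ j * X.card = 2 * (b ^ j * X.card) := by ring
      obtain ⟨E', hE1, hE2, hE3, hE4⟩ := star hS H W d m b (J ∪ E) F h1 hm hN L h8 (by
        rw [hbL]; omega)
      have hun : J ∪ (E ∪ E') = J ∪ E ∪ E' := by rw [union_assoc]
      have hnotE : ∀ w ∈ E'.image Prod.snd, w ∉ used J F := by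
        intro w hw h
        apply (hE3 w hw).2
        rw [used_union]
        exact mem_union_left _ h
      have hnotE2 : ∀ w ∈ E'.image Prod.snd, w ∉ E.image Prod.snd := by
        intro w hw h
        apply (hE3 w hw).2
        rw [used_union]
        exact mem_union_right _ h
      refine ⟨E ∪ E', E'.image Prod.snd, ?_, ?_, ?_, ?_, ?_, ?_, ?_, ?_⟩
      · rw [hun]; exact hE1
      · rw [image_union]
        refine (card_union_le _ _).trans ?_
        rw [hE2, hbL]
        have e2 : 2 * b ^ (i + 1) * X.card = 2 * (b ^ (i + 1) * X.card) := by ring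
        omega
      · intro e he
        rcases mem_union.1 he with he | he
        · exact h3 e he
        · have hm' := mem_image_of_mem Prod.snd he
          exact ⟨(hE3 _ hm').1, hnotE _ hm'⟩
      · intro e he
        rw [image_union, mem_union]
        rcases mem_union.1 he with he | he
        · rcases h4 e he with h | h
          · exact Or.inl h
          · exact Or.inr (Or.inl h)
        · rcases h7 _ (hE4 e he) with h | h
          · exact Or.inl h
          · exact Or.inr (Or.inl h)
      · rw [hE2, hbL]
      · intro w hw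
        have hw3 := hE3 w hw
        obtain ⟨e, he, hew⟩ := mem_image.1 hw
        obtain ⟨x, hx, l, g1, g2, g3, g4, g5⟩ := h6 e.1 (hE4 e he)
        refine ⟨x, hx, l ++ [w], by simp [g1], ?_, ?_, ?_, ?_⟩
        · rw [← List.cons_append, List.isChain_append]
          refine ⟨g2.imp fun u v h => mem_union_left _ h, by simp, ?_⟩
          intro x hx z hz
          rw [g3] at hx
          simp only [Option.mem_def, Option.some.injEq, List.head?_cons] at hx hz
          rw [← hx, ← hz, ← hew]
          exact mem_union_right _ he
        · rw [← List.cons_append, List.getLast?_append]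
          simp
        · rw [← List.cons_append, List.nodup_append]
          refine ⟨g4, by simp, ?_⟩
          intro v hv z hz
          rw [List.mem_singleton] at hz
          rw [hz]
          rintro rfl
          rcases List.mem_cons.1 hv with rfl | hv
          · exact hnotE _ hw ((hX _ hx).2 hw3.1)
          · exact hnotE2 _ hw (g5 _ hv)
        · intro v hv
          rw [image_union, mem_union]
          rcases List.mem_append.1 hv with hv | hv
          · exact Or.inl (g5 v hv)
          · rw [List.mem_singleton] at hv
            rw [hv]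
            exact Or.inr hw
      · intro w hw
        rw [image_union, mem_union]
        exact Or.inr (Or.inr hw)
      · intro w hw
        have hw3 := hE3 w hw
        rw [hun]
        constructor
        · have hwL : w ∉ L := fun h => hw3.2 ((h8 w h).2 hw3.1)
          rw [od_union_of_ne _ _ L hE4 hwL, od_eq_zero h1 hw3.1 hw3.2]
          omega
        · intro _
          rw [used_union]
          exact mem_union_right _ hw
  obtain ⟨E, L, h1, h2, h3, h4, h5, h6, _, _⟩ := key j le_rfl
  refine ⟨E, L, h1, h2, h3, h4, h5, ?_⟩
  intro y hy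
  obtain ⟨x, hx, l, g1, g2, g3, g4, _⟩ := h6 y hy
  exact ⟨x, hx, l, g1, g2, g3, g4⟩

end Pool.Agent.RSL
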