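import Pool.Agent.RSL.Targets

/-!
# LEV: the special leaf parents
-/

set_option autoImplicit false

open Finset

namespace Pool.Agent.RSL

open Pool.Agent.RST

namespace LEV_

/-- the least level -/
theorem exists_I (b m : ℕ) (hb : 2 ≤ b) (hm : 1 ≤ m) : ∃ I, 1 ≤ I ∧ m ≤ b ^ I ∧ b ^ I ≤ b * m := by
  have h0 : ∃ I, m ≤ b ^ (I + 1) := by
    refine ⟨m, ?_⟩
    calc m ≤ 2 ^ m := Nat.lt_two_pow_self.le
      _ ≤ b ^ m := Nat.pow_le_pow_left hb m
      _ ≤ b ^ (m + 1) := Nat.pow_le_pow_right (by omega) (by omega)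
  classical
  let J := Nat.find h0
  have hJ : m ≤ b ^ (J + 1) := Nat.find_spec h0
  refine ⟨J + 1, by omega, hJ, ?_⟩
  rcases Nat.eq_zero_or_pos J with h | h
  · rw [h, zero_add, pow_one]
    exact Nat.le_mul_of_pos_right b (by omega)
  · have h1 : ¬ m ≤ b ^ (J - 1 + 1) := Nat.find_min h0 (by omega : J - 1 < J)
    rw [Nat.sub_add_cancel h] at h1
    rw [pow_succ, mul_comm]
    exact Nat.mul_le_mul_left b (by omega)

theorem lv_le (n Δ : ℕ) (par : ℕ → ℕ) (hV : VT n par) (hB : BD n par Δ) (hn : 2 ≤ n) :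
    (lv n par).card ≤ Δ * (lp n par).card := by
  classical
  have h : ∀ x ∈ lv n par, par x ∈ lp n par := by
    intro x hx
    rw [lv, mem_filter, mem_range] at hx
    obtain ⟨hxn, hxc⟩ := hx
    have hx0 : 0 < x := by
      rcases Nat.eq_zero_or_pos x with h | h
      · exfalso
        rw [h] at hxc
        have h1 : 1 ∈ chd n par 0 := by
          rw [chd, mem_filter, mem_range]
          have := hV 1 (by omega) (by omega)
          exact ⟨by omega, by omega, by omega⟩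
        rw [hxc] at h1
        exact absurd h1 (notMem_empty _)
      · exact h
    rw [lp, mem_filter, mem_range]
    have := hV x hx0 hxn
    refine ⟨by omega, x, ?_, hxc⟩
    rw [chd, mem_filter, mem_range]
    exact ⟨hxn, hx0, rfl⟩
  rw [card_eq_sum_card_fiberwise h]
  calc ∑ y ∈ lp n par, ((lv n par).filter (fun x => par x = y)).card
      ≤ ∑ _y ∈ lp n par, Δ := by
        refine sum_le_sum fun y _ => ?_
        refine le_trans (card_le_card ?_) (hB y)
        intro x hx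
        rw [mem_filter] at hx
        obtain ⟨hx1, hx2⟩ := hx
        have hx3 := hx1
        rw [lv, mem_filter, mem_range] at hx3
        rw [chd, mem_filter, mem_range]
        refine ⟨hx3.1, ?_, hx2⟩
        rcases Nat.eq_zero_or_pos x with h0 | h0
        · exfalso
          have h1 : 1 ∈ chd n par 0 := by
            rw [chd, mem_filter, mem_range]
            have := hV 1 (by omega) (by omega)
            exact ⟨by omega, by omega, by omega⟩
          rw [h0] at hx3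
          rw [hx3.2] at h1
          exact absurd h1 (notMem_empty _)
        · exact h0
    _ = Δ * (lp n par).card := by rw [sum_const, smul_eq_mul, mul_comm]

theorem sum_geo (I : ℕ) : ∑ i ∈ Icc 1 I, (2 * (i : ℝ) + 4) * (1 / 2) ^ (i - 1) ≤ 16 := by
  have h : ∀ I : ℕ, ∑ i ∈ Icc 1 I, (2 * (i : ℝ) + 4) * (1 / 2) ^ (i - 1) =
      16 - (4 * I + 16) * (1 / 2) ^ I := by
    intro I
    induction I with
    | zero => norm_num
    | succ I ih =>
      rw [sum_Icc_succ_top (by omega), ih]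
      simp only [Nat.add_sub_cancel]
      push_cast
      rw [pow_succ]
      ring
  rw [h]
  have : 0 ≤ (4 * (I : ℝ) + 16) * (1 / 2) ^ I := by positivity
  linarith

theorem sum_lin (I : ℕ) : ∑ i ∈ Icc 1 I, (2 * (i : ℝ) + 4) = (I : ℝ) ^ 2 + 5 * I := by
  induction I with
  | zero => norm_num
  | succ I ih =>
    rw [sum_Icc_succ_top (by omega), ih]
    push_cast
    ring

theorem quad (q I : ℕ) (hq : 64 ≤ q) (hI : 1 ≤ I) : I ^ 2 + 5 * I ≤ q ^ I := by
  have h1 : 64 ^ I ≤ q ^ I := Nat.pow_le_pow_left hq I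
  refine le_trans ?_ h1
  induction I with
  | zero => omega
  | succ I ih =>
    rcases Nat.eq_zero_or_pos I with h | h
    · subst h
      norm_num
    · have := ih h (Nat.pow_le_pow_left hq I)
      rw [pow_succ 64]
      nlinarith

end LEV_

open LEV_ in
theorem pLEV (h1 : T_WALK) (h2 : T_ORDR) (h3 : T_GRDL) : T_LEV := by
  intro Δ k₀ α θ ε₁ hΔ hk hα hθ hθ2 hε
  classical
  set q : ℕ := 4 * Δ * (Δ + 1) ^ 4 with hq
  have hq64 : 64 ≤ q := by
    rw [hq]
    calc 64 = 4 * 1 * (1 + 1) ^ 4 := by norm_num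
      _ ≤ 4 * Δ * (Δ + 1) ^ 4 := by gcongr
  set b : ℕ := q ^ 2 with hb
  have hb2 : 2 ≤ b := by rw [hb]; nlinarith
  have hΔ' : (1 : ℝ) ≤ Δ := by exact_mod_cast hΔ
  have hk' : (1 : ℝ) ≤ k₀ := by exact_mod_cast hk
  have hbR : (2 : ℝ) ≤ b := by exact_mod_cast hb2
  set c1 : ℝ := θ * α / (Δ * (Δ + 1) ^ 6) with hc1
  have hc1p : 0 < c1 := by positivity
  set εm : ℝ := min (c1 / ((k₀ + 3) * b)) (min (ε₁ / (32 * (k₀ + 1))) (1 / b)) with hεm
  have hεmp : 0 < εm := by
    refine lt_min (by positivity) (lt_min (by positivity) (by positivity))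
  set X : ℝ := max (8 * Δ ^ 2 / (θ * α)) (2 / ε₁) with hX
  refine ⟨b, εm, ⌈X ^ 2⌉₊ + 2, hb2, hεmp, ?_⟩
  intro n hn m hm hmn par hV hB hlv
  have hn2 : 2 ≤ n := by omega
  have hnX : X ^ 2 ≤ n := by
    calc X ^ 2 ≤ ⌈X ^ 2⌉₊ := Nat.le_ceil _
      _ ≤ n := by exact_mod_cast (by omega : ⌈X ^ 2⌉₊ ≤ n)
  have hn0 : (0 : ℝ) < n := by exact_mod_cast (by omega : 0 < n)
  have hm0 : (1 : ℝ) ≤ m := by exact_mod_cast hm
  have e1 : (m : ℝ) * ((k₀ + 3) * b) ≤ c1 * n := by
    have : (m : ℝ) ≤ c1 / ((k₀ + 3) * b) * n :=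
      hmn.trans (mul_le_mul_of_nonneg_right (min_le_left _ _) hn0.le)
    rw [div_mul_eq_mul_div, le_div_iff₀ (by positivity)] at this
    exact this
  have e2 : (m : ℝ) * (32 * (k₀ + 1)) ≤ ε₁ * n := by
    have : (m : ℝ) ≤ ε₁ / (32 * (k₀ + 1)) * n :=
      hmn.trans (mul_le_mul_of_nonneg_right ((min_le_right _ _).trans (min_le_left _ _)) hn0.le)
    rw [div_mul_eq_mul_div, le_div_iff₀ (by positivity)] at this
    exact this
  have e3 : (m : ℝ) * b ≤ n := by
    have : (m : ℝ) ≤ 1 / b * n :=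
      hmn.trans (mul_le_mul_of_nonneg_right ((min_le_right _ _).trans (min_le_right _ _)) hn0.le)
    rw [div_mul_eq_mul_div, le_div_iff₀ (by positivity), one_mul] at this
    exact this
  obtain ⟨I, hI1, hI2, hI3⟩ := exists_I b m hb2 hm
  have hbIn : b ^ I ≤ n := by
    refine hI3.trans ?_
    have : ((b * m : ℕ) : ℝ) ≤ n := by push_cast; linarith
    exact_mod_cast this
  -- q^I is at most the square root of n
  have hy : ((q : ℝ) ^ I) ^ 2 ≤ n := by
    have : ((b ^ I : ℕ) : ℝ) ≤ n := by exact_mod_cast hbIn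
    rw [hb] at this
    push_cast at this
    have h' : ((q : ℝ) ^ I) ^ 2 = ((q : ℝ) ^ 2) ^ I := by rw [← pow_mul, ← pow_mul, mul_comm]
    rw [h']
    exact this
  have hyp : (1 : ℝ) ≤ (q : ℝ) ^ I := by
    apply one_le_pow₀
    exact_mod_cast (by omega : 1 ≤ q)
  have hXp : 0 < X := lt_of_lt_of_le (by positivity : (0 : ℝ) < 2 / ε₁) (le_max_right _ _)
  have hyX : X * (q : ℝ) ^ I ≤ n := by
    have hs : X * (q : ℝ) ^ I ≤ (X ^ 2 + ((q : ℝ) ^ I) ^ 2) / 2 := by
      nlinarith [sq_nonneg (X - (q : ℝ) ^ I)]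
    linarith
  have hl : α * n ≤ Δ * (lp n par).card := by
    refine hlv.trans ?_
    exact_mod_cast lv_le n Δ par hV hB hn2
  have hwalk : 8 * (Δ : ℝ) * (4 * (Δ : ℝ)) ^ I ≤ θ * (lp n par).card := by
    have hqI : (4 * (Δ : ℝ)) ^ I ≤ (q : ℝ) ^ I := by
      apply pow_le_pow_left₀ (by positivity)
      rw [hq]
      push_cast
      have : (1 : ℝ) ≤ (Δ + 1) ^ 4 := one_le_pow₀ (by linarith)
      nlinarith
    have h4 : 8 * (Δ : ℝ) ^ 2 / (θ * α) * (q : ℝ) ^ I ≤ n := by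
      refine le_trans ?_ hyX
      gcongr
      exact le_max_left _ _
    rw [div_mul_eq_mul_div, div_le_iff₀ (by positivity)] at h4
    have h5 : Δ * (8 * (Δ : ℝ) * (4 * (Δ : ℝ)) ^ I) ≤ Δ * (θ * (lp n par).card) := by
      calc Δ * (8 * (Δ : ℝ) * (4 * (Δ : ℝ)) ^ I) = 8 * (Δ : ℝ) ^ 2 * (4 * (Δ : ℝ)) ^ I := by ring
        _ ≤ 8 * (Δ : ℝ) ^ 2 * (q : ℝ) ^ I := by gcongr
        _ ≤ n * (θ * α) := h4
        _ = θ * (α * n) := by ring
        _ ≤ θ * (Δ * (lp n par).card) := by gcongr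
        _ = _ := by ring
    exact le_of_mul_le_mul_left h5 (by positivity)
  obtain ⟨v, hv1, hv2, hv3, hv4⟩ := h1 Δ θ n I par hΔ hθ hθ2 hV hB hwalk
  obtain ⟨par', t, hV', hB', hlv', hEmb, ht1, htm, hts, hlp1, hlpi⟩ :=
    h2 Δ n I par v hV hB hv1 hv2
  have htpos : ∀ i, 1 ≤ i → i ≤ I → 0 < t i := by
    intro i hi
    induction i, hi using Nat.le_induction with
    | base => exact fun _ => ht1
    | succ i hi ih =>
      intro hi2
      exact lt_of_lt_of_le (ih (by omega)) (htm i hi (by omega)).1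
  have hlpn : (((lp n par).card : ℕ) : ℝ) ≤ n := by
    have : (lp n par).card ≤ (range n).card := card_le_card (filter_subset _ _)
    rw [card_range] at this
    exact_mod_cast this
  set s : ℕ → ℕ := fun i => (k₀ + 1) * b * m / b ^ i + 1 with hs
  have key : ∀ i, 1 ≤ i → i ≤ I → ∃ S : Finset ℕ, S ⊆ lp n par' ∧
      (∀ a ∈ S, a < t (i + 1) ∧ ∀ j ≤ 2 * i + 2, t i ≤ par'^[j] a) ∧
      (∀ a ∈ S, ∀ a' ∈ S, a ≠ a' → ∀ j ≤ 2 * i + 2, ∀ j' ≤ 2 * i + 2,
        par'^[j] a ≠ par'^[j'] a') ∧ S.card = s i := by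
    intro i hi hiI
    obtain ⟨S', hS1, hS2, hS3, hS4⟩ := h3 Δ n (2 * i + 2) (t i) (t (i + 1)) par' hΔ (by omega) hV'
      hB' (htpos i hi hiI) (htm i hi hiI).1 (htm i hi hiI).2 (hts i hi hiI)
    have hb0 : 0 < b ^ i := pow_pos (by omega) i
    have hcard : s i ≤ S'.card := by
      -- real inequality
      have g1 : θ * (lp n par).card ≤ (4 * (Δ : ℝ)) ^ i * ((Δ + 1) ^ (2 * (2 * i + 2) + 2) *
          (S'.card + 1)) := by
        refine (hv4 i hi hiI).trans ?_
        rw [← hlpi i hi hiI]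
        gcongr
        exact_mod_cast hS4
      have g2 : (4 * (Δ : ℝ)) ^ i * ((Δ + 1) ^ (2 * (2 * i + 2) + 2) * (S'.card + 1)) =
          (q : ℝ) ^ i * ((Δ + 1) ^ 6 * (S'.card + 1)) := by
        rw [hq]
        push_cast
        rw [mul_pow (4 * (Δ : ℝ)), ← pow_mul, show 2 * (2 * i + 2) + 2 = 4 * i + 6 by ring, pow_add]
        ring
      rw [g2] at g1
      have g3 : c1 * n ≤ (q : ℝ) ^ i * (S'.card + 1) := by
        rw [hc1, div_mul_eq_mul_div, div_le_iff₀ (by positivity)]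
        calc θ * α * n = θ * (α * n) := by ring
          _ ≤ θ * (Δ * (lp n par).card) := by gcongr
          _ = Δ * (θ * (lp n par).card) := by ring
          _ ≤ Δ * ((q : ℝ) ^ i * ((Δ + 1) ^ 6 * (S'.card + 1))) := by gcongr
          _ = _ := by ring
      have hqi : (1 : ℝ) ≤ (q : ℝ) ^ i := one_le_pow₀ (by exact_mod_cast (by omega : 1 ≤ q))
      have g4 : (m : ℝ) * ((k₀ + 3) * b) ≤ (b : ℝ) ^ i * (S'.card + 1) := by
        refine e1.trans (g3.trans ?_)
        gcongr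
        rw [hb]
        push_cast
        nlinarith
      have g5 : m * ((k₀ + 3) * b) ≤ b ^ i * (S'.card + 1) := by exact_mod_cast g4
      have g6 : b ^ i ≤ b * m := (Nat.pow_le_pow_right (by omega) hiI).trans hI3
      have g7 : (k₀ + 1) * b * m + b ^ i ≤ b ^ i * S'.card := by
        nlinarith
      rw [hs]
      show (k₀ + 1) * b * m / b ^ i + 1 ≤ S'.card
      rw [← Nat.add_div_right _ hb0]
      exact Nat.div_le_of_le_mul g7
    obtain ⟨S, hSS, hSc⟩ := exists_subset_card_eq hcard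
    refine ⟨S, hSS.trans hS1, fun a ha => hS2 a (hSS ha),
      fun a ha a' ha' => hS3 a (hSS ha) a' (hSS ha'), hSc⟩
  choose! S hS1 hS2 hS3 hS4 using key
  refine ⟨par', I, S, fun a => if h : ∃ x ∈ chd n par' a, chd n par' x = ∅ then h.choose else 0,
    t, hV', hB', hlv', hEmb, ⟨hI1, hI2, hI3⟩, ht1, htm, ?_, ?_, ?_⟩
  · rw [hlp1]
    refine hv3.trans ?_
    gcongr
  · intro i hi hiI
    refine ⟨hS2 i hi hiI, hS3 i hi hiI, ?_, ?_⟩
    · intro a ha
      have h := hS1 i hi hiI ha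
      rw [lp, mem_filter] at h
      simp only [h.2, dite_true]
      exact h.2.choose_spec
    · rw [hS4 i hi hiI]
      show (k₀ + 1) * b * m ≤ b ^ i * ((k₀ + 1) * b * m / b ^ i + 1)
      exact (Nat.lt_mul_div_succ _ (pow_pos (by omega) i)).le
  · have hsum : ((∑ i ∈ Icc 1 I, (2 * i + 4) * (S i).card : ℕ) : ℝ) ≤
        (k₀ + 1) * m * ∑ i ∈ Icc 1 I, (2 * (i : ℝ) + 4) * (1 / 2) ^ (i - 1) +
          ∑ i ∈ Icc 1 I, (2 * (i : ℝ) + 4) := by
      push_cast
      rw [mul_sum, ← sum_add_distrib]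
      refine sum_le_sum fun i hi => ?_
      rw [mem_Icc] at hi
      rw [hS4 i hi.1 hi.2]
      have t1 : ((s i : ℕ) : ℝ) ≤ (k₀ + 1) * m * (1 / 2) ^ (i - 1) + 1 := by
        rw [hs]
        push_cast
        gcongr
        calc ((((k₀ + 1) * b * m / b ^ i : ℕ)) : ℝ) ≤ (((k₀ + 1) * b * m : ℕ) : ℝ) / ((b ^ i : ℕ) : ℝ) :=
              Nat.cast_div_le
          _ = (k₀ + 1) * m * (1 / (b : ℝ)) ^ (i - 1) := by
              push_cast
              obtain ⟨j, hj⟩ : ∃ j, i = j + 1 := ⟨i - 1, by omega⟩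
              rw [hj, Nat.add_sub_cancel, pow_succ, one_div, inv_pow]
              field_simp
          _ ≤ (k₀ + 1) * m * (1 / 2) ^ (i - 1) := by
              gcongr
      calc (2 * (i : ℝ) + 4) * (s i : ℕ) ≤ (2 * (i : ℝ) + 4) * ((k₀ + 1) * m * (1 / 2) ^ (i - 1) + 1) := by
            gcongr
        _ = _ := by ring
    refine hsum.trans ?_
    rw [sum_lin]
    have t2 : (I : ℝ) ^ 2 + 5 * I ≤ (q : ℝ) ^ I := by exact_mod_cast quad q I hq64 hI1
    have t3 : 2 / ε₁ * (q : ℝ) ^ I ≤ n := by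
      refine le_trans ?_ hyX
      gcongr
      exact le_max_right _ _
    rw [div_mul_eq_mul_div, div_le_iff₀ hε] at t3
    have t4 : (k₀ + 1) * (m : ℝ) * ∑ i ∈ Icc 1 I, (2 * (i : ℝ) + 4) * (1 / 2) ^ (i - 1) ≤
        (k₀ + 1) * m * 16 := by
      gcongr
      exact sum_geo I
    nlinarith

end Pool.Agent.RSL
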