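import Pool.Agent.RSL.Targets
import Pool.Agent.RST.MAIN

/-!
# MAINL: the main theorem of the project RSL
-/

set_option autoImplicit false

open Finset Filter Topology

namespace Pool.Agent.RSL

open Pool.Agent.RST

namespace MAINL_

/-- from a rooted embedding to an embedding of the tree -/
lemma trees (h2 : T_RELL) {n Δ : ℕ} {α : ℝ} (hα : 0 < α) (hn : 2 / α ≤ (n : ℝ))
    (H T : SimpleGraph (Fin n)) (hT : T.IsTree)
    (hD : ∀ v : Fin n, (T.neighborSet v).ncard ≤ Δ)
    (hL : α * n ≤ (({v : Fin n | (T.neighborSet v).ncard = 1}.ncard : ℕ) : ℝ))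
    (hE : ∀ par : ℕ → ℕ, VT n par → BD n par Δ → α / 2 * n ≤ (lv n par).card →
      ∃ f : ℕ → Fin n, Emb H n par f) :
    ∃ f : Fin n → Fin n, Function.Injective f ∧ ∀ u v : Fin n, T.Adj u v → H.Adj (f u) (f v) := by
  obtain ⟨par, σ, hVT, hσ, hadj, hchd, hlv⟩ := h2 n T hT
  have hBD : BD n par Δ := by
    intro v
    by_cases hv : v < n
    · exact le_trans (hchd v hv) (hD _)
    · have : chd n par v = ∅ := by
        unfold chd
        apply Finset.filter_eq_empty_iff.2
        intro j hj hjv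
        have h1 := hVT j hjv.1 (Finset.mem_range.1 hj)
        have h3 := Finset.mem_range.1 hj
        omega
      rw [this]
      simp
  have hleaf : α / 2 * n ≤ (lv n par).card := by
    have h1 : (({v : Fin n | (T.neighborSet v).ncard = 1}.ncard : ℕ) : ℝ) ≤
        (lv n par).card + 1 := by exact_mod_cast hlv
    have h2 : 1 ≤ α / 2 * n := by
      rw [div_le_iff₀ hα] at hn
      linarith
    have h3 : α * n = α / 2 * n + α / 2 * n := by ring
    linarith
  obtain ⟨f, hinj, hadj'⟩ := hE par hVT hBD hleaf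
  have hex : ∀ u : Fin n, ∃ i, i < n ∧ σ i = u := by
    intro u
    obtain ⟨i, hi, hiu⟩ := hσ.2.2 (Set.mem_univ u)
    exact ⟨i, by simpa using hi, hiu⟩
  choose τ hτ1 hτ2 using hex
  have hτ3 : ∀ i, i < n → τ (σ i) = i := by
    intro i hi
    apply hσ.2.1
    · simpa using hτ1 (σ i)
    · simpa using hi
    · exact hτ2 _
  refine ⟨fun u => f (τ u), ?_, ?_⟩
  · intro u v huv
    have h1 : τ u = τ v := hinj (by simpa using hτ1 u) (by simpa using hτ1 v) huv
    rw [← hτ2 u, h1, hτ2 v]
  · intro u v huv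
    obtain ⟨i, hi0, hin, h⟩ := hadj u v huv
    have hp : par i < n := lt_trans (hVT i hi0 hin) hin
    have hA := hadj' i hi0 hin
    rcases h with ⟨h1, h3⟩ | ⟨h1, h3⟩
    · show H.Adj (f (τ u)) (f (τ v))
      rw [← h1, ← h3, hτ3 i hin, hτ3 _ hp]
      exact hA
    · show H.Adj (f (τ u)) (f (τ v))
      rw [← h1, ← h3, hτ3 i hin, hτ3 _ hp]
      exact hA.symm

end MAINL_

open Classical in
theorem pMAINL (h1 : T_GNPL) (h2 : T_RELL) (h3 : T_CASEL) : T_MAINL := by
  intro Δ hΔ γ hγ α hα
  set m : ℝ := min γ (1 / 2) with hm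
  have hm0 : 0 < m := lt_min hγ (by norm_num)
  have hm1 : m ≤ 1 / 2 := min_le_right _ _
  have hmγ : m ≤ γ := min_le_left _ _
  set γ' : ℝ := m / 2 with hγ'
  have hγ'0 : 0 < γ' := by positivity
  have hγ'1 : γ' ≤ 1 / 2 := by rw [hγ']; linarith
  set η : ℝ := γ' / 100 with hη
  have hη0 : 0 < η := by positivity
  have hη1 : η ≤ 1 := by rw [hη]; linarith
  obtain ⟨CG, hCG, hG⟩ := h1 η hη0 hη1
  obtain ⟨CA, hCA, nA, hA⟩ := h3 Δ γ' (α / 2) (12 / η) (by omega) hγ'0 hγ'1 (by positivity)
    (by positivity)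
  refine ⟨max CG CA, lt_max_of_lt_left hCG, fun p hp hpn => ?_⟩
  have hlogn : ∀ n : ℕ, 0 ≤ Real.log ((n : ℕ) : ℝ) / ((n : ℕ) : ℝ) := fun n =>
    div_nonneg (Real.log_natCast_nonneg n) (Nat.cast_nonneg n)
  have hstep : ∀ (C : ℝ) (n : ℕ), C ≤ max CG CA →
      max CG CA * Real.log ((n : ℕ) : ℝ) / ((n : ℕ) : ℝ) ≤ p n →
      C * Real.log ((n : ℕ) : ℝ) / ((n : ℕ) : ℝ) ≤ p n := by
    intro C n hC hn
    refine le_trans ?_ hn
    rw [mul_div_assoc, mul_div_assoc]
    exact mul_le_mul_of_nonneg_right hC (hlogn n)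
  have hpG : ∀ᶠ n : ℕ in atTop, CG * Real.log n / n ≤ p n := by
    filter_upwards [hpn] with n hn
    exact hstep CG n (le_max_left _ _) hn
  have hlim := hG p hp hpG
  obtain ⟨n₁, hn₁⟩ := exists_nat_ge (2 / α)
  refine tendsto_of_tendsto_of_tendsto_of_le_of_le' hlim tendsto_const_nhds ?_ ?_
  · filter_upwards [hpn, eventually_ge_atTop nA, eventually_ge_atTop n₁] with n hn hnA hnB
    rw [finsum_eq_sum_of_fintype, finsum_eq_sum_of_fintype]
    apply Finset.sum_le_sum
    intro G _
    by_cases hG : Good G η (p n)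
    · have hprop : (∀ H : SimpleGraph (Fin n), H ≤ G →
            (∀ v : Fin n, (1 / 2 + γ) * (((G.neighborSet v).ncard : ℕ) : ℝ)
                ≤ (((H.neighborSet v).ncard : ℕ) : ℝ)) →
            ∀ T : SimpleGraph (Fin n), T.IsTree →
              (∀ v : Fin n, (T.neighborSet v).ncard ≤ Δ) →
              α * n ≤ (({v : Fin n | (T.neighborSet v).ncard = 1}.ncard : ℕ) : ℝ) →
              ∃ f : Fin n → Fin n, Function.Injective f ∧
                ∀ u v : Fin n, T.Adj u v → H.Adj (f u) (f v)) := by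
        intro H hH hdeg T hT hTd hTl
        have hUU : UU H (γ' / 100) (p n) (12 / η * Real.log n) := MAIN_.UU_mono hH hG.1
        have hpn0 : 0 ≤ p n * (n : ℝ) := mul_nonneg (hp n).1 (Nat.cast_nonneg n)
        have hdH : ∀ v, (1 / 2 + γ') * p n * n ≤ dg H v univ := by
          intro v
          have e1 := hdeg v
          rw [← MAIN_.dg_univ, ← MAIN_.dg_univ] at e1
          have e2 := (hG.2 v).1
          have e3 : (1 / 2 + γ) * ((1 - η) * p n * n) ≤ (1 / 2 + γ) * (dg G v univ : ℝ) :=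
            mul_le_mul_of_nonneg_left e2 (by linarith)
          refine le_trans ?_ (le_trans e3 e1)
          have e4 : (1 / 2 + γ') ≤ (1 / 2 + γ) * (1 - η) := by
            have e5 : (1 / 2 + m) * (1 - η) ≤ (1 / 2 + γ) * (1 - η) := by
              apply mul_le_mul_of_nonneg_right (by linarith) (by linarith)
            refine le_trans ?_ e5
            rw [hη, hγ']
            nlinarith
          calc (1 / 2 + γ') * p n * n = (1 / 2 + γ') * (p n * n) := by ring
            _ ≤ ((1 / 2 + γ) * (1 - η)) * (p n * n) := mul_le_mul_of_nonneg_right e4 hpn0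
            _ = (1 / 2 + γ) * ((1 - η) * p n * n) := by ring
        refine MAINL_.trees h2 hα ?_ H T hT hTd hTl ?_
        · have : (n₁ : ℝ) ≤ n := by exact_mod_cast hnB
          linarith
        · intro par hVT hBD hl
          exact hA n hnA (p n) (hstep CA n (le_max_right _ _) hn) (hp n).2 H hUU hdH par hVT
            hBD hl
      rw [if_pos hG, if_pos hprop]
      rfl
    · rw [if_neg hG]
      split_ifs
      · exact MAIN_.wG_nonneg (hp n).1 (hp n).2 G
      · exact le_refl _
  · filter_upwards with n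
    rw [finsum_eq_sum_of_fintype]
    refine le_trans (Finset.sum_le_sum (g := fun G : SimpleGraph (Fin n) => wG (p n) G) ?_)
      (MAIN_.total n (p n)).le
    intro G _
    split_ifs
    · exact le_of_eq rfl
    · exact MAIN_.wG_nonneg (hp n).1 (hp n).2 G

end Pool.Agent.RSL
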