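import Pool.Agent.RSL.Targets

/-! # MATL: perfect matchings between consecutive classes -/

set_option autoImplicit false

open Finset

namespace Pool.Agent.RSL

open Pool.Agent.RST

theorem pMATL (h : T_PM) : T_MATL := by
  intro V _ _ H g η p Ku par E Q κ Vc hp hg hη hη2 hKu hUU hEpar hCol hsize
  have hM : ∀ c : ℕ, ∃ μ : V → V, ∀ x ∈ E, x ∉ Q → κ x = c →
      Set.BijOn μ (Vc (κ (par x))) (Vc c) ∧ ∀ v ∈ Vc (κ (par x)), H.Adj v (μ v) := by
    intro c
    by_cases hex : ∃ x ∈ E, x ∉ Q ∧ κ x = c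
    · obtain ⟨x, hx, hxQ, hxc⟩ := hex
      have hpx := (hEpar x hx hxQ).2
      obtain ⟨s1, d1, k1⟩ := hsize x hx
      obtain ⟨s2, d2, k2⟩ := hsize (par x) hpx
      have hcard : (Vc (κ (par x))).card = (Vc (κ x)).card := by
        rw [s1, s2]
        exact (hCol.pcard x hx hxQ).symm
      obtain ⟨μ, hμ1, hμ2⟩ := h V H η p Ku g (Vc (κ (par x))) (Vc (κ x)) hp hg hη hη2 hKu hUU
        hcard k2 (fun v _ => by rw [hcard]; exact d1 v) (fun v _ => d2 v)
      refine ⟨μ, fun y hy hyQ hyc => ?_⟩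
      have hyx : κ y = κ x := by rw [hyc, hxc]
      have hpar : κ (par y) = κ (par x) := hCol.pcol y hy x hx hyQ hyx
      rw [hpar, ← hxc]
      exact ⟨hμ1, hμ2⟩
    · refine ⟨id, fun x hx hxQ hxc => absurd ⟨x, hx, hxQ, hxc⟩ hex⟩
  choose M hM using hM
  exact ⟨M, fun x hx hxQ => hM (κ x) x hx hxQ rfl⟩

end Pool.Agent.RSL
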