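import Pool.Agent.RSL.Targets

set_option autoImplicit false

open Finset

namespace Pool.Agent.RSL

open Pool.Agent.RST

namespace MONO_

theorem used_mono {V : Type} [DecidableEq V] {J₁ J₂ : Finset (V × V)} {F₁ F₂ : Finset V}
    (hJ : J₁ ⊆ J₂) (hF : F₁ ⊆ F₂) : used J₁ F₁ ⊆ used J₂ F₂ :=
  Finset.union_subset_union (Finset.image_subset_image hJ) hF

end MONO_

theorem pMONO (h : T_SHR) : T_MONO := by
  intro V _ _ H W d m J₁ J₂ F₁ F₂ L x r ok1 hJ hF hx hr ⟨l, E, G, hc⟩
  refine ⟨l, E, G, ?_, hc.pth, ?_, hc.im, hc.tl, hc.od1⟩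
  · refine h V H W d m (J₂ ∪ E) (J₁ ∪ E) (F₂ ∪ G) (F₁ ∪ G) hc.ok
      (Finset.union_subset_union hJ (Finset.Subset.refl _))
      (Finset.union_subset_union hF (Finset.Subset.refl _)) ?_
    have hm : used J₁ F₁ ⊆ used (J₁ ∪ E) (F₁ ∪ G) :=
      MONO_.used_mono Finset.subset_union_left Finset.subset_union_left
    intro e he hW
    rcases Finset.mem_union.1 he with he | he
    · exact hm (ok1.tail e he hW)
    · rcases hc.tl e he with h1 | h1 | h1
      · rw [h1] at hW ⊢
        exact hm (hx hW)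
      · rw [h1] at hW ⊢
        exact hm (hr hW)
      · have h2 : e.1 ∈ E.image Prod.snd ∪ G := by
          rw [hc.im]
          exact List.mem_toFinset.2 h1
        have h3 : E.image Prod.snd ∪ G ⊆ used (J₁ ∪ E) (F₁ ∪ G) :=
          Finset.union_subset_union (Finset.image_subset_image Finset.subset_union_right)
            Finset.subset_union_right
        exact h3 h2
  · intro v hv
    exact ⟨(hc.new v hv).1, fun h' => (hc.new v hv).2 (MONO_.used_mono hJ hF h')⟩

end Pool.Agent.RSL
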