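import Pool.Agent.RSL.Targets
import Pool.Agent.RST.CTR

/-!
# RSL-ORDR: relabelling such that nested subtrees become final segments
-/

set_option autoImplicit false

open Finset

namespace Pool.Agent.RSL

open Pool.Agent.RST

namespace ORDR_

/-- sorting the numbers below `n` by a level function -/
theorem sort (n : ℕ) (lev : ℕ → ℕ) : ∃ pos vtx : ℕ → ℕ, (∀ i < n, vtx i < n ∧ pos (vtx i) = i) ∧
    (∀ x < n, pos x < n ∧ vtx (pos x) = x) ∧
    ∀ x < n, ∀ y < n, (lev x < lev y ∨ (lev x = lev y ∧ x < y)) → pos x < pos y := by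
  classical
  let K : ℕ → ℕ := fun x => lev x * n + x
  have hmod : ∀ x < n, K x % n = x := by
    intro x hx
    show (lev x * n + x) % n = x
    rw [Nat.mul_comm, Nat.mul_add_mod, Nat.mod_eq_of_lt hx]
  have hinj : Set.InjOn K (range n : Set ℕ) := by
    intro x hx y hy h
    have hx' : x < n := by simpa using hx
    have hy' : y < n := by simpa using hy
    rw [← hmod x hx', ← hmod y hy', h]
  obtain ⟨e, r, he, hr, hmono⟩ := Pool.Agent.RST.CTR_.enum ((range n).image K)
  have hcard : ((range n).image K).card = n := by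
    rw [card_image_of_injOn hinj, card_range]
  rw [hcard] at he hr
  have hmem : ∀ x < n, K x ∈ (range n).image K := fun x hx =>
    mem_image_of_mem K (mem_range.2 hx)
  refine ⟨fun x => r (K x), fun i => e i % n, fun i hi => ?_, fun x hx => ?_,
    fun x hx y hy h => ?_⟩
  · obtain ⟨h1, h2⟩ := he i hi
    obtain ⟨x, hx, hxe⟩ := mem_image.1 h1
    have hx' : x < n := mem_range.1 hx
    have h3 : e i % n = x := by rw [← hxe, hmod x hx']
    refine ⟨?_, ?_⟩
    · show e i % n < n
      rw [h3]
      exact hx'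
    · show r (K (e i % n)) = i
      rw [h3, hxe, h2]
  · obtain ⟨h1, h2⟩ := hr _ (hmem x hx)
    refine ⟨h1, ?_⟩
    show e (r (K x)) % n = x
    rw [h2, hmod x hx]
  · refine hmono _ (hmem x hx) _ (hmem y hy) ?_
    show lev x * n + x < lev y * n + y
    rcases h with h | ⟨h, h'⟩
    · have : (lev x + 1) * n ≤ lev y * n := Nat.mul_le_mul_right n h
      nlinarith
    · rw [h]
      omega

variable {n : ℕ} {par : ℕ → ℕ}

theorem mem_chd (w u : ℕ) : w ∈ chd n par u ↔ w < n ∧ 0 < w ∧ par w = u := by
  unfold chd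
  rw [mem_filter, mem_range]

theorem self_ds {w : ℕ} (h : w < n) : w ∈ ds n par w := ⟨h, 0, rfl, fun j' hj' => by omega⟩

theorem le_of_ds {w x : ℕ} (h : x ∈ ds n par w) : w ≤ x := by
  obtain ⟨-, j, hj, hj'⟩ := h
  rcases Nat.eq_zero_or_pos j with h0 | h0
  · subst h0
    exact (le_of_eq hj.symm)
  · exact (hj' 0 h0).le

theorem ds_trans {w w' x : ℕ} (h : w' ∈ ds n par w) (hlt : w < w') (hx : x ∈ ds n par w') :
    x ∈ ds n par w := by
  obtain ⟨-, j, hj, hj'⟩ := h
  obtain ⟨hxn, i, hi, hi'⟩ := hx
  refine ⟨hxn, j + i, ?_, fun k hk => ?_⟩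
  · rw [Function.iterate_add_apply, hi, hj]
  · rcases lt_or_ge k i with h | h
    · exact hlt.trans (hi' k h)
    · have := hj' (k - i) (by omega)
      rw [← hi, ← Function.iterate_add_apply, Nat.sub_add_cancel h] at this
      exact this

/-- if the parent is below `w`, so is the vertex -/
theorem ds_of_par (hVT : VT n par) {w x : ℕ} (hx0 : 0 < x) (hxn : x < n)
    (h : par x ∈ ds n par w) : x ∈ ds n par w := by
  have hle := le_of_ds h
  obtain ⟨-, j, hj, hj'⟩ := h
  refine ⟨hxn, j + 1, ?_, fun k hk => ?_⟩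
  · rw [Function.iterate_succ_apply]
    exact hj
  · rcases Nat.eq_zero_or_pos k with h | h
    · subst h
      exact lt_of_le_of_lt hle (hVT x hx0 hxn)
    · obtain ⟨m, rfl⟩ : ∃ m, k = m + 1 := ⟨k - 1, by omega⟩
      rw [Function.iterate_succ_apply]
      exact hj' m (by omega)

/-- the path from `x` up to `w` -/
theorem path (hVT : VT n par) {w x : ℕ} (hxn : x < n) {j : ℕ} (hj : par^[j] x = w)
    (hj' : ∀ k < j, w < par^[k] x) : ∀ k ≤ j, par^[k] x ∈ ds n par w := by
  intro k
  induction k with
  | zero => intro _; exact ⟨hxn, j, hj, hj'⟩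
  | succ k ih =>
    intro hk
    have h1 := ih (by omega)
    have h2 := hj' k (by omega)
    refine ⟨?_, j - (k + 1), ?_, fun m hm => ?_⟩
    · rw [Function.iterate_succ_apply']
      exact (hVT _ (by omega) h1.1).trans h1.1
    · rw [← Function.iterate_add_apply, Nat.sub_add_cancel hk, hj]
    · rw [← Function.iterate_add_apply]
      exact hj' _ (by omega)

theorem zero_ds {w : ℕ} (hw : 0 < w) : 0 ∉ ds n par w := fun h => by
  have := le_of_ds h
  omega

end ORDR_

open ORDR_ in
theorem pORDR : T_ORDR := by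
  classical
  intro Δ n I par v hVT hBD hv hvv
  have hn : 0 < n := lt_trans (hv 1 le_rfl (by omega)).1 (hv 1 le_rfl (by omega)).2
  -- nested subtrees
  have hnest : ∀ i, 1 ≤ i → ∀ k, i ≤ k → k ≤ I + 1 → v k ∈ ds n par (v i) ∧ (i < k → v i < v k) ∧
      ∀ x, x ∈ ds n par (v k) → x ∈ ds n par (v i) := by
    intro i hi k hik
    induction k, hik using Nat.le_induction with
    | base =>
      intro h
      exact ⟨self_ds (hv i hi h).2, fun h => absurd h (lt_irrefl _), fun x hx => hx⟩
    | succ k hik ih =>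
      intro h
      obtain ⟨h1, h2, h3⟩ := ih (by omega)
      obtain ⟨h4, h5⟩ := hvv k (by omega) (by omega)
      refine ⟨h3 _ h4, fun _ => ?_, fun x hx => h3 x (ds_trans h4 h5 hx)⟩
      rcases hik.eq_or_lt with h | h
      · rw [h]
        exact h5
      · exact (h2 h).trans h5
  -- levels
  let lev : ℕ → ℕ := fun x => Nat.findGreatest (fun i => 1 ≤ i ∧ x ∈ ds n par (v i)) (I + 1)
  have hlev : ∀ x, ∀ i, 1 ≤ i → i ≤ I + 1 → (i ≤ lev x ↔ x ∈ ds n par (v i)) := by
    intro x i hi hiI
    constructor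
    · intro h
      have h0 : lev x ≠ 0 := by omega
      have h1 : 1 ≤ lev x ∧ x ∈ ds n par (v (lev x)) :=
        Nat.findGreatest_of_ne_zero (P := fun i => 1 ≤ i ∧ x ∈ ds n par (v i)) rfl h0
      have h2 : lev x ≤ I + 1 := Nat.findGreatest_le _
      exact (hnest i hi (lev x) h h2).2.2 x h1.2
    · intro h
      exact Nat.le_findGreatest hiI ⟨hi, h⟩
  have hlevle : ∀ x, lev x ≤ I + 1 := fun x => Nat.findGreatest_le _
  have hlev0 : lev 0 = 0 := by
    by_contra h
    have h1 := (hlev 0 (lev 0) (by omega) (hlevle 0)).1 le_rfl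
    exact zero_ds (hv (lev 0) (by omega) (hlevle 0)).1 h1
  have hlevv : ∀ i, 1 ≤ i → i ≤ I + 1 → lev (v i) = i := by
    intro i hi hiI
    refine le_antisymm ?_ ((hlev _ i hi hiI).2 (self_ds (hv i hi hiI).2))
    by_contra h
    push Not at h
    have h1 := (hlev (v i) (lev (v i)) (by omega) (hlevle _)).1 le_rfl
    have h2 := le_of_ds h1
    have h3 := (hnest i hi (lev (v i)) h.le (hlevle _)).2.1 h
    omega
  have hlevpar : ∀ x, 0 < x → x < n → lev (par x) ≤ lev x := by
    intro x hx hxn
    rcases Nat.eq_zero_or_pos (lev (par x)) with h | h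
    · omega
    · have h1 := (hlev (par x) _ h (hlevle _)).1 le_rfl
      exact (hlev x _ h (hlevle _)).2 (ds_of_par hVT hx hxn h1)
  obtain ⟨pos, vtx, hvtx, hpos, hmono⟩ := sort n lev
  -- the root
  have hpos0 : ∀ y, 0 < y → y < n → pos 0 < pos y := by
    intro y hy hyn
    refine hmono 0 hn y hyn ?_
    rw [hlev0]
    rcases Nat.eq_zero_or_pos (lev y) with h | h
    · exact Or.inr ⟨h.symm, hy⟩
    · exact Or.inl h
  have hvtx0 : vtx 0 = 0 := by
    by_contra h
    have := hpos0 (vtx 0) (by omega) (hvtx 0 hn).1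
    rw [(hvtx 0 hn).2] at this
    omega
  have hp0 : pos 0 = 0 := by
    have := (hvtx 0 hn).2
    rwa [hvtx0] at this
  have hvtxpos : ∀ i, 0 < i → i < n → 0 < vtx i := by
    intro i hi hin
    rcases Nat.eq_zero_or_pos (vtx i) with h | h
    · have := (hvtx i hin).2
      rw [h, hp0] at this
      omega
    · exact h
  have hpospos : ∀ x, 0 < x → x < n → 0 < pos x := by
    intro x hx hxn
    have := hpos0 x hx hxn
    omega
  have hposinj : ∀ x < n, ∀ y < n, pos x = pos y → x = y := by
    intro x hx y hy h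
    rw [← (hpos x hx).2, ← (hpos y hy).2, h]
  set par' : ℕ → ℕ := fun i => pos (par (vtx i)) with hpar'
  have hparpos : ∀ x < n, par' (pos x) = pos (par x) := by
    intro x hx
    simp only [hpar']
    rw [(hpos x hx).2]
  have hVT' : VT n par' := by
    intro i hi hin
    have h1 := hvtxpos i hi hin
    have h2 := (hvtx i hin).1
    have h3 := hVT _ h1 h2
    have h4 : pos (par (vtx i)) < pos (vtx i) := by
      refine hmono _ (h3.trans h2) _ h2 ?_
      rcases (hlevpar _ h1 h2).lt_or_eq with h | h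
      · exact Or.inl h
      · exact Or.inr ⟨h, h3⟩
    rw [(hvtx i hin).2] at h4
    exact h4
  -- children
  have hchd : ∀ y < n, chd n par' (pos y) = (chd n par y).image pos := by
    intro y hy
    ext j
    rw [mem_image, mem_chd]
    constructor
    · rintro ⟨h1, h2, h3⟩
      have h4 := hvtxpos j h2 h1
      have h5 := (hvtx j h1).1
      refine ⟨vtx j, (mem_chd _ _).2 ⟨h5, h4, ?_⟩, (hvtx j h1).2⟩
      exact hposinj _ ((hVT _ h4 h5).trans h5) _ hy h3
    · rintro ⟨x, hx, rfl⟩
      obtain ⟨h1, h2, h3⟩ := (mem_chd _ _).1 hx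
      refine ⟨(hpos x h1).1, hpospos x h2 h1, ?_⟩
      rw [hparpos x h1, h3]
  have hchdge : ∀ u, n ≤ u → chd n par' u = ∅ := by
    intro u hu
    rw [eq_empty_iff_forall_notMem]
    intro j hj
    obtain ⟨h1, h2, h3⟩ := (mem_chd _ _).1 hj
    have h4 := hVT' j h2 h1
    omega
  have himg : ∀ (P P' : ℕ → Prop) [DecidablePred P] [DecidablePred P'],
      (∀ x < n, P' (pos x) ↔ P x) →
      (((range n).filter P').card = ((range n).filter P).card) := by
    intro P P' _ _ h
    have e : (range n).filter P' = ((range n).filter P).image pos := by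
      ext j
      rw [mem_filter, mem_image, mem_range]
      constructor
      · rintro ⟨h1, h2⟩
        refine ⟨vtx j, mem_filter.2 ⟨mem_range.2 (hvtx j h1).1, ?_⟩, (hvtx j h1).2⟩
        rw [← h _ (hvtx j h1).1, (hvtx j h1).2]
        exact h2
      · rintro ⟨x, hx, rfl⟩
        obtain ⟨h1, h2⟩ := mem_filter.1 hx
        have h1' := mem_range.1 h1
        exact ⟨(hpos x h1').1, (h x h1').2 h2⟩
    rw [e, card_image_of_injOn]
    intro x hx y hy hxy
    exact hposinj x (mem_range.1 (mem_filter.1 hx).1) y (mem_range.1 (mem_filter.1 hy).1) hxy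
  have hlpP : ∀ x < n, (∃ z ∈ chd n par' (pos x), chd n par' z = ∅) ↔
      ∃ z ∈ chd n par x, chd n par z = ∅ := by
    intro x hx
    rw [hchd x hx]
    constructor
    · rintro ⟨z, hz, hz'⟩
      obtain ⟨y, hy, rfl⟩ := mem_image.1 hz
      refine ⟨y, hy, ?_⟩
      rw [hchd y ((mem_chd _ _).1 hy).1] at hz'
      exact image_eq_empty.1 hz'
    · rintro ⟨y, hy, hy'⟩
      refine ⟨pos y, mem_image_of_mem pos hy, ?_⟩
      rw [hchd y ((mem_chd _ _).1 hy).1, hy', image_empty]
  -- segments
  have hseg : ∀ i, 1 ≤ i → i ≤ I + 1 → ∀ x < n, (pos (v i) ≤ pos x ↔ x ∈ ds n par (v i)) := by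
    intro i hi hiI x hx
    have hvi := hv i hi hiI
    constructor
    · intro h
      by_contra hcon
      have h1 : lev x < i := by
        by_contra h2
        exact hcon ((hlev x i hi hiI).1 (not_lt.1 h2))
      have h2 : pos x < pos (v i) := hmono x hx _ hvi.2 (Or.inl (by rw [hlevv i hi hiI]; exact h1))
      omega
    · intro h
      have h1 := (hlev x i hi hiI).2 h
      rcases (le_of_ds h).eq_or_lt with h2 | h2
      · rw [h2]
      · refine (hmono _ hvi.2 x hx ?_).le
        rw [hlevv i hi hiI]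
        rcases h1.eq_or_lt with h3 | h3
        · exact Or.inr ⟨h3, h2⟩
        · exact Or.inl h3
  refine ⟨par', fun i => pos (v i), hVT', ?_, ?_, ?_, ?_, ?_, ?_, ?_, ?_⟩
  · intro u
    rcases lt_or_ge u n with h | h
    · have h1 := hchd (vtx u) (hvtx u h).1
      rw [(hvtx u h).2] at h1
      rw [h1]
      exact card_image_le.trans (hBD _)
    · rw [hchdge u h]
      exact Nat.zero_le _
  · unfold lv
    refine himg _ _ fun x hx => ?_
    rw [hchd x hx]
    exact image_eq_empty
  · intro V H f' hf'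
    refine ⟨fun x => f' (pos x), ?_, ?_⟩
    · intro x hx y hy h
      have hx' : x < n := by simpa using hx
      have hy' : y < n := by simpa using hy
      refine hposinj x hx' y hy' (hf'.1 ?_ ?_ h)
      · simpa using (hpos x hx').1
      · simpa using (hpos y hy').1
    · intro x hx hxn
      have := hf'.2 (pos x) (hpospos x hx hxn) (hpos x hxn).1
      rw [hparpos x hxn] at this
      exact this
  · exact hpospos _ (hv 1 le_rfl (by omega)).1 (hv 1 le_rfl (by omega)).2
  · intro i hi hiI
    have h1 := hv (i + 1) (by omega) (by omega)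
    exact ⟨(hseg i hi (by omega) _ h1.2).2 (hvv i hi hiI).1, (hpos _ h1.2).1.le⟩
  · intro i hi hiI x hx hxn
    have hvi := hv i hi (by omega)
    have hx1 := (hvtx x hxn).1
    have hx2 : vtx x ∈ ds n par (v i) := by
      rw [← hseg i hi (by omega) _ hx1, (hvtx x hxn).2]
      exact hx
    obtain ⟨-, j, hj, hj'⟩ := hx2
    have hp := path hVT hx1 hj hj'
    have hit : ∀ k ≤ j, par'^[k] x = pos (par^[k] (vtx x)) := by
      intro k
      induction k with
      | zero =>
        intro _
        exact (hvtx x hxn).2.symm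
      | succ k ih =>
        intro hk
        rw [Function.iterate_succ_apply', ih (by omega), hparpos _ (hp k (by omega)).1,
          Function.iterate_succ_apply']
    refine ⟨j, by rw [hit j le_rfl, hj], fun k hk => ?_⟩
    rw [hit k hk.le]
    have h3 := hp k hk.le
    have h4 := (hseg i hi (by omega) _ h3.1).2 h3
    refine lt_of_le_of_ne h4 fun h5 => ?_
    have h6 := hposinj _ hvi.2 _ h3.1 h5
    have h7 := hj' k hk
    omega
  · unfold lp
    rw [filter_filter, filter_filter]
    refine himg _ _ fun x hx => ?_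
    rw [hlpP x hx, hseg 1 le_rfl (by omega) x hx]
  · intro i hi hiI
    unfold lp
    rw [filter_filter, filter_filter]
    refine himg _ _ fun x hx => ?_
    rw [hlpP x hx, hseg i hi (by omega) x hx, ← not_le, hseg (i + 1) (by omega) (by omega) x hx]

end Pool.Agent.RSL
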