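import Pool.Agent.RSL.Targets

/-!
# PF: the embedding procedure
-/

set_option autoImplicit false
set_option linter.unusedSectionVars false

open Finset

namespace Pool.Agent.RSL

open Pool.Agent.RST

namespace PF_

variable {V : Type} [DecidableEq V] {c : Cx V}

omit [DecidableEq V] in
lemma D_pos (a : ℕ) : 2 ≤ c.D a := by unfold Cx.D; omega

lemma fs_mem_ch (a : ℕ) : c.fs a ∈ c.ch a := by
  have := D_pos (c := c) a
  unfold Cx.fs Cx.ch
  exact mem_image.2 ⟨c.D a - 1, mem_Icc.2 ⟨by omega, le_rfl⟩, rfl⟩

lemma fs_ch (hv : Vd c) {a a' : ℕ} (ha : a ∈ c.A) (ha' : a' ∈ c.A) (h : c.fs a' ∈ c.ch a) :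
    a = a' := by
  unfold Cx.ch at h
  obtain ⟨j, hj, h⟩ := mem_image.1 h
  rw [mem_Icc] at hj
  have h1 := D_pos (c := c) a
  have h2 := D_pos (c := c) a'
  exact hv.exc a ha a' ha' j (c.D a' - 1) hj.1 (by omega) (by omega) (by omega) h

lemma fs_P (hv : Vd c) {a a' : ℕ} (ha : a ∈ c.A) (ha' : a' ∈ c.A) : c.fs a' ∉ c.P a := by
  have h2 := D_pos (c := c) a'
  exact hv.chn a' ha' a ha (c.D a' - 1) (by omega) (by omega)

lemma fs_inj (hv : Vd c) {a a' : ℕ} (ha : a ∈ c.A) (ha' : a' ∈ c.A) (h : c.fs a = c.fs a') :
    a = a' := by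
  apply fs_ch hv ha ha'
  rw [← h]
  exact fs_mem_ch a

lemma not_cover (hv : Vd c) {Su : Finset ℕ} (hSu : ∀ a ∈ Su, a ∈ c.A) {a : ℕ} (ha : a ∈ c.A)
    (hn : a ∉ Su) : c.fs a ∉ Su.biUnion (fun a => c.ch a ∪ c.P a) := by
  intro h
  obtain ⟨a', ha', h⟩ := mem_biUnion.1 h
  rcases mem_union.1 h with h | h
  · exact hn (fs_ch hv (hSu a' ha') ha h ▸ ha')
  · exact fs_P hv (hSu a' ha') ha h

lemma le_a (hv : Vd c) {a : ℕ} (ha : a ∈ c.A) : ∀ j < c.D a, c.par^[j] a ≤ a ∧
    c.par^[j] a < c.N := by
  have haN : a < c.N := (mem_Ico.1 ((hv.mem a ha).2 (hv.mem a ha).1)).2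
  intro j
  induction j with
  | zero => intro _; exact ⟨le_rfl, haN⟩
  | succ j ih =>
    intro hj
    obtain ⟨h1, h2⟩ := ih (by omega)
    have h3 := hv.st a ha j (by omega)
    have h4 := hv.vt _ (lt_of_lt_of_le hv.t0 h3) h2
    rw [Function.iterate_succ_apply']
    omega

lemma tip_eq (a : ℕ) : c.tip a = c.par (c.fs a) := by
  have h := D_pos (c := c) a
  unfold Cx.tip Cx.fs
  rw [← Function.iterate_succ_apply' c.par (c.D a - 1) a]
  congr 1

lemma tip_dom (hv : Vd c) {Su : Finset ℕ} (hSu : ∀ a ∈ Su, a ∈ c.A) {a K : ℕ} (ha : a ∈ c.A)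
    (hK : c.fs a ≤ K) : c.tip a ∈ c.Dom Su K := by
  have h := D_pos (c := c) a
  have h1 := hv.st a ha (c.D a - 1) (by omega)
  have h2 := (le_a hv ha (c.D a - 1) (by omega)).2
  have h3 : c.par (c.fs a) < c.fs a := hv.vt _ (lt_of_lt_of_le hv.t0 h1) h2
  unfold Cx.Dom
  rw [mem_sdiff]
  constructor
  · by_cases h4 : c.t ≤ c.tip a
    · refine mem_union_left _ (mem_union_right _ (mem_Ico.2 ⟨h4, ?_⟩))
      rw [tip_eq]
      omega
    · refine mem_union_left _ (mem_union_left _ ?_)
      rw [tip_eq] at h4 ⊢
      exact hv.DmP _ h1 h2 (by omega)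
  · intro h4
    obtain ⟨a', ha', h4⟩ := mem_biUnion.1 h4
    exact hv.chn a ha a' (hSu a' ha') (c.D a) (by omega) le_rfl (mem_inter.1 h4).1

lemma W_used (hv : Vd c) {K : ℕ} {f : ℕ → V} {Su : Finset ℕ} {ρ : ℕ → V} {J : Finset (V × V)}
    {F : Finset V} (hs : PSt c K f Su ρ J F) {x : ℕ} (hx : x ∈ c.Dom Su K) (hW : f x ∈ c.W) :
    f x ∈ used J F := by
  unfold Cx.Dom at hx
  rw [mem_sdiff] at hx
  obtain ⟨hx1, hx2⟩ := hx
  by_cases hD : x ∈ c.Dm
  · rw [hs.ini x hD] at hW
    exact absurd hW (hv.f0W x hD)
  by_cases hP : x ∈ Su.biUnion c.P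
  · exfalso
    obtain ⟨a, ha, hxa⟩ := mem_biUnion.1 hP
    have hO : x ∉ c.O := fun hO => hx2 (mem_biUnion.2 ⟨a, ha, mem_inter.2 ⟨hxa, hO⟩⟩)
    have hx3 : x ∈ c.P a \ c.O := mem_sdiff.2 ⟨hxa, hO⟩
    have haA := (hs.su a ha).1
    rw [hs.emb a ha x hx3] at hW
    have h1 : c.φ a (ρ a) x ∈ c.Sl (c.gr a) (ρ a) := by
      rw [← hv.sim a haA (ρ a) (hs.rho a ha)]
      exact mem_image_of_mem _ hx3
    exact (disjoint_left.1 (hv.sW a haA (ρ a) (hs.rho a ha))) h1 hW
  · rw [hs.us]
    apply mem_image_of_mem
    unfold Cx.Wd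
    rw [mem_sdiff]
    refine ⟨?_, hP⟩
    rcases mem_union.1 hx1 with h | h
    · rcases mem_union.1 h with h | h
      · exact absurd h hD
      · exact mem_union_left _ h
    · obtain ⟨a, ha, h⟩ := mem_biUnion.1 h
      rcases mem_union.1 h with h | h
      · exact mem_union_right _ (mem_biUnion.2 ⟨a, ha, h⟩)
      · exact absurd (mem_biUnion.2 ⟨a, ha, h⟩) hP

lemma r_notW (hv : Vd c) {a : ℕ} (ha : a ∈ c.A) {r : V} (hr : r ∈ c.R (c.gr a)) : r ∉ c.W := by
  have haO : a ∉ c.O := by
    intro h
    obtain ⟨a', ha', h1, h2⟩ := hv.own a h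
    exact (disjoint_left.1 (hv.disj a ha a' ha' h2)) (hv.mem a ha).1 h1
  have h1 : r ∈ c.Sl (c.gr a) r := by
    rw [← hv.sim a ha r hr]
    refine mem_image.2 ⟨a, mem_sdiff.2 ⟨(hv.mem a ha).1, haO⟩, hv.sr a ha r hr⟩
  exact disjoint_left.1 (hv.sW a ha r hr) h1

lemma Oc_full {Su : Finset ℕ} {ρ : ℕ → V} {K : ℕ} (h : ∀ a ∈ Su, c.fs a < K) :
    c.Oc Su ρ K = Su.biUnion (fun a => c.Sl (c.gr a) (ρ a)) := by
  unfold Cx.Oc
  rw [filter_true_of_mem h]

lemma Po_mono {s : ℕ} {Su Su' : Finset ℕ} {ρ ρ' : ℕ → V} {K K' : ℕ}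
    (h : c.Oc Su ρ K ⊆ c.Oc Su' ρ' K') : c.Po s Su' ρ' K' ⊆ c.Po s Su ρ K := by
  intro r hr
  unfold Cx.Po at hr ⊢
  rw [mem_filter] at hr ⊢
  exact ⟨hr.1, disjoint_of_subset_right h hr.2⟩

lemma clause_mono {A A' P P' b m : ℕ} (hA : A' ≤ A) (hP : P' ≤ P) (h : A * b < m ∨ P * b < m) :
    A' * b < m ∨ P' * b < m := by
  rcases h with h | h
  · exact Or.inl (lt_of_le_of_lt (Nat.mul_le_mul_right _ hA) h)
  · exact Or.inr (lt_of_le_of_lt (Nat.mul_le_mul_right _ hP) h)

/-- the failed tips stay dead -/
def NC (c : Cx V) (K : ℕ) (f : ℕ → V) (Su : Finset ℕ) (ρ : ℕ → V) (J : Finset (V × V))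
    (F : Finset V) : Prop :=
  ∀ a ∈ c.A, c.fs a < K → a ∉ Su → ∀ r ∈ c.Po (c.gr a) Su ρ K,
    ¬ Cnn c.H c.W c.d c.m J F (c.D a) (f (c.tip a)) r

end PF_

open PF_

theorem pPF (h1 : T_MONO) (h2 : T_PFU) (h3 : T_PFW) (h4 : T_PFA) (h5 : T_PFD) : T_PF := by
  intro V _ _ c hv
  have key : ∀ i : ℕ, c.t + i ≤ c.N → ∃ (f : ℕ → V) (Su : Finset ℕ) (ρ : ℕ → V)
      (J : Finset (V × V)) (F : Finset V), PSt c (c.t + i) f Su ρ J F ∧ c.DJ Su ρ (c.t + i) ∧
      NC c (c.t + i) f Su ρ J F := by
    intro i
    induction i with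
    | zero =>
      intro _
      have hfs : ∀ a ∈ c.A, c.t ≤ c.fs a := fun a ha =>
        hv.st a ha _ (by have := D_pos (c := c) a; omega)
      have hV : Nonempty V ∨ ¬ Nonempty V := em _
      refine ⟨c.f₀, ∅, c.f₀, ∅, ∅, ?_, ?_, ?_⟩
      · have hDom : c.Dom ∅ (c.t + 0) = c.Dm := by
          unfold Cx.Dom; simp
        have hWd : c.Wd ∅ (c.t + 0) = ∅ := by
          unfold Cx.Wd; simp
        refine ⟨hv.ok0, by simp, by simp, by simp, ?_, fun _ _ => rfl, ?_, ?_, by simp, ?_⟩
        · rw [hDom]; exact hv.f0i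
        · intro x hx ht
          rw [hDom] at hx
          have := mem_range.1 (hv.DmS hx)
          omega
        · rw [hWd]; simp [used]
        · intro x _
          simp [od]
      · intro K' hK' s
        left
        have : c.Fa s ∅ K' = ∅ := by
          unfold Cx.Fa
          rw [filter_eq_empty_iff]
          intro a ha h
          have := hfs a ha
          omega
        rw [this, card_empty, zero_mul]
        exact hv.ws.m1
      · intro a ha h
        have := hfs a ha
        omega
    | succ i ih =>
      intro hi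
      obtain ⟨f, Su, ρ, J, F, hs, hdj, hnc⟩ := ih (by omega)
      set K := c.t + i with hK
      have hKN : K < c.N := by omega
      have hSu : ∀ a ∈ Su, a ∈ c.A := fun a ha => (hs.su a ha).1
      have hSuK : ∀ a ∈ Su, c.fs a < K := fun a ha => (hs.su a ha).2
      have hused := h2 V c hv K f Su ρ J F hKN.le hs hdj
      have hOc : c.Oc Su ρ (K + 1) = c.Oc Su ρ K := by
        rw [Oc_full hSuK, Oc_full (fun a ha => Nat.lt_succ_of_lt (hSuK a ha))]
      have hPo : ∀ s, c.Po s Su ρ (K + 1) = c.Po s Su ρ K := by
        intro s; unfold Cx.Po; rw [hOc]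
      have hdj' : (∀ s, (c.Fa s Su (K + 1)).card * c.b ^ c.jj s < c.m ∨
          (c.Po s Su ρ (K + 1)).card * c.b ^ c.jj s < c.m) → c.DJ Su ρ (K + 1) := by
        intro h K' hK' s
        rcases Nat.lt_succ_iff_lt_or_eq.1 (Nat.lt_succ_of_le hK') with h' | h'
        · exact hdj K' (Nat.lt_succ_iff.1 h') s
        · rw [h']; exact h s
      have hFa : ∀ s, (∀ a ∈ c.A, c.gr a = s → c.fs a = K → a ∈ Su) →
          c.Fa s Su (K + 1) = c.Fa s Su K := by
        intro s h
        unfold Cx.Fa
        apply filter_congr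
        intro a ha
        constructor
        · rintro ⟨g1, g2, g3⟩
          refine ⟨g1, ?_, g3⟩
          rcases Nat.lt_succ_iff_lt_or_eq.1 g2 with h' | h'
          · exact h'
          · exact absurd (h a ha g1 h') g3
        · rintro ⟨g1, g2, g3⟩
          exact ⟨g1, Nat.lt_succ_of_lt g2, g3⟩
      have hmono : ∀ (f' : ℕ → V) (Su' : Finset ℕ) (ρ' : ℕ → V) (J' : Finset (V × V))
          (F' : Finset V), J ⊆ J' → F ⊆ F' → (∀ x ∈ c.Dom Su K, f' x = f x) →
          c.Oc Su ρ K ⊆ c.Oc Su' ρ' (K + 1) → ∀ a ∈ c.A, c.fs a ≤ K →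
          (∀ r ∈ c.Po (c.gr a) Su ρ K, ¬ Cnn c.H c.W c.d c.m J F (c.D a) (f (c.tip a)) r) →
          ∀ r ∈ c.Po (c.gr a) Su' ρ' (K + 1),
            ¬ Cnn c.H c.W c.d c.m J' F' (c.D a) (f' (c.tip a)) r := by
        intro f' Su' ρ' J' F' hJ hF hf hO a ha haK hn r hr hc
        have htip := tip_dom hv hSu ha haK
        rw [hf _ htip] at hc
        have hr' := Po_mono hO hr
        refine hn r hr' (h1 V c.H c.W c.d c.m J J' F F' (c.D a) (f (c.tip a)) r hs.ok hJ hF
          (W_used hv hs htip) ?_ hc)
        intro hW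
        unfold Cx.Po at hr'
        exact absurd hW (r_notW hv ha (mem_filter.1 hr').1)
      by_cases hcov : K ∈ Su.biUnion (fun a => c.ch a ∪ c.P a)
      · -- nothing happens
        obtain ⟨a₀, ha₀, hK₀⟩ := mem_biUnion.1 hcov
        have hno : ∀ a ∈ c.A, c.fs a = K → a ∈ Su := by
          intro a ha haK
          rcases mem_union.1 hK₀ with h | h
          · rw [← haK] at h
            rw [← fs_ch hv (hSu a₀ ha₀) ha h]
            exact ha₀
          · rw [← haK] at h
            exact absurd h (fs_P hv (hSu a₀ ha₀) ha)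
        have hIco : Ico c.t (K + 1) = insert K (Ico c.t K) := by
          ext x; simp only [mem_Ico, mem_insert]; omega
        have hDom : c.Dom Su (K + 1) = c.Dom Su K := by
          unfold Cx.Dom
          congr 1
          rw [hIco]
          ext x
          simp only [mem_union, mem_insert]
          constructor
          · rintro ((h | h | h) | h)
            · exact Or.inl (Or.inl h)
            · right; rw [h]; exact hcov
            · exact Or.inl (Or.inr h)
            · exact Or.inr h
          · rintro ((h | h) | h)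
            · exact Or.inl (Or.inl h)
            · exact Or.inl (Or.inr (Or.inr h))
            · exact Or.inr h
        have hWd : c.Wd Su (K + 1) = c.Wd Su K := by
          unfold Cx.Wd
          rw [hIco]
          ext x
          simp only [mem_sdiff, mem_union, mem_insert]
          constructor
          · rintro ⟨(h | h) | h, hP⟩
            · subst h
              rcases mem_union.1 hK₀ with h' | h'
              · exact ⟨Or.inr (mem_biUnion.2 ⟨a₀, ha₀, h'⟩), hP⟩
              · exact absurd (mem_biUnion.2 ⟨a₀, ha₀, h'⟩) hP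
            · exact ⟨Or.inl h, hP⟩
            · exact ⟨Or.inr h, hP⟩
          · rintro ⟨h | h, hP⟩
            · exact ⟨Or.inl (Or.inr h), hP⟩
            · exact ⟨Or.inr h, hP⟩
        refine ⟨f, Su, ρ, J, F, ?_, ?_, ?_⟩
        · refine ⟨hs.ok, fun a ha => ⟨hSu a ha, ?_⟩, hs.rho, hs.emb, ?_, hs.ini, ?_, ?_, ?_, ?_⟩
          · have := hSuK a ha
            omega
          · rw [show c.t + (i + 1) = K + 1 by omega, hDom]; exact hs.inj
          · rw [show c.t + (i + 1) = K + 1 by omega, hDom]; exact hs.adj
          · rw [show c.t + (i + 1) = K + 1 by omega, hWd]; exact hs.us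
          · rw [show c.t + (i + 1) = K + 1 by omega, hDom]; exact hs.tl
          · rw [show c.t + (i + 1) = K + 1 by omega, hDom]; exact hs.odb
        · rw [show c.t + (i + 1) = K + 1 by omega]
          apply hdj'
          intro s
          rw [hFa s (fun a ha _ h => hno a ha h), hPo s]
          exact hdj K le_rfl s
        · rw [show c.t + (i + 1) = K + 1 by omega]
          intro a ha haK haS r hr
          have haK' : c.fs a < K := by
            rcases Nat.lt_succ_iff_lt_or_eq.1 haK with h' | h'
            · exact h'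
            · exact absurd (hno a ha h') haS
          rw [hPo] at hr
          exact hnc a ha haK' haS r hr
      · by_cases hatt : ∃ a ∈ c.A, c.fs a = K
        · obtain ⟨a, ha, haK⟩ := hatt
          have haS : a ∉ Su := fun h => absurd (hSuK a h) (by omega)
          by_cases hsuc : ∃ r ∈ c.Po (c.gr a) Su ρ K,
              Cnn c.H c.W c.d c.m J F (c.D a) (f (c.tip a)) r
          · -- success
            obtain ⟨r, hr, hc⟩ := hsuc
            obtain ⟨f', J', F', hs', hJ, hF, hf⟩ := h4 V c hv K f Su ρ J F (by omega) hKN hs a ha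
              haK r hr hc
            have hOc' : c.Oc Su ρ K ⊆ c.Oc (insert a Su) (Function.update ρ a r) (K + 1) := by
              intro v hvv
              unfold Cx.Oc at hvv ⊢
              obtain ⟨a', ha', h⟩ := mem_biUnion.1 hvv
              rw [mem_filter] at ha'
              refine mem_biUnion.2 ⟨a', mem_filter.2 ⟨mem_insert_of_mem ha'.1, by omega⟩, ?_⟩
              rw [Function.update_of_ne (fun h => haS (by rw [← h]; exact ha'.1))]
              exact h
            have hOc'' : ∀ K' ≤ K, c.Oc (insert a Su) (Function.update ρ a r) K' =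
                c.Oc Su ρ K' := by
              intro K' hK'
              unfold Cx.Oc
              rw [filter_insert, if_neg (by omega)]
              apply biUnion_congr rfl
              intro a' ha'
              rw [Function.update_of_ne (fun h => haS (by rw [← h]; exact (mem_filter.1 ha').1))]
            refine ⟨f', insert a Su, Function.update ρ a r, J', F', ?_, ?_, ?_⟩
            · rw [show c.t + (i + 1) = K + 1 by omega]
              exact hs'
            · rw [show c.t + (i + 1) = K + 1 by omega]
              intro K' hK' s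
              rcases Nat.lt_succ_iff_lt_or_eq.1 (Nat.lt_succ_of_le hK') with h' | h'
              · have hK'' := Nat.lt_succ_iff.1 h'
                have e1 : c.Fa s (insert a Su) K' = c.Fa s Su K' := by
                  unfold Cx.Fa
                  apply filter_congr
                  intro a' _
                  constructor
                  · rintro ⟨g1, g2, g3⟩
                    exact ⟨g1, g2, fun h => g3 (mem_insert_of_mem h)⟩
                  · rintro ⟨g1, g2, g3⟩
                    refine ⟨g1, g2, fun h => ?_⟩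
                    rcases mem_insert.1 h with h | h
                    · rw [h] at g2; omega
                    · exact g3 h
                have e2 : c.Po s (insert a Su) (Function.update ρ a r) K' = c.Po s Su ρ K' := by
                  unfold Cx.Po
                  rw [hOc'' K' hK'']
                rw [e1, e2]
                exact hdj K' hK'' s
              · rw [h']
                refine clause_mono (card_le_card ?_) (card_le_card (Po_mono hOc'))
                  (hdj K le_rfl s)
                intro a' ha'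
                unfold Cx.Fa at ha' ⊢
                rw [mem_filter] at ha' ⊢
                obtain ⟨g0, g1, g2, g3⟩ := ha'
                refine ⟨g0, g1, ?_, fun h => g3 (mem_insert_of_mem h)⟩
                rcases Nat.lt_succ_iff_lt_or_eq.1 g2 with h' | h'
                · exact h'
                · exact absurd (fs_inj hv g0 ha (h'.trans haK.symm) ▸ mem_insert_self _ _) g3
            · rw [show c.t + (i + 1) = K + 1 by omega]
              intro a' ha' hK' hS' r' hr'
              have haS' : a' ∉ Su := fun h => hS' (mem_insert_of_mem h)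
              have hlt : c.fs a' < K := by
                rcases Nat.lt_succ_iff_lt_or_eq.1 hK' with h' | h'
                · exact h'
                · exact absurd (fs_inj hv ha' ha (h'.trans haK.symm) ▸ mem_insert_self _ _) hS'
              exact hmono f' (insert a Su) (Function.update ρ a r) J' F' hJ hF hf hOc' a' ha'
                hlt.le (hnc a' ha' hlt haS') r' hr'
          · -- failure
            push Not at hsuc
            obtain ⟨f', J', F', hs', hJ, hF, hf⟩ := h3 V c hv K f Su ρ J F (by omega) hKN hs hused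
              hcov
            refine ⟨f', Su, ρ, J', F', ?_, ?_, ?_⟩
            · rw [show c.t + (i + 1) = K + 1 by omega]
              exact hs'
            · rw [show c.t + (i + 1) = K + 1 by omega]
              apply hdj'
              intro s
              rw [hPo s]
              by_cases hsg : c.gr a = s
              · refine h5 V c hv K f Su ρ J F hKN.le hs hused s (c.Fa s Su (K + 1)) ?_
                intro a' ha'
                unfold Cx.Fa at ha'
                rw [mem_filter] at ha'
                obtain ⟨g0, g1, g2, g3⟩ := ha'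
                refine ⟨g0, g1, by omega, ?_⟩
                rw [← g1]
                rcases Nat.lt_succ_iff_lt_or_eq.1 g2 with h' | h'
                · exact hnc a' g0 h' g3
                · rw [fs_inj hv g0 ha (h'.trans haK.symm)]
                  exact hsuc
              · rw [hFa s (fun a' ha' h h' => absurd (fs_inj hv ha' ha (h'.trans haK.symm) ▸ h)
                  hsg)]
                exact hdj K le_rfl s
            · rw [show c.t + (i + 1) = K + 1 by omega]
              intro a' ha' hK' hS' r' hr'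
              refine hmono f' Su ρ J' F' hJ hF hf hOc.ge a' ha' (by omega) ?_ r' hr'
              rcases Nat.lt_succ_iff_lt_or_eq.1 hK' with h' | h'
              · exact hnc a' ha' h' hS'
              · rw [fs_inj hv ha' ha (h'.trans haK.symm)]
                exact hsuc
        · -- a waste vertex
          push Not at hatt
          obtain ⟨f', J', F', hs', hJ, hF, hf⟩ := h3 V c hv K f Su ρ J F (by omega) hKN hs hused
            hcov
          refine ⟨f', Su, ρ, J', F', ?_, ?_, ?_⟩
          · rw [show c.t + (i + 1) = K + 1 by omega]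
            exact hs'
          · rw [show c.t + (i + 1) = K + 1 by omega]
            apply hdj'
            intro s
            rw [hFa s (fun a ha _ h => absurd h (hatt a ha)), hPo s]
            exact hdj K le_rfl s
          · rw [show c.t + (i + 1) = K + 1 by omega]
            intro a' ha' hK' hS' r' hr'
            have hlt : c.fs a' < K := by
              rcases Nat.lt_succ_iff_lt_or_eq.1 hK' with h' | h'
              · exact h'
              · exact absurd h' (hatt a' ha')
            exact hmono f' Su ρ J' F' hJ hF hf hOc.ge a' ha' hlt.le (hnc a' ha' hlt hS') r' hr'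
  obtain ⟨f, Su, ρ, J, F, hs, hdj, _⟩ := key (c.N - c.t) (by have := hv.tN; omega)
  have hN : c.t + (c.N - c.t) = c.N := by have := hv.tN; omega
  rw [hN] at hs hdj
  exact ⟨f, Su, ρ, J, F, hs, hdj⟩

end Pool.Agent.RSL
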