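import Pool.Agent.RSL.Targets
import Pool.Agent.RST.P1

/-!
# RSL, target PFA: a successful attempt
-/

set_option autoImplicit false

open Finset

namespace Pool.Agent.RSL

open Pool.Agent.RST

namespace PFA_

variable {V : Type} [DecidableEq V] {c : Cx V}

lemma D2 (a : ℕ) : 2 ≤ c.D a := by
  unfold Cx.D
  omega

lemma mem_ch {a x : ℕ} : x ∈ c.ch a ↔ ∃ j, 1 ≤ j ∧ j ≤ c.D a - 1 ∧ c.par^[j] a = x := by
  unfold Cx.ch
  simp only [mem_image, mem_Icc]
  constructor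
  · rintro ⟨j, ⟨h1, h2⟩, h3⟩
    exact ⟨j, h1, h2, h3⟩
  · rintro ⟨j, h1, h2, h3⟩
    exact ⟨j, ⟨h1, h2⟩, h3⟩

lemma aN (hv : Vd c) {a : ℕ} (ha : a ∈ c.A) : a < c.N :=
  (mem_Ico.1 ((hv.mem a ha).2 (hv.mem a ha).1)).2

lemma pos (hv : Vd c) {a : ℕ} (ha : a ∈ c.A) : ∀ j < c.D a, 0 < c.par^[j] a := fun j hj =>
  lt_of_lt_of_le hv.t0 (hv.st a ha j hj)

lemma itN (hv : Vd c) {a : ℕ} (ha : a ∈ c.A) : ∀ j ≤ c.D a, c.par^[j] a < c.N := by
  intro j
  induction j with
  | zero =>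
    intro _
    exact aN hv ha
  | succ j ih =>
    intro hj
    rw [Function.iterate_succ_apply']
    have h1 := ih (by omega)
    exact lt_trans (hv.vt _ (pos hv ha j (by omega)) h1) h1

lemma fs_mem (a : ℕ) : c.fs a ∈ c.ch a := by
  have := D2 (c := c) a
  exact mem_ch.2 ⟨c.D a - 1, by omega, le_rfl, rfl⟩

lemma fs_le (hv : Vd c) {a : ℕ} (ha : a ∈ c.A) {j : ℕ} (hj : j < c.D a) :
    c.fs a ≤ c.par^[j] a := by
  rcases Nat.lt_or_ge j (c.D a - 1) with h | h
  · exact (P1_.dec hv.vt (pos hv ha) (itN hv ha) j (c.D a - 1) h (by omega)).le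
  · have : j = c.D a - 1 := by omega
    rw [this]
    exact le_rfl

lemma fs_lt (hv : Vd c) {a : ℕ} (ha : a ∈ c.A) : c.fs a < a := by
  have := D2 (c := c) a
  exact P1_.dec hv.vt (pos hv ha) (itN hv ha) 0 (c.D a - 1) (by omega) (by omega)

lemma le_P (hv : Vd c) {a : ℕ} (ha : a ∈ c.A) : ∀ x ∈ c.P a, a ≤ x := by
  intro x
  induction x using Nat.strong_induction_on with
  | _ x ih =>
    intro hx
    by_cases h : x = a
    · exact h.ge
    · have h1 := mem_Ico.1 ((hv.mem a ha).2 hx)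
      have h2 := hv.t0
      have h3 : c.par x < x := hv.vt x (by omega) h1.2
      exact (ih _ h3 (hv.conn a ha x hx h)).trans h3.le

lemma par_notO (hv : Vd c) {x : ℕ} (h0 : 0 < x) (hN : x < c.N) : c.par x ∉ c.O := by
  intro h
  have h1 := hv.leaf _ h
  have h2 : x ∈ chd c.N c.par (c.par x) := by
    unfold chd
    simp [h0, hN]
  rw [h1] at h2
  simp at h2

lemma root_notO (hv : Vd c) {a : ℕ} (ha : a ∈ c.A) : a ∉ c.O := by
  intro h
  obtain ⟨a', ha', h1, h2⟩ := hv.own a h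
  exact disjoint_left.1 (hv.disj a ha a' ha' h2) (hv.mem a ha).1 h1

lemma ch_notP (hv : Vd c) {a a' x : ℕ} (ha : a ∈ c.A) (ha' : a' ∈ c.A) (hx : x ∈ c.ch a) :
    x ∉ c.P a' := by
  obtain ⟨j, h1, h2, rfl⟩ := mem_ch.1 hx
  exact hv.chn a ha a' ha' j h1 (by omega)

lemma mem_Dom {Su : Finset ℕ} {K x : ℕ} : x ∈ c.Dom Su K ↔
    (x ∈ c.Dm ∨ (c.t ≤ x ∧ x < K) ∨ ∃ a ∈ Su, x ∈ c.ch a ∨ x ∈ c.P a) ∧
      ∀ a ∈ Su, x ∈ c.P a → x ∉ c.O := by
  unfold Cx.Dom
  simp only [mem_sdiff, mem_union, mem_biUnion, mem_Ico, mem_inter, not_exists, not_and, or_assoc]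

lemma mem_Wd {Su : Finset ℕ} {K x : ℕ} : x ∈ c.Wd Su K ↔
    ((c.t ≤ x ∧ x < K) ∨ ∃ a ∈ Su, x ∈ c.ch a) ∧ ∀ a ∈ Su, x ∉ c.P a := by
  unfold Cx.Wd
  simp only [mem_sdiff, mem_union, mem_biUnion, mem_Ico, not_exists, not_and]

/-- parents are embedded (small labels) -/
lemma par_Dom_lt (hv : Vd c) {Su : Finset ℕ} {K x : ℕ} (h1 : c.t ≤ x) (h2 : x ≤ K)
    (h3 : x < c.N) : c.par x ∈ c.Dom Su K := by
  have h0 : 0 < x := lt_of_lt_of_le hv.t0 h1
  have hlt := hv.vt x h0 h3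
  refine mem_Dom.2 ⟨?_, fun _ _ _ => par_notO hv h0 h3⟩
  rcases Nat.lt_or_ge (c.par x) c.t with h | h
  · exact Or.inl (hv.DmP x h1 h3 h)
  · exact Or.inr (Or.inl ⟨h, by omega⟩)

/-- parents are embedded -/
lemma par_Dom (hv : Vd c) {Su : Finset ℕ} {K x : ℕ} (hK : K ≤ c.N)
    (hSu : ∀ a ∈ Su, a ∈ c.A ∧ c.fs a < K) (hx : x ∈ c.Dom Su K) (h1 : c.t ≤ x) :
    c.par x ∈ c.Dom Su K := by
  obtain ⟨hx1, hx2⟩ := mem_Dom.1 hx
  rcases hx1 with h | h | ⟨a, ha, h⟩
  · have := mem_range.1 (hv.DmS h)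
    omega
  · exact par_Dom_lt hv h1 h.2.le (by omega)
  · have haA := (hSu a ha).1
    rcases h with h | h
    · obtain ⟨j, h2, h3, rfl⟩ := mem_ch.1 h
      have hD := D2 (c := c) a
      rcases Nat.lt_or_ge j (c.D a - 1) with h4 | h4
      · have h5 : c.par (c.par^[j] a) ∈ c.ch a :=
          mem_ch.2 ⟨j + 1, by omega, by omega, Function.iterate_succ_apply' _ _ _⟩
        exact mem_Dom.2 ⟨Or.inr (Or.inr ⟨a, ha, Or.inl h5⟩),
          fun a' ha' h6 => absurd h6 (ch_notP hv haA (hSu a' ha').1 h5)⟩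
      · have h5 : j = c.D a - 1 := by omega
        subst h5
        exact par_Dom_lt hv h1 (hSu a ha).2.le (itN hv haA _ (by omega))
    · have hI := mem_Ico.1 ((hv.mem a haA).2 h)
      have h0 : 0 < x := lt_of_lt_of_le hv.t0 h1
      have hO := par_notO hv h0 hI.2
      refine mem_Dom.2 ⟨Or.inr (Or.inr ⟨a, ha, ?_⟩), fun _ _ _ => hO⟩
      by_cases h4 : x = a
      · subst h4
        have hD := D2 (c := c) x
        exact Or.inl (mem_ch.2 ⟨1, le_rfl, by omega, rfl⟩)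
      · exact Or.inr (hv.conn a haA x h h4)

/-- where embedded vertices are -/
lemma dom_cases {K : ℕ} {f : ℕ → V} {Su : Finset ℕ} {ρ : ℕ → V}
    {J : Finset (V × V)} {F : Finset V} (hv : Vd c) (hs : PSt c K f Su ρ J F) {x : ℕ}
    (hx : x ∈ c.Dom Su K) : (x ∈ c.Dm ∧ f x = c.f₀ x) ∨ f x ∈ used J F ∨
      ∃ a ∈ Su, f x ∈ c.Sl (c.gr a) (ρ a) := by
  obtain ⟨h1, h2⟩ := mem_Dom.1 hx
  by_cases hD : x ∈ c.Dm
  · exact Or.inl ⟨hD, hs.ini x hD⟩
  by_cases hP : ∃ a ∈ Su, x ∈ c.P a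
  · obtain ⟨a, ha, hxP⟩ := hP
    refine Or.inr (Or.inr ⟨a, ha, ?_⟩)
    have hxO := h2 a ha hxP
    have hm : x ∈ c.P a \ c.O := mem_sdiff.2 ⟨hxP, hxO⟩
    rw [hs.emb a ha x hm, ← hv.sim a (hs.su a ha).1 _ (hs.rho a ha)]
    exact mem_image_of_mem _ hm
  · push Not at hP
    refine Or.inr (Or.inl ?_)
    rw [hs.us]
    refine mem_image_of_mem _ (mem_Wd.2 ⟨?_, hP⟩)
    rcases h1 with h | h | ⟨a, ha, h⟩
    · exact absurd h hD
    · exact Or.inl h
    · rcases h with h | h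
      · exact Or.inr ⟨a, ha, h⟩
      · exact absurd h (hP a ha)

lemma Wd_sub_Dom {Su : Finset ℕ} {K x : ℕ} (hx : x ∈ c.Wd Su K) : x ∈ c.Dom Su K := by
  obtain ⟨h1, h2⟩ := mem_Wd.1 hx
  refine mem_Dom.2 ⟨?_, fun a ha h => absurd h (h2 a ha)⟩
  rcases h1 with h | ⟨a, ha, h⟩
  · exact Or.inr (Or.inl h)
  · exact Or.inr (Or.inr ⟨a, ha, Or.inl h⟩)

lemma od_union (J E : Finset (V × V)) (v : V) : od (J ∪ E) v ≤ od J v + od E v := by
  unfold od
  rw [filter_union]
  exact card_union_le _ _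

lemma od_eq_zero {J : Finset (V × V)} {v : V} (h : ∀ e ∈ J, e.1 ≠ v) : od J v = 0 := by
  unfold od
  rw [card_eq_zero, filter_eq_empty_iff]
  exact fun e he h1 => h e he h1

end PFA_

open PFA_ in
theorem pPFA : T_PFA := by
  intro V _ _ c hv K f Su ρ J F hK1 hK2 hs a ha hfs r hr hcn
  obtain ⟨l, E, G, hok, hpth, hnew, him, htl, hod1⟩ := hcn
  have hD := D2 (c := c) a
  have hKN : K ≤ c.N := hK2.le
  have hSu := hs.su
  have haSu : a ∉ Su := fun h => by
    have := (hs.su a h).2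
    omega
  -- the slot
  obtain ⟨hrR, hrO⟩ := mem_filter.1 hr
  have haO := root_notO hv ha
  have hPO : ∀ x ∈ c.P a \ c.O, c.φ a r x ∈ c.Sl (c.gr a) r := by
    intro x hx
    rw [← hv.sim a ha r hrR]
    exact mem_image_of_mem _ hx
  have haP : a ∈ c.P a \ c.O := mem_sdiff.2 ⟨(hv.mem a ha).1, haO⟩
  have hφa : c.φ a r a = r := hv.sr a ha r hrR
  have hrS : r ∈ c.Sl (c.gr a) r := by
    have := hPO a haP
    rwa [hφa] at this
  have hSW : ∀ v ∈ c.Sl (c.gr a) r, v ∉ c.W := fun v h1 h2 =>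
    disjoint_left.1 (hv.sW a ha r hrR) h1 h2
  have hSf : ∀ v ∈ c.Sl (c.gr a) r, ∀ x ∈ c.Dom Su K, f x ≠ v := by
    intro v hvS x hx hfx
    rcases dom_cases hv hs hx with ⟨h1, h2⟩ | h1 | ⟨a', ha', h1⟩
    · rw [h2] at hfx
      exact hv.s0 a ha r hrR x h1 (hfx ▸ hvS)
    · exact hSW v hvS (hfx ▸ hs.ok.sub h1)
    · refine disjoint_left.1 hrO hvS ?_
      unfold Cx.Oc
      rw [mem_biUnion]
      exact ⟨a', mem_filter.2 ⟨ha', (hSu a' ha').2⟩, hfx ▸ h1⟩
  have hWu : ∀ x ∈ c.Dom Su K, f x ∈ c.W → f x ∈ used J F := by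
    intro x hx hW
    rcases dom_cases hv hs hx with ⟨h1, h2⟩ | h1 | ⟨a', ha', h1⟩
    · exact absurd (h2 ▸ hW) (hv.f0W x h1)
    · exact h1
    · exact absurd hW (disjoint_left.1 (hv.sW a' (hSu a' ha').1 _ (hs.rho a' ha')) h1)
  have hlf : ∀ x ∈ c.Dom Su K, f x ∉ l := fun x hx h => (hnew _ h).2 (hWu x hx (hnew _ h).1)
  -- disjointness
  have hchK : ∀ x ∈ c.ch a, K ≤ x ∧ c.t ≤ x := by
    intro x hx
    obtain ⟨j, h1, h2, rfl⟩ := mem_ch.1 hx
    exact ⟨hfs ▸ fs_le hv ha (by omega), hv.st a ha j (by omega)⟩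
  have hPK : ∀ x ∈ c.P a, K < x := by
    intro x hx
    have h1 := le_P hv ha x hx
    have h2 := fs_lt hv ha
    omega
  have hne : ∀ a' ∈ Su, a ≠ a' := by
    rintro a' ha' rfl
    exact haSu ha'
  have hchD : ∀ x ∈ c.ch a, x ∉ c.Dom Su K := by
    intro x hx hxD
    have h0 := hchK x hx
    rcases (mem_Dom.1 hxD).1 with h | h | ⟨a', ha', h | h⟩
    · have := mem_range.1 (hv.DmS h)
      omega
    · omega
    · obtain ⟨j, h1, h2, h3⟩ := mem_ch.1 hx
      obtain ⟨j', h4, h5, h6⟩ := mem_ch.1 h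
      exact hne a' ha' (hv.exc a ha a' (hSu a' ha').1 j j' h1 (by omega) h4 (by omega)
        (h3.trans h6.symm))
    · exact ch_notP hv ha (hSu a' ha').1 hx h
  have hPD : ∀ x ∈ c.P a, x ∉ c.Dom Su K := by
    intro x hx hxD
    have h0 := hPK x hx
    have h0' := mem_Ico.1 ((hv.mem a ha).2 hx)
    rcases (mem_Dom.1 hxD).1 with h | h | ⟨a', ha', h | h⟩
    · have := mem_range.1 (hv.DmS h)
      omega
    · omega
    · exact ch_notP hv (hSu a' ha').1 ha h hx
    · exact disjoint_left.1 (hv.disj a ha a' (hSu a' ha').1 (hne a' ha')) hx h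
  have hchP : ∀ x ∈ c.ch a, x ∉ c.P a := fun x hx => ch_notP hv ha ha hx
  -- the new domain
  have hDom : ∀ x, x ∈ c.Dom (insert a Su) (K + 1) ↔
      x ∈ c.Dom Su K ∨ x ∈ c.ch a ∨ x ∈ c.P a \ c.O := by
    intro x
    rw [mem_Dom]
    constructor
    · rintro ⟨h1, h2⟩
      have hDm : (x ∈ c.Dm ∨ (c.t ≤ x ∧ x < K) ∨ ∃ a ∈ Su, x ∈ c.ch a ∨ x ∈ c.P a) →
          x ∈ c.Dom Su K := fun h =>
        mem_Dom.2 ⟨h, fun a' ha' => h2 a' (mem_insert_of_mem ha')⟩
      rcases h1 with h | h | ⟨a', ha', h⟩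
      · exact Or.inl (hDm (Or.inl h))
      · rcases Nat.lt_or_ge x K with h3 | h3
        · exact Or.inl (hDm (Or.inr (Or.inl ⟨h.1, h3⟩)))
        · have h4 : x = c.fs a := by omega
          exact Or.inr (Or.inl (h4 ▸ fs_mem a))
      · rcases mem_insert.1 ha' with h3 | h3
        · subst h3
          rcases h with h | h
          · exact Or.inr (Or.inl h)
          · exact Or.inr (Or.inr (mem_sdiff.2 ⟨h, h2 a' ha' h⟩))
        · exact Or.inl (hDm (Or.inr (Or.inr ⟨a', h3, h⟩)))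
    · rintro (h | h | h)
      · obtain ⟨h1, h2⟩ := mem_Dom.1 h
        refine ⟨?_, fun a' ha' h3 => ?_⟩
        · rcases h1 with h1 | h1 | ⟨a', ha', h1⟩
          · exact Or.inl h1
          · exact Or.inr (Or.inl ⟨h1.1, by omega⟩)
          · exact Or.inr (Or.inr ⟨a', mem_insert_of_mem ha', h1⟩)
        · rcases mem_insert.1 ha' with h4 | h4
          · subst h4
            exact absurd h (hPD x h3)
          · exact h2 a' h4 h3
      · refine ⟨Or.inr (Or.inr ⟨a, mem_insert_self _ _, Or.inl h⟩), fun a' ha' h3 => ?_⟩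
        have ha'A : a' ∈ c.A := by
          rcases mem_insert.1 ha' with h4 | h4
          · exact h4 ▸ ha
          · exact (hSu a' h4).1
        exact absurd h3 (ch_notP hv ha ha'A h)
      · obtain ⟨h1, h2⟩ := mem_sdiff.1 h
        exact ⟨Or.inr (Or.inr ⟨a, mem_insert_self _ _, Or.inr h1⟩), fun _ _ _ => h2⟩
  have hWd : ∀ x, x ∈ c.Wd (insert a Su) (K + 1) ↔ x ∈ c.Wd Su K ∨ x ∈ c.ch a := by
    intro x
    rw [mem_Wd]
    constructor
    · rintro ⟨h1, h2⟩
      have h2' : ∀ a' ∈ Su, x ∉ c.P a' := fun a' ha' => h2 a' (mem_insert_of_mem ha')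
      rcases h1 with h | ⟨a', ha', h⟩
      · rcases Nat.lt_or_ge x K with h3 | h3
        · exact Or.inl (mem_Wd.2 ⟨Or.inl ⟨h.1, h3⟩, h2'⟩)
        · have h4 : x = c.fs a := by omega
          exact Or.inr (h4 ▸ fs_mem a)
      · rcases mem_insert.1 ha' with h3 | h3
        · exact Or.inr (h3 ▸ h)
        · exact Or.inl (mem_Wd.2 ⟨Or.inr ⟨a', h3, h⟩, h2'⟩)
    · rintro (h | h)
      · have hxD := Wd_sub_Dom h
        obtain ⟨h1, h2⟩ := mem_Wd.1 h
        refine ⟨?_, fun a' ha' h3 => ?_⟩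
        · rcases h1 with h1 | ⟨a', ha', h1⟩
          · exact Or.inl ⟨h1.1, by omega⟩
          · exact Or.inr ⟨a', mem_insert_of_mem ha', h1⟩
        · rcases mem_insert.1 ha' with h4 | h4
          · subst h4
            exact hPD x h3 hxD
          · exact h2 a' h4 h3
      · refine ⟨Or.inr ⟨a, mem_insert_self _ _, h⟩, fun a' ha' => ?_⟩
        have ha'A : a' ∈ c.A := by
          rcases mem_insert.1 ha' with h4 | h4
          · exact h4 ▸ ha
          · exact (hSu a' h4).1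
        exact ch_notP hv ha ha'A h
  -- the tip
  have htip : c.tip a = c.par (c.fs a) := by
    unfold Cx.tip Cx.fs
    rw [← Function.iterate_succ_apply' c.par]
    have h : (c.D a - 1).succ = c.D a := by omega
    rw [h]
  have htD : c.tip a ∈ c.Dom Su K := by
    rw [htip, hfs]
    exact par_Dom_lt hv hK1 le_rfl hK2
  -- the path
  obtain ⟨gg, hg0, hgD, hgadj, hgl, hginj, hgsur⟩ := P1_.path_fun hpth
  have hit : ∀ {i j : ℕ}, i ≤ c.D a → j ≤ c.D a → c.par^[i] a = c.par^[j] a → i = j :=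
    fun hi hj h => P1_.inj_it hv.vt (pos hv ha) (itN hv ha) hi hj h
  obtain ⟨f', hf1, hf2, hf3⟩ : ∃ f' : ℕ → V,
      (∀ j, 1 ≤ j → j ≤ c.D a - 1 → f' (c.par^[j] a) = gg (c.D a - j)) ∧
      (∀ x ∈ c.P a \ c.O, f' x = c.φ a r x) ∧ ∀ x ∈ c.Dom Su K, f' x = f x := by
    classical
    refine ⟨fun x => if h : ∃ j, 1 ≤ j ∧ j ≤ c.D a - 1 ∧ c.par^[j] a = x then
      gg (c.D a - h.choose) else if x ∈ c.P a \ c.O then c.φ a r x else f x, ?_, ?_, ?_⟩
    · intro j hj1 hj2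
      have hex : ∃ i, 1 ≤ i ∧ i ≤ c.D a - 1 ∧ c.par^[i] a = c.par^[j] a := ⟨j, hj1, hj2, rfl⟩
      have he : hex.choose = j := by
        obtain ⟨h1, h2, h3⟩ := hex.choose_spec
        exact hit (by omega) (by omega) h3
      simp only [dif_pos hex]
      rw [he]
    · intro x hx
      have hex : ¬ ∃ j, 1 ≤ j ∧ j ≤ c.D a - 1 ∧ c.par^[j] a = x := fun h =>
        hchP x (mem_ch.2 h) (mem_sdiff.1 hx).1
      simp only [dif_neg hex, if_pos hx]
    · intro x hx
      have hex : ¬ ∃ j, 1 ≤ j ∧ j ≤ c.D a - 1 ∧ c.par^[j] a = x := fun h =>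
        hchD x (mem_ch.2 h) hx
      have hx2 : x ∉ c.P a \ c.O := fun h => hPD x (mem_sdiff.1 h).1 hx
      simp only [dif_neg hex, if_neg hx2]
  have hfch : ∀ x ∈ c.ch a, f' x ∈ l := by
    intro x hx
    obtain ⟨j, h1, h2, rfl⟩ := mem_ch.1 hx
    rw [hf1 j h1 h2]
    exact hgl _ (by omega) (by omega)
  have hfchs : ∀ v ∈ l, ∃ x ∈ c.ch a, f' x = v := by
    intro v hvl
    obtain ⟨i, h1, h2, h3⟩ := hgsur v hvl
    refine ⟨c.par^[c.D a - i] a, mem_ch.2 ⟨c.D a - i, by omega, by omega, rfl⟩, ?_⟩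
    rw [hf1 _ (by omega) (by omega), ← h3]
    congr 1
    omega
  have hfP : ∀ x ∈ c.P a \ c.O, f' x ∈ c.Sl (c.gr a) r := fun x hx => by
    rw [hf2 x hx]
    exact hPO x hx
  have hlW : ∀ v ∈ l, v ∈ c.W := fun v h => (hnew v h).1
  refine ⟨f', J ∪ E, F ∪ G, ?_, subset_union_left, subset_union_left, hf3⟩
  refine ⟨hok, ?_, ?_, ?_, ?_, ?_, ?_, ?_, ?_, ?_⟩
  · -- su
    intro a' ha'
    rcases mem_insert.1 ha' with h | h
    · rw [h]
      exact ⟨ha, by omega⟩
    · have := hSu a' h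
      exact ⟨this.1, by omega⟩
  · -- rho
    intro a' ha'
    by_cases h : a' = a
    · rw [h, Function.update_self]
      exact hrR
    · rw [Function.update_of_ne h]
      exact hs.rho a' ((mem_insert.1 ha').resolve_left h)
  · -- emb
    intro a' ha' x hx
    by_cases h : a' = a
    · subst h
      rw [Function.update_self]
      exact hf2 x hx
    · have ha2 := (mem_insert.1 ha').resolve_left h
      rw [Function.update_of_ne h, ← hs.emb a' ha2 x hx]
      obtain ⟨h1, h2⟩ := mem_sdiff.1 hx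
      exact hf3 x (mem_Dom.2 ⟨Or.inr (Or.inr ⟨a', ha2, Or.inr h1⟩), fun _ _ _ => h2⟩)
  · -- inj
    have hcr1 : ∀ x ∈ c.Dom Su K, ∀ y ∈ c.ch a, f' x ≠ f' y := by
      intro x hx y hy h
      rw [hf3 x hx] at h
      exact hlf x hx (h ▸ hfch y hy)
    have hcr2 : ∀ x ∈ c.Dom Su K, ∀ y ∈ c.P a \ c.O, f' x ≠ f' y := by
      intro x hx y hy h
      rw [hf3 x hx] at h
      exact hSf _ (hfP y hy) x hx h
    have hcr3 : ∀ x ∈ c.ch a, ∀ y ∈ c.P a \ c.O, f' x ≠ f' y := by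
      intro x hx y hy h
      exact hSW _ (hfP y hy) (h ▸ hlW _ (hfch x hx))
    intro x hx y hy hxy
    rcases (hDom x).1 (mem_coe.1 hx) with h1 | h1 | h1 <;>
      rcases (hDom y).1 (mem_coe.1 hy) with h2 | h2 | h2
    · rw [hf3 x h1, hf3 y h2] at hxy
      exact hs.inj (mem_coe.2 h1) (mem_coe.2 h2) hxy
    · exact absurd hxy (hcr1 x h1 y h2)
    · exact absurd hxy (hcr2 x h1 y h2)
    · exact absurd hxy.symm (hcr1 y h2 x h1)
    · obtain ⟨i, h3, h4, rfl⟩ := mem_ch.1 h1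
      obtain ⟨j, h5, h6, rfl⟩ := mem_ch.1 h2
      rw [hf1 i h3 h4, hf1 j h5 h6] at hxy
      have := hginj _ _ (by omega) (by omega) (by omega) (by omega) hxy
      have hij : i = j := by omega
      rw [hij]
    · exact absurd hxy (hcr3 x h1 y h2)
    · exact absurd hxy.symm (hcr2 y h2 x h1)
    · exact absurd hxy.symm (hcr3 y h2 x h1)
    · rw [hf2 x h1, hf2 y h2] at hxy
      exact hv.si a ha r hrR (mem_coe.2 h1) (mem_coe.2 h2) hxy
  · -- ini
    intro x hx
    rw [← hs.ini x hx]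
    refine hf3 x (mem_Dom.2 ⟨Or.inl hx, fun a' ha' h => ?_⟩)
    have h1 := mem_range.1 (hv.DmS hx)
    have h2 := mem_Ico.1 ((hv.mem a' (hSu a' ha').1).2 h)
    omega
  · -- adj
    intro x hx hxt
    rcases (hDom x).1 hx with h | h | h
    · rw [hf3 x h, hf3 _ (par_Dom hv hKN hSu h hxt)]
      exact hs.adj x h hxt
    · obtain ⟨j, h1, h2, rfl⟩ := mem_ch.1 h
      rw [hf1 j h1 h2, ← Function.iterate_succ_apply' c.par]
      have e := hgadj (c.D a - (j + 1)) (by omega)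
      have e1 : c.D a - (j + 1) + 1 = c.D a - j := by omega
      rw [e1] at e
      rcases Nat.lt_or_ge j (c.D a - 1) with h3 | h3
      · rw [Nat.succ_eq_add_one, hf1 (j + 1) (by omega) (by omega)]
        exact e.symm
      · have h4 : j.succ = c.D a := by omega
        have h5 : c.D a - (j + 1) = 0 := by omega
        rw [h5, hg0] at e
        rw [h4]
        have h6 : f' (c.par^[c.D a] a) = f (c.tip a) := hf3 _ htD
        rw [h6]
        exact e.symm
    · by_cases h1 : x = a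
      · subst h1
        rw [hf2 x h, hφa]
        have h2 : f' (c.par x) = gg (c.D x - 1) := hf1 1 le_rfl (by omega)
        rw [h2]
        have e := hgadj (c.D x - 1) (by omega)
        have e1 : c.D x - 1 + 1 = c.D x := by omega
        rw [e1, hgD] at e
        exact e.symm
      · have hxP := (mem_sdiff.1 h).1
        have hI := mem_Ico.1 ((hv.mem a ha).2 hxP)
        have h2 : c.par x ∈ c.P a \ c.O := mem_sdiff.2 ⟨hv.conn a ha x hxP h1,
          par_notO hv (lt_of_lt_of_le hv.t0 hxt) hI.2⟩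
        rw [hf2 x h, hf2 _ h2]
        exact hv.sadj a ha r hrR x h h1
  · -- us
    have h1 : used (J ∪ E) (F ∪ G) = used J F ∪ l.toFinset := by
      rw [← him]
      unfold used
      rw [image_union]
      ext v
      simp only [mem_union]
      tauto
    rw [h1, hs.us]
    ext v
    simp only [mem_union, mem_image, List.mem_toFinset]
    constructor
    · rintro (⟨x, hx, rfl⟩ | h)
      · exact ⟨x, (hWd x).2 (Or.inl hx), hf3 x (Wd_sub_Dom hx)⟩
      · obtain ⟨x, hx, h2⟩ := hfchs v h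
        exact ⟨x, (hWd x).2 (Or.inr hx), h2⟩
    · rintro ⟨x, hx, rfl⟩
      rcases (hWd x).1 hx with h | h
      · exact Or.inl ⟨x, h, (hf3 x (Wd_sub_Dom h)).symm⟩
      · exact Or.inr (hfch x h)
  · -- tl
    intro e he
    rcases mem_union.1 he with h | h
    · obtain ⟨x, hx, h1⟩ := hs.tl e h
      exact ⟨x, (hDom x).2 (Or.inl hx), (hf3 x hx).trans h1⟩
    · rcases htl e h with h1 | h1 | h1
      · exact ⟨c.tip a, (hDom _).2 (Or.inl htD), (hf3 _ htD).trans h1.symm⟩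
      · exact ⟨a, (hDom a).2 (Or.inr (Or.inr haP)), by rw [hf2 a haP, hφa, h1]⟩
      · obtain ⟨x, hx, h2⟩ := hfchs _ h1
        exact ⟨x, (hDom x).2 (Or.inr (Or.inl hx)), h2⟩
  · -- odb
    intro x hx
    have hE1 : ∀ v, od E v ≤ 1 := hod1
    have hun := od_union J E (f' x)
    have hE1x := hE1 (f' x)
    rcases (hDom x).1 hx with h | h | h
    · have hold := hs.odb x h
      rw [hf3 x h] at hun hE1x ⊢
      have hsub : (c.Dom Su K).filter (fun y => c.t ≤ y ∧ c.par y = x) ⊆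
          (c.Dom (insert a Su) (K + 1)).filter (fun y => c.t ≤ y ∧ c.par y = x) :=
        filter_subset_filter _ fun y hy => (hDom y).2 (Or.inl hy)
      by_cases hxt : x = c.tip a
      · have hlt : ((c.Dom Su K).filter (fun y => c.t ≤ y ∧ c.par y = x)).card <
            ((c.Dom (insert a Su) (K + 1)).filter (fun y => c.t ≤ y ∧ c.par y = x)).card := by
          apply card_lt_card
          rw [ssubset_iff_of_subset hsub]
          refine ⟨c.fs a, mem_filter.2 ⟨(hDom _).2 (Or.inr (Or.inl (fs_mem a))),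
            by rw [hfs]; exact hK1, by rw [hxt, htip]⟩, ?_⟩
          rw [mem_filter]
          exact fun h2 => hchD _ (fs_mem a) h2.1
        omega
      · have h0 : od E (f x) = 0 := by
          apply od_eq_zero
          intro e he h1
          rcases htl e he with h2 | h2 | h2
          · exact hxt (hs.inj (mem_coe.2 h) (mem_coe.2 htD) (h1.symm.trans h2))
          · exact hSf r hrS x h (h1.symm.trans h2)
          · exact hlf x h (h1 ▸ h2)
        have hle := card_le_card hsub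
        omega
    · have h1 := hnew _ (hfch x h)
      have h0 := P1_.od_zero hs.ok h1.1 h1.2
      omega
    · have h0 : od J (f' x) = 0 := by
        apply od_eq_zero
        intro e he h1
        obtain ⟨y, hy, h2⟩ := hs.tl e he
        exact hSf _ (hfP x h) y hy (h2.trans h1)
      omega

end Pool.Agent.RSL
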