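import Pool.Agent.RSL.Targets

/-!
# PFD: few failures or few free slots
-/

set_option autoImplicit false

open Finset

namespace Pool.Agent.RSL

open Pool.Agent.RST

namespace PFD_

variable {V : Type} [DecidableEq V] {c : Cx V}

theorem aN (hV : Vd c) {a : ℕ} (ha : a ∈ c.A) : c.t ≤ a ∧ a < c.N := by
  obtain ⟨h1, h2⟩ := hV.mem a ha
  exact mem_Ico.1 (h2 h1)

theorem itN (hV : Vd c) {a : ℕ} (ha : a ∈ c.A) : ∀ j ≤ c.D a, c.par^[j] a < c.N := by
  intro j
  induction j with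
  | zero => intro _; exact (aN hV ha).2
  | succ j ih =>
    intro hj
    rw [Function.iterate_succ_apply']
    have h1 := ih (by omega)
    have h2 := hV.st a ha j (by omega)
    have h3 := hV.vt _ (by have := hV.t0; omega) h1
    omega

theorem D_pos (c : Cx V) (a : ℕ) : 2 ≤ c.D a := by unfold Cx.D; omega

theorem tip_eq (c : Cx V) (a : ℕ) : c.tip a = c.par (c.fs a) := by
  unfold Cx.tip Cx.fs
  have := D_pos c a
  obtain ⟨n, hn⟩ : ∃ n, c.D a = n + 1 := ⟨c.D a - 1, by omega⟩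
  rw [hn, Function.iterate_succ_apply']
  simp

theorem tip_lt (hV : Vd c) {a : ℕ} (ha : a ∈ c.A) :
    c.tip a < c.fs a ∧ c.t ≤ c.fs a ∧ c.fs a < c.N := by
  have hD := D_pos c a
  have h1 : c.t ≤ c.fs a := hV.st a ha _ (by omega)
  have h2 : c.fs a < c.N := itN hV ha _ (by omega)
  refine ⟨?_, h1, h2⟩
  rw [tip_eq]
  exact hV.vt _ (by have := hV.t0; omega) h2

theorem tip_notMem (hV : Vd c) {a a' : ℕ} (ha : a ∈ c.A) (ha' : a' ∈ c.A) : c.tip a ∉ c.P a' :=
  hV.chn a ha a' ha' (c.D a) (by have := D_pos c a; omega) le_rfl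

theorem tip_dom (hV : Vd c) {Su : Finset ℕ} {K : ℕ} (hSu : ∀ a ∈ Su, a ∈ c.A) {a : ℕ}
    (ha : a ∈ c.A) (hK : c.fs a ≤ K) :
    c.tip a ∈ c.Dom Su K ∧ (c.tip a ∈ c.Dm ∨ c.tip a ∈ c.Wd Su K) := by
  obtain ⟨h1, h2, h3⟩ := tip_lt hV ha
  have h4 : c.tip a ∉ Su.biUnion (fun a => c.P a ∩ c.O) := by
    rw [mem_biUnion]
    rintro ⟨a', ha', h⟩
    exact tip_notMem hV ha (hSu a' ha') (mem_inter.1 h).1
  have h5 : c.tip a ∉ Su.biUnion c.P := by
    rw [mem_biUnion]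
    rintro ⟨a', ha', h⟩
    exact tip_notMem hV ha (hSu a' ha') h
  rcases lt_or_ge (c.tip a) c.t with h | h
  · have h6 : c.tip a ∈ c.Dm := by
      rw [tip_eq] at h ⊢
      exact hV.DmP _ h2 h3 h
    exact ⟨mem_sdiff.2 ⟨mem_union_left _ (mem_union_left _ h6), h4⟩, Or.inl h6⟩
  · have h6 : c.tip a ∈ Ico c.t K := mem_Ico.2 ⟨h, by omega⟩
    exact ⟨mem_sdiff.2 ⟨mem_union_left _ (mem_union_right _ h6), h4⟩,
      Or.inr (mem_sdiff.2 ⟨mem_union_left _ h6, h5⟩)⟩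

theorem dom_sub (hV : Vd c) {Su : Finset ℕ} {K : ℕ} (hSu : ∀ a ∈ Su, a ∈ c.A) (hK : K ≤ c.N) :
    c.Dom Su K ⊆ range c.N := by
  intro x hx
  have h1 := (mem_sdiff.1 hx).1
  rw [mem_range]
  rcases mem_union.1 h1 with h | h
  · rcases mem_union.1 h with h | h
    · have h2 := mem_range.1 (hV.DmS h)
      have h3 := hV.tN
      omega
    · have := (mem_Ico.1 h).2
      omega
  · obtain ⟨a, ha, h⟩ := mem_biUnion.1 h
    rcases mem_union.1 h with h | h
    · unfold Cx.ch at h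
      obtain ⟨j, hj, rfl⟩ := mem_image.1 h
      have := mem_Icc.1 hj
      exact itN hV (hSu a ha) j (by omega)
    · have := (hV.mem a (hSu a ha)).2 h
      exact (mem_Ico.1 this).2

/-- the children in the domain -/
theorem kids (hV : Vd c) {Su : Finset ℕ} {K : ℕ} (hSu : ∀ a ∈ Su, a ∈ c.A) (hK : K ≤ c.N)
    (x : ℕ) : ((c.Dom Su K).filter (fun y => c.t ≤ y ∧ c.par y = x)).card ≤ c.Δ := by
  refine (card_le_card ?_).trans (hV.bdd x)
  intro y hy
  obtain ⟨h1, h2, h3⟩ := mem_filter.1 hy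
  have h4 := dom_sub hV hSu hK h1
  have h5 := hV.t0
  exact mem_filter.2 ⟨h4, by omega, h3⟩

theorem notMem_O (hV : Vd c) {a : ℕ} (ha : a ∈ c.A) : a ∉ c.O := by
  intro h
  obtain ⟨a', ha', h1, h2⟩ := hV.own a h
  exact disjoint_left.1 (hV.disj a ha a' ha' h2) (hV.mem a ha).1 h1

theorem root_mem (hV : Vd c) {a : ℕ} (ha : a ∈ c.A) {r : V} (hr : r ∈ c.R (c.gr a)) :
    r ∈ c.Sl (c.gr a) r := by
  rw [← hV.sim a ha r hr]
  exact mem_image.2 ⟨a, mem_sdiff.2 ⟨(hV.mem a ha).1, notMem_O hV ha⟩, hV.sr a ha r hr⟩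

/-- free roots are not images -/
theorem free_root (hV : Vd c) {K : ℕ} {f : ℕ → V} {Su : Finset ℕ} {ρ : ℕ → V}
    {J : Finset (V × V)} {F : Finset V} (hS : PSt c K f Su ρ J F) {a : ℕ} (ha : a ∈ c.A) {r : V}
    (hr : r ∈ c.Po (c.gr a) Su ρ K) : r ∉ c.W ∧ ∀ x ∈ c.Dom Su K, f x ≠ r := by
  obtain ⟨h1, h2⟩ := mem_filter.1 hr
  have h3 := root_mem hV ha h1
  have h4 : r ∉ c.W := disjoint_left.1 (hV.sW a ha r h1) h3
  refine ⟨h4, ?_⟩
  rintro x hx rfl
  obtain ⟨h5, h6⟩ := mem_sdiff.1 hx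
  by_cases hD : x ∈ c.Dm
  · have h7 := hV.s0 a ha (f x) h1 x hD
    rw [hS.ini x hD] at h3 h7
    exact h7 h3
  by_cases hP : x ∈ Su.biUnion c.P
  · obtain ⟨a', ha', h7⟩ := mem_biUnion.1 hP
    have h8 : x ∉ c.O := by
      intro h
      exact h6 (mem_biUnion.2 ⟨a', ha', mem_inter.2 ⟨h7, h⟩⟩)
    have h9 : x ∈ c.P a' \ c.O := mem_sdiff.2 ⟨h7, h8⟩
    have h10 := hS.emb a' ha' x h9
    have h11 : f x ∈ c.Sl (c.gr a') (ρ a') := by
      rw [← hV.sim a' (hS.su a' ha').1 (ρ a') (hS.rho a' ha')]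
      exact mem_image.2 ⟨x, h9, h10.symm⟩
    exact disjoint_left.1 h2 h3 (mem_biUnion.2
      ⟨a', mem_filter.2 ⟨ha', (hS.su a' ha').2⟩, h11⟩)
  · have h7 : x ∈ c.Wd Su K := by
      refine mem_sdiff.2 ⟨?_, hP⟩
      rcases mem_union.1 h5 with h | h
      · rcases mem_union.1 h with h | h
        · exact absurd h hD
        · exact mem_union_left _ h
      · obtain ⟨a', ha', h⟩ := mem_biUnion.1 h
        rcases mem_union.1 h with h | h
        · exact mem_union_right _ (mem_biUnion.2 ⟨a', ha', h⟩)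
        · exact absurd (mem_biUnion.2 ⟨a', ha', h⟩) hP
    have h8 : f x ∈ used J F := by
      rw [hS.us]
      exact mem_image_of_mem f h7
    exact h4 (hS.ok.sub h8)

end PFD_

open PFD_

/-- PFD: few failures or few free slots -/
theorem pPFD (h : T_FLEX) : T_PFD := by
  intro V _ _ c hV K f Su ρ J F hK hS hu s X hX
  by_contra hcon
  push Not at hcon
  obtain ⟨hX1, hP1⟩ := hcon
  have hSu : ∀ a ∈ Su, a ∈ c.A := fun a ha => (hS.su a ha).1
  have hne : X.Nonempty := by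
    rw [nonempty_iff_ne_empty]
    rintro rfl
    rw [card_empty, zero_mul] at hX1
    have := hV.ws.m1
    omega
  obtain ⟨a₀, ha₀⟩ := hne
  have hinj : Set.InjOn (fun a => f (c.tip a)) (X : Set ℕ) := by
    intro a ha a' ha' hf
    obtain ⟨h1, h2, h3, -⟩ := hX a ha
    obtain ⟨h4, h5, h6, -⟩ := hX a' ha'
    have h7 := hS.inj (tip_dom hV hSu h1 h3).1 (tip_dom hV hSu h4 h6).1 hf
    have hD := D_pos c a
    have hD' := D_pos c a'
    exact hV.exc a h1 a' h4 (c.D a) (c.D a') (by omega) le_rfl (by omega) le_rfl h7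
  have hcard : (X.image fun a => f (c.tip a)).card = X.card := card_image_of_injOn hinj
  have hfree : ∀ r ∈ c.Po s Su ρ K, r ∉ c.W ∧ ∀ x ∈ c.Dom Su K, f x ≠ r := by
    intro r hr
    obtain ⟨h1, h2, -⟩ := hX a₀ ha₀
    rw [← h2] at hr
    exact free_root hV hS h1 hr
  obtain ⟨x, hx, r, hr, hc⟩ := h V c.H c.W c.g c.d c.m c.b (c.jj s) J F
    (X.image fun a => f (c.tip a)) (c.Po s Su ρ K) hV.ws hS.ok hu
    (by
      have h1 := hV.jb a₀ (hX a₀ ha₀).1
      rwa [(hX a₀ ha₀).2.1] at h1)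
    (by rw [hcard, mul_comm]; exact hX1) (by rw [mul_comm]; exact hP1)
    (by
      rw [disjoint_left]
      intro v hv hv'
      obtain ⟨a, ha, rfl⟩ := mem_image.1 hv
      obtain ⟨h1, -, h3, -⟩ := hX a ha
      exact (hfree _ hv').2 _ (tip_dom hV hSu h1 h3).1 rfl)
    (by
      intro v hv
      obtain ⟨a, ha, rfl⟩ := mem_image.1 hv
      obtain ⟨h1, -, h3, -⟩ := hX a ha
      obtain ⟨h4, h5⟩ := tip_dom hV hSu h1 h3
      refine ⟨?_, fun hW => ?_⟩
      · have h6 := hS.odb _ h4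
        have h7 := kids hV hSu hK (c.tip a)
        have h8 := hV.bd
        omega
      · rcases h5 with h5 | h5
        · exfalso
          apply hV.f0W _ h5
          rw [← hS.ini _ h5]
          exact hW
        · rw [hS.us]
          exact mem_image_of_mem f h5)
    (by
      intro v hv
      obtain ⟨h1, h2⟩ := hfree v hv
      refine ⟨?_, h1⟩
      have h3 : od J v = 0 := by
        unfold od
        rw [card_eq_zero, filter_eq_empty_iff]
        intro e he heq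
        obtain ⟨x, hx, hx'⟩ := hS.tl e he
        exact h2 x hx (hx'.trans heq)
      have h8 := hV.bd
      omega)
  obtain ⟨a, ha, rfl⟩ := mem_image.1 hx
  obtain ⟨h1, h2, h3, h4⟩ := hX a ha
  apply h4 r hr
  unfold Cx.D
  rw [h2]
  exact hc

end Pool.Agent.RSL
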