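import Pool.Agent.RSL.Targets

/-!
# The number of used vertices
-/

set_option autoImplicit false

open Finset

namespace Pool.Agent.RSL

open Pool.Agent.RST

namespace PFU_

variable {V : Type} [DecidableEq V] {c : Cx V}

theorem root_le (hv : Vd c) {a : ℕ} (ha : a ∈ c.A) : ∀ x, x ∈ c.P a → a ≤ x := by
  intro x
  induction x using Nat.strong_induction_on with
  | _ x ih =>
    intro hx
    by_cases h : x = a
    · exact h.ge
    · have h1 := mem_Ico.1 ((hv.mem a ha).2 hx)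
      have h2 := hv.t0
      have h3 : c.par x < x := hv.vt x (by omega) h1.2
      have h4 := ih (c.par x) h3 (hv.conn a ha x hx h)
      omega

theorem chain_le (hv : Vd c) {a : ℕ} (ha : a ∈ c.A) : ∀ j, j ≤ c.D a →
    c.par^[j] a ≤ a ∧ (1 ≤ j → c.par^[j] a < a) := by
  have haN : a < c.N := (mem_Ico.1 ((hv.mem a ha).2 (hv.mem a ha).1)).2
  intro j
  induction j with
  | zero => exact fun _ => ⟨le_rfl, fun h => absurd h (by omega)⟩
  | succ j ih =>
    intro hj
    have h1 := ih (by omega)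
    have h2 := hv.st a ha j (by omega)
    have h3 := hv.t0
    have h4 : c.par (c.par^[j] a) < c.par^[j] a := hv.vt _ (by omega) (by omega)
    rw [Function.iterate_succ_apply']
    exact ⟨by omega, fun _ => by omega⟩

theorem fs_lt (hv : Vd c) {a : ℕ} (ha : a ∈ c.A) : c.fs a < a := by
  unfold Cx.fs
  refine (chain_le hv ha (c.D a - 1) (by omega)).2 ?_
  unfold Cx.D
  omega

theorem Wd_sub (hv : Vd c) {K : ℕ} (hK : K ≤ c.N) {Su : Finset ℕ}
    (hsu : ∀ a ∈ Su, a ∈ c.A ∧ c.fs a < K) : c.Wd Su K ⊆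
    (Ico c.t c.N \ c.A.biUnion c.P) ∪
      (c.A.filter (fun a => c.fs a < K ∧ a ∉ Su)).biUnion c.P := by
  intro x hx
  unfold Cx.Wd at hx
  obtain ⟨hx1, hx2⟩ := mem_sdiff.1 hx
  by_cases hP : x ∈ c.A.biUnion c.P
  · obtain ⟨a', ha', hxa'⟩ := mem_biUnion.1 hP
    refine mem_union_right _ (mem_biUnion.2 ⟨a', mem_filter.2 ⟨ha', ?_, ?_⟩, hxa'⟩)
    · rcases mem_union.1 hx1 with h | h
      · have h1 := fs_lt hv ha'
        have h2 := root_le hv ha' x hxa'
        have h3 := (mem_Ico.1 h).2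
        omega
      · exfalso
        obtain ⟨a, ha, hxa⟩ := mem_biUnion.1 h
        unfold Cx.ch at hxa
        obtain ⟨j, hj, rfl⟩ := mem_image.1 hxa
        have hj' := mem_Icc.1 hj
        exact hv.chn a (hsu a ha).1 a' ha' j hj'.1 (by omega) hxa'
    · intro hS
      exact hx2 (mem_biUnion.2 ⟨a', hS, hxa'⟩)
  · refine mem_union_left _ (mem_sdiff.2 ⟨?_, hP⟩)
    rcases mem_union.1 hx1 with h | h
    · have := mem_Ico.1 h
      exact mem_Ico.2 ⟨this.1, by omega⟩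
    · obtain ⟨a, ha, hxa⟩ := mem_biUnion.1 h
      unfold Cx.ch at hxa
      obtain ⟨j, hj, rfl⟩ := mem_image.1 hxa
      have hj' := mem_Icc.1 hj
      have haA := (hsu a ha).1
      have haN : a < c.N := (mem_Ico.1 ((hv.mem a haA).2 (hv.mem a haA).1)).2
      have h1 := (chain_le hv haA j (by omega)).1
      have hD : c.D a = 2 * c.jj (c.gr a) + 2 := rfl
      exact mem_Ico.2 ⟨hv.st a haA j (by omega), by omega⟩

theorem slots_disj (hv : Vd c) {K : ℕ} {f : ℕ → V} {Su : Finset ℕ} {ρ : ℕ → V}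
    {J : Finset (V × V)} {F : Finset V} (hp : PSt c K f Su ρ J F) {a a' : ℕ} (ha : a ∈ Su)
    (ha' : a' ∈ Su) (hne : a ≠ a') :
    Disjoint (c.Sl (c.gr a) (ρ a)) (c.Sl (c.gr a') (ρ a')) := by
  have key : ∀ a ∈ Su, ∀ x ∈ c.P a \ c.O, x ∈ c.Dom Su K := by
    intro a ha x hx
    obtain ⟨hx1, hx2⟩ := mem_sdiff.1 hx
    unfold Cx.Dom
    refine mem_sdiff.2 ⟨mem_union_right _ (mem_biUnion.2 ⟨a, ha, mem_union_right _ hx1⟩), ?_⟩
    intro h
    obtain ⟨b, _, hb⟩ := mem_biUnion.1 h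
    exact hx2 (mem_inter.1 hb).2
  rw [← hv.sim a (hp.su a ha).1 (ρ a) (hp.rho a ha),
    ← hv.sim a' (hp.su a' ha').1 (ρ a') (hp.rho a' ha'), disjoint_left]
  intro v hv1 hv2
  obtain ⟨x, hx, rfl⟩ := mem_image.1 hv1
  obtain ⟨x', hx', hxx⟩ := mem_image.1 hv2
  rw [← hp.emb a ha x hx, ← hp.emb a' ha' x' hx'] at hxx
  have h1 : x' = x := hp.inj (mem_coe.2 (key a' ha' x' hx')) (mem_coe.2 (key a ha x hx)) hxx
  subst h1
  exact (disjoint_left.1 (hv.disj a (hp.su a ha).1 a' (hp.su a' ha').1 hne)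
    (mem_sdiff.1 hx).1) (mem_sdiff.1 hx').1

end PFU_

open PFU_ in
theorem pPFU : T_PFU := by
  intro V _ c hv K f Su ρ J F hK hp hDJ
  have h1 : (used J F).card ≤ (c.Wd Su K).card := by
    rw [hp.us]
    exact card_image_le
  have h2 : (c.Wd Su K).card ≤ (Ico c.t c.N \ c.A.biUnion c.P).card + c.B := by
    refine (card_le_card (Wd_sub hv hK hp.su)).trans ((card_union_le _ _).trans ?_)
    refine Nat.add_le_add_left (card_biUnion_le.trans ?_) _
    exact hv.bud K hK Su ρ hp.su hp.rho (fun a ha a' ha' hne => slots_disj hv hp ha ha' hne) hDJ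
  have h3 := hv.bud2
  have h4 : ((used J F).card : ℝ) ≤ ((Ico c.t c.N \ c.A.biUnion c.P).card : ℝ) + c.B := by
    exact_mod_cast h1.trans h2
  linarith

end Pool.Agent.RSL
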