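import Pool.Agent.RSL.Targets

/-!
# PIEC: the pieces
-/

set_option autoImplicit false

open Finset

namespace Pool.Agent.RSL

open Pool.Agent.RST

namespace PIEC_

/-- the parent map is onto between classes -/
theorem surj {par : ℕ → ℕ} {E Q : Finset ℕ} {κ : ℕ → ℕ}
    (hup : ∀ x ∈ E, x ∉ Q → par x < x ∧ par x ∈ E) (hc : Col par E Q κ) {x : ℕ} (hx : x ∈ E)
    (hxQ : x ∉ Q) {y : ℕ} (hy : y ∈ E) (hxy : κ y = κ (par x)) :
    ∃ x' ∈ E, κ x' = κ x ∧ par x' = y := by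
  have h1 : (E.filter (fun z => κ z = κ x)).image par ⊆ E.filter (fun z => κ z = κ (par x)) := by
    intro z hz
    obtain ⟨u, hu, rfl⟩ := Finset.mem_image.1 hz
    obtain ⟨huE, hux⟩ := Finset.mem_filter.1 hu
    have huQ : u ∉ Q := fun h => hxQ ((hc.root u huE x hx hux).1 h)
    exact Finset.mem_filter.2 ⟨(hup u huE huQ).2, hc.pcol u huE x hx huQ hux⟩
  have h2 : Set.InjOn par (E.filter (fun z => κ z = κ x) : Finset ℕ) := by
    intro u hu v hv huv
    obtain ⟨huE, hux⟩ := Finset.mem_filter.1 (Finset.mem_coe.1 hu)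
    obtain ⟨hvE, hvx⟩ := Finset.mem_filter.1 (Finset.mem_coe.1 hv)
    have huQ : u ∉ Q := fun h => hxQ ((hc.root u huE x hx hux).1 h)
    exact hc.pinj u huE v hvE huQ (hux.trans hvx.symm) huv
  have h3 : (E.filter (fun z => κ z = κ x)).image par = E.filter (fun z => κ z = κ (par x)) := by
    apply Finset.eq_of_subset_of_card_le h1
    rw [Finset.card_image_of_injOn h2, hc.pcard x hx hxQ]
  have h4 : y ∈ (E.filter (fun z => κ z = κ x)).image par := by
    rw [h3]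
    exact Finset.mem_filter.2 ⟨hy, hxy⟩
  obtain ⟨u, hu, huy⟩ := Finset.mem_image.1 h4
  obtain ⟨huE, hux⟩ := Finset.mem_filter.1 hu
  exact ⟨u, huE, hux, huy⟩

section

variable {par : ℕ → ℕ} {E Q : Finset ℕ} {κ : ℕ → ℕ}

theorem mem_pc {q x : ℕ} : x ∈ pc par E Q q ↔
    x ∈ E ∧ ∃ j, par^[j] x = q ∧ ∀ i < j, par^[i] x ∈ E ∧ par^[i] x ∉ Q := by
  simp only [pc, Finset.mem_filter]

theorem self_mem (hQE : Q ⊆ E) {q : ℕ} (hq : q ∈ Q) : q ∈ pc par E Q q :=
  mem_pc.2 ⟨hQE hq, 0, rfl, fun i hi => absurd hi (Nat.not_lt_zero i)⟩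

theorem up_mem (hup : ∀ x ∈ E, x ∉ Q → par x < x ∧ par x ∈ E) {q x : ℕ}
    (hx : x ∈ pc par E Q q) (hxq : x ≠ q) : x ∉ Q ∧ par x ∈ pc par E Q q := by
  obtain ⟨hxE, j, hj, hi⟩ := mem_pc.1 hx
  cases j with
  | zero => exact absurd hj hxq
  | succ j =>
    have h0 := hi 0 (Nat.succ_pos j)
    refine ⟨h0.2, mem_pc.2 ⟨(hup x hxE h0.2).2, j, ?_, fun i hij => ?_⟩⟩
    · rw [← hj, Function.iterate_succ_apply]
    · have := hi (i + 1) (Nat.succ_lt_succ hij)
      rw [Function.iterate_succ_apply] at this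
      exact this

theorem down_mem {q x : ℕ} (hxE : x ∈ E) (hxQ : x ∉ Q) (hp : par x ∈ pc par E Q q) :
    x ∈ pc par E Q q := by
  obtain ⟨hpE, j, hj, hi⟩ := mem_pc.1 hp
  refine mem_pc.2 ⟨hxE, j + 1, ?_, fun i hij => ?_⟩
  · rw [Function.iterate_succ_apply]; exact hj
  · cases i with
    | zero => exact ⟨hxE, hxQ⟩
    | succ i =>
      rw [Function.iterate_succ_apply]
      exact hi i (Nat.lt_of_succ_lt_succ hij)

theorem unique {q q' x : ℕ} (hq : q ∈ Q) (hq' : q' ∈ Q) (hx : x ∈ pc par E Q q)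
    (hx' : x ∈ pc par E Q q') : q = q' := by
  obtain ⟨-, j, hj, hi⟩ := mem_pc.1 hx
  obtain ⟨-, j', hj', hi'⟩ := mem_pc.1 hx'
  rcases lt_trichotomy j j' with h | h | h
  · exact absurd (hj ▸ hq) (hi' j h).2
  · rw [← hj, ← hj', h]
  · exact absurd (hj' ▸ hq') (hi j' h).2

theorem cover (hQE : Q ⊆ E) (hup : ∀ x ∈ E, x ∉ Q → par x < x ∧ par x ∈ E) :
    ∀ x ∈ E, ∃ q ∈ Q, x ∈ pc par E Q q := by
  intro x
  induction x using Nat.strong_induction_on with
  | _ x ih =>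
    intro hx
    by_cases hxQ : x ∈ Q
    · exact ⟨x, hxQ, self_mem hQE hxQ⟩
    · obtain ⟨h1, h2⟩ := hup x hx hxQ
      obtain ⟨q, hq, hp⟩ := ih (par x) h1 h2
      exact ⟨q, hq, down_mem hx hxQ hp⟩

theorem inj (hup : ∀ x ∈ E, x ∉ Q → par x < x ∧ par x ∈ E) (hc : Col par E Q κ) {q : ℕ}
    (hq : q ∈ Q) : ∀ x ∈ pc par E Q q, ∀ y ∈ pc par E Q q, κ x = κ y → x = y := by
  intro x
  induction x using Nat.strong_induction_on with
  | _ x ih =>
    intro hx y hy hxy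
    have hxE := (mem_pc.1 hx).1
    have hyE := (mem_pc.1 hy).1
    by_cases hxq : x = q
    · have hyQ : y ∈ Q := (hc.root x hxE y hyE hxy).1 (hxq ▸ hq)
      by_cases hyq : y = q
      · rw [hxq, hyq]
      · exact absurd hyQ (up_mem hup hy hyq).1
    · obtain ⟨hxQ, hpx⟩ := up_mem hup hx hxq
      have hyQ : y ∉ Q := fun h => hxQ ((hc.root x hxE y hyE hxy).2 h)
      have hyq : y ≠ q := fun h => hyQ (h ▸ hq)
      have hpy := (up_mem hup hy hyq).2
      have h1 := ih (par x) (hup x hxE hxQ).1 hpx (par y) hpy (hc.pcol x hxE y hyE hxQ hxy)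
      exact hc.pinj x hxE y hyE hxQ hxy h1

theorem transfer (hQE : Q ⊆ E) (hup : ∀ x ∈ E, x ∉ Q → par x < x ∧ par x ∈ E)
    (hc : Col par E Q κ) {q q' : ℕ} (hq' : q' ∈ Q) (hqq : κ q = κ q') :
    ∀ x ∈ pc par E Q q, ∃ x' ∈ pc par E Q q', κ x' = κ x := by
  intro x
  induction x using Nat.strong_induction_on with
  | _ x ih =>
    intro hx
    have hxE := (mem_pc.1 hx).1
    by_cases hxq : x = q
    · exact ⟨q', self_mem hQE hq', by rw [hxq, hqq]⟩
    · obtain ⟨hxQ, hpx⟩ := up_mem hup hx hxq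
      obtain ⟨y', hy', hyκ⟩ := ih (par x) (hup x hxE hxQ).1 hpx
      obtain ⟨x', hx'E, hx'κ, hx'p⟩ := surj hup hc hxE hxQ (mem_pc.1 hy').1 hyκ
      have hx'Q : x' ∉ Q := fun h => hxQ ((hc.root x' hx'E x hxE hx'κ).1 h)
      exact ⟨x', down_mem hx'E hx'Q (hx'p ▸ hy'), hx'κ⟩

theorem card_class (hQE : Q ⊆ E) (hup : ∀ x ∈ E, x ∉ Q → par x < x ∧ par x ∈ E)
    (hc : Col par E Q κ) {q : ℕ} (hq : q ∈ Q) : ∀ x ∈ pc par E Q q,
    (E.filter (fun y => κ y = κ x)).card = (Q.filter (fun q' => κ q' = κ q)).card := by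
  intro x
  induction x using Nat.strong_induction_on with
  | _ x ih =>
    intro hx
    have hxE := (mem_pc.1 hx).1
    by_cases hxq : x = q
    · subst hxq
      congr 1
      ext y
      rw [Finset.mem_filter, Finset.mem_filter]
      constructor
      · rintro ⟨hyE, hy⟩
        exact ⟨(hc.root y hyE x hxE hy).2 hq, hy⟩
      · rintro ⟨hyQ, hy⟩
        exact ⟨hQE hyQ, hy⟩
    · obtain ⟨hxQ, hpx⟩ := up_mem hup hx hxq
      rw [hc.pcard x hxE hxQ]
      exact ih (par x) (hup x hxE hxQ).1 hpx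

end

end PIEC_

open PIEC_ in
theorem pPIEC : T_PIEC := by
  intro par E Q κ k₀ hQE hup hc hκ
  refine ⟨fun q hq => self_mem hQE hq, fun q _ x hx hxq => up_mem hup hx hxq,
    fun q _ x hxE hxQ hp => down_mem hxE hxQ hp, fun q hq q' hq' hne => ?_, ?_,
    fun q hq x hx y hy hxy => inj hup hc hq x (Finset.mem_coe.1 hx) y (Finset.mem_coe.1 hy) hxy,
    fun q hq => ?_, fun q hq q' hq' hqq => ?_, fun q hq x hx => card_class hQE hup hc hq x hx⟩
  · rw [Finset.disjoint_left]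
    intro x hx hx'
    exact hne (unique hq hq' hx hx')
  · ext x
    rw [Finset.mem_biUnion]
    constructor
    · intro hx
      exact cover hQE hup x hx
    · rintro ⟨q, _, hx⟩
      exact (mem_pc.1 hx).1
  · have h1 : (pc par E Q q).card = ((pc par E Q q).image κ).card := by
      rw [Finset.card_image_of_injOn]
      intro x hx y hy hxy
      exact inj hup hc hq x (Finset.mem_coe.1 hx) y (Finset.mem_coe.1 hy) hxy
    rw [h1]
    have h2 : (pc par E Q q).image κ ⊆ Finset.range k₀ := by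
      intro c hcc
      obtain ⟨x, hx, rfl⟩ := Finset.mem_image.1 hcc
      exact Finset.mem_range.2 (hκ x (mem_pc.1 hx).1)
    have h3 := Finset.card_le_card h2
    rwa [Finset.card_range] at h3
  · apply Finset.Subset.antisymm
    · intro c hcc
      obtain ⟨x, hx, rfl⟩ := Finset.mem_image.1 hcc
      obtain ⟨x', hx', h⟩ := transfer hQE hup hc hq' hqq x hx
      exact Finset.mem_image.2 ⟨x', hx', h⟩
    · intro c hcc
      obtain ⟨x, hx, rfl⟩ := Finset.mem_image.1 hcc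
      obtain ⟨x', hx', h⟩ := transfer hQE hup hc hq hqq.symm x hx
      exact Finset.mem_image.2 ⟨x', hx', h⟩

end Pool.Agent.RSL
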