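import Pool.Agent.RSL.Targets

/-!
# RELL: a tree as a parent function, with the leaves
-/

set_option autoImplicit false

open Finset

namespace Pool.Agent.RSL

open Pool.Agent.RST

namespace RELL_

private lemma exists_closer {V : Type} (T : SimpleGraph V) (hT : T.Connected) (r v : V)
    (hv : v ≠ r) : ∃ w, T.Adj v w ∧ T.dist w r < T.dist v r := by
  obtain ⟨p, hp⟩ := hT.exists_walk_length_eq_dist v r
  cases p with
  | nil => exact absurd rfl hv
  | cons h q =>
    refine ⟨_, h, ?_⟩
    have h1 := SimpleGraph.dist_le q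
    rw [SimpleGraph.Walk.length_cons] at hp
    omega

open Classical in
private lemma edges {n : ℕ} (T : SimpleGraph (Fin n)) (hT : T.IsTree) (r : Fin n)
    (p : Fin n → Fin n) (hp1 : ∀ v, v ≠ r → T.Adj v (p v))
    (hp2 : ∀ v, v ≠ r → T.dist (p v) r < T.dist v r) (u v : Fin n) (huv : T.Adj u v) :
    ∃ w, w ≠ r ∧ s(w, p w) = s(u, v) := by
  have hsub : (univ.erase r).image (fun w => s(w, p w)) ⊆ T.edgeFinset := by
    intro x hx
    obtain ⟨w, hw, rfl⟩ := mem_image.1 hx
    rw [SimpleGraph.mem_edgeFinset]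
    exact hp1 w (ne_of_mem_erase hw)
  have hinj : Set.InjOn (fun w => s(w, p w)) (univ.erase r : Finset (Fin n)) := by
    intro w hw w' hw' h
    have hw1 : w ≠ r := ne_of_mem_erase (mem_coe.1 hw)
    have hw2 : w' ≠ r := ne_of_mem_erase (mem_coe.1 hw')
    rcases Sym2.eq_iff.1 h with ⟨h1, -⟩ | ⟨h1, h2⟩
    · exact h1
    · have h3 := hp2 w hw1
      have h4 := hp2 w' hw2
      rw [h2] at h3
      rw [← h1] at h4
      omega
  have hcard : T.edgeFinset.card ≤ ((univ.erase r).image (fun w => s(w, p w))).card := by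
    rw [card_image_of_injOn hinj, card_erase_of_mem (mem_univ r), card_univ]
    have := hT.card_edgeFinset
    omega
  have heq := eq_of_subset_of_card_le hsub hcard
  have hmem : s(u, v) ∈ T.edgeFinset := by
    rw [SimpleGraph.mem_edgeFinset]
    exact huv
  rw [← heq] at hmem
  obtain ⟨w, hw, hw2⟩ := mem_image.1 hmem
  exact ⟨w, ne_of_mem_erase hw, hw2⟩

end RELL_

/-- RELL: a tree as a parent function -/
theorem pRELL : T_RELL := by
  classical
  intro n T hT
  have hne : Nonempty (Fin n) := hT.connected.nonempty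
  have hn : 0 < n := Fin.pos_iff_nonempty.2 hne
  obtain ⟨r⟩ := hne
  choose! p hp1 hp2 using RELL_.exists_closer T hT.connected r
  set e : Equiv.Perm (Fin n) := Tuple.sort (fun v => T.dist v r) with he
  have hmono : ∀ i j : Fin n, i ≤ j → T.dist (e i) r ≤ T.dist (e j) r :=
    fun i j hij => Tuple.monotone_sort (fun v => T.dist v r) hij
  have he0 : e ⟨0, hn⟩ = r := by
    have h1 := hmono ⟨0, hn⟩ (e.symm r) (Fin.mk_le_of_le_val (Nat.zero_le _))
    rw [Equiv.apply_symm_apply, SimpleGraph.dist_self, Nat.le_zero] at h1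
    exact hT.connected.dist_eq_zero_iff.1 h1
  have hner : ∀ i : Fin n, 0 < i.val → e i ≠ r := by
    intro i hi h
    rw [← he0] at h
    have := e.injective h
    rw [this] at hi
    exact absurd hi (lt_irrefl _)
  have hlt : ∀ i : Fin n, 0 < i.val → (e.symm (p (e i))).val < i.val := by
    intro i hi
    by_contra hle
    push Not at hle
    have h1 := hmono i (e.symm (p (e i))) hle
    rw [Equiv.apply_symm_apply] at h1
    have h2 := hp2 (e i) (hner i hi)
    omega
  set par : ℕ → ℕ := fun i => if h : i < n then (e.symm (p (e ⟨i, h⟩))).val else 0 with hpar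
  set σ : ℕ → Fin n := fun i => if h : i < n then e ⟨i, h⟩ else r with hσ
  have hσv : ∀ (i : ℕ) (h : i < n), σ i = e ⟨i, h⟩ := fun i h => dif_pos h
  have hparv : ∀ (i : ℕ) (h : i < n), par i = (e.symm (p (e ⟨i, h⟩))).val := fun i h => dif_pos h
  have hσpar : ∀ (i : ℕ) (h : i < n), σ (par i) = p (e ⟨i, h⟩) := by
    intro i h
    rw [hσv (par i) (by rw [hparv i h]; exact (e.symm (p (e ⟨i, h⟩))).isLt)]
    have : (⟨par i, by rw [hparv i h]; exact (e.symm (p (e ⟨i, h⟩))).isLt⟩ : Fin n) =
        e.symm (p (e ⟨i, h⟩)) := Fin.ext (hparv i h)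
    rw [this, Equiv.apply_symm_apply]
  have hinj : ∀ i j, i < n → j < n → σ i = σ j → i = j := by
    intro i j hi hj h
    rw [hσv i hi, hσv j hj] at h
    exact Fin.mk.inj_iff.1 (e.injective h)
  have hadj : ∀ i, 0 < i → i < n → T.Adj (σ i) (σ (par i)) := by
    intro i h0 hi
    rw [hσpar i hi, hσv i hi]
    exact hp1 _ (hner ⟨i, hi⟩ h0)
  have hvt : ∀ i, 0 < i → i < n → par i < i := by
    intro i hi hin
    rw [hparv i hin]
    exact hlt ⟨i, hin⟩ hi
  have hleaf : ∀ i, 0 < i → i < n → (T.neighborSet (σ i)).ncard = 1 → chd n par i = ∅ := by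
    intro i h0 hi h1
    by_contra hne
    obtain ⟨j, hj⟩ := nonempty_iff_ne_empty.2 hne
    obtain ⟨h2, h3, h4⟩ := mem_filter.1 hj
    have hjn : j < n := mem_range.1 h2
    obtain ⟨w, hw⟩ := Set.ncard_eq_one.1 h1
    have h5 : σ j ∈ T.neighborSet (σ i) := by
      rw [SimpleGraph.mem_neighborSet, ← h4]
      exact (hadj j h3 hjn).symm
    have h6 : σ (par i) ∈ T.neighborSet (σ i) := hadj i h0 hi
    rw [hw, Set.mem_singleton_iff] at h5 h6
    have h7 := hvt i h0 hi
    have h8 := hvt j h3 hjn
    rw [h4] at h8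
    have h9 := hinj j (par i) hjn (by omega) (h5.trans h6.symm)
    omega
  refine ⟨par, σ, ?_, ⟨?_, ?_, ?_⟩, ?_, ?_, ?_⟩
  · intro i hi hin
    rw [hparv i hin]
    exact hlt ⟨i, hin⟩ hi
  · intro i _
    exact Set.mem_univ _
  · intro i hi j hj h
    exact hinj i j (by simpa using hi) (by simpa using hj) h
  · intro v _
    refine ⟨(e.symm v).val, by simp, ?_⟩
    rw [hσv _ (e.symm v).isLt]
    simp
  · intro u v huv
    obtain ⟨w, hw, hs⟩ := RELL_.edges T hT r p hp1 hp2 u v huv
    refine ⟨(e.symm w).val, ?_, (e.symm w).isLt, ?_⟩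
    · rcases Nat.eq_zero_or_pos (e.symm w).val with h0 | h0
      · exfalso
        apply hw
        rw [← he0, ← e.apply_symm_apply w]
        congr 1
        exact Fin.ext h0
      · exact h0
    · rw [hσpar _ (e.symm w).isLt, hσv _ (e.symm w).isLt]
      simp only [Fin.eta, Equiv.apply_symm_apply]
      rcases Sym2.eq_iff.1 hs with ⟨h1, h2⟩ | ⟨h1, h2⟩
      · exact Or.inl ⟨h1, h2⟩
      · exact Or.inr ⟨h1, h2⟩
  · intro i hi
    rw [← Set.ncard_coe_finset]
    refine Set.ncard_le_ncard_of_injOn σ ?_ ?_ (Set.toFinite _)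
    · intro j hj
      obtain ⟨h1, h2, h3⟩ := mem_filter.1 (mem_coe.1 hj)
      have hjn : j < n := mem_range.1 h1
      rw [SimpleGraph.mem_neighborSet, ← h3, hσpar j hjn, hσv j hjn]
      exact (hp1 _ (hner ⟨j, hjn⟩ h2)).symm
    · intro j hj k hk h
      have h1 := (mem_filter.1 (mem_coe.1 hj)).1
      have h2 := (mem_filter.1 (mem_coe.1 hk)).1
      exact hinj j k (mem_range.1 h1) (mem_range.1 h2) h
  · have h1 : {v : Fin n | (T.neighborSet v).ncard = 1} ⊆
        (insert r ((lv n par).image σ) : Finset (Fin n)) := by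
      intro v hv
      rw [mem_coe, mem_insert]
      by_cases hvr : v = r
      · exact Or.inl hvr
      · right
        have h2 : σ (e.symm v).val = v := by
          rw [hσv _ (e.symm v).isLt]
          simp
        have h3 : 0 < (e.symm v).val := by
          rcases Nat.eq_zero_or_pos (e.symm v).val with h0 | h0
          · exfalso
            apply hvr
            rw [← he0, ← e.apply_symm_apply v]
            congr 1
            exact Fin.ext h0
          · exact h0
        rw [mem_image]
        refine ⟨(e.symm v).val, ?_, h2⟩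
        rw [lv, mem_filter, mem_range]
        refine ⟨(e.symm v).isLt, hleaf _ h3 (e.symm v).isLt ?_⟩
        rw [h2]
        exact hv
    have h2 := Set.ncard_le_ncard h1 (Set.toFinite _)
    rw [Set.ncard_coe_finset] at h2
    refine h2.trans ((card_insert_le _ _).trans ?_)
    exact Nat.add_le_add_right card_image_le 1

end Pool.Agent.RSL
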