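import Pool.Agent.RSL.Targets

/-!
# Job SLOT of the project RSL: the slots
-/

set_option autoImplicit false

open Finset

namespace Pool.Agent.RSL

open Pool.Agent.RST

namespace SLOT_

/-- the map of the pieces onto the slot with root `r` -/
noncomputable def F {V : Type} (par : ℕ → ℕ) (Q : Finset ℕ) (κ : ℕ → ℕ) (Mt : ℕ → V → V)
    (r : V) : ℕ → V :=
  WellFounded.fix (r := fun a b : ℕ => a < b) Nat.lt_wfRel.wf
    (fun x f => if x ∈ Q then r else if h : par x < x then Mt (κ x) (f (par x) h) else r)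

theorem F_root {V : Type} (par : ℕ → ℕ) (Q : Finset ℕ) (κ : ℕ → ℕ) (Mt : ℕ → V → V)
    (r : V) (x : ℕ) (hx : x ∈ Q) : F par Q κ Mt r x = r := by
  unfold F
  rw [WellFounded.fix_eq]
  rw [if_pos hx]

theorem F_step {V : Type} (par : ℕ → ℕ) (Q : Finset ℕ) (κ : ℕ → ℕ) (Mt : ℕ → V → V)
    (r : V) (x : ℕ) (hx : x ∉ Q) (hp : par x < x) :
    F par Q κ Mt r x = Mt (κ x) (F par Q κ Mt r (par x)) := by
  unfold F
  rw [WellFounded.fix_eq]
  rw [if_neg hx, dif_pos hp]

end SLOT_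

open SLOT_ in
open Classical in
theorem pSLOT (hPIEC : T_PIEC) : T_SLOT := by
  intro V hdec H par E Q M κ k₀ Vc Mt hQE hup hcol hk hM1 hM2 hM3 hdis hcard hMt
  obtain ⟨p1, p2, p3, p4, p5, p6, p7, p8, p9⟩ := hPIEC par E Q κ k₀ hQE hup hcol hk
  have pcE : ∀ q ∈ Q, ∀ x ∈ pc par E Q q, x ∈ E := by
    intro q hq x hx
    rw [p5]
    exact mem_biUnion.2 ⟨q, hq, hx⟩
  -- the step from `x` to its parent
  have hstep : ∀ q ∈ Q, ∀ x ∈ pc par E Q q \ M, x ≠ q →
      x ∉ Q ∧ par x < x ∧ par x ∈ pc par E Q q \ M ∧ x ∈ E \ M := by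
    intro q hq x hx hxq
    obtain ⟨hx1, hx2⟩ := mem_sdiff.1 hx
    obtain ⟨h1, h2⟩ := p2 q hq x hx1 hxq
    have hxE := pcE q hq x hx1
    refine ⟨h1, (hup x hxE h1).1, mem_sdiff.2 ⟨h2, hM3 x hxE h1⟩, mem_sdiff.2 ⟨hxE, hx2⟩⟩
  have hroot : ∀ q ∈ Q, ∀ x ∈ pc par E Q q \ M, x ∈ Q → x = q := by
    intro q hq x hx hxQ
    by_contra hne
    exact (hstep q hq x hx hne).1 hxQ
  -- bijections
  have hbij : ∀ x, ∀ q ∈ Q, x ∈ pc par E Q q \ M →
      Set.BijOn (fun r => F par Q κ Mt r x) (Vc (κ q)) (Vc (κ x)) := by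
    intro x
    induction x using Nat.strong_induction_on with
    | _ x ih =>
      intro q hq hx
      by_cases hxq : x = q
      · subst hxq
        have h1 : (fun r => F par Q κ Mt r x) = id := by
          funext r
          exact F_root par Q κ Mt r x hq
        rw [h1]
        exact Set.bijOn_id _
      · obtain ⟨h1, h2, h3, h4⟩ := hstep q hq x hx hxq
        have h5 := ih (par x) h2 q hq h3
        have h6 := (hMt x h4 h1).1.comp h5
        have h7 : (fun r => F par Q κ Mt r x) = Mt (κ x) ∘ fun r => F par Q κ Mt r (par x) := by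
          funext r
          exact F_step par Q κ Mt r x h1 h2
        rw [h7]
        exact h6
  -- dependence on the colour only
  have hcolr : ∀ x, ∀ q ∈ Q, ∀ q' ∈ Q, ∀ x', x ∈ pc par E Q q \ M → x' ∈ pc par E Q q' \ M →
      κ x = κ x' → κ q = κ q' ∧ ∀ r, F par Q κ Mt r x = F par Q κ Mt r x' := by
    intro x
    induction x using Nat.strong_induction_on with
    | _ x ih =>
      intro q hq q' hq' x' hx hx' hxx
      have hxE := pcE q hq x (mem_sdiff.1 hx).1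
      have hxE' := pcE q' hq' x' (mem_sdiff.1 hx').1
      by_cases hxQ : x ∈ Q
      · have hxQ' : x' ∈ Q := (hcol.root x hxE x' hxE' hxx).1 hxQ
        have e1 := hroot q hq x hx hxQ
        have e2 := hroot q' hq' x' hx' hxQ'
        subst e1
        subst e2
        refine ⟨hxx, fun r => ?_⟩
        rw [F_root par Q κ Mt r x hxQ, F_root par Q κ Mt r x' hxQ']
      · have hxQ' : x' ∉ Q := fun h => hxQ ((hcol.root x hxE x' hxE' hxx).2 h)
        have n1 : x ≠ q := fun h => hxQ (h ▸ hq)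
        have n2 : x' ≠ q' := fun h => hxQ' (h ▸ hq')
        obtain ⟨_, h2, h3, _⟩ := hstep q hq x hx n1
        obtain ⟨_, h2', h3', _⟩ := hstep q' hq' x' hx' n2
        obtain ⟨g1, g2⟩ := ih (par x) h2 q hq q' hq' (par x') h3 h3'
          (hcol.pcol x hxE x' hxE' hxQ hxx)
        refine ⟨g1, fun r => ?_⟩
        rw [F_step par Q κ Mt r x hxQ h2, F_step par Q κ Mt r x' hxQ' h2', g2 r, hxx]
  -- independence of the slots of the root
  have himg : ∀ q ∈ Q, ∀ q' ∈ Q, κ q = κ q' → ∀ r,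
      (pc par E Q q \ M).image (F par Q κ Mt r) ⊆ (pc par E Q q' \ M).image (F par Q κ Mt r) := by
    intro q hq q' hq' hqq r v hv
    obtain ⟨x, hx, rfl⟩ := mem_image.1 hv
    obtain ⟨hx1, hx2⟩ := mem_sdiff.1 hx
    have h1 : κ x ∈ (pc par E Q q').image κ := by
      rw [← p8 q hq q' hq' hqq]
      exact mem_image_of_mem κ hx1
    obtain ⟨x', hx', hxx⟩ := mem_image.1 h1
    have hx'M : x' ∉ M := fun h => hx2 (hM2 x' h x (pcE q hq x hx1) hxx.symm)
    have hx'' : x' ∈ pc par E Q q' \ M := mem_sdiff.2 ⟨hx', hx'M⟩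
    rw [(hcolr x q hq q' hq' x' hx hx'' hxx.symm).2 r]
    exact mem_image_of_mem _ hx''
  have himg' : ∀ q ∈ Q, ∀ q' ∈ Q, κ q = κ q' → ∀ r,
      (pc par E Q q \ M).image (F par Q κ Mt r) = (pc par E Q q' \ M).image (F par Q κ Mt r) :=
    fun q hq q' hq' h r => Subset.antisymm (himg q hq q' hq' h r) (himg q' hq' q hq h.symm r)
  set Sl : ℕ → V → Finset V := fun k r =>
    if h : ∃ q, q ∈ Q ∧ κ q = k then (pc par E Q h.choose \ M).image (F par Q κ Mt r) else ∅
    with hSl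
  have hSl' : ∀ q ∈ Q, ∀ r, (pc par E Q q \ M).image (F par Q κ Mt r) = Sl (κ q) r := by
    intro q hq r
    have h : ∃ q', q' ∈ Q ∧ κ q' = κ q := ⟨q, hq, rfl⟩
    have h1 : Sl (κ q) r = (pc par E Q h.choose \ M).image (F par Q κ Mt r) := by
      rw [hSl]
      exact dif_pos h
    rw [h1]
    exact himg' q hq h.choose h.choose_spec.1 h.choose_spec.2.symm r
  have hmem : ∀ q ∈ Q, ∀ r ∈ Vc (κ q), ∀ x ∈ pc par E Q q \ M, F par Q κ Mt r x ∈ Vc (κ x) := by
    intro q hq r hr x hx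
    exact (hbij x q hq hx).mapsTo hr
  have hkey : ∀ q ∈ Q, ∀ q' ∈ Q, ∀ r ∈ Vc (κ q), ∀ r' ∈ Vc (κ q'), ∀ x ∈ pc par E Q q \ M,
      ∀ x' ∈ pc par E Q q' \ M, F par Q κ Mt r x = F par Q κ Mt r' x' → κ x = κ x' := by
    intro q hq q' hq' r hr r' hr' x hx x' hx' h
    by_contra hne
    have h1 := hdis (κ x) (κ x') hne
    rw [Finset.disjoint_left] at h1
    refine h1 (hmem q hq r hr x hx) ?_
    rw [h]
    exact hmem q' hq' r' hr' x' hx'
  refine ⟨Sl, fun _ r x => F par Q κ Mt r x, hdis, hcard, ?_, ?_, ?_, hmem, ?_, ?_, ?_⟩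
  · intro q hq r _
    exact F_root par Q κ Mt r q hq
  · intro q hq r hr x hx y hy hxy
    have h1 := hkey q hq q hq r hr r hr x hx y hy hxy
    exact p6 q hq (mem_coe.2 (mem_sdiff.1 (mem_coe.1 hx)).1)
      (mem_coe.2 (mem_sdiff.1 (mem_coe.1 hy)).1) h1
  · intro q hq r _
    exact hSl' q hq r
  · intro q hq r hr x hx hxq
    obtain ⟨h1, h2, h3, h4⟩ := hstep q hq x hx hxq
    show H.Adj (F par Q κ Mt r x) (F par Q κ Mt r (par x))
    rw [F_step par Q κ Mt r x h1 h2]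
    exact ((hMt x h4 h1).2 _ (hmem q hq r hr (par x) h3)).symm
  · intro q hq q' hq' r hr r' hr' hne
    rw [← hSl' q hq r, ← hSl' q' hq' r', Finset.disjoint_left]
    intro v hv hv'
    obtain ⟨x, hx, hxv⟩ := mem_image.1 hv
    obtain ⟨x', hx', hxv'⟩ := mem_image.1 hv'
    have h1 := hkey q hq q' hq' r hr r' hr' x hx x' hx' (hxv.trans hxv'.symm)
    obtain ⟨g1, g2⟩ := hcolr x q hq q' hq' x' hx hx' h1
    apply hne
    have h2 : r = r' := by
      refine (hbij x q hq hx).injOn hr ?_ ?_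
      · rw [g1]
        exact hr'
      · show F par Q κ Mt r x = F par Q κ Mt r' x
        rw [hxv, g2 r', hxv']
    rw [g1, h2]
  · intro q hq x hx v hv
    obtain ⟨r, hr, hrv⟩ := (hbij x q hq hx).surjOn hv
    exact ⟨r, hr, hrv⟩

end Pool.Agent.RSL
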