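import Pool.Agent.RSL.Targets

/-!
# TREEL: the structure of a tree with linearly many leaves
-/

set_option autoImplicit false

open Finset

namespace Pool.Agent.RSL

open Pool.Agent.RST

namespace TREEL_

theorem it_le {par : ℕ → ℕ} {E Q : Finset ℕ} (hup : ∀ x ∈ E, x ∉ Q → par x < x ∧ par x ∈ E)
    (x : ℕ) : ∀ j : ℕ, (∀ i < j, par^[i] x ∈ E ∧ par^[i] x ∉ Q) → par^[j] x ≤ x := by
  intro j
  induction j with
  | zero => intro _; exact le_rfl
  | succ j ih =>
    intro h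
    have h1 := ih fun i hi => h i (by omega)
    have h2 := h j (by omega)
    have h3 := (hup _ h2.1 h2.2).1
    rw [Function.iterate_succ_apply']
    omega

theorem le_of_pc {par : ℕ → ℕ} {E Q : Finset ℕ} {q x : ℕ}
    (hup : ∀ x ∈ E, x ∉ Q → par x < x ∧ par x ∈ E) (hx : x ∈ pc par E Q q) : q ≤ x := by
  classical
  unfold pc at hx
  rw [mem_filter] at hx
  obtain ⟨-, j, hj, hi⟩ := hx
  rw [← hj]
  exact it_le hup x j hi

/-- the vertices of the special chains and leaves -/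
noncomputable def SS (par : ℕ → ℕ) (I : ℕ) (S : ℕ → Finset ℕ) (lf : ℕ → ℕ) : Finset ℕ :=
  (Icc 1 I).biUnion fun i => (S i).biUnion fun a =>
    ((range (2 * i + 3)).image fun j => par^[j] a) ∪ {lf a}

theorem card_SS (par : ℕ → ℕ) (I : ℕ) (S : ℕ → Finset ℕ) (lf : ℕ → ℕ) :
    (SS par I S lf).card ≤ ∑ i ∈ Icc 1 I, (2 * i + 4) * (S i).card := by
  unfold SS
  refine card_biUnion_le.trans (sum_le_sum fun i _ => ?_)
  refine card_biUnion_le.trans ?_
  have h : ∀ a ∈ S i, (((range (2 * i + 3)).image fun j => par^[j] a) ∪ {lf a}).card ≤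
      2 * i + 4 := by
    intro a _
    refine (card_union_le _ _).trans ?_
    have h1 : ((range (2 * i + 3)).image fun j => par^[j] a).card ≤ 2 * i + 3 := by
      refine card_image_le.trans ?_
      rw [card_range]
    rw [card_singleton]
    omega
  refine (sum_le_sum h).trans ?_
  rw [sum_const, smul_eq_mul, mul_comm]

theorem chain_mem {par : ℕ → ℕ} {I : ℕ} {S : ℕ → Finset ℕ} {lf : ℕ → ℕ} {i a j : ℕ}
    (h1 : 1 ≤ i) (hI : i ≤ I) (ha : a ∈ S i) (hj : j ≤ 2 * i + 2) :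
    par^[j] a ∈ SS par I S lf := by
  unfold SS
  rw [mem_biUnion]
  refine ⟨i, mem_Icc.2 ⟨h1, hI⟩, mem_biUnion.2 ⟨a, ha, mem_union_left _ (mem_image.2
    ⟨j, mem_range.2 (by omega), rfl⟩)⟩⟩

theorem lf_mem {par : ℕ → ℕ} {I : ℕ} {S : ℕ → Finset ℕ} {lf : ℕ → ℕ} {i a : ℕ}
    (h1 : 1 ≤ i) (hI : i ≤ I) (ha : a ∈ S i) : lf a ∈ SS par I S lf := by
  unfold SS
  rw [mem_biUnion]
  exact ⟨i, mem_Icc.2 ⟨h1, hI⟩, mem_biUnion.2 ⟨a, ha, mem_union_right _ (mem_singleton_self _)⟩⟩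

end TREEL_

open TREEL_ in
theorem pTREEL (h1 : T_LEV) (h2 : T_DEC) (h3 : T_PIEC) (h4 : T_DISS) (h5 : T_ACT) : T_TREEL := by
  classical
  intro Δ α ε hΔ hα hε
  -- constants
  set ε' : ℝ := min ε α / 16 with hε'
  have hmin : 0 < min ε α := lt_min hε hα
  have hε'0 : 0 < ε' := by positivity
  have hε'ε : 16 * ε' ≤ ε := by
    have := min_le_left ε α
    rw [hε']
    linarith
  have hε'α : 16 * ε' ≤ α := by
    have := min_le_right ε α
    rw [hε']
    linarith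
  obtain ⟨k', ξ', N₀, hξ', hdec⟩ := h2 Δ 2 hΔ (by norm_num) ε' hε'0
  set k₀ : ℕ := k' + 1 with hk₀
  have hk₀R : (0 : ℝ) < k₀ := by
    rw [hk₀]
    positivity
  have hk'R : (k' : ℝ) ≤ k₀ := by
    rw [hk₀]
    push_cast
    linarith
  set ρ : ℝ := min (ε' / k₀) (ξ' / 8) with hρ
  have hρ0 : 0 < ρ := lt_min (by positivity) (by positivity)
  have hρ1 : ρ ≤ ε' / k₀ := min_le_left _ _
  have hρ2 : ρ ≤ ξ' / 8 := min_le_right _ _
  set θ : ℝ := min (1 / 2) ρ with hθ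
  have hθ0 : 0 < θ := lt_min (by norm_num) hρ0
  have hθ1 : θ ≤ 1 / 2 := min_le_left _ _
  have hθρ : θ ≤ ρ := min_le_right _ _
  obtain ⟨b, εm, n₀, hb2, hεm, hlev⟩ := h1 Δ k₀ α θ (ρ / 2) hΔ (by omega) hα hθ0 hθ1 (by linarith)
  refine ⟨k₀, b, ξ' / 2, εm, max N₀ n₀, by omega, hb2, by linarith, hεm, ?_⟩
  intro n hn m hm1 hm par hVT hBD hlv
  obtain ⟨par', I, S, lf, t, hVT', hBD', hlvc, hEmb, hIb, ht0, htm, hlpt, hS, hsum⟩ :=
    hlev n (le_trans (le_max_right _ _) hn) m hm1 hm par hVT hBD hlv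
  obtain ⟨E₀, Q₀, κ, hD0, hE0, hcol0, hκ, hmark⟩ := hdec n par'
    (fun x => decide (chd n par' x = ∅)) (le_trans (le_max_left _ _) hn) hVT' hBD'
  have hκ' : ∀ x ∈ E₀, κ x < k' := fun x hx => (hκ x hx).1
  obtain ⟨hp1, hp2, hp3, hp4, hp5, hp6, hp7, hp8, hp9⟩ := h3 par' E₀ Q₀ κ k' hD0.QE hD0.up hcol0 hκ'
  -- bad pieces
  set B1 : Finset ℕ := Q₀.filter fun q => t 1 ≤ par' q ∧
    ∃ x ∈ pc par' E₀ Q₀ q, x ≠ q ∧ chd n par' x = ∅ with hB1
  set B2 : Finset ℕ := Q₀.filter fun q => ∃ s ∈ SS par' I S lf, s ∈ pc par' E₀ Q₀ q with hB2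
  set B3 : Finset ℕ := Q₀.filter fun q => ∃ s ∈ SS par' I S lf, ∃ j, 1 ≤ j ∧ j ≤ 2 ∧
    par'^[j] q = s with hB3
  set Bad : Finset ℕ := B1 ∪ (B2 ∪ B3) with hBad
  have hB1c : B1.card ≤ ((lp n par').filter (fun y => t 1 ≤ y)).card := by
    have hc : ∀ q ∈ B1, ∃ y, y ∈ pc par' E₀ Q₀ q ∧ y ∈ (lp n par').filter (fun y => t 1 ≤ y) := by
      intro q hq
      rw [hB1, mem_filter] at hq
      obtain ⟨hqQ, htq, x, hx, hxq, hxl⟩ := hq
      obtain ⟨hxQ, hpx⟩ := hp2 q hqQ x hx hxq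
      have hxE : x ∈ E₀ := by
        unfold pc at hx
        exact (mem_filter.1 hx).1
      have hpE : par' x ∈ E₀ := (hD0.up x hxE hxQ).2
      have hlt : par' x < x := (hD0.up x hxE hxQ).1
      have hle := le_of_pc hD0.up hpx
      have hqp : par' q < q := by
        have := hD0.pos q hqQ 0 (by norm_num)
        simpa using this
      refine ⟨par' x, hpx, mem_filter.2 ⟨?_, by omega⟩⟩
      unfold lp
      rw [mem_filter]
      refine ⟨hD0.EC hpE, x, ?_, hxl⟩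
      unfold chd
      rw [mem_filter]
      exact ⟨hD0.EC hxE, by omega, rfl⟩
    choose! g hg using hc
    refine card_le_card_of_injOn g (fun q hq => (hg q hq).2) ?_
    intro q hq q' hq' he
    by_contra hne
    have hqQ : q ∈ Q₀ := (mem_filter.1 (hB1 ▸ hq : q ∈ _)).1
    have hqQ' : q' ∈ Q₀ := (mem_filter.1 (hB1 ▸ hq' : q' ∈ _)).1
    have h6 := (hg q hq).1
    have h7 := (hg q' hq').1
    rw [← he] at h7
    exact disjoint_left.1 (hp4 q hqQ q' hqQ' hne) h6 h7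
  have hB2c : B2.card ≤ (SS par' I S lf).card := by
    have hc : ∀ q ∈ B2, ∃ s, s ∈ SS par' I S lf ∧ s ∈ pc par' E₀ Q₀ q := by
      intro q hq
      rw [hB2, mem_filter] at hq
      obtain ⟨-, s, hs, hs'⟩ := hq
      exact ⟨s, hs, hs'⟩
    choose! g hg using hc
    refine card_le_card_of_injOn g (fun q hq => (hg q hq).1) ?_
    intro q hq q' hq' he
    by_contra hne
    have hqQ : q ∈ Q₀ := (mem_filter.1 (hB2 ▸ hq : q ∈ _)).1
    have hqQ' : q' ∈ Q₀ := (mem_filter.1 (hB2 ▸ hq' : q' ∈ _)).1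
    have h6 := (hg q hq).2
    have h7 := (hg q' hq').2
    rw [← he] at h7
    exact disjoint_left.1 (hp4 q hqQ q' hqQ' hne) h6 h7
  have hB3c : B3.card ≤ (SS par' I S lf).card := by
    have hc : ∀ q ∈ B3, ∃ s, s ∈ SS par' I S lf ∧ ∃ j, 1 ≤ j ∧ j ≤ 2 ∧ par'^[j] q = s := by
      intro q hq
      rw [hB3, mem_filter] at hq
      obtain ⟨-, s, hs, hs'⟩ := hq
      exact ⟨s, hs, hs'⟩
    choose! g hg using hc
    refine card_le_card_of_injOn g (fun q hq => (hg q hq).1) ?_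
    intro q hq q' hq' he
    have hqQ : q ∈ Q₀ := (mem_filter.1 (hB3 ▸ hq : q ∈ _)).1
    have hqQ' : q' ∈ Q₀ := (mem_filter.1 (hB3 ▸ hq' : q' ∈ _)).1
    obtain ⟨-, j, hj1, hj2, hj⟩ := hg q hq
    obtain ⟨-, j', hj1', hj2', hj'⟩ := hg q' hq'
    exact hD0.excl q hqQ q' hqQ' j j' hj1 hj2 hj1' hj2' (by rw [hj, hj', he])
  have hBadQ : Bad ⊆ Q₀ := by
    rw [hBad]
    exact union_subset (filter_subset _ _) (union_subset (filter_subset _ _) (filter_subset _ _))
  have hsumR : ((SS par' I S lf).card : ℝ) ≤ ρ / 2 * n := by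
    refine le_trans ?_ hsum
    exact_mod_cast card_SS par' I S lf
  have hBadR : (Bad.card : ℝ) ≤ 2 * ρ * n := by
    have h6 : Bad.card ≤ B1.card + (B2.card + B3.card) := by
      rw [hBad]
      exact (card_union_le _ _).trans (add_le_add le_rfl (card_union_le _ _))
    have h7 : (Bad.card : ℝ) ≤ B1.card + (B2.card + B3.card) := by exact_mod_cast h6
    have h8 : (B1.card : ℝ) ≤ θ * n := le_trans (by exact_mod_cast hB1c) hlpt
    have h9 : (B2.card : ℝ) ≤ ρ / 2 * n := le_trans (by exact_mod_cast hB2c) hsumR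
    have h10 : (B3.card : ℝ) ≤ ρ / 2 * n := le_trans (by exact_mod_cast hB3c) hsumR
    have hn0 : (0 : ℝ) ≤ n := Nat.cast_nonneg n
    nlinarith [mul_le_mul_of_nonneg_right hθρ hn0]
  set Q : Finset ℕ := Q₀ \ Bad with hQ
  set E : Finset ℕ := Q.biUnion (pc par' E₀ Q₀) with hE
  obtain ⟨hD, hcol, hEE, hpc, hcE, hcc⟩ := h4 n par' E₀ Q₀ Bad E Q κ k' hD0 hcol0 hκ' hBadQ hQ hE
  obtain ⟨M, hM1, hM2, hM3, hM4, hM5, hM6⟩ := h5 n Δ par' E Q κ hBD' hD.EC hD.up hcol (by
    intro x hx y hy hxy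
    have := hmark x (hEE hx) y (hEE hy) hxy
    simpa using this)
  have hn0 : (0 : ℝ) ≤ n := Nat.cast_nonneg n
  have hk'ρ : (k' : ℝ) * ρ ≤ ε' := by
    calc (k' : ℝ) * ρ ≤ k₀ * (ε' / k₀) := by
          exact mul_le_mul hk'R hρ1 hρ0.le hk₀R.le
      _ = ε' := by field_simp
  have hEc : ((range n \ E).card : ℝ) ≤ 3 * ε' * n := by
    have h6 : (range n \ E).card ≤ (range n \ E₀).card + (E₀ \ E).card := by
      refine (card_le_card ?_).trans (card_union_le _ _)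
      intro x hx
      rw [mem_sdiff] at hx
      by_cases hx0 : x ∈ E₀
      · exact mem_union_right _ (mem_sdiff.2 ⟨hx0, hx.2⟩)
      · exact mem_union_left _ (mem_sdiff.2 ⟨hx.1, hx0⟩)
    have h7 : ((range n \ E).card : ℝ) ≤ (range n \ E₀).card + (E₀ \ E).card := by
      exact_mod_cast h6
    have h8 : ((E₀ \ E).card : ℝ) ≤ k' * Bad.card := by exact_mod_cast hcE
    have h9 : (k' : ℝ) * Bad.card ≤ k' * (2 * ρ * n) :=
      mul_le_mul_of_nonneg_left hBadR (Nat.cast_nonneg _)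
    nlinarith [mul_le_mul_of_nonneg_right hk'ρ hn0]
  have hout : ∀ q ∈ Q, q ∈ Q₀ ∧ q ∉ B1 ∧ q ∉ B2 ∧ q ∉ B3 := by
    intro q hq
    rw [hQ, mem_sdiff] at hq
    refine ⟨hq.1, fun h => hq.2 ?_, fun h => hq.2 ?_, fun h => hq.2 ?_⟩
    · exact mem_union_left _ h
    · exact mem_union_right _ (mem_union_left _ h)
    · exact mem_union_right _ (mem_union_right _ h)
  have hSSE : ∀ s ∈ SS par' I S lf, s ∉ E := by
    intro s hs hsE
    rw [hE, mem_biUnion] at hsE
    obtain ⟨q, hq, hsq⟩ := hsE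
    obtain ⟨hq0, -, hq2, -⟩ := hout q hq
    exact hq2 (mem_filter.2 ⟨hq0, s, hs, hsq⟩)
  have hSSQ : ∀ s ∈ SS par' I S lf, ∀ q ∈ Q, s ≠ par' q ∧ s ≠ par' (par' q) := by
    intro s hs q hq
    obtain ⟨hq0, -, -, hq3⟩ := hout q hq
    refine ⟨fun h => hq3 (mem_filter.2 ⟨hq0, s, hs, 1, le_rfl, by norm_num, ?_⟩),
      fun h => hq3 (mem_filter.2 ⟨hq0, s, hs, 2, by norm_num, le_rfl, ?_⟩)⟩
    · rw [h]
      rfl
    · rw [h]
      rfl
  refine ⟨par', I, E, Q, M, κ, S, lf, t, hVT', hBD', hEmb, ?_, ?_, ?_, ?_, ?_⟩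
  · refine
      { dcp := hD
        col := hcol
        kap := fun x hx => lt_of_lt_of_le (hκ' x (hEE hx)) (Nat.le_succ _)
        MS := hM1
        Ml := hM2
        Mc := hM3
        Mi := hM4
        Ms := hM5
        Mt := ?_
        k1 := by omega
        b2 := hb2
        Ib := hIb
        t0 := ht0
        tm := htm
        Sr := fun i hi hI => (hS i hi hI).1
        Se := fun i hi hI => (hS i hi hI).2.1
        Sl := ?_
        SE := ?_
        Sb := fun i hi hI => (hS i hi hI).2.2.2 }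
    · intro q hq x hx hxM
      by_contra hcon
      obtain ⟨hq0, hq1, -, -⟩ := hout q hq
      refine hq1 (mem_filter.2 ⟨hq0, by omega, x, ?_, ?_, hM2 x hxM⟩)
      · rw [← hpc q hq]
        exact hx
      · rintro rfl
        exact (hM1 x hxM).2 hq
    · intro i hi hI a ha
      obtain ⟨h6, h7⟩ := (hS i hi hI).2.2.1 a ha
      exact ⟨h6, h7, hSSE _ (lf_mem hi hI ha)⟩
    · intro i hi hI a ha j hj
      have h6 : par'^[j] a ∈ SS par' I S lf := chain_mem hi hI ha hj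
      exact ⟨hSSE _ h6, hSSQ _ h6⟩
  · nlinarith [mul_le_mul_of_nonneg_right hε'ε hn0, mul_nonneg hε'0.le hn0]
  · have h6 : ∑ i ∈ Icc 1 I, (S i).card ≤ ∑ i ∈ Icc 1 I, (2 * i + 4) * (S i).card := by
      refine sum_le_sum fun i _ => ?_
      nlinarith [Nat.zero_le (S i).card, Nat.zero_le (i * (S i).card)]
    have h7 : ((∑ i ∈ Icc 1 I, (S i).card : ℕ) : ℝ) ≤
        ((∑ i ∈ Icc 1 I, (2 * i + 4) * (S i).card : ℕ) : ℝ) := by exact_mod_cast h6
    have h8 : ρ / 2 ≤ ε := by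
      have h9 : ε' / k₀ ≤ ε' := by
        apply div_le_self hε'0.le
        rw [hk₀]
        push_cast
        have : (0 : ℝ) ≤ k' := Nat.cast_nonneg _
        linarith
      linarith
    exact h7.trans (hsum.trans (mul_le_mul_of_nonneg_right h8 hn0))
  · intro x hx
    have h6 := (hκ x (hEE hx)).2
    have h7 : ((E₀.filter (fun y => κ y = κ x)).card : ℝ) ≤
        (E.filter (fun y => κ y = κ x)).card + Bad.card := by exact_mod_cast hcc x hx
    nlinarith [mul_le_mul_of_nonneg_right hρ2 hn0]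
  · have hQc : Q.card ≤ (range n \ E).card := by
      refine card_le_card_of_injOn par' ?_ ?_
      · intro q hq
        have h : par'^[1] q ∈ range n \ E := hD.chain q hq 1 le_rfl one_le_two
        exact mem_coe.2 h
      · intro q hq q' hq' he
        exact hD.excl q hq q' hq' 1 1 le_rfl one_le_two le_rfl one_le_two he
    have h6 : (lv n par').card ≤ ((E \ Q).filter (fun x => chd n par' x = ∅)).card +
        (Q.card + (range n \ E).card) := by
      have : lv n par' ⊆ ((E \ Q).filter (fun x => chd n par' x = ∅)) ∪ (Q ∪ (range n \ E)) := by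
        intro x hx
        unfold lv at hx
        rw [mem_filter] at hx
        by_cases hxE : x ∈ E
        · by_cases hxQ : x ∈ Q
          · exact mem_union_right _ (mem_union_left _ hxQ)
          · exact mem_union_left _ (mem_filter.2 ⟨mem_sdiff.2 ⟨hxE, hxQ⟩, hx.2⟩)
        · exact mem_union_right _ (mem_union_right _ (mem_sdiff.2 ⟨hx.1, hxE⟩))
      refine (card_le_card this).trans ((card_union_le _ _).trans (add_le_add le_rfl
        (card_union_le _ _)))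
    have h7 : (lv n par').card ≤ Δ * M.card + ((range n \ E).card + (range n \ E).card) := by omega
    have h8 : ((lv n par').card : ℝ) ≤ Δ * M.card + ((range n \ E).card + (range n \ E).card) := by
      exact_mod_cast h7
    rw [hlvc] at h8
    have h9 : 0 ≤ (Δ : ℝ) * M.card := mul_nonneg (Nat.cast_nonneg _) (Nat.cast_nonneg _)
    nlinarith [mul_le_mul_of_nonneg_right hε'α hn0]

end Pool.Agent.RSL
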