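import Pool.Agent.RSL.Targets

/-!
# WALK: going down to the heaviest child
-/

set_option autoImplicit false

open Finset

namespace Pool.Agent.RSL

open Pool.Agent.RST

namespace WALK_

open Classical in
/-- the number of leaf parents below `v` -/
noncomputable def w (n : ℕ) (par : ℕ → ℕ) (v : ℕ) : ℕ :=
  ((lp n par).filter (fun y => y ∈ ds n par v)).card

variable {n : ℕ} {par : ℕ → ℕ}

lemma ds_ge {x v : ℕ} (hx : x ∈ ds n par v) : v ≤ x := by
  obtain ⟨-, j, hj, hj'⟩ := hx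
  rcases Nat.eq_zero_or_pos j with rfl | h
  · exact le_of_eq hj.symm
  · exact (hj' 0 h).le

lemma ds_trans {x u v : ℕ} (hx : x ∈ ds n par u) (hu : u ∈ ds n par v) : x ∈ ds n par v := by
  have hvu := ds_ge hu
  obtain ⟨hxn, j1, h1, h1'⟩ := hx
  obtain ⟨-, j2, h2, h2'⟩ := hu
  refine ⟨hxn, j2 + j1, ?_, ?_⟩
  · rw [Function.iterate_add_apply, h1, h2]
  · intro j' hj'
    rcases lt_or_ge j' j1 with h | h
    · exact lt_of_le_of_lt hvu (h1' j' h)
    · obtain ⟨i, rfl⟩ := Nat.exists_eq_add_of_le' h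
      rw [Function.iterate_add_apply, h1]
      exact h2' i (by omega)

lemma chain (hV : VT n par) {x v i : ℕ} (hx : x < n) (h : ∀ a ≤ i, v < par^[a] x) :
    ∀ a ≤ i, par^[a] x < n ∧ ∀ b < a, par^[a] x < par^[b] x := by
  intro a
  induction a with
  | zero =>
    intro _
    exact ⟨hx, fun b hb => absurd hb (Nat.not_lt_zero _)⟩
  | succ a ih =>
    intro ha
    obtain ⟨h1, h2⟩ := ih (by omega)
    have h3 : 0 < par^[a] x := lt_of_le_of_lt (Nat.zero_le _) (h a (by omega))
    have h4 : par^[a + 1] x < par^[a] x := by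
      rw [Function.iterate_succ_apply']
      exact hV _ h3 h1
    refine ⟨h4.trans h1, fun b hb => ?_⟩
    rcases Nat.lt_succ_iff_lt_or_eq.1 hb with hb' | rfl
    · exact h4.trans (h2 b hb')
    · exact h4

lemma ds_step (hV : VT n par) {x v : ℕ} (hx : x ∈ ds n par v) (hne : x ≠ v) :
    ∃ u ∈ chd n par v, x ∈ ds n par u := by
  obtain ⟨hxn, j, hj, hj'⟩ := hx
  rcases Nat.eq_zero_or_pos j with rfl | h
  · exact absurd hj hne
  · obtain ⟨i, rfl⟩ : ∃ i, j = i + 1 := ⟨j - 1, by omega⟩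
    have hc := chain hV hxn (fun a ha => hj' a (by omega)) i le_rfl
    have hvu : v < par^[i] x := hj' i (by omega)
    refine ⟨par^[i] x, ?_, hxn, i, rfl, hc.2⟩
    unfold chd
    rw [mem_filter, mem_range]
    refine ⟨hc.1, lt_of_le_of_lt (Nat.zero_le _) hvu, ?_⟩
    rw [← Function.iterate_succ_apply' par i x]
    exact hj

lemma child_lt (hV : VT n par) {u v : ℕ} (hu : u ∈ chd n par v) : v < u ∧ u < n := by
  unfold chd at hu
  rw [mem_filter, mem_range] at hu
  obtain ⟨h1, h2, h3⟩ := hu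
  have := hV u h2 h1
  rw [h3] at this
  exact ⟨this, h1⟩

lemma child_ds (hV : VT n par) {u v : ℕ} (hu : u ∈ chd n par v) : u ∈ ds n par v := by
  obtain ⟨h1, h2⟩ := child_lt hV hu
  refine ⟨h2, 1, ?_, ?_⟩
  · unfold chd at hu
    rw [mem_filter] at hu
    exact hu.2.2
  · intro j' hj'
    have : j' = 0 := by omega
    rw [this]
    exact h1

open Classical in
lemma w_le (hV : VT n par) (v : ℕ) : w n par v ≤ 1 + ∑ u ∈ chd n par v, w n par u := by
  unfold w
  have h : (lp n par).filter (fun y => y ∈ ds n par v) ⊆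
      {v} ∪ (chd n par v).biUnion (fun u => (lp n par).filter (fun y => y ∈ ds n par u)) := by
    intro y hy
    rw [mem_filter] at hy
    rw [mem_union, mem_singleton, mem_biUnion]
    by_cases hyv : y = v
    · exact Or.inl hyv
    · obtain ⟨u, hu, hyu⟩ := ds_step hV hy.2 hyv
      exact Or.inr ⟨u, hu, mem_filter.2 ⟨hy.1, hyu⟩⟩
  calc _ ≤ _ := card_le_card h
    _ ≤ _ := card_union_le _ _
    _ ≤ _ := by
      rw [card_singleton]
      exact Nat.add_le_add_left card_biUnion_le 1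

open Classical in
lemma w_leaf (hV : VT n par) {v : ℕ} (h : chd n par v = ∅) : w n par v = 0 := by
  unfold w
  rw [card_eq_zero, filter_eq_empty_iff]
  intro y hy hyv
  by_cases hne : y = v
  · subst hne
    unfold lp at hy
    rw [mem_filter] at hy
    obtain ⟨-, x, hx, -⟩ := hy
    rw [h] at hx
    exact absurd hx (notMem_empty _)
  · obtain ⟨u, hu, -⟩ := ds_step hV hyv hne
    rw [h] at hu
    exact absurd hu (notMem_empty _)

lemma descent (hV : VT n par) {Δ : ℕ} (hB : BD n par Δ) {τ : ℝ} (hτ : 0 ≤ τ) :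
    ∀ (k u : ℕ), n - u ≤ k → u < n → τ < w n par u →
      ∃ v, v ∈ ds n par u ∧ u < v ∧ v < n ∧ (w n par v : ℝ) ≤ τ ∧ τ - 1 ≤ Δ * w n par v := by
  intro k
  induction k with
  | zero =>
    intro u h1 h2
    omega
  | succ k ih =>
    intro u h1 h2 h3
    have hne : (chd n par u).Nonempty := by
      rw [nonempty_iff_ne_empty]
      intro h
      rw [w_leaf hV h] at h3
      push_cast at h3
      linarith
    obtain ⟨c, hc, hmax⟩ := exists_max_image (chd n par u) (w n par) hne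
    obtain ⟨huc, hcn⟩ := child_lt hV hc
    have h4 : w n par u ≤ 1 + Δ * w n par c := by
      calc w n par u ≤ 1 + ∑ u ∈ chd n par u, w n par u := w_le hV u
        _ ≤ 1 + ∑ _u ∈ chd n par u, w n par c := Nat.add_le_add_left (sum_le_sum hmax) 1
        _ = 1 + (chd n par u).card * w n par c := by rw [sum_const, smul_eq_mul]
        _ ≤ 1 + Δ * w n par c := Nat.add_le_add_left (Nat.mul_le_mul_right _ (hB u)) 1
    have h5 : (w n par u : ℝ) ≤ 1 + Δ * w n par c := by exact_mod_cast h4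
    rcases le_or_gt (w n par c : ℝ) τ with h | h
    · exact ⟨c, child_ds hV hc, huc, hcn, h, by linarith⟩
    · obtain ⟨v, hv1, hv2, hv3, hv4, hv5⟩ := ih c (by omega) hcn h
      exact ⟨v, ds_trans hv1 (child_ds hV hc), huc.trans hv2, hv3, hv4, hv5⟩

lemma root (hV : VT n par) : ∀ x : ℕ, x < n → x ∈ ds n par 0 := by
  intro x
  induction x using Nat.strong_induction_on with
  | _ x ih =>
    intro hx
    rcases Nat.eq_zero_or_pos x with rfl | h
    · exact ⟨hx, 0, rfl, fun j' hj' => absurd hj' (Nat.not_lt_zero _)⟩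
    · have hp := hV x h hx
      obtain ⟨-, j, hj, hj'⟩ := ih (par x) hp (hp.trans hx)
      refine ⟨hx, j + 1, ?_, ?_⟩
      · rw [Function.iterate_succ_apply]
        exact hj
      · intro j'' hj''
        rcases Nat.eq_zero_or_pos j'' with rfl | h0
        · exact h
        · obtain ⟨i, rfl⟩ : ∃ i, j'' = i + 1 := ⟨j'' - 1, by omega⟩
          rw [Function.iterate_succ_apply]
          exact hj' i (by omega)

open Classical in
lemma w_root (hV : VT n par) : w n par 0 = (lp n par).card := by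
  unfold w
  congr 1
  rw [filter_eq_self]
  intro y hy
  unfold lp at hy
  rw [mem_filter, mem_range] at hy
  exact root hV y hy.1

open Classical in
lemma w_diff {u v : ℕ} (h : v ∈ ds n par u) :
    ((lp n par).filter (fun y => y ∈ ds n par u ∧ y ∉ ds n par v)).card + w n par v =
      w n par u := by
  unfold w
  have h1 : (lp n par).filter (fun y => y ∈ ds n par u ∧ y ∉ ds n par v) =
      ((lp n par).filter (fun y => y ∈ ds n par u)) \
        ((lp n par).filter (fun y => y ∈ ds n par v)) := by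
    ext y
    simp only [mem_filter, mem_sdiff]
    tauto
  rw [h1]
  refine card_sdiff_add_card_eq_card ?_
  intro y hy
  rw [mem_filter] at hy ⊢
  exact ⟨hy.1, ds_trans hy.2 h⟩

end WALK_

open WALK_ in
theorem pWALK : T_WALK := by
  classical
  intro Δ θ n I par hΔ hθ hθ2 hV hB hbig
  obtain ⟨l, hl⟩ : ∃ l : ℝ, l = θ * (lp n par).card := ⟨_, rfl⟩
  have hD1 : (1 : ℝ) ≤ Δ := by exact_mod_cast hΔ
  have h4 : (1 : ℝ) ≤ 4 * Δ := by linarith
  have hpow1 : ∀ i : ℕ, (1 : ℝ) ≤ (4 * (Δ : ℝ)) ^ i := fun i => one_le_pow₀ h4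
  rw [← hl] at hbig
  have hl8 : 8 ≤ l := by nlinarith [hpow1 I]
  have hcard : (0 : ℝ) < (lp n par).card := by
    by_contra h
    push Not at h
    have : l ≤ 0 := by
      rw [hl]
      exact mul_nonpos_of_nonneg_of_nonpos hθ.le h
    linarith
  have hn0 : 0 < n := by
    by_contra h
    have h0 : n = 0 := by omega
    subst h0
    have : (lp 0 par).card = 0 := by
      unfold lp
      simp
    rw [this] at hcard
    simp at hcard
  -- the first vertex
  obtain ⟨v1, -, hv1a, hv1b, hv1c, hv1d⟩ := descent hV hB (τ := l) (by linarith) n 0 (by omega) hn0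
    (by
      rw [w_root hV, hl]
      nlinarith)
  -- the next vertices
  set R : ℕ → ℕ → ℕ → Prop := fun i x y => y ∈ ds n par x ∧ x < y ∧ y < n ∧
    (w n par y : ℝ) ≤ (w n par x : ℝ) / 2 ∧ 2 * l ≤ (4 * (Δ : ℝ)) ^ (i + 1) * w n par y with hR
  have hstep : ∀ i x, i ≤ I → x < n → 2 * l ≤ (4 * (Δ : ℝ)) ^ i * w n par x →
      ∃ y, R i x y := by
    intro i x hi hx hw
    have hpi : (4 * (Δ : ℝ)) ^ i ≤ (4 * (Δ : ℝ)) ^ I := pow_le_pow_right₀ h4 hi
    have hp0 : (0 : ℝ) < (4 * (Δ : ℝ)) ^ i := by positivity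
    have hw16 : 16 ≤ (w n par x : ℝ) := by
      have h5 : 16 * (4 * (Δ : ℝ)) ^ i ≤ (4 * (Δ : ℝ)) ^ i * w n par x := by
        have h6 : 8 * (4 * (Δ : ℝ)) ^ i ≤ l := by
          calc 8 * (4 * (Δ : ℝ)) ^ i ≤ 8 * (Δ : ℝ) * (4 * (Δ : ℝ)) ^ I := by
                have : (4 * (Δ : ℝ)) ^ i ≤ Δ * (4 * (Δ : ℝ)) ^ I := by nlinarith
                linarith
            _ ≤ l := hbig
        linarith
      by_contra h
      push Not at h
      nlinarith
    obtain ⟨y, hy1, hy2, hy3, hy4, hy5⟩ := descent hV hB (τ := (w n par x : ℝ) / 2)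
      (by positivity) n x (by omega) hx (by linarith)
    refine ⟨y, hy1, hy2, hy3, hy4, ?_⟩
    have h6 : (w n par x : ℝ) ≤ 4 * Δ * w n par y := by linarith
    calc 2 * l ≤ (4 * (Δ : ℝ)) ^ i * w n par x := hw
      _ ≤ (4 * (Δ : ℝ)) ^ i * (4 * Δ * w n par y) := mul_le_mul_of_nonneg_left h6 hp0.le
      _ = (4 * (Δ : ℝ)) ^ (i + 1) * w n par y := by ring
  obtain ⟨nx, hnx⟩ : ∃ nx : ℕ → ℕ → ℕ, ∀ i x, (∃ y, R i x y) → R i x (nx i x) := by
    refine ⟨fun i x => if h : ∃ y, R i x y then h.choose else 0, fun i x h => ?_⟩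
    simp only [dif_pos h]
    exact h.choose_spec
  obtain ⟨g, hg0, hgs⟩ : ∃ g : ℕ → ℕ, g 0 = v1 ∧ ∀ k, g (k + 1) = nx (k + 1) (g k) :=
    ⟨fun k => Nat.rec v1 (fun k x => nx (k + 1) x) k, rfl, fun _ => rfl⟩
  have hmain : ∀ k, k ≤ I → 0 < g k ∧ g k < n ∧ 2 * l ≤ (4 * (Δ : ℝ)) ^ (k + 1) * w n par (g k) := by
    intro k
    induction k with
    | zero =>
      intro _
      rw [hg0]
      refine ⟨hv1a, hv1b, ?_⟩
      rw [zero_add, pow_one]
      nlinarith
    | succ k ih =>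
      intro hk
      obtain ⟨h5, h6, h7⟩ := ih (by omega)
      have h8 := hnx (k + 1) (g k) (hstep (k + 1) (g k) hk h6 h7)
      rw [← hgs k] at h8
      exact ⟨h5.trans h8.2.1, h8.2.2.1, h8.2.2.2.2⟩
  have hRk : ∀ k, k + 1 ≤ I → R (k + 1) (g k) (g (k + 1)) := by
    intro k hk
    obtain ⟨h5, h6, h7⟩ := hmain k (by omega)
    rw [hgs k]
    exact hnx (k + 1) (g k) (hstep (k + 1) (g k) hk h6 h7)
  refine ⟨fun i => g (i - 1), ?_, ?_, ?_, ?_⟩
  · intro i h1 h2
    obtain ⟨h5, h6, -⟩ := hmain (i - 1) (by omega)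
    exact ⟨h5, h6⟩
  · intro i h1 h2
    have h8 := hRk (i - 1) (by omega)
    have e1 : i - 1 + 1 = i + 1 - 1 := by omega
    rw [e1] at h8
    exact ⟨h8.1, h8.2.1⟩
  · have e1 : (fun i => g (i - 1)) 1 = v1 := hg0
    rw [e1, ← hl]
    exact hv1c
  · intro i h1 h2
    have h8 := hRk (i - 1) (by omega)
    have e1 : i - 1 + 1 = i := by omega
    have e2 : i + 1 - 1 = i := by omega
    rw [e1] at h8
    simp only [e2]
    obtain ⟨h9, -, -, h10, -⟩ := h8
    have h11 := w_diff h9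
    obtain ⟨-, -, h12⟩ := hmain (i - 1) (by omega)
    rw [e1] at h12
    have h13 : (((lp n par).filter (fun y => y ∈ ds n par (g (i - 1)) ∧
        y ∉ ds n par (g i))).card : ℝ) + w n par (g i) = w n par (g (i - 1)) := by
      exact_mod_cast h11
    have hp0 : (0 : ℝ) < (4 * (Δ : ℝ)) ^ i := by positivity
    rw [← hl]
    have h14 : (w n par (g (i - 1)) : ℝ) / 2 ≤ (((lp n par).filter (fun y =>
        y ∈ ds n par (g (i - 1)) ∧ y ∉ ds n par (g i))).card : ℝ) := by linarith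
    calc l ≤ (4 * (Δ : ℝ)) ^ i * ((w n par (g (i - 1)) : ℝ) / 2) := by linarith
      _ ≤ _ := mul_le_mul_of_nonneg_left h14 hp0.le

end Pool.Agent.RSL
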