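import Pool.Agent.RSL.Targets

set_option autoImplicit false

namespace Pool.Agent.RSL

open Finset Filter Topology Pool.Agent.RST

theorem pWSL (h1 : T_LG) (h2 : T_INIT) : T_WSL := by
  intro V _ _ H η p K g W d m b hp hg hg2 hη hη2 hK hUU hDG hm hKm hKW h16 h4K hb hbd hbud
  refine ⟨⟨by positivity, by linarith,
    h1 V H η p K g W m hp hg hg2 hη hη2 hK hm hUU hKm hKW hDG, hm, hb, hbd, hbud⟩,
    h2 V H η p K W d m hp hη (by linarith) hK hUU ?_ h16 h4K⟩
  intro v
  refine le_trans ?_ (hDG v)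
  have h3 : (0 : ℝ) ≤ g * p * W.card := by positivity
  nlinarith

end Pool.Agent.RSL
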