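import Pool.Agent.RST.CONN
import Pool.Agent.RST.GSUM
import Pool.Agent.RST.DEC
import Pool.Agent.RST.CUT
import Pool.Agent.RST.REG
import Pool.Agent.RST.PM
import Pool.Agent.RST.LG
import Pool.Agent.RST.INIT
import Pool.Agent.RST.STEP
import Pool.Agent.RST.FREE
import Pool.Agent.RST.SHR
import Pool.Agent.RST.RPART
import Pool.Agent.RSL.MONO
import Pool.Agent.RSL.GRO
import Pool.Agent.RSL.FLEX
import Pool.Agent.RSL.WSL
import Pool.Agent.RSL.PFU
import Pool.Agent.RSL.PFW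
import Pool.Agent.RSL.PFA
import Pool.Agent.RSL.PFD
import Pool.Agent.RSL.PF
import Pool.Agent.RSL.PIEC
import Pool.Agent.RSL.DISS
import Pool.Agent.RSL.ACT
import Pool.Agent.RSL.MATL
import Pool.Agent.RSL.SLOT
import Pool.Agent.RSL.WALK
import Pool.Agent.RSL.ORDR
import Pool.Agent.RSL.GRDL
import Pool.Agent.RSL.LEV
import Pool.Agent.RSL.TREEL
import Pool.Agent.RSL.BUDL
import Pool.Agent.RSL.COVL
import Pool.Agent.RSL.CTX
import Pool.Agent.RSL.FINL
import Pool.Agent.RSL.NUML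
import Pool.Agent.RSL.CASEL
import Pool.Agent.RSL.GNPL
import Pool.Agent.RSL.RELL
import Pool.Agent.RSL.MAINL

/-!
# RSL: the main theorem
-/

set_option autoImplicit false

namespace Pool.Agent.RSL

open Pool.Agent.RST

theorem aDEC : T_DEC := pDEC (pCUT pREG)
theorem aFLEX : T_FLEX := pFLEX (pGRO pSTEP) pFREE pSHR
theorem aPF : T_PF := pPF (pMONO pSHR) pPFU (pPFW pSTEP) pPFA (pPFD aFLEX)
theorem aLEV : T_LEV := pLEV pWALK pORDR pGRDL
theorem aTREEL : T_TREEL := pTREEL aLEV aDEC pPIEC (pDISS pPIEC) pACT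
theorem aCTX : T_CTX := pCTX pPIEC (pBUDL pPIEC)
theorem aCASEL : T_CASEL := pCASEL pRPART (pWSL pLG pINIT) aTREEL (pMATL pPM) (pSLOT pPIEC) aCTX
  aPF (pCOVL pPIEC) (pFINL pPM pPIEC) pNUML
theorem main_theorem : T_MAINL := pMAINL (pGNPL pGSUM) pRELL aCASEL

end Pool.Agent.RSL
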