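import Pool.Agent.RSL.Targets

/-!
# RSL: facts about the data `mk`
-/

set_option autoImplicit false

open Finset

namespace Pool.Agent.RSL

open Pool.Agent.RST

namespace H21Mk_

/-- computed values of the data -/
structure Fa {V : Type} [DecidableEq V] (c : Cx V) (par : ℕ → ℕ) (I : ℕ) (E Q M : Finset ℕ)
    (κ : ℕ → ℕ) (S : ℕ → Finset ℕ) (lf : ℕ → ℕ) (Vc : ℕ → Finset V) (Sl : ℕ → V → Finset V)
    (φ : ℕ → V → ℕ → V) : Prop where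
  A : ∀ a, a ∈ c.A ↔ a ∈ Q ∨ ∃ i, 1 ≤ i ∧ i ≤ I ∧ a ∈ S i
  PQ : ∀ a ∈ Q, c.P a = pc par E Q a
  PS : ∀ i a, 1 ≤ i → i ≤ I → a ∈ S i → c.P a = {a, lf a}
  O : ∀ x, x ∈ c.O ↔ x ∈ M ∨ ∃ i a, 1 ≤ i ∧ i ≤ I ∧ a ∈ S i ∧ x = lf a
  DQ : ∀ a ∈ Q, c.D a = 2
  DS : ∀ i a, 1 ≤ i → i ≤ I → a ∈ S i → c.D a = 2 * i + 2
  JQ : ∀ a ∈ Q, c.jj (c.gr a) = 0
  JS : ∀ i a, 1 ≤ i → i ≤ I → a ∈ S i → c.jj (c.gr a) = i
  RQ : ∀ a ∈ Q, c.R (c.gr a) = Vc (κ a)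
  RS : ∀ i a, 1 ≤ i → i ≤ I → a ∈ S i → c.R (c.gr a) = ZZ par M κ Vc
  SQ : ∀ a ∈ Q, ∀ r, c.Sl (c.gr a) r = Sl (κ a) r
  SS : ∀ i a, 1 ≤ i → i ≤ I → a ∈ S i → ∀ r, c.Sl (c.gr a) r = {r}
  fQ : ∀ a ∈ Q, ∀ r, c.φ a r = φ a r
  fS : ∀ i a, 1 ≤ i → i ≤ I → a ∈ S i → ∀ r x, c.φ a r x = r
  POQ : ∀ a ∈ Q, c.P a \ c.O = pc par E Q a \ M
  POS : ∀ i a, 1 ≤ i → i ≤ I → a ∈ S i → c.P a \ c.O = {a}

section

variable {n : ℕ} {par : ℕ → ℕ} {k₀ m b I : ℕ} {E Q M : Finset ℕ} {κ : ℕ → ℕ}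
    {S : ℕ → Finset ℕ} {lf t : ℕ → ℕ}

/-- a special vertex is no element of `E` -/
lemma S_notE (h : TS n par k₀ m b I E Q M κ S lf t) {i a : ℕ} (h1 : 1 ≤ i) (h2 : i ≤ I)
    (ha : a ∈ S i) : a ∉ E := by
  have := (h.SE i h1 h2 a ha 0 (Nat.zero_le _)).1
  simpa using this

lemma S_notQ (h : TS n par k₀ m b I E Q M κ S lf t) {i a : ℕ} (h1 : 1 ≤ i) (h2 : i ≤ I)
    (ha : a ∈ S i) : a ∉ Q := fun hq => S_notE h h1 h2 ha (h.dcp.QE hq)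

lemma t_mono (h : TS n par k₀ m b I E Q M κ S lf t) {i i' : ℕ} (h1 : 1 ≤ i) (h2 : i ≤ i')
    (h3 : i' ≤ I + 1) : t i ≤ t i' := by
  induction i', h2 using Nat.le_induction with
  | base => exact le_rfl
  | succ j hj ih => exact (ih (by omega)).trans (h.tm j (by omega) (by omega)).1

lemma t_pos (h : TS n par k₀ m b I E Q M κ S lf t) {i : ℕ} (h1 : 1 ≤ i) (h2 : i ≤ I) :
    0 < t i := h.t0.trans_le (t_mono h le_rfl h1 (by omega))

/-- levels are determined by any vertex of the interval -/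
lemma level (h : TS n par k₀ m b I E Q M κ S lf t) {i i' x : ℕ} (h1 : 1 ≤ i) (h2 : i ≤ I)
    (h1' : 1 ≤ i') (h2' : i' ≤ I) (hx : t i ≤ x) (hx2 : x < t (i + 1)) (hx' : t i' ≤ x)
    (hx2' : x < t (i' + 1)) : i = i' := by
  rcases lt_trichotomy i i' with hlt | he | hlt
  · have := t_mono h (i := i + 1) (i' := i') (by omega) (by omega) (by omega)
    omega
  · exact he
  · have := t_mono h (i := i' + 1) (i' := i) (by omega) (by omega) (by omega)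
    omega

/-- iterates of the parent function decrease -/
lemma iter_le (hV : VT n par) (a : ℕ) (ha : a < n) (j : ℕ) (hp : ∀ j' < j, 0 < par^[j'] a) :
    par^[j] a ≤ a ∧ (1 ≤ j → par^[j] a < a) := by
  induction j with
  | zero => simp
  | succ j ih =>
    obtain ⟨h1, h2⟩ := ih (fun j' hj' => hp j' (by omega))
    have h3 : par (par^[j] a) < par^[j] a := hV _ (hp j (by omega)) (by omega)
    rw [Function.iterate_succ_apply']
    exact ⟨by omega, fun _ => by omega⟩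

lemma S_lt (h : TS n par k₀ m b I E Q M κ S lf t) {i a : ℕ} (h1 : 1 ≤ i) (h2 : i ≤ I)
    (ha : a ∈ S i) : a < n :=
  ((h.Sr i h1 h2 a ha).1).trans_le (h.tm i h1 h2).2

lemma S_pos (h : TS n par k₀ m b I E Q M κ S lf t) {i a : ℕ} (h1 : 1 ≤ i) (h2 : i ≤ I)
    (ha : a ∈ S i) (j : ℕ) (hj : j ≤ 2 * i + 2) : 0 < par^[j] a :=
  (t_pos h h1 h2).trans_le ((h.Sr i h1 h2 a ha).2 j hj)

/-- the chain of a special vertex stays in the interval of the level -/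
lemma S_int (hV : VT n par) (h : TS n par k₀ m b I E Q M κ S lf t) {i a : ℕ} (h1 : 1 ≤ i)
    (h2 : i ≤ I) (ha : a ∈ S i) (j : ℕ) (hj : j ≤ 2 * i + 2) :
    t i ≤ par^[j] a ∧ par^[j] a < t (i + 1) := by
  refine ⟨(h.Sr i h1 h2 a ha).2 j hj, ?_⟩
  have := (iter_le hV a (S_lt h h1 h2 ha) j
    (fun j' hj' => S_pos h h1 h2 ha j' (by omega))).1
  exact this.trans_lt (h.Sr i h1 h2 a ha).1

/-- the level of a special vertex is unique -/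
lemma S_uniq (h : TS n par k₀ m b I E Q M κ S lf t) {i i' a : ℕ} (h1 : 1 ≤ i) (h2 : i ≤ I)
    (h1' : 1 ≤ i') (h2' : i' ≤ I) (ha : a ∈ S i) (ha' : a ∈ S i') : i = i' := by
  have e1 := (h.Sr i h1 h2 a ha).2 0 (Nat.zero_le _)
  have e2 := (h.Sr i' h1' h2' a ha').2 0 (Nat.zero_le _)
  exact level h h1 h2 h1' h2' (by simpa using e1) (h.Sr i h1 h2 a ha).1 (by simpa using e2)
    (h.Sr i' h1' h2' a ha').1

lemma lf_mem (h : TS n par k₀ m b I E Q M κ S lf t) {i a : ℕ} (h1 : 1 ≤ i) (h2 : i ≤ I)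
    (ha : a ∈ S i) : lf a < n ∧ 0 < lf a ∧ par (lf a) = a := by
  have := (h.Sl i h1 h2 a ha).1
  unfold chd at this
  rw [mem_filter, mem_range] at this
  exact this

/-- a vertex with a child is no leaf -/
lemma not_leaf {x y : ℕ} (hx : 0 < x) (hxn : x < n) (h : par x = y) : chd n par y ≠ ∅ := by
  intro he
  have : x ∈ chd n par y := by
    unfold chd
    rw [mem_filter, mem_range]
    exact ⟨hxn, hx, h⟩
  rw [he] at this
  exact notMem_empty _ this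

/-- leaves of special vertices are no special vertices -/
lemma lf_ne (h : TS n par k₀ m b I E Q M κ S lf t) {i a i' a' : ℕ} (h1 : 1 ≤ i) (h2 : i ≤ I)
    (ha : a ∈ S i) (h1' : 1 ≤ i') (h2' : i' ≤ I) (ha' : a' ∈ S i') : a ≠ lf a' := by
  intro he
  have h3 := (h.Sl i' h1' h2' a' ha').2.1
  obtain ⟨h4, h5, h6⟩ := lf_mem h h1 h2 ha
  rw [← he] at h3
  exact not_leaf h5 h4 h6 h3

end

/-- pieces are contained in `E` -/
lemma pc_sub {par : ℕ → ℕ} {E Q : Finset ℕ} {q x : ℕ} (h : x ∈ pc par E Q q) : x ∈ E := by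
  unfold pc at h
  simp only [mem_filter] at h
  exact h.1

/-- the values of the data -/
lemma facts {V : Type} [DecidableEq V] (H : SimpleGraph V) (W : Finset V) (g : ℝ)
    (d m b n : ℕ) (par : ℕ → ℕ) (Δ : ℕ) (v₀ : V) (k₀ I : ℕ) (E Q M : Finset ℕ) (κ : ℕ → ℕ)
    (S : ℕ → Finset ℕ) (lf t : ℕ → ℕ) (Vc : ℕ → Finset V) (Sl : ℕ → V → Finset V)
    (φ : ℕ → V → ℕ → V) (B : ℕ) (h : TS n par k₀ m b I E Q M κ S lf t) :
    Fa (mk H W g d m b n par Δ v₀ k₀ I E Q M κ S lf Vc Sl φ B) par I E Q M κ S lf Vc Sl φ := by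
  have hgQ : ∀ a ∈ Q, (mk H W g d m b n par Δ v₀ k₀ I E Q M κ S lf Vc Sl φ B).gr a = κ a :=
    fun a ha => if_pos ha
  have hkQ : ∀ a ∈ Q, κ a < k₀ := fun a ha => h.kap a (h.dcp.QE ha)
  have hgS : ∀ i a, 1 ≤ i → i ≤ I → a ∈ S i →
      (mk H W g d m b n par Δ v₀ k₀ I E Q M κ S lf Vc Sl φ B).gr a = k₀ + i := by
    intro i a h1 h2 ha
    have hex : ∃ i, 1 ≤ i ∧ i ≤ I ∧ a ∈ S i := ⟨i, h1, h2, ha⟩
    have e1 : (mk H W g d m b n par Δ v₀ k₀ I E Q M κ S lf Vc Sl φ B).gr a =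
        k₀ + hex.choose := by
      unfold mk
      simp only
      rw [if_neg (S_notQ h h1 h2 ha), dif_pos hex]
    obtain ⟨c1, c2, c3⟩ := hex.choose_spec
    rw [e1, S_uniq h c1 c2 h1 h2 c3 ha]
  have hA : ∀ a, a ∈ (mk H W g d m b n par Δ v₀ k₀ I E Q M κ S lf Vc Sl φ B).A ↔
      a ∈ Q ∨ ∃ i, 1 ≤ i ∧ i ≤ I ∧ a ∈ S i := by
    intro a
    unfold mk
    simp only [mem_union, mem_biUnion, mem_Icc, and_assoc]
  have hO : ∀ x, x ∈ (mk H W g d m b n par Δ v₀ k₀ I E Q M κ S lf Vc Sl φ B).O ↔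
      x ∈ M ∨ ∃ i a, 1 ≤ i ∧ i ≤ I ∧ a ∈ S i ∧ x = lf a := by
    intro x
    unfold mk
    simp only [mem_union, mem_image, mem_biUnion, mem_Icc]
    refine or_congr_right ⟨?_, ?_⟩
    · rintro ⟨a, ⟨i, ⟨h1, h2⟩, h3⟩, h4⟩
      exact ⟨i, a, h1, h2, h3, h4.symm⟩
    · rintro ⟨i, a, h1, h2, h3, h4⟩
      exact ⟨a, ⟨i, ⟨h1, h2⟩, h3⟩, h4.symm⟩
  have hPQ : ∀ a ∈ Q, (mk H W g d m b n par Δ v₀ k₀ I E Q M κ S lf Vc Sl φ B).P a =
      pc par E Q a := fun a ha => if_pos ha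
  have hPS : ∀ i a, 1 ≤ i → i ≤ I → a ∈ S i →
      (mk H W g d m b n par Δ v₀ k₀ I E Q M κ S lf Vc Sl φ B).P a = {a, lf a} :=
    fun i a h1 h2 ha => if_neg (S_notQ h h1 h2 ha)
  have hJQ : ∀ a ∈ Q, (mk H W g d m b n par Δ v₀ k₀ I E Q M κ S lf Vc Sl φ B).jj
      ((mk H W g d m b n par Δ v₀ k₀ I E Q M κ S lf Vc Sl φ B).gr a) = 0 := by
    intro a ha
    rw [hgQ a ha]
    have := hkQ a ha
    change κ a - k₀ = 0
    omega
  have hJS : ∀ i a, 1 ≤ i → i ≤ I → a ∈ S i →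
      (mk H W g d m b n par Δ v₀ k₀ I E Q M κ S lf Vc Sl φ B).jj
      ((mk H W g d m b n par Δ v₀ k₀ I E Q M κ S lf Vc Sl φ B).gr a) = i := by
    intro i a h1 h2 ha
    rw [hgS i a h1 h2 ha]
    change k₀ + i - k₀ = i
    omega
  refine ⟨hA, hPQ, hPS, hO, ?_, ?_, hJQ, hJS, ?_, ?_, ?_, ?_, ?_, ?_, ?_, ?_⟩
  · intro a ha
    unfold Cx.D
    rw [hJQ a ha]
  · intro i a h1 h2 ha
    unfold Cx.D
    rw [hJS i a h1 h2 ha]
  · intro a ha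
    rw [hgQ a ha]
    exact if_pos (hkQ a ha)
  · intro i a h1 h2 ha
    rw [hgS i a h1 h2 ha]
    exact if_neg (by omega)
  · intro a ha r
    rw [hgQ a ha]
    exact if_pos (hkQ a ha)
  · intro i a h1 h2 ha r
    rw [hgS i a h1 h2 ha]
    exact if_neg (by omega)
  · intro a ha r
    exact if_pos ha
  · intro i a h1 h2 ha r x
    have : (mk H W g d m b n par Δ v₀ k₀ I E Q M κ S lf Vc Sl φ B).φ a r = fun _ => r :=
      if_neg (S_notQ h h1 h2 ha)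
    rw [this]
  · intro a ha
    rw [hPQ a ha]
    ext x
    rw [mem_sdiff, mem_sdiff, hO]
    refine and_congr_right fun hx => ?_
    refine not_congr ⟨?_, Or.inl⟩
    rintro (h1 | ⟨i, a', h1, h2, h3, rfl⟩)
    · exact h1
    · exact absurd (pc_sub hx) (h.Sl i h1 h2 a' h3).2.2
  · intro i a h1 h2 ha
    rw [hPS i a h1 h2 ha]
    ext x
    rw [mem_sdiff, mem_insert, mem_singleton, mem_singleton, hO]
    constructor
    · rintro ⟨h3 | h3, h4⟩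
      · exact h3
      · exact absurd (Or.inr ⟨i, a, h1, h2, ha, h3⟩) h4
    · rintro rfl
      refine ⟨Or.inl rfl, ?_⟩
      rintro (h3 | ⟨i', a', h1', h2', h3, h4⟩)
      · exact S_notE h h1 h2 ha (h.MS _ h3).1
      · exact lf_ne h h1 h2 ha h1' h2' h3 h4

end H21Mk_

end Pool.Agent.RSL
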