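import Pool.Agent.RSL.Targets

set_option autoImplicit false

namespace Pool.Agent.RSL

open Finset Filter Topology Pool.Agent.RST

namespace NUML_

/-- the union bound -/
lemma last (k n : ℕ) (a : ℝ) (hn : 3 ≤ n) (hk : k < n) (ha : (2 * k + 3 : ℕ) * Real.log n ≤ a) :
    (n : ℝ) * k * ((n : ℝ) + 1) ^ k * Real.exp (-a) < 1 := by
  have hn0 : (0 : ℝ) < n := by exact_mod_cast (by omega : 0 < n)
  have hn3 : (3 : ℝ) ≤ n := by exact_mod_cast hn
  have h1 : Real.exp (-a) ≤ ((n : ℝ) ^ (2 * k + 3))⁻¹ := by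
    calc Real.exp (-a) ≤ Real.exp (-(((2 * k + 3 : ℕ) : ℝ) * Real.log n)) := by
          apply Real.exp_le_exp.2
          linarith
      _ = ((n : ℝ) ^ (2 * k + 3))⁻¹ := by
          rw [Real.exp_neg, Real.exp_nat_mul, Real.exp_log hn0]
  have h2 : ((n : ℝ) + 1) ^ k ≤ (n : ℝ) ^ (2 * k) := by
    rw [pow_mul]
    apply pow_le_pow_left₀ (by positivity)
    nlinarith
  have hpos : (0 : ℝ) < (n : ℝ) ^ (2 * k + 3) := by positivity
  calc (n : ℝ) * k * ((n : ℝ) + 1) ^ k * Real.exp (-a)
      ≤ (n : ℝ) * k * (n : ℝ) ^ (2 * k) * ((n : ℝ) ^ (2 * k + 3))⁻¹ := by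
        apply mul_le_mul _ h1 (Real.exp_pos _).le (by positivity)
        exact mul_le_mul_of_nonneg_left h2 (by positivity)
    _ = k / (n : ℝ) ^ 2 := by
        rw [show 2 * k + 3 = 2 * k + 1 + 2 by ring, pow_add, pow_add]
        field_simp
    _ < 1 := by
        rw [div_lt_one (by positivity)]
        have h3 : (k : ℝ) < n := by exact_mod_cast hk
        nlinarith

end NUML_

theorem pNUML : T_NUML := by
  intro g C₁ εm s₁ η k d hg hC₁ hε hs hη
  set A : ℝ := 16 * C₁ / (g * εm) with hA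
  set B : ℝ := (4 * C₁ * (1 + d) + 1) / s₁ with hB
  set D : ℝ := 16 * C₁ / (g * s₁) with hD
  set E : ℝ := 4 * (2 * k + 3) / (η ^ 2 * s₁) with hE
  have hA0 : 0 ≤ A := by positivity
  have hB0 : 0 < B := by positivity
  have hD0 : 0 ≤ D := by positivity
  have hE0 : 0 ≤ E := by positivity
  refine ⟨A + B + D + E, by positivity, max (max 3 (k + 1)) ⌈4 / εm⌉₊, ?_⟩
  intro n hn p hp hp1
  have hn3 : 3 ≤ n := ((le_max_left _ _).trans (le_max_left _ _)).trans hn
  have hnk : k < n := ((le_max_right 3 (k + 1)).trans (le_max_left _ _)).trans hn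
  have hnε : 4 / εm ≤ n := Nat.ceil_le.1 ((le_max_right _ _).trans hn)
  have hn0 : (0 : ℝ) < n := by exact_mod_cast (by omega : 0 < n)
  have hlog : 0 < Real.log n := Real.log_pos (by exact_mod_cast (by omega : 1 < n))
  have hpn : (A + B + D + E) * Real.log n ≤ p * n := by
    rwa [div_le_iff₀ hn0] at hp
  have hC0 : 0 < A + B + D + E := by positivity
  have hp0 : 0 < p := by
    have h1 : 0 < p * n := lt_of_lt_of_le (by positivity) hpn
    exact pos_of_mul_pos_left h1 hn0.le
  have hAp : A * Real.log n ≤ p * n := by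
    refine le_trans ?_ hpn
    exact mul_le_mul_of_nonneg_right (by linarith) hlog.le
  have hBp : B * Real.log n ≤ p * n := by
    refine le_trans ?_ hpn
    exact mul_le_mul_of_nonneg_right (by linarith) hlog.le
  have hDp : D * Real.log n ≤ p * n := by
    refine le_trans ?_ hpn
    exact mul_le_mul_of_nonneg_right (by linarith) hlog.le
  have hEp : E * Real.log n ≤ p * n := by
    refine le_trans ?_ hpn
    exact mul_le_mul_of_nonneg_right (by linarith) hlog.le
  have hA' : 16 * (C₁ * Real.log n) ≤ g * εm * (p * n) := by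
    have h1 : A * (g * εm) = 16 * C₁ := by rw [hA]; field_simp
    have h2 := mul_le_mul_of_nonneg_left hAp (by positivity : 0 ≤ g * εm)
    calc 16 * (C₁ * Real.log n) = g * εm * (A * Real.log n) := by
          rw [show g * εm * (A * Real.log n) = A * (g * εm) * Real.log n by ring, h1]
          ring
      _ ≤ _ := h2
  have hB' : (4 * C₁ * (1 + d) + 1) * Real.log n ≤ p * (s₁ * n) := by
    have h1 : B * s₁ = 4 * C₁ * (1 + d) + 1 := by rw [hB]; field_simp
    have h2 := mul_le_mul_of_nonneg_left hBp hs.le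
    calc (4 * C₁ * (1 + d) + 1) * Real.log n = s₁ * (B * Real.log n) := by
          rw [← h1]
          ring
      _ ≤ s₁ * (p * n) := h2
      _ = _ := by ring
  have hD' : 16 * (C₁ * Real.log n) ≤ g * p * (s₁ * n) := by
    have h1 : D * (g * s₁) = 16 * C₁ := by rw [hD]; field_simp
    have h2 := mul_le_mul_of_nonneg_left hDp (by positivity : 0 ≤ g * s₁)
    calc 16 * (C₁ * Real.log n) = g * s₁ * (D * Real.log n) := by
          rw [show g * s₁ * (D * Real.log n) = D * (g * s₁) * Real.log n by ring, h1]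
          ring
      _ ≤ g * s₁ * (p * n) := h2
      _ = _ := by ring
  have hE' : ((2 * k + 3 : ℕ) : ℝ) * Real.log n ≤
      η ^ 2 * (s₁ * n) * (1 / 2 * p * n) / (2 * n) := by
    have h1 : E * (η ^ 2 * s₁) = 4 * (2 * k + 3) := by rw [hE]; field_simp
    have h2 := mul_le_mul_of_nonneg_left hEp (by positivity : 0 ≤ η ^ 2 * s₁)
    have h3 : η ^ 2 * (s₁ * n) * (1 / 2 * p * n) / (2 * n) = η ^ 2 * s₁ * (p * n) / 4 := by
      field_simp
      ring
    rw [h3, le_div_iff₀ (by norm_num)]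
    calc ((2 * k + 3 : ℕ) : ℝ) * Real.log n * 4 = η ^ 2 * s₁ * (E * Real.log n) := by
          rw [show η ^ 2 * s₁ * (E * Real.log n) = E * (η ^ 2 * s₁) * Real.log n by ring, h1]
          push_cast
          ring
      _ ≤ _ := h2
  set x : ℝ := 8 * (C₁ * Real.log n) / (g * p) with hx
  have hx0 : 0 ≤ x := by positivity
  have hgpx : g * p * x = 8 * (C₁ * Real.log n) := by rw [hx]; field_simp
  have hgp : 0 < g * p := by positivity
  refine ⟨by omega, hp0, ?_, ?_, ?_, hD', NUML_.last k n _ hn3 hnk hE'⟩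
  · push_cast
    have h1 : (⌈x⌉₊ : ℝ) < x + 1 := Nat.ceil_lt_add_one hx0
    have h2 : x ≤ εm * n / 2 := by
      rw [hx, div_le_iff₀ hgp]
      nlinarith
    have h3 : 4 ≤ εm * n := by
      rw [div_le_iff₀ hε] at hnε
      linarith
    linarith
  · push_cast
    have h1 : x ≤ (⌈x⌉₊ : ℝ) := Nat.le_ceil x
    rw [← hgpx]
    apply mul_le_mul_of_nonneg_left _ hgp.le
    linarith
  · calc 4 * (C₁ * Real.log n) * (1 + d) < (4 * C₁ * (1 + d) + 1) * Real.log n := by
          nlinarith
      _ ≤ _ := hB'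

end Pool.Agent.RSL
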