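import Pool.Agent.RSL.Targets

/-!
# RSL, target PFW: a waste step
-/

set_option autoImplicit false

open Finset

namespace Pool.Agent.RSL

open Pool.Agent.RST

namespace PFW_

variable {V : Type}

/-- a vertex of `W` which is not used has outdegree `0` -/
lemma od_zero [DecidableEq V] {H : SimpleGraph V} {W : Finset V} {d m : ℕ}
    {J : Finset (V × V)} {F : Finset V} (h : OK H W d m J F) {v : V} (hv : v ∈ W)
    (hu : v ∉ used J F) : od J v = 0 := by
  unfold od
  rw [Finset.card_eq_zero, Finset.filter_eq_empty_iff]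
  intro e he h1
  exact hu (h1 ▸ h.tail e he (h1 ▸ hv))

/-- numerical consequences of `WS` -/
lemma num {H : SimpleGraph V} {W : Finset V} {g : ℝ}
    {d m b : ℕ} (hw : WS H W g d m b) {u : ℕ} (hu : 4 * (u : ℝ) ≤ g * W.card) :
    2 * (u + 2 * m * d) < W.card := by
  have h4 := hw.bud
  have h5 : (0 : ℝ) ≤ 4 * ((b : ℝ) + 1) * m := by positivity
  have h6 : (0 : ℝ) ≤ (m : ℝ) * d := by positivity
  have h7 : 24 * ((m : ℝ) * d) + 32 ≤ g * W.card := by nlinarith
  have h8 : (0 : ℝ) ≤ (W.card : ℝ) := Nat.cast_nonneg _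
  have h9 : g * (W.card : ℝ) ≤ 1 / 2 * W.card := mul_le_mul_of_nonneg_right hw.g1 h8
  have : (2 * ((u : ℝ) + 2 * m * d)) < W.card := by nlinarith
  exact_mod_cast this

lemma lg2 {H : SimpleGraph V} {W : Finset V} {g : ℝ}
    {d m b : ℕ} (hw : WS H W g d m b) :
    ∀ X : Finset V, m ≤ X.card → W.card ≤ 2 * (nb H X W).card := by
  intro X hX
  have h1 := hw.lg X hX
  have h2 := hw.g0
  have h8 : (0 : ℝ) ≤ (W.card : ℝ) := Nat.cast_nonneg _
  have : (W.card : ℝ) ≤ 2 * ((nb H X W).card : ℝ) := by nlinarith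
  exact_mod_cast this

/-- chains stay below `N` -/
lemma it_lt [DecidableEq V] {c : Cx V} (hv : Vd c) {a : ℕ} (ha : a ∈ c.A) :
    ∀ j, j ≤ c.D a → c.par^[j] a < c.N := by
  intro j
  induction j with
  | zero => intro _; exact (Finset.mem_Ico.1 ((hv.mem a ha).2 (hv.mem a ha).1)).2
  | succ j ih =>
    intro hj
    have h1 := ih (by omega)
    have h2 := hv.st a ha j (by omega)
    rw [Function.iterate_succ_apply']
    exact lt_trans (hv.vt _ (lt_of_lt_of_le hv.t0 h2) h1) h1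

/-- membership in the domain -/
lemma mem_dom {c : Cx V} {Su : Finset ℕ} {K x : ℕ} : x ∈ c.Dom Su K ↔
    (x ∈ c.Dm ∨ (c.t ≤ x ∧ x < K) ∨ ∃ a ∈ Su, x ∈ c.ch a ∨ x ∈ c.P a) ∧
      ∀ a ∈ Su, x ∈ c.P a → x ∉ c.O := by
  unfold Cx.Dom
  simp only [mem_sdiff, mem_union, mem_biUnion, mem_Ico, mem_inter, not_exists, not_and, or_assoc]

lemma mem_wd {c : Cx V} {Su : Finset ℕ} {K x : ℕ} : x ∈ c.Wd Su K ↔
    ((c.t ≤ x ∧ x < K) ∨ ∃ a ∈ Su, x ∈ c.ch a) ∧ ∀ a ∈ Su, x ∉ c.P a := by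
  unfold Cx.Wd
  simp only [mem_sdiff, mem_union, mem_biUnion, mem_Ico, not_exists, not_and]

lemma mem_ch {c : Cx V} {a x : ℕ} :
    x ∈ c.ch a ↔ ∃ j, 1 ≤ j ∧ j ≤ c.D a - 1 ∧ c.par^[j] a = x := by
  unfold Cx.ch
  simp only [mem_image, mem_Icc, and_assoc]

/-- the domain is contained in the tree -/
lemma dom_lt [DecidableEq V] {c : Cx V} (hv : Vd c) {K : ℕ} (hK : K ≤ c.N) {Su : Finset ℕ}
    (hSu : ∀ a ∈ Su, a ∈ c.A) {x : ℕ} (hx : x ∈ c.Dom Su K) : x < c.N := by
  rcases (mem_dom.1 hx).1 with h | h | ⟨a, ha, h | h⟩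
  · exact lt_of_lt_of_le (mem_range.1 (hv.DmS h)) hv.tN
  · exact lt_of_lt_of_le h.2 hK
  · obtain ⟨j, h1, h2, rfl⟩ := mem_ch.1 h
    exact it_lt hv (hSu a ha) j (by omega)
  · exact (mem_Ico.1 ((hv.mem a (hSu a ha)).2 h)).2

/-- an embedded vertex which is mapped to `W` is used -/
lemma dom_W [DecidableEq V] {c : Cx V} (hv : Vd c) {K : ℕ} {f : ℕ → V} {Su : Finset ℕ} {ρ : ℕ → V}
    {J : Finset (V × V)} {F : Finset V} (hs : PSt c K f Su ρ J F) {x : ℕ}
    (hx : x ∈ c.Dom Su K) (hW : f x ∈ c.W) : f x ∈ used J F := by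
  rw [hs.us]
  refine mem_image_of_mem _ (mem_wd.2 ?_)
  obtain ⟨h1, h2⟩ := mem_dom.1 hx
  have h3 : ∀ a ∈ Su, x ∉ c.P a := by
    intro a ha hxa
    have h4 : x ∈ c.P a \ c.O := mem_sdiff.2 ⟨hxa, h2 a ha hxa⟩
    have h5 : f x ∈ c.Sl (c.gr a) (ρ a) := by
      rw [hs.emb a ha x h4, ← hv.sim a (hs.su a ha).1 _ (hs.rho a ha)]
      exact mem_image_of_mem _ h4
    exact disjoint_left.1 (hv.sW a (hs.su a ha).1 _ (hs.rho a ha)) h5 hW
  refine ⟨?_, h3⟩
  rcases h1 with h | h | ⟨a, ha, h | h⟩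
  · exact absurd hW (by rw [hs.ini x h]; exact hv.f0W x h)
  · exact Or.inl h
  · exact Or.inr ⟨a, ha, h⟩
  · exact absurd h (h3 a ha)

/-- the parent of an embedded vertex is not the next vertex -/
lemma par_ne [DecidableEq V] {c : Cx V} (hv : Vd c) {K : ℕ} (hK : K < c.N) {Su : Finset ℕ}
    (hSu : ∀ a ∈ Su, a ∈ c.A ∧ c.fs a < K)
    (hno : ∀ a ∈ Su, K ∉ c.ch a ∧ K ∉ c.P a) {x : ℕ} (hx : x ∈ c.Dom Su K) (ht : c.t ≤ x) :
    c.par x ≠ K := by
  intro hxK
  rcases (mem_dom.1 hx).1 with h | h | ⟨a, ha, h | h⟩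
  · have := mem_range.1 (hv.DmS h)
    omega
  · have := hv.vt x (lt_of_lt_of_le hv.t0 ht) (h.2.trans hK)
    omega
  · obtain ⟨j, h1, h2, rfl⟩ := mem_ch.1 h
    rw [← Function.iterate_succ_apply' c.par] at hxK
    by_cases h3 : j + 1 ≤ c.D a - 1
    · exact (hno a ha).1 (mem_ch.2 ⟨j + 1, by omega, h3, hxK⟩)
    · have h4 : j = c.D a - 1 := by omega
      have h5 := (hSu a ha).2
      have h6 : c.par^[j] a = c.fs a := by rw [h4]; rfl
      have h7 := hv.vt (c.par^[j] a) (lt_of_lt_of_le hv.t0 ht) (by omega)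
      rw [← Function.iterate_succ_apply' c.par, hxK] at h7
      omega
  · by_cases hxa : x = a
    · subst hxa
      refine (hno x ha).1 (mem_ch.2 ⟨1, le_refl 1, ?_, hxK⟩)
      unfold Cx.D
      omega
    · exact (hno a ha).2 (hxK ▸ hv.conn a (hSu a ha).1 x h hxa)

end PFW_

theorem pPFW (h : T_STEP) : T_PFW := by
  intro V _ _ c hv K f Su ρ J F htK hKN hs hu hno'
  have hno : ∀ a ∈ Su, K ∉ c.ch a ∧ K ∉ c.P a := by
    intro a ha
    constructor
    · intro h1
      exact hno' (mem_biUnion.2 ⟨a, ha, mem_union_left _ h1⟩)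
    · intro h1
      exact hno' (mem_biUnion.2 ⟨a, ha, mem_union_right _ h1⟩)
  have hSA : ∀ a ∈ Su, a ∈ c.A := fun a ha => (hs.su a ha).1
  have hK0 : 0 < K := lt_of_lt_of_le hv.t0 htK
  have hpK : c.par K < K := hv.vt K hK0 hKN
  -- the domains
  have hKD : K ∉ c.Dom Su K := by
    intro hK
    rcases (PFW_.mem_dom.1 hK).1 with h1 | h1 | ⟨a, ha, h1 | h1⟩
    · have := mem_range.1 (hv.DmS h1)
      omega
    · omega
    · exact (hno a ha).1 h1
    · exact (hno a ha).2 h1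
  have hDom : ∀ x, x ∈ c.Dom Su (K + 1) ↔ x = K ∨ x ∈ c.Dom Su K := by
    intro x
    rw [PFW_.mem_dom, PFW_.mem_dom]
    constructor
    · rintro ⟨h1, h2⟩
      by_cases hx : x = K
      · exact Or.inl hx
      · refine Or.inr ⟨?_, h2⟩
        rcases h1 with h1 | h1 | h1
        · exact Or.inl h1
        · exact Or.inr (Or.inl (by omega))
        · exact Or.inr (Or.inr h1)
    · rintro (rfl | ⟨h1, h2⟩)
      · exact ⟨Or.inr (Or.inl ⟨htK, Nat.lt_succ_self _⟩), fun a ha h1 => absurd h1 (hno a ha).2⟩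
      · refine ⟨?_, h2⟩
        rcases h1 with h1 | h1 | h1
        · exact Or.inl h1
        · exact Or.inr (Or.inl (by omega))
        · exact Or.inr (Or.inr h1)
  have hWd : c.Wd Su (K + 1) = insert K (c.Wd Su K) := by
    ext x
    rw [mem_insert, PFW_.mem_wd, PFW_.mem_wd]
    constructor
    · rintro ⟨h1, h2⟩
      by_cases hx : x = K
      · exact Or.inl hx
      · refine Or.inr ⟨?_, h2⟩
        rcases h1 with h1 | h1
        · exact Or.inl (by omega)
        · exact Or.inr h1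
    · rintro (rfl | ⟨h1, h2⟩)
      · exact ⟨Or.inl ⟨htK, Nat.lt_succ_self _⟩, fun a ha => (hno a ha).2⟩
      · refine ⟨?_, h2⟩
        rcases h1 with h1 | h1
        · exact Or.inl (by omega)
        · exact Or.inr h1
  have hKW : K ∉ c.Wd Su K := by
    intro hK
    rcases (PFW_.mem_wd.1 hK).1 with h1 | ⟨a, ha, h1⟩
    · omega
    · exact (hno a ha).1 h1
  -- the parent of `K`
  have hpD : c.par K ∈ c.Dom Su K := by
    rw [PFW_.mem_dom]
    by_cases hpt : c.par K < c.t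
    · refine ⟨Or.inl (hv.DmP K htK hKN hpt), fun a ha h1 => ?_⟩
      have := mem_Ico.1 ((hv.mem a (hSA a ha)).2 h1)
      omega
    · refine ⟨Or.inr (Or.inl ⟨by omega, hpK⟩), fun a ha h1 h2 => ?_⟩
      have h3 := hv.leaf _ h2
      have h4 : K ∈ chd c.N c.par (c.par K) := by
        unfold chd
        exact mem_filter.2 ⟨mem_range.2 hKN, hK0, rfl⟩
      rw [h3] at h4
      simp at h4
  have hod : od J (f (c.par K)) < c.d := by
    have h1 := hs.odb _ hpD
    have h2 : ((c.Dom Su K).filter (fun y => c.t ≤ y ∧ c.par y = c.par K)).card ≤ c.Δ := by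
      refine le_trans (card_le_card ?_) (hv.bdd (c.par K))
      intro y hy
      rw [mem_filter] at hy
      unfold chd
      exact mem_filter.2 ⟨mem_range.2 (PFW_.dom_lt hv hKN.le hSA hy.1),
        lt_of_lt_of_le hv.t0 hy.2.1, hy.2.2⟩
    have h3 := hv.bd
    omega
  obtain ⟨w, hwW, hwu, hadj, hnJ, hok⟩ := h V c.H c.W c.d c.m J F hs.ok hv.ws.m1
    (PFW_.lg2 hv.ws) (PFW_.num hv.ws hu) (f (c.par K)) hod (PFW_.dom_W hv hs hpD)
  have hff : ∀ x, x ≠ K → Function.update f K w x = f x := fun x hx =>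
    Function.update_of_ne hx _ _
  have hfD : ∀ x ∈ c.Dom Su K, Function.update f K w x = f x := fun x hx =>
    hff x (fun h1 => hKD (h1 ▸ hx))
  have hfK : Function.update f K w K = w := Function.update_self _ _ _
  have hwD : ∀ x ∈ c.Dom Su K, f x ≠ w := by
    intro x hx h1
    exact hwu (h1 ▸ PFW_.dom_W hv hs hx (h1 ▸ hwW))
  have hodn : ∀ v, od (insert (f (c.par K), w) J) v =
      od J v + (if v = f (c.par K) then 1 else 0) := by
    intro v
    unfold od
    rw [Finset.filter_insert]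
    by_cases hv : v = f (c.par K)
    · rw [if_pos hv.symm, if_pos hv, Finset.card_insert_of_notMem]
      intro h
      exact hnJ (Finset.mem_filter.1 h).1
    · rw [if_neg (fun h => hv h.symm), if_neg hv]
      rfl
  refine ⟨Function.update f K w, insert (f (c.par K), w) J, F, ?_, subset_insert _ _,
    Subset.refl _, hfD⟩
  refine ⟨hok, ?_, hs.rho, ?_, ?_, ?_, ?_, ?_, ?_, ?_⟩
  · intro a ha
    exact ⟨(hs.su a ha).1, lt_trans (hs.su a ha).2 (Nat.lt_succ_self _)⟩
  · intro a ha x hx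
    rw [hff x (fun h1 => (hno a ha).2 (h1 ▸ (mem_sdiff.1 hx).1))]
    exact hs.emb a ha x hx
  · intro x hx y hy hxy
    rcases (hDom x).1 (mem_coe.1 hx) with rfl | hx
    · rcases (hDom y).1 (mem_coe.1 hy) with rfl | hy
      · rfl
      · rw [hfK, hfD y hy] at hxy
        exact absurd hxy.symm (hwD y hy)
    · rcases (hDom y).1 (mem_coe.1 hy) with rfl | hy
      · rw [hfK, hfD x hx] at hxy
        exact absurd hxy (hwD x hx)
      · rw [hfD x hx, hfD y hy] at hxy
        exact hs.inj (mem_coe.2 hx) (mem_coe.2 hy) hxy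
  · intro x hx
    rw [hff x (fun h1 => by have := mem_range.1 (hv.DmS hx); omega)]
    exact hs.ini x hx
  · intro x hx htx
    rcases (hDom x).1 hx with rfl | hx
    · rw [hfK, hff _ hpK.ne]
      exact hadj.symm
    · rw [hfD x hx, hff _ (PFW_.par_ne hv hKN hs.su hno hx htx)]
      exact hs.adj x hx htx
  · rw [hWd, image_insert, hfK]
    have h1 : (c.Wd Su K).image (Function.update f K w) = (c.Wd Su K).image f := by
      apply image_congr
      intro x hx
      have h2 : x ∈ c.Wd Su K := mem_coe.1 hx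
      exact hff x (fun h1 => hKW (by rw [h1] at h2; exact h2))
    rw [h1, ← hs.us]
    unfold used
    rw [image_insert, insert_union]
  · intro e he
    rcases mem_insert.1 he with rfl | he
    · exact ⟨c.par K, (hDom _).2 (Or.inr hpD), hfD _ hpD⟩
    · obtain ⟨x, hx, h1⟩ := hs.tl e he
      exact ⟨x, (hDom x).2 (Or.inr hx), (hfD x hx).trans h1⟩
  · intro x hx
    rcases (hDom x).1 hx with rfl | hx
    · rw [hfK, hodn, PFW_.od_zero hs.ok hwW hwu, if_neg hadj.ne']
      omega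
    · rw [hfD x hx, hodn]
      have h1 := hs.odb x hx
      have hsub : c.Dom Su K ⊆ c.Dom Su (K + 1) := fun y hy => (hDom y).2 (Or.inr hy)
      by_cases hxp : x = c.par K
      · rw [if_pos (by rw [hxp])]
        have h2 : ((c.Dom Su K).filter (fun y => c.t ≤ y ∧ c.par y = x)).card + 1 ≤
            ((c.Dom Su (K + 1)).filter (fun y => c.t ≤ y ∧ c.par y = x)).card := by
          apply Nat.succ_le_of_lt
          apply card_lt_card
          rw [ssubset_iff_of_subset (filter_subset_filter _ hsub)]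
          exact ⟨K, mem_filter.2 ⟨(hDom K).2 (Or.inl rfl), htK, hxp.symm⟩,
            fun h3 => hKD (mem_filter.1 h3).1⟩
        omega
      · rw [if_neg (fun h2 => hxp (hs.inj (mem_coe.2 hx) (mem_coe.2 hpD) h2))]
        have h2 := card_le_card (filter_subset_filter (fun y => c.t ≤ y ∧ c.par y = x) hsub)
        omega

end Pool.Agent.RSL
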