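import Pool.Agent.RSL.Defs

/-!
# The targets of the RSL jobs (proofs: Blueprint.lean.txt)
-/

set_option autoImplicit false

open Finset Filter Topology

namespace Pool.Agent.RSL

open Pool.Agent.RST

/-! ## Connections through the waste set -/

/-- MONO: a connection in a later state is a connection in an earlier state -/
def T_MONO : Prop := ∀ (V : Type) [Fintype V] [DecidableEq V] (H : SimpleGraph V)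
  (W : Finset V) (d m : ℕ) (J₁ J₂ : Finset (V × V)) (F₁ F₂ : Finset V) (L : ℕ) (x r : V),
  OK H W d m J₁ F₁ → J₁ ⊆ J₂ → F₁ ⊆ F₂ → (x ∈ W → x ∈ used J₁ F₁) → (r ∈ W → r ∈ used J₁ F₁) →
  Cnn H W d m J₂ F₂ L x r → Cnn H W d m J₁ F₁ L x r

/-- GRO: growing from many vertices -/
def T_GRO : Prop := ∀ (V : Type) [Fintype V] [DecidableEq V] (H : SimpleGraph V)
  (W : Finset V) (d m b j : ℕ) (J : Finset (V × V)) (F X : Finset V), OK H W d m J F →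
  1 ≤ m → 2 ≤ b → b ≤ d →
  (∀ Y : Finset V, m ≤ Y.card → W.card ≤ 2 * (nb H Y W).card) →
  (∀ x ∈ X, od J x + b ≤ d ∧ (x ∈ W → x ∈ used J F)) →
  2 * ((used J F).card + 2 * b ^ j * X.card + 2 * m * d) < W.card →
  ∃ (E : Finset (V × V)) (L : Finset V), OK H W d m (J ∪ E) F ∧
    (E.image Prod.snd).card ≤ 2 * b ^ j * X.card ∧
    (∀ e ∈ E, e.2 ∈ W ∧ e.2 ∉ used J F) ∧ (∀ e ∈ E, e.1 ∈ X ∨ e.1 ∈ E.image Prod.snd) ∧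
    L.card = b ^ j * X.card ∧
    ∀ y ∈ L, ∃ x ∈ X, ∃ l : List V, l.length = j ∧
      (x :: l).IsChain (fun u v => (u, v) ∈ E) ∧ (x :: l).getLast? = some y ∧ (x :: l).Nodup

/-- FLEX: many vertices and many vertices are connected somewhere -/
def T_FLEX : Prop := ∀ (V : Type) [Fintype V] [DecidableEq V] (H : SimpleGraph V)
  (W : Finset V) (g : ℝ) (d m b j : ℕ) (J : Finset (V × V)) (F X R : Finset V),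
  WS H W g d m b → OK H W d m J F → 4 * ((used J F).card : ℝ) ≤ g * W.card → b ^ j ≤ b * m →
  m ≤ b ^ j * X.card → m ≤ b ^ j * R.card → Disjoint X R →
  (∀ x ∈ X, od J x + b ≤ d ∧ (x ∈ W → x ∈ used J F)) → (∀ r ∈ R, od J r + b ≤ d ∧ r ∉ W) →
  ∃ x ∈ X, ∃ r ∈ R, Cnn H W d m J F (2 * j + 2) x r

/-- WSL: a set `W` of large relative degree is a good waste set -/
def T_WSL : Prop := ∀ (V : Type) [Fintype V] [DecidableEq V] (H : SimpleGraph V) (η p K g : ℝ)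
  (W : Finset V) (d m b : ℕ), 0 < p → 0 < g → g ≤ 1 / 2 → 0 ≤ η → η ≤ g / 4 → 0 ≤ K →
  UU H η p K → DG H g p W → 1 ≤ m → 8 * K ≤ g * p * m → 8 * K ≤ g * p * W.card →
  16 * (m : ℝ) * d ≤ W.card → 4 * K * (1 + d) < p * W.card → 2 ≤ b → b + 2 ≤ d →
  8 * (4 * ((b : ℝ) + 1) * m + 3 * (m : ℝ) * d + 4) ≤ g / 4 * (W.card : ℝ) →
  WS H W (g / 4) d m b ∧ OK H W d m ∅ ∅

/-! ## The procedure -/

/-- PFU: the number of used vertices -/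
def T_PFU : Prop := ∀ (V : Type) [DecidableEq V] (c : Cx V), Vd c →
  ∀ (K : ℕ) (f : ℕ → V) (Su : Finset ℕ) (ρ : ℕ → V) (J : Finset (V × V)) (F : Finset V),
  K ≤ c.N → PSt c K f Su ρ J F → c.DJ Su ρ K → 4 * ((used J F).card : ℝ) ≤ c.g * (c.W.card : ℝ)

/-- PFW: a waste step -/
def T_PFW : Prop := ∀ (V : Type) [Fintype V] [DecidableEq V] (c : Cx V), Vd c →
  ∀ (K : ℕ) (f : ℕ → V) (Su : Finset ℕ) (ρ : ℕ → V) (J : Finset (V × V)) (F : Finset V),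
  c.t ≤ K → K < c.N → PSt c K f Su ρ J F → 4 * ((used J F).card : ℝ) ≤ c.g * (c.W.card : ℝ) →
  K ∉ Su.biUnion (fun a => c.ch a ∪ c.P a) →
  ∃ f' J' F', PSt c (K + 1) f' Su ρ J' F' ∧ J ⊆ J' ∧ F ⊆ F' ∧ ∀ x ∈ c.Dom Su K, f' x = f x

/-- PFA: a successful attempt -/
def T_PFA : Prop := ∀ (V : Type) [Fintype V] [DecidableEq V] (c : Cx V), Vd c →
  ∀ (K : ℕ) (f : ℕ → V) (Su : Finset ℕ) (ρ : ℕ → V) (J : Finset (V × V)) (F : Finset V),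
  c.t ≤ K → K < c.N → PSt c K f Su ρ J F →
  ∀ a ∈ c.A, c.fs a = K → ∀ r ∈ c.Po (c.gr a) Su ρ K,
  Cnn c.H c.W c.d c.m J F (c.D a) (f (c.tip a)) r →
  ∃ f' J' F', PSt c (K + 1) f' (insert a Su) (Function.update ρ a r) J' F' ∧ J ⊆ J' ∧ F ⊆ F' ∧
    ∀ x ∈ c.Dom Su K, f' x = f x

/-- PFD: few failures or few free slots -/
def T_PFD : Prop := ∀ (V : Type) [Fintype V] [DecidableEq V] (c : Cx V), Vd c →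
  ∀ (K : ℕ) (f : ℕ → V) (Su : Finset ℕ) (ρ : ℕ → V) (J : Finset (V × V)) (F : Finset V),
  K ≤ c.N → PSt c K f Su ρ J F → 4 * ((used J F).card : ℝ) ≤ c.g * (c.W.card : ℝ) →
  ∀ (s : ℕ) (X : Finset ℕ), (∀ a ∈ X, a ∈ c.A ∧ c.gr a = s ∧ c.fs a ≤ K ∧
    ∀ r ∈ c.Po s Su ρ K, ¬ Cnn c.H c.W c.d c.m J F (c.D a) (f (c.tip a)) r) →
  X.card * c.b ^ c.jj s < c.m ∨ (c.Po s Su ρ K).card * c.b ^ c.jj s < c.m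

/-- PF: the procedure -/
def T_PF : Prop := ∀ (V : Type) [Fintype V] [DecidableEq V] (c : Cx V), Vd c →
  ∃ (f : ℕ → V) (Su : Finset ℕ) (ρ : ℕ → V) (J : Finset (V × V)) (F : Finset V),
    PSt c c.N f Su ρ J F ∧ c.DJ Su ρ c.N

/-! ## Pieces -/

/-- PIEC: the pieces -/
def T_PIEC : Prop := ∀ (par : ℕ → ℕ) (E Q : Finset ℕ) (κ : ℕ → ℕ) (k₀ : ℕ), Q ⊆ E →
  (∀ x ∈ E, x ∉ Q → par x < x ∧ par x ∈ E) → Col par E Q κ → (∀ x ∈ E, κ x < k₀) →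
  (∀ q ∈ Q, q ∈ pc par E Q q) ∧
  (∀ q ∈ Q, ∀ x ∈ pc par E Q q, x ≠ q → x ∉ Q ∧ par x ∈ pc par E Q q) ∧
  (∀ q ∈ Q, ∀ x ∈ E, x ∉ Q → par x ∈ pc par E Q q → x ∈ pc par E Q q) ∧
  (∀ q ∈ Q, ∀ q' ∈ Q, q ≠ q' → Disjoint (pc par E Q q) (pc par E Q q')) ∧
  E = Q.biUnion (pc par E Q) ∧
  (∀ q ∈ Q, Set.InjOn κ (pc par E Q q : Finset ℕ)) ∧
  (∀ q ∈ Q, (pc par E Q q).card ≤ k₀) ∧
  (∀ q ∈ Q, ∀ q' ∈ Q, κ q = κ q' → (pc par E Q q).image κ = (pc par E Q q').image κ) ∧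
  (∀ q ∈ Q, ∀ x ∈ pc par E Q q,
    (E.filter (fun y => κ y = κ x)).card = (Q.filter (fun q' => κ q' = κ q)).card)

/-- DISS: removal of some pieces -/
def T_DISS : Prop := ∀ (n : ℕ) (par : ℕ → ℕ) (E₀ Q₀ Bad E Q : Finset ℕ) (κ : ℕ → ℕ) (k₀ : ℕ),
  Dcp 2 par (range n) E₀ Q₀ → Col par E₀ Q₀ κ → (∀ x ∈ E₀, κ x < k₀) → Bad ⊆ Q₀ →
  Q = Q₀ \ Bad → E = Q.biUnion (pc par E₀ Q₀) →
  Dcp 2 par (range n) E Q ∧ Col par E Q κ ∧ E ⊆ E₀ ∧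
  (∀ q ∈ Q, pc par E Q q = pc par E₀ Q₀ q) ∧ (E₀ \ E).card ≤ k₀ * Bad.card ∧
  ∀ x ∈ E, (E₀.filter (fun y => κ y = κ x)).card ≤ (E.filter (fun y => κ y = κ x)).card + Bad.card

/-- ACT: the optional leaves of the exact pieces -/
def T_ACT : Prop := ∀ (n Δ : ℕ) (par : ℕ → ℕ) (E Q : Finset ℕ) (κ : ℕ → ℕ), BD n par Δ →
  E ⊆ range n → (∀ x ∈ E, x ∉ Q → par x < x ∧ par x ∈ E) → Col par E Q κ →
  (∀ x ∈ E, ∀ y ∈ E, κ x = κ y → (chd n par x = ∅ ↔ chd n par y = ∅)) →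
  ∃ M : Finset ℕ, (∀ x ∈ M, x ∈ E ∧ x ∉ Q) ∧ (∀ x ∈ M, chd n par x = ∅) ∧
    (∀ x ∈ M, ∀ y ∈ E, κ y = κ x → y ∈ M) ∧ Set.InjOn par (M : Set ℕ) ∧
    (∀ x ∈ M, ∀ y ∈ E, κ y = κ (par x) → ∃ x' ∈ M, par x' = y) ∧
    ((E \ Q).filter (fun x => chd n par x = ∅)).card ≤ Δ * M.card

/-- MATL: the matchings between the classes -/
def T_MATL : Prop := ∀ (V : Type) [Fintype V] [DecidableEq V] (H : SimpleGraph V) (g η p Ku : ℝ)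
  (par : ℕ → ℕ) (E Q : Finset ℕ) (κ : ℕ → ℕ) (Vc : ℕ → Finset V),
  0 < p → 0 < g → 0 ≤ η → η ≤ g / 2 → 0 ≤ Ku → UU H η p Ku →
  (∀ x ∈ E, x ∉ Q → par x < x ∧ par x ∈ E) → Col par E Q κ →
  (∀ x ∈ E, (Vc (κ x)).card = (E.filter (fun y => κ y = κ x)).card ∧ DG H g p (Vc (κ x)) ∧
    8 * Ku ≤ g * p * (Vc (κ x)).card) →
  ∃ Mt : ℕ → V → V, ∀ x ∈ E, x ∉ Q → Set.BijOn (Mt (κ x)) (Vc (κ (par x))) (Vc (κ x)) ∧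
    ∀ v ∈ Vc (κ (par x)), H.Adj v (Mt (κ x) v)

/-- SLOT: the slots -/
def T_SLOT : Prop := ∀ (V : Type) [DecidableEq V] (H : SimpleGraph V) (par : ℕ → ℕ)
  (E Q M : Finset ℕ) (κ : ℕ → ℕ) (k₀ : ℕ) (Vc : ℕ → Finset V) (Mt : ℕ → V → V), Q ⊆ E →
  (∀ x ∈ E, x ∉ Q → par x < x ∧ par x ∈ E) → Col par E Q κ → (∀ x ∈ E, κ x < k₀) →
  (∀ x ∈ M, x ∈ E ∧ x ∉ Q) → (∀ x ∈ M, ∀ y ∈ E, κ y = κ x → y ∈ M) →
  (∀ x ∈ E, x ∉ Q → par x ∉ M) → (∀ k k', k ≠ k' → Disjoint (Vc k) (Vc k')) →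
  (∀ x ∈ E \ M, (Vc (κ x)).card = ((E \ M).filter (fun y => κ y = κ x)).card) →
  (∀ x ∈ E \ M, x ∉ Q → Set.BijOn (Mt (κ x)) (Vc (κ (par x))) (Vc (κ x)) ∧
    ∀ v ∈ Vc (κ (par x)), H.Adj v (Mt (κ x) v)) →
  ∃ (Sl : ℕ → V → Finset V) (φ : ℕ → V → ℕ → V), GS H par E Q M κ Vc Sl φ

/-! ## The tree -/

/-- the descendants of `v` -/
def ds (n : ℕ) (par : ℕ → ℕ) (v : ℕ) : Set ℕ :=
  {x | x < n ∧ ∃ j, par^[j] x = v ∧ ∀ j' < j, v < par^[j'] x}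

open Classical in
/-- WALK: going down to the heaviest child, with respect to the number of leaf parents -/
def T_WALK : Prop := ∀ (Δ : ℕ) (θ : ℝ) (n I : ℕ) (par : ℕ → ℕ), 1 ≤ Δ → 0 < θ → θ ≤ 1 / 2 →
  VT n par → BD n par Δ → 8 * (Δ : ℝ) * (4 * (Δ : ℝ)) ^ I ≤ θ * (lp n par).card →
  ∃ v : ℕ → ℕ, (∀ i, 1 ≤ i → i ≤ I + 1 → 0 < v i ∧ v i < n) ∧
    (∀ i, 1 ≤ i → i ≤ I → v (i + 1) ∈ ds n par (v i) ∧ v i < v (i + 1)) ∧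
    (((lp n par).filter (fun y => y ∈ ds n par (v 1))).card : ℝ) ≤ θ * (lp n par).card ∧
    ∀ i, 1 ≤ i → i ≤ I → θ * (lp n par).card ≤ (4 * (Δ : ℝ)) ^ i *
      ((lp n par).filter (fun y => y ∈ ds n par (v i) ∧ y ∉ ds n par (v (i + 1)))).card

open Classical in
/-- ORDR: relabelling such that nested subtrees become final segments -/
def T_ORDR : Prop := ∀ (Δ n I : ℕ) (par v : ℕ → ℕ), VT n par → BD n par Δ →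
  (∀ i, 1 ≤ i → i ≤ I + 1 → 0 < v i ∧ v i < n) →
  (∀ i, 1 ≤ i → i ≤ I → v (i + 1) ∈ ds n par (v i) ∧ v i < v (i + 1)) →
  ∃ par' t : ℕ → ℕ, VT n par' ∧ BD n par' Δ ∧ (lv n par').card = (lv n par).card ∧
    (∀ (V : Type) (H : SimpleGraph V) (f' : ℕ → V), Emb H n par' f' →
      ∃ f : ℕ → V, Emb H n par f) ∧
    0 < t 1 ∧ (∀ i, 1 ≤ i → i ≤ I → t i ≤ t (i + 1) ∧ t (i + 1) ≤ n) ∧
    (∀ i, 1 ≤ i → i ≤ I → ∀ x, t i ≤ x → x < n →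
      ∃ j, par'^[j] x = t i ∧ ∀ j' < j, t i < par'^[j'] x) ∧
    ((lp n par').filter (fun y => t 1 ≤ y)).card =
      ((lp n par).filter (fun y => y ∈ ds n par (v 1))).card ∧
    ∀ i, 1 ≤ i → i ≤ I → ((lp n par').filter (fun y => t i ≤ y ∧ y < t (i + 1))).card =
      ((lp n par).filter (fun y => y ∈ ds n par (v i) ∧ y ∉ ds n par (v (i + 1)))).card

/-- GRDL: many leaf parents with disjoint chains -/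
def T_GRDL : Prop := ∀ (Δ n D t₁ t₂ : ℕ) (par : ℕ → ℕ), 1 ≤ Δ → 1 ≤ D → VT n par → BD n par Δ →
  0 < t₁ → t₁ ≤ t₂ → t₂ ≤ n →
  (∀ x, t₁ ≤ x → x < n → ∃ j, par^[j] x = t₁ ∧ ∀ j' < j, t₁ < par^[j'] x) →
  ∃ S : Finset ℕ, S ⊆ lp n par ∧ (∀ a ∈ S, a < t₂ ∧ ∀ j ≤ D, t₁ ≤ par^[j] a) ∧
    (∀ a ∈ S, ∀ a' ∈ S, a ≠ a' → ∀ j ≤ D, ∀ j' ≤ D, par^[j] a ≠ par^[j'] a') ∧
    ((lp n par).filter (fun y => t₁ ≤ y ∧ y < t₂)).card ≤ (Δ + 1) ^ (2 * D + 2) * (S.card + 1)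

/-- LEV: the special leaf parents -/
def T_LEV : Prop := ∀ (Δ k₀ : ℕ) (α θ ε₁ : ℝ), 1 ≤ Δ → 1 ≤ k₀ → 0 < α → 0 < θ → θ ≤ 1 / 2 →
  0 < ε₁ → ∃ (b : ℕ) (εm : ℝ) (n₀ : ℕ), 2 ≤ b ∧ 0 < εm ∧ ∀ n ≥ n₀, ∀ m : ℕ, 1 ≤ m →
  (m : ℝ) ≤ εm * n → ∀ par : ℕ → ℕ, VT n par → BD n par Δ → α * n ≤ (lv n par).card →
  ∃ (par' : ℕ → ℕ) (I : ℕ) (S : ℕ → Finset ℕ) (lf t : ℕ → ℕ), VT n par' ∧ BD n par' Δ ∧
    (lv n par').card = (lv n par).card ∧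
    (∀ (V : Type) (H : SimpleGraph V) (f' : ℕ → V), Emb H n par' f' →
      ∃ f : ℕ → V, Emb H n par f) ∧
    (1 ≤ I ∧ m ≤ b ^ I ∧ b ^ I ≤ b * m) ∧ 0 < t 1 ∧
    (∀ i, 1 ≤ i → i ≤ I → t i ≤ t (i + 1) ∧ t (i + 1) ≤ n) ∧
    (((lp n par').filter (fun y => t 1 ≤ y)).card : ℝ) ≤ θ * n ∧
    (∀ i, 1 ≤ i → i ≤ I → (∀ a ∈ S i, a < t (i + 1) ∧ ∀ j ≤ 2 * i + 2, t i ≤ par'^[j] a) ∧
      (∀ a ∈ S i, ∀ a' ∈ S i, a ≠ a' → ∀ j ≤ 2 * i + 2, ∀ j' ≤ 2 * i + 2,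
        par'^[j] a ≠ par'^[j'] a') ∧
      (∀ a ∈ S i, lf a ∈ chd n par' a ∧ chd n par' (lf a) = ∅) ∧
      (k₀ + 1) * b * m ≤ b ^ i * (S i).card) ∧
    ((∑ i ∈ Icc 1 I, (2 * i + 4) * (S i).card : ℕ) : ℝ) ≤ ε₁ * n

/-- TREEL: the structure of a tree with linearly many leaves -/
def T_TREEL : Prop := ∀ (Δ : ℕ) (α ε : ℝ), 1 ≤ Δ → 0 < α → 0 < ε →
  ∃ (k₀ b : ℕ) (ξ εm : ℝ) (n₀ : ℕ), 1 ≤ k₀ ∧ 2 ≤ b ∧ 0 < ξ ∧ 0 < εm ∧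
  ∀ n ≥ n₀, ∀ m : ℕ, 1 ≤ m → (m : ℝ) ≤ εm * n →
  ∀ par : ℕ → ℕ, VT n par → BD n par Δ → α * n ≤ (lv n par).card →
  ∃ (par' : ℕ → ℕ) (I : ℕ) (E Q M : Finset ℕ) (κ : ℕ → ℕ) (S : ℕ → Finset ℕ) (lf t : ℕ → ℕ),
    VT n par' ∧ BD n par' Δ ∧
    (∀ (V : Type) (H : SimpleGraph V) (f' : ℕ → V), Emb H n par' f' →
      ∃ f : ℕ → V, Emb H n par f) ∧
    TS n par' k₀ m b I E Q M κ S lf t ∧
    ((range n \ E).card : ℝ) ≤ ε * n ∧ ((∑ i ∈ Icc 1 I, (S i).card : ℕ) : ℝ) ≤ ε * n ∧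
    (∀ x ∈ E, ξ * n ≤ ((E.filter (fun y => κ y = κ x)).card : ℝ)) ∧
    α * n ≤ 4 * (Δ : ℝ) * M.card

/-! ## Putting everything together -/

/-- BUDL: the budget -/
def T_BUDL : Prop := ∀ (V : Type) [DecidableEq V] (H : SimpleGraph V) (W : Finset V) (g : ℝ)
  (d m b n : ℕ) (par : ℕ → ℕ) (Δ : ℕ) (v₀ : V) (k₀ I : ℕ) (E Q M : Finset ℕ) (κ : ℕ → ℕ)
  (S : ℕ → Finset ℕ) (lf t : ℕ → ℕ) (Vc : ℕ → Finset V) (Sl : ℕ → V → Finset V)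
  (φ : ℕ → V → ℕ → V) (B : ℕ), VT n par → TS n par k₀ m b I E Q M κ S lf t →
  GS H par E Q M κ Vc Sl φ → 1 ≤ m → k₀ * k₀ * m + 2 * ∑ i ∈ Icc 1 I, (S i).card ≤ B →
  ∀ c : Cx V, c = mk H W g d m b n par Δ v₀ k₀ I E Q M κ S lf Vc Sl φ B →
  ∀ K ≤ n, ∀ (Su : Finset ℕ) (ρ : ℕ → V), (∀ a ∈ Su, a ∈ c.A ∧ c.fs a < K) →
    (∀ a ∈ Su, ρ a ∈ c.R (c.gr a)) →
    (∀ a ∈ Su, ∀ a' ∈ Su, a ≠ a' → Disjoint (c.Sl (c.gr a) (ρ a)) (c.Sl (c.gr a') (ρ a'))) →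
    c.DJ Su ρ K → ∑ a ∈ c.A.filter (fun a => c.fs a < K ∧ a ∉ Su), (c.P a).card ≤ B

/-- COVL: the active classes are covered completely -/
def T_COVL : Prop := ∀ (V : Type) [DecidableEq V] (H : SimpleGraph V) (W : Finset V) (g : ℝ)
  (d m b n : ℕ) (par : ℕ → ℕ) (Δ : ℕ) (v₀ : V) (k₀ I : ℕ) (E Q M : Finset ℕ) (κ : ℕ → ℕ)
  (S : ℕ → Finset ℕ) (lf t : ℕ → ℕ) (Vc : ℕ → Finset V) (Sl : ℕ → V → Finset V)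
  (φ : ℕ → V → ℕ → V) (B : ℕ), VT n par → TS n par k₀ m b I E Q M κ S lf t →
  GS H par E Q M κ Vc Sl φ → 1 ≤ m →
  ∀ c : Cx V, c = mk H W g d m b n par Δ v₀ k₀ I E Q M κ S lf Vc Sl φ B →
  ∀ (Su : Finset ℕ) (ρ : ℕ → V), (∀ a ∈ Su, a ∈ c.A ∧ c.fs a < n) →
    (∀ a ∈ Su, ρ a ∈ c.R (c.gr a)) →
    (∀ a ∈ Su, ∀ a' ∈ Su, a ≠ a' → Disjoint (c.Sl (c.gr a) (ρ a)) (c.Sl (c.gr a') (ρ a'))) →
    c.DJ Su ρ n → ZZ par M κ Vc ⊆ c.Oc Su ρ n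

/-- CTX: the data are valid -/
def T_CTX : Prop := ∀ (V : Type) [DecidableEq V] (H : SimpleGraph V) (W : Finset V) (g : ℝ)
  (d m b n : ℕ) (par : ℕ → ℕ) (Δ : ℕ) (v₀ : V) (k₀ I : ℕ) (E Q M : Finset ℕ) (κ : ℕ → ℕ)
  (S : ℕ → Finset ℕ) (lf t : ℕ → ℕ) (Vc : ℕ → Finset V) (Sl : ℕ → V → Finset V)
  (φ : ℕ → V → ℕ → V) (B : ℕ), WS H W g d m b → OK H W d m ∅ ∅ → b + Δ + 2 ≤ d →
  VT n par → BD n par Δ → 1 ≤ n → TS n par k₀ m b I E Q M κ S lf t →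
  GS H par E Q M κ Vc Sl φ → (∀ k, Disjoint (Vc k) W ∧ v₀ ∉ Vc k) → v₀ ∉ W →
  k₀ * k₀ * m + 2 * ∑ i ∈ Icc 1 I, (S i).card ≤ B →
  4 * (((range n \ E).card : ℝ) + B) ≤ g * (W.card : ℝ) →
  Vd (mk H W g d m b n par Δ v₀ k₀ I E Q M κ S lf Vc Sl φ B)

/-- FINL: the optional leaves -/
def T_FINL : Prop := ∀ (V : Type) [Fintype V] [DecidableEq V] (H : SimpleGraph V) (W : Finset V)
  (g : ℝ) (d m b n : ℕ) (par : ℕ → ℕ) (Δ : ℕ) (v₀ : V) (k₀ I : ℕ) (E Q M : Finset ℕ)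
  (κ : ℕ → ℕ) (S : ℕ → Finset ℕ) (lf t : ℕ → ℕ) (Vc : ℕ → Finset V) (Sl : ℕ → V → Finset V)
  (φ : ℕ → V → ℕ → V) (B : ℕ), VT n par → TS n par k₀ m b I E Q M κ S lf t →
  GS H par E Q M κ Vc Sl φ → Fintype.card V = n → 1 ≤ n →
  ∀ c : Cx V, c = mk H W g d m b n par Δ v₀ k₀ I E Q M κ S lf Vc Sl φ B → Vd c →
  ∀ (f : ℕ → V) (Su : Finset ℕ) (ρ : ℕ → V) (J : Finset (V × V)) (F : Finset V),
  PSt c n f Su ρ J F → ZZ par M κ Vc ⊆ c.Oc Su ρ n →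
  ∀ (L₀ : Finset V) (η p Ku g₂ : ℝ), 0 < p → 0 < g₂ → 0 ≤ η → η ≤ g₂ / 2 → 0 ≤ Ku →
  UU H η p Ku → Disjoint L₀ W → (∀ k, Disjoint L₀ (Vc k)) → v₀ ∉ L₀ →
  8 * Ku ≤ g₂ * p * (ZZ par M κ Vc).card →
  (∀ v, (1 / 2 + g₂) * p * (ZZ par M κ Vc).card ≤ dg H v (ZZ par M κ Vc)) →
  (∀ v, (1 / 2 + g₂) * p * (ZZ par M κ Vc).card ≤ dg H v L₀) →
  ∃ f' : ℕ → V, Emb H n par f'

/-- NUML: the numerical conditions -/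
def T_NUML : Prop := ∀ (g C₁ εm s₁ η : ℝ) (k d : ℕ), 0 < g → 0 ≤ C₁ → 0 < εm → 0 < s₁ → 0 < η →
  ∃ C : ℝ, 0 < C ∧ ∃ n₀ : ℕ, ∀ n ≥ n₀, ∀ p : ℝ, C * Real.log n / n ≤ p → p ≤ 1 →
  1 ≤ n ∧ 0 < p ∧ ((⌈8 * (C₁ * Real.log n) / (g * p)⌉₊ + 1 : ℕ) : ℝ) ≤ εm * n ∧
  8 * (C₁ * Real.log n) ≤ g * p * (⌈8 * (C₁ * Real.log n) / (g * p)⌉₊ + 1 : ℕ) ∧
  4 * (C₁ * Real.log n) * (1 + d) < p * (s₁ * n) ∧
  16 * (C₁ * Real.log n) ≤ g * p * (s₁ * n) ∧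
  (n : ℝ) * k * ((n : ℝ) + 1) ^ k * Real.exp (-(η ^ 2 * (s₁ * n) * (1 / 2 * p * n) / (2 * n))) < 1

/-- CASEL: trees with linearly many leaves -/
def T_CASEL : Prop := ∀ (Δ : ℕ) (γ α C₁ : ℝ), 1 ≤ Δ → 0 < γ → γ ≤ 1 / 2 → 0 < α → 0 ≤ C₁ →
  ∃ C : ℝ, 0 < C ∧ ∃ n₀ : ℕ, ∀ n ≥ n₀, ∀ p : ℝ, C * Real.log n / n ≤ p → p ≤ 1 →
  ∀ H : SimpleGraph (Fin n), UU H (γ / 100) p (C₁ * Real.log n) →
  (∀ v, (1 / 2 + γ) * p * n ≤ dg H v univ) →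
  ∀ par : ℕ → ℕ, VT n par → BD n par Δ → α * n ≤ (lv n par).card →
  ∃ f : ℕ → Fin n, Emb H n par f

/-! ## Random graphs -/

open Classical in
/-- GNPL: `G(n,p)` is good with high probability for `p ≥ C log n / n` -/
def T_GNPL : Prop := ∀ η : ℝ, 0 < η → η ≤ 1 → ∃ C : ℝ, 0 < C ∧ ∀ p : ℕ → ℝ,
  (∀ n : ℕ, 0 ≤ p n ∧ p n ≤ 1) → (∀ᶠ n : ℕ in atTop, C * Real.log n / n ≤ p n) →
  Tendsto (fun n : ℕ => ∑ᶠ G : SimpleGraph (Fin n), if Good G η (p n) then wG (p n) G else 0)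
    atTop (𝓝 1)

/-- RELL: a tree as a parent function -/
def T_RELL : Prop := ∀ (n : ℕ) (T : SimpleGraph (Fin n)), T.IsTree →
  ∃ (par : ℕ → ℕ) (σ : ℕ → Fin n), VT n par ∧ Set.BijOn σ (range n : Set ℕ) Set.univ ∧
    (∀ u v, T.Adj u v → ∃ i, 0 < i ∧ i < n ∧
      ((σ i = u ∧ σ (par i) = v) ∨ (σ i = v ∧ σ (par i) = u))) ∧
    (∀ i < n, (chd n par i).card ≤ (T.neighborSet (σ i)).ncard) ∧
    {v : Fin n | (T.neighborSet v).ncard = 1}.ncard ≤ (lv n par).card + 1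

open Classical in
/-- MAINL: the main theorem -/
def T_MAINL : Prop := ∀ Δ : ℕ, 2 ≤ Δ → ∀ γ : ℝ, 0 < γ → ∀ α : ℝ, 0 < α → ∃ C : ℝ, 0 < C ∧
  ∀ p : ℕ → ℝ, (∀ n : ℕ, 0 ≤ p n ∧ p n ≤ 1) →
  (∀ᶠ n : ℕ in atTop, C * Real.log ((n : ℕ) : ℝ) / ((n : ℕ) : ℝ) ≤ p n) →
  Tendsto (fun n : ℕ =>
    ∑ᶠ G : SimpleGraph (Fin n),
      (if (∀ H : SimpleGraph (Fin n), H ≤ G →
            (∀ v : Fin n, (1 / 2 + γ) * (((G.neighborSet v).ncard : ℕ) : ℝ)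
                ≤ (((H.neighborSet v).ncard : ℕ) : ℝ)) →
            ∀ T : SimpleGraph (Fin n), T.IsTree →
              (∀ v : Fin n, (T.neighborSet v).ncard ≤ Δ) →
              α * n ≤ (({v : Fin n | (T.neighborSet v).ncard = 1}.ncard : ℕ) : ℝ) →
              ∃ f : Fin n → Fin n, Function.Injective f ∧
                ∀ u v : Fin n, T.Adj u v → H.Adj (f u) (f v))
       then (p n) ^ (G.edgeSet.ncard) *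
              (1 - p n) ^ (n.choose 2 - G.edgeSet.ncard)
       else (0 : ℝ)))
    atTop (𝓝 (1 : ℝ))

end Pool.Agent.RSL
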